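import Pool.Agent.Lib.H53L.A1D

set_option autoImplicit false

/-!
CHUNK A101 (M), H53L.  The Hilbert function of `I + (g)` without a regularity hypothesis.  Model: `ehc_hf_sup`, H53V/EHC.lean.
-/

open MvPolynomial

namespace Pool.Agent.H53L

open Pool.Agent.H89T Pool.Agent.H67T Pool.Agent.H53U Pool.Agent.H53V Pool.Agent.H44K

variable {K : Type*} [Field K] {N k : ℕ}

/-- PROOF.  As `ehc_hf_sup` (H53V/EHC).  `g = 0`: `I ⊔ span {0} = I`.  `g ≠ 0`: `ehc_P_sup`, `Submodule.finrank_sup_add_finrank_inf_eq` for `P I (e + A) (i + m)` and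
`g V (A, m)` (of dimension `dim V (A, m)`), and `g P I A m ≤ P I (e + A) (i + m) ⊓ g V (A, m)` (only this inclusion), of dimension `dim P I A m`;
`ehc_hf` three times, `omega`. -/
theorem hf_sup_ge {I : Ideal (MvPolynomial (HV N k) K)} (hI : HomI I)
    {g : MvPolynomial (HV N k) K} {e i : ℕ} (hg : BiH e i g) (A m : ℕ) :
    hf I (e + A) (i + m) ≤ hf (I ⊔ Ideal.span {g}) (e + A) (i + m) + hf I A m := by
  have hVf := ehc_V_finite (K := K) (N := N) (k := k) A m
  have hVf' := ehc_V_finite (K := K) (N := N) (k := k) (e + A) (i + m)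
  have hPf := ehc_P_finite I A m
  have hPf' := ehc_P_finite I (e + A) (i + m)
  by_cases hg0 : g = 0
  · subst hg0
    rw [Ideal.span_singleton_eq_bot.mpr rfl, sup_bot_eq]
    exact Nat.le_add_right _ _
  · have hinj : Function.Injective (LinearMap.mulLeft K g) := fun a b hab =>
      mul_left_cancel₀ hg0 hab
    have hmapf : Module.Finite K ((ehc_V K N k A m).map (LinearMap.mulLeft K g)) :=
      Module.Finite.map _ _
    have hinff : Module.Finite K
        ↥(ehc_P I (e + A) (i + m) ⊓ (ehc_V K N k A m).map (LinearMap.mulLeft K g)) :=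
      Submodule.finiteDimensional_inf_right _ _
    have h1 := ehc_hf (I ⊔ Ideal.span {g}) (e + A) (i + m)
    have h2 := ehc_hf I A m
    have h3 := ehc_hf I (e + A) (i + m)
    have h5 := Submodule.finrank_sup_add_finrank_inf_eq (ehc_P I (e + A) (i + m))
      ((ehc_V K N k A m).map (LinearMap.mulLeft K g))
    have h6 : (ehc_P I A m).map (LinearMap.mulLeft K g) ≤
        ehc_P I (e + A) (i + m) ⊓ (ehc_V K N k A m).map (LinearMap.mulLeft K g) := by
      rintro _ ⟨c, hc, rfl⟩
      refine ⟨⟨Ideal.mul_mem_left _ _ hc.1, ?_⟩, c, hc.2, rfl⟩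
      exact IsWeightedHomogeneous.mul hg hc.2
    have h7 : Module.finrank K ((ehc_V K N k A m).map (LinearMap.mulLeft K g)) =
        Module.finrank K (ehc_V K N k A m) :=
      (LinearEquiv.finrank_eq (Submodule.equivMapOfInjective _ hinj _)).symm
    have h8 : Module.finrank K ((ehc_P I A m).map (LinearMap.mulLeft K g)) =
        Module.finrank K (ehc_P I A m) :=
      (LinearEquiv.finrank_eq (Submodule.equivMapOfInjective _ hinj _)).symm
    have h9 := Submodule.finrank_mono h6
    rw [h7, ← ehc_P_sup hI hg] at h5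
    rw [h8] at h9
    omega

/-- If equality holds, `g` is a non-zero-divisor in this bidegree.
PROOF.  The same computation: for `g ≠ 0` the hypothesis gives `dim (P I (e + A) (i + m) ⊓ g V (A, m)) ≤ dim (g P I A m)`, so the two spaces are equal
(`Submodule.eq_of_le_of_finrank_le`); if `g * f ∈ I`, `f ∈ V (A, m)`, then `g * f = g * f'` with `f' ∈ I`, so `f = f'`.  For `g = 0` the hypothesis gives
`hf I A m = 0`, so `P I A m = V (A, m)` (`ehc_hf`, `Submodule.eq_of_le_of_finrank_le`). -/
theorem reg_of_hf {I : Ideal (MvPolynomial (HV N k) K)} (hI : HomI I)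
    {g : MvPolynomial (HV N k) K} {e i : ℕ} (hg : BiH e i g) {A m : ℕ}
    (h : hf (I ⊔ Ideal.span {g}) (e + A) (i + m) + hf I A m ≤ hf I (e + A) (i + m)) :
    ∀ f, BiH A m f → g * f ∈ I → f ∈ I := by
  have hVf := ehc_V_finite (K := K) (N := N) (k := k) A m
  have hVf' := ehc_V_finite (K := K) (N := N) (k := k) (e + A) (i + m)
  have hPf := ehc_P_finite I A m
  have hPf' := ehc_P_finite I (e + A) (i + m)
  intro f hf hgf
  have h2 := ehc_hf I A m
  by_cases hg0 : g = 0
  · subst hg0
    rw [Ideal.span_singleton_eq_bot.mpr rfl, sup_bot_eq] at h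
    have h6 : ehc_P I A m = ehc_V K N k A m :=
      Submodule.eq_of_le_of_finrank_le inf_le_right (by omega)
    have h7 : f ∈ ehc_P I A m := by
      rw [h6]
      exact hf
    exact h7.1
  · have hinj : Function.Injective (LinearMap.mulLeft K g) := fun a b hab =>
      mul_left_cancel₀ hg0 hab
    have hmapf : Module.Finite K ((ehc_V K N k A m).map (LinearMap.mulLeft K g)) :=
      Module.Finite.map _ _
    have hinff : Module.Finite K
        ↥(ehc_P I (e + A) (i + m) ⊓ (ehc_V K N k A m).map (LinearMap.mulLeft K g)) :=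
      Submodule.finiteDimensional_inf_right _ _
    have h1 := ehc_hf (I ⊔ Ideal.span {g}) (e + A) (i + m)
    have h3 := ehc_hf I (e + A) (i + m)
    have h5 := Submodule.finrank_sup_add_finrank_inf_eq (ehc_P I (e + A) (i + m))
      ((ehc_V K N k A m).map (LinearMap.mulLeft K g))
    have h6 : (ehc_P I A m).map (LinearMap.mulLeft K g) ≤
        ehc_P I (e + A) (i + m) ⊓ (ehc_V K N k A m).map (LinearMap.mulLeft K g) := by
      rintro _ ⟨c, hc, rfl⟩
      refine ⟨⟨Ideal.mul_mem_left _ _ hc.1, ?_⟩, c, hc.2, rfl⟩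
      exact IsWeightedHomogeneous.mul hg hc.2
    have h7 : Module.finrank K ((ehc_V K N k A m).map (LinearMap.mulLeft K g)) =
        Module.finrank K (ehc_V K N k A m) :=
      (LinearEquiv.finrank_eq (Submodule.equivMapOfInjective _ hinj _)).symm
    have h8 : Module.finrank K ((ehc_P I A m).map (LinearMap.mulLeft K g)) =
        Module.finrank K (ehc_P I A m) :=
      (LinearEquiv.finrank_eq (Submodule.equivMapOfInjective _ hinj _)).symm
    rw [h7, ← ehc_P_sup hI hg] at h5
    have h9 := Submodule.eq_of_le_of_finrank_le h6 (by rw [h8]; omega)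
    have h10 : g * f ∈ (ehc_P I A m).map (LinearMap.mulLeft K g) := by
      rw [h9]
      exact ⟨⟨hgf, IsWeightedHomogeneous.mul hg hf⟩, f, hf, rfl⟩
    obtain ⟨c, hc, hcf⟩ := h10
    have h11 : c = f := hinj hcf
    rw [← h11]
    exact hc.1

end Pool.Agent.H53L
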