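import Pool.Agent.Lib.H53L.A1D

set_option autoImplicit false

/-!
CHUNK A102 (M), H53L.  Semicontinuity of the Hilbert function.
-/

open MvPolynomial

namespace Pool.Agent.H53L

open Pool.Agent.H89T Pool.Agent.H67T Pool.Agent.H53U Pool.Agent.H53V Pool.Agent.H44K

variable {N k : ℕ}

/-- The part of the multiples of the generators. -/
theorem a102_span {K : Type*} [Field K] {T : Type} [Finite T] (g : T → MvPolynomial (HV N k) K)
    (dg : T → ℕ × ℕ) (hg : ∀ t, BiH (dg t).1 (dg t).2 (g t)) (A m : ℕ) :
    Module.finrank K (Submodule.span K (Set.range (fam (P := Empty) (Q := Unit)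
      (fun _ p => p.elim) g dg 0 A m))) =
      Module.finrank K (ehc_P (Ideal.span (Set.range g)) A m) := by
  have h1 := span_fam (K := K) (P := Empty) (Q := Unit) (fun _ p => p.elim) g dg hg 0 A m
  have h2 : (VP K N k Empty A m).map (Dm (K := K) (N := N) (k := k) (P := Empty) (Q := Unit)
      (fun _ p => p.elim)) = ⊥ := by
    rw [eq_bot_iff]
    rintro _ ⟨u, _, rfl⟩
    have h3 : u = 0 := Subsingleton.elim _ _
    rw [h3, map_zero]
    exact Submodule.zero_mem _
  rw [h1, h2, bot_sup_eq, add_zero, finrank_IP, Fintype.card_unit, one_mul]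
  rfl

/-- PROOF.  As `semi` (H44K/S5), but only the rank of the family of the multiples of the generators: `finrank_fam` (H44K/S5) with `P = Empty`, `Q = Unit`,
`c = fun _ p => p.elim` (`Empty.elim p`), `s = 0` (`hc` is vacuous), and `span_fam` (H44K/S4) for the two ideals: `VP` for `P = Empty` is mapped to `⊥` by `Dm c` (all
functions on `Empty` are equal), so `finrank (IP I' Unit (A + 0) m) ≤ finrank (IP I Unit (A + 0) m)`; `finrank_IP` (H44K/S3, `Fintype.card Unit = 1`), `ehc_hf` and
`ehc_V_finrank` (H53V/EHC; the dimension of `V` does not depend on the field). -/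
theorem semi_hf {R K F : Type*} [CommRing R] [IsDomain R] [Field K] [Algebra R K]
    [IsFractionRing R K] [Field F] (φ : R →+* F) {T : Type} [Finite T]
    (g : T → MvPolynomial (HV N k) R) (g' : T → MvPolynomial (HV N k) F) (dg : T → ℕ × ℕ) (κ : T → ℕ)
    (hdg : ∀ t, BiH (dg t).1 (dg t).2 (g t))
    (hlow : ∀ t μ, vd μ < κ t → φ (coeff μ (g t)) = 0)
    (hg' : ∀ t μ, coeff μ (g' t) = if vd μ = κ t then φ (coeff μ (g t)) else 0) (A m : ℕ) :
    hf (Ideal.span (Set.range fun t => map (algebraMap R K) (g t))) A m ≤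
      hf (Ideal.span (Set.range g')) A m := by
  have hdegK : ∀ t, BiH (dg t).1 (dg t).2 (map (algebraMap R K) (g t)) := by
    intro t μ hμ
    refine hdg t ?_
    intro h0
    apply hμ
    rw [coeff_map, h0, map_zero]
  have hdegF : ∀ t, BiH (dg t).1 (dg t).2 (g' t) := by
    intro t μ hμ
    refine hdg t ?_
    intro h0
    apply hμ
    rw [hg' t μ, h0, map_zero, ite_self]
  have h1 := finrank_fam (K := K) (P := Empty) (Q := Unit) φ g g' dg κ hlow hg'
    (fun _ p => p.elim) (s := 0) (fun _ p => p.elim) A m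
  rw [a102_span (K := F) g' dg hdegF A m,
    a102_span (K := K) (fun t => map (algebraMap R K) (g t)) dg hdegK A m] at h1
  have h2 := ehc_hf (K := K) (Ideal.span (Set.range fun t => map (algebraMap R K) (g t))) A m
  have h3 := ehc_hf (K := F) (Ideal.span (Set.range g')) A m
  have h4 := ehc_V_finrank (K := K) (N := N) (k := k) A m
  have h5 := ehc_V_finrank (K := F) (N := N) (k := k) A m
  omega

end Pool.Agent.H53L
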