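import Pool.Agent.Lib.H53L.A1D

set_option autoImplicit false

/-!
CHUNK A103 (M), H53L.  The Fermat hypersurface in the cyclic family.
-/

open MvPolynomial

namespace Pool.Agent.H53L

open Pool.Agent.H89T Pool.Agent.H67T Pool.Agent.H53U Pool.Agent.H53V Pool.Agent.H44K

variable {n k d : ℕ}

/-- PROOF.  `cyc (aC n d) p = coeff (expo p.2) (cyP (aC n d))`, `pol (aC n d) = 1 + ∑ b, X b ^ d` (`pol_cofs`, H53U/M1; total degree at most `d`), so
`cyP (aC n d) = X (last) ^ d + 1 + ∑ b, X (b.castSucc) ^ d = 1 + ∑ b : Fin (n + 1), X b ^ d` (`Fin.sum_univ_castSucc`).  Its coefficient at `μ` is `1` if `μ = 0` or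
`μ = single b d`, and `0` otherwise (`coeff_one`, `coeff_X_pow`; the exponents `0`, `single b d` are distinct because `1 ≤ d`: `Finsupp.single_left_injective`), as in
the definition of `aF` (H44K/G0). -/
theorem cyc_aC (hd : 1 ≤ d) (p : CI (n + 1) (fun _ : Fin 1 => d)) : cyc (aC n d) p = aF n d p := by
  classical
  have h0 : (1 + ∑ b : Fin n, X b ^ d : MvPolynomial (Fin n) ℂ).totalDegree ≤ d := by
    refine (totalDegree_add _ _).trans (max_le ?_ ?_)
    · rw [totalDegree_one]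
      exact Nat.zero_le _
    · refine totalDegree_finsetSum_le fun b _ => ?_
      rw [totalDegree_X_pow]
  have h1 : cyP (aC n d) = 1 + ∑ b : Fin (n + 1), X b ^ d := by
    unfold cyP aC
    rw [pol_cofs h0, map_add, map_one, map_sum, Fin.sum_univ_castSucc]
    have h2 : ∀ b : Fin n, (rename Fin.castSucc (X b ^ d) : MvPolynomial (Fin (n + 1)) ℂ) =
        X b.castSucc ^ d := by
      intro b
      rw [map_pow, rename_X]
    rw [Finset.sum_congr rfl fun b _ => h2 b]
    ring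
  have hs0 : ∀ b : Fin (n + 1), Finsupp.single b d ≠ 0 := fun b h => by
    have h1 := Finsupp.single_eq_zero.1 h
    omega
  unfold cyc cofs aF
  rw [h1, coeff_add, coeff_one, coeff_sum]
  have h3 : ∀ b : Fin (n + 1), coeff (expo p.2) (X b ^ d : MvPolynomial (Fin (n + 1)) ℂ) =
      if Finsupp.single b d = expo p.2 then 1 else 0 := fun b => coeff_X_pow _ _ _
  rw [Finset.sum_congr rfl fun b _ => h3 b]
  by_cases hz : expo p.2 = 0
  · rw [if_pos (Or.inl hz), if_pos hz.symm, Finset.sum_eq_zero, add_zero]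
    intro b _
    rw [if_neg]
    rw [hz]
    exact hs0 b
  · rw [if_neg (fun h => hz h.symm), zero_add]
    by_cases hb : ∃ b, expo p.2 = Finsupp.single b d
    · rw [if_pos (Or.inr hb)]
      obtain ⟨b, hb⟩ := hb
      rw [Finset.sum_eq_single b, if_pos hb.symm]
      · intro b' _ hb'
        rw [if_neg]
        rw [hb]
        intro h
        rcases (Finsupp.single_eq_single_iff _ _ _ _).1 h with h2 | h2
        · exact hb' h2.1
        · omega
      · intro h
        exact absurd (Finset.mem_univ _) h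
    · rw [if_neg (not_or.2 ⟨hz, hb⟩), Finset.sum_eq_zero]
      intro b _
      rw [if_neg]
      exact fun h => hb ⟨b, h.symm⟩

theorem a103_ev (hd : 1 ≤ d) : (fun p : CI (n + 1) (fun _ : Fin 1 => d) =>
    eval (aC n d) (cyc (gen n d) p)) = aF n d := by
  funext p
  rw [cyc_map (eval (aC n d)) (gen n d) p, ← cyc_aC hd p]
  congr 1
  funext α
  exact eval_X _

theorem a103_gc : (fun p : CI (n + 1) (fun _ : Fin 1 => d) =>
    eval (aF n d) (gc (n + 1) (fun _ : Fin 1 => d) p)) = aF n d := by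
  funext p
  unfold gc
  rw [eval_X]

/-- PROOF.  `FhK_bi`, `UhK_bi` (H53V), as `g18_bi` (H44K/G18). -/
theorem gcy_bi (t : Fin 1 ⊕ Fin 1 × Fin k) :
    BiH (dge k d t).1 (dge k d t).2 (gcy n k d t) := by
  rcases t with j | q
  · show BiH d 0 (FhK k (cyc (gen n d)) j)
    exact FhK_bi (cyc (gen n d)) j
  · show BiH (d - 1) ((q.2 : ℕ) + 1) (UhK k (cyc (gen n d)) q)
    exact UhK_bi (cyc (gen n d)) q

/-- PROOF.  `eval (aC) (coeff μ (FhK k (cyc gen) j)) = coeff μ (FhK k (cyc aC) j)` (`coeff_map`, `FhK_map`, `cyc_map` of A304 for `eval (aC)`, `eval_X`), `cyc_aC`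
(`funext`), and the same computation for `gc`, see `fermat_F` (H44K/G17) backwards. -/
theorem ev_FhK (hd : 1 ≤ d) (j : Fin 1) (μ : HV (n + 1) k →₀ ℕ) :
    eval (aC n d) (coeff μ (FhK k (cyc (gen n d)) j)) =
      eval (aF n d) (coeff μ (FhK k (gc (n + 1) (fun _ : Fin 1 => d)) j)) := by
  rw [← coeff_map, ← coeff_map, FhK_map, FhK_map, a103_ev hd, a103_gc]

/-- PROOF.  The same with `UhK_map`. -/
theorem ev_UhK (hd : 1 ≤ d) (q : Fin 1 × Fin k) (μ : HV (n + 1) k →₀ ℕ) :
    eval (aC n d) (coeff μ (UhK k (cyc (gen n d)) q)) =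
      eval (aF n d) (coeff μ (UhK k (gc (n + 1) (fun _ : Fin 1 => d)) q)) := by
  rw [← coeff_map, ← coeff_map, UhK_map, UhK_map, a103_ev hd, a103_gc]

/-- PROOF.  `ev_UhK`, `fermat_U` (as `g18_low`, H44K/G18). -/
theorem gcy_low (hd : 1 ≤ d) (t : Fin 1 ⊕ Fin 1 × Fin k) (μ : HV (n + 1) k →₀ ℕ)
    (h : vd μ < kge k t) : eval (aC n d) (coeff μ (gcy n k d t)) = 0 := by
  rcases t with j | q
  · exact absurd h (Nat.not_lt_zero _)
  · show eval (aC n d) (coeff μ (UhK k (cyc (gen n d)) q)) = 0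
    rw [ev_UhK hd]
    exact (fermat_U hd q μ).1 h

/-- PROOF.  `ev_FhK`, `ev_UhK`, `fermat_F`, `fermat_U` (as `g18_eq`, H44K/G18). -/
theorem gcy_eq (hd : 1 ≤ d) (t : Fin 1 ⊕ Fin 1 × Fin k) (μ : HV (n + 1) k →₀ ℕ) :
    coeff μ (gsp n k d t) = if vd μ = kge k t then eval (aC n d) (coeff μ (gcy n k d t)) else 0 := by
  rcases t with j | q
  · show coeff μ (F0s n k d j) = if vd μ = 0 then
      eval (aC n d) (coeff μ (FhK k (cyc (gen n d)) j)) else 0
    rw [ev_FhK hd]
    exact fermat_F hd j μ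
  · show coeff μ (U0s n k d q) = if vd μ = 1 then
      eval (aC n d) (coeff μ (UhK k (cyc (gen n d)) q)) else 0
    rw [ev_UhK hd]
    exact (fermat_U hd q μ).2

/-- PROOF.  `FhK_map`, `UhK_map`, `cyc_map` (`gR n d α = algebraMap (gen n d α)`). -/
theorem gcy_map (t : Fin 1 ⊕ Fin 1 × Fin k) :
    map (algebraMap (RR n d) (KR n d)) (gcy n k d t) = gcyK n k d t := by
  have h1 : (fun p : CI (n + 1) (fun _ : Fin 1 => d) =>
      algebraMap (RR n d) (KR n d) (cyc (gen n d) p)) = cyc (gR n d) := by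
    funext p
    exact cyc_map (algebraMap (RR n d) (KR n d)) (gen n d) p
  rcases t with j | q
  · show map (algebraMap (RR n d) (KR n d)) (FhK k (cyc (gen n d)) j) = FhK k (cyc (gR n d)) j
    rw [FhK_map, h1]
  · show map (algebraMap (RR n d) (KR n d)) (UhK k (cyc (gen n d)) q) = UhK k (cyc (gR n d)) q
    rw [UhK_map, h1]

end Pool.Agent.H53L
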