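import Pool.Agent.Lib.H53L.A103

set_option autoImplicit false

/-!
CHUNK A104 (S/M), H53L.  The ideals of the subfamilies of the generators.
-/

open MvPolynomial

namespace Pool.Agent.H53L

open Pool.Agent.H89T Pool.Agent.H67T Pool.Agent.H53U Pool.Agent.H53V Pool.Agent.H44K

variable {n k d : ℕ}

theorem a104_range {α β M : Type*} (f : α → M) (g : β → M) (Q : Finset β) :
    (Set.range fun t : α ⊕ Q => Sum.elim f g (Sum.map id Subtype.val t)) =
      Set.range f ∪ g '' (Q : Set β) := by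
  ext x
  constructor
  · rintro ⟨t, rfl⟩
    rcases t with a | ⟨b, hb⟩
    · exact Or.inl ⟨a, rfl⟩
    · exact Or.inr ⟨b, hb, rfl⟩
  · rintro (⟨a, rfl⟩ | ⟨b, hb, rfl⟩)
    · exact ⟨Sum.inl a, rfl⟩
    · exact ⟨Sum.inr ⟨b, hb⟩, rfl⟩

theorem a104_univ (k : ℕ) : ((Finset.univ : Finset (Fin 1 × Fin k)) : Set (Fin 1 × Fin k)) =
    {q | q.1 ∈ (Finset.univ : Finset (Fin 1))} := by
  rw [g18_univ, Finset.coe_univ]

theorem a104_one {M : Type*} (f : Fin 1 → M) : Set.range f = {f 0} := by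
  ext x
  constructor
  · rintro ⟨i, rfl⟩
    rw [Subsingleton.elim i 0]
    exact rfl
  · intro h
    exact ⟨0, h.symm⟩

/-- PROOF.  The two sets of generators are equal: `gcy_map` (A103), `Sum.elim`, `Sum.map`, `Set.ext` (`Sum.rec`), `Finset.mem_coe`. -/
theorem span_gcyQ (Q : Finset (Fin 1 × Fin k)) :
    Ideal.span (Set.range fun t : Fin 1 ⊕ Q =>
      map (algebraMap (RR n d) (KR n d)) (gcy n k d (Sum.map id Subtype.val t))) = IgQ n k d Q := by
  have h1 : (fun t : Fin 1 ⊕ Q =>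
      map (algebraMap (RR n d) (KR n d)) (gcy n k d (Sum.map id Subtype.val t))) =
      fun t : Fin 1 ⊕ Q => Sum.elim (FhK k (cyc (gR n d))) (UhK k (cyc (gR n d)))
        (Sum.map id Subtype.val t) := by
    funext t
    exact gcy_map _
  rw [h1, a104_range]
  rfl

theorem span_gspQ (Q : Finset (Fin 1 × Fin k)) :
    Ideal.span (Set.range fun t : Fin 1 ⊕ Q => gsp n k d (Sum.map id Subtype.val t)) =
      IsQ n k d Q := by
  unfold gsp
  rw [a104_range]
  rfl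

theorem IgQ_univ : IgQ n k d Finset.univ = IhC n k d := by
  unfold IgQ IhC
  rw [a104_univ]

theorem IsQ_univ : IsQ n k d Finset.univ = Isp n k d := by
  unfold IsQ Isp
  rw [a104_univ]

theorem IgQ_empty : IgQ n k d ∅ = ⊥ ⊔ Ideal.span {FhK k (cyc (gR n d)) 0} := by
  unfold IgQ
  rw [Finset.coe_empty, Set.image_empty, Set.union_empty, bot_sup_eq, a104_one]

theorem IsQ_empty : IsQ n k d ∅ = ⊥ ⊔ Ideal.span {F0s n k d 0} := by
  unfold IsQ
  rw [Finset.coe_empty, Set.image_empty, Set.union_empty, bot_sup_eq, a104_one]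

theorem IgQ_insert [DecidableEq (Fin 1 × Fin k)] (q : Fin 1 × Fin k) (Q : Finset (Fin 1 × Fin k)) :
    IgQ n k d (insert q Q) = IgQ n k d Q ⊔ Ideal.span {UhK k (cyc (gR n d)) q} := by
  unfold IgQ
  rw [Finset.coe_insert, Set.image_insert_eq, Set.union_insert, Ideal.span_insert, sup_comm]

theorem IsQ_insert [DecidableEq (Fin 1 × Fin k)] (q : Fin 1 × Fin k) (Q : Finset (Fin 1 × Fin k)) :
    IsQ n k d (insert q Q) = IsQ n k d Q ⊔ Ideal.span {U0s n k d q} := by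
  unfold IsQ
  rw [Finset.coe_insert, Set.image_insert_eq, Set.union_insert, Ideal.span_insert, sup_comm]

/-- PROOF.  `eha_homI_span` (H53V/EHA) with `FhK_bi`, `UhK_bi`. -/
theorem IgQ_hom (Q : Finset (Fin 1 × Fin k)) : HomI (IgQ n k d Q) := by
  apply eha_homI_span
  rintro h (⟨j, rfl⟩ | ⟨q, _, rfl⟩)
  · exact ⟨d, 0, FhK_bi (cyc (gR n d)) j⟩
  · exact ⟨d - 1, (q.2 : ℕ) + 1, UhK_bi (cyc (gR n d)) q⟩

/-- PROOF.  `eha_homI_span` with `F0s_bi`, `U0s_bi` (H44K/G4). -/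
theorem IsQ_hom (Q : Finset (Fin 1 × Fin k)) : HomI (IsQ n k d Q) := by
  apply eha_homI_span
  rintro h (⟨j, rfl⟩ | ⟨q, _, rfl⟩)
  · exact ⟨d, 0, F0s_bi j⟩
  · exact ⟨d - 1, (q.2 : ℕ) + 1, U0s_bi q⟩

end Pool.Agent.H53L
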