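import Pool.Agent.Lib.H53L.A102
import Pool.Agent.Lib.H53L.A104

set_option autoImplicit false

/-!
CHUNK A105 (S/M), H53L.  Semicontinuity at the Fermat point.
-/

open MvPolynomial

namespace Pool.Agent.H53L

open Pool.Agent.H89T Pool.Agent.H67T Pool.Agent.H53U Pool.Agent.H53V Pool.Agent.H44K

variable {n k d : ℕ}

/-- PROOF.  `semi_hf` (A102) for `φ = eval (aC n d)` and the family `fun t : Fin 1 ⊕ Q => gcy n k d (Sum.map id Subtype.val t)` (`gcy_bi`, `gcy_low`, `gcy_eq`), `span_gcyQ`,
`span_gspQ`. -/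
theorem semi_Q (hd : 1 ≤ d) (Q : Finset (Fin 1 × Fin k)) (A m : ℕ) :
    hf (IgQ n k d Q) A m ≤ hf (IsQ n k d Q) A m := by
  have h := semi_hf (R := RR n d) (K := KR n d) (F := ℂ) (eval (aC n d))
    (fun t : Fin 1 ⊕ Q => gcy n k d (Sum.map id Subtype.val t))
    (fun t : Fin 1 ⊕ Q => gsp n k d (Sum.map id Subtype.val t))
    (fun t => dge k d (Sum.map id Subtype.val t)) (fun t => kge k (Sum.map id Subtype.val t))
    (fun t => gcy_bi _) (fun t μ hμ => gcy_low hd _ μ hμ) (fun t μ => gcy_eq hd _ μ) A m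
  rw [span_gcyQ, span_gspQ] at h
  exact h

theorem a105_vd {N k : ℕ} (b : Option (Fin N)) :
    vd (Finsupp.single (xv b : HV N k) 1) = 0 := by
  unfold vd
  refine Finset.sum_eq_zero fun p _ => ?_
  rw [Finsupp.single_apply, if_neg]
  intro h
  rcases b with _ | b
  · exact absurd h (by simp [xv])
  · have h1 : (b, (0 : Fin (k + 1))) = (p.1, p.2.succ) := by
      have h2 : some (b, (0 : Fin (k + 1))) = some (p.1, p.2.succ) := h
      exact Option.some.inj h2
    exact Fin.succ_ne_zero p.2 (congrArg Prod.snd h1).symm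

/-- The same with the generator `x_b` added.
PROOF.  `semi_hf` for the index type `Option (Fin 1 ⊕ Fin 1 × Fin k)`, the generators `X (xv b)` for `none` (bidegree `(1, 0)`: `g19_X`, H44K/G19; `κ = 0`: the only exponent of `X (xv b)`
is `single (xv b) 1`, of `vd = 0`) and `gcy` / `gsp` for `some t`; `Ideal.span` of the range of a family on `Option` is `span {none} ⊔ span (range some)`
(`Set.range_option` or `Set.ext`), `IgQ_univ`, `IsQ_univ`, `span_gcyQ` or directly `gcy_map`. -/
theorem semi_x (hd : 1 ≤ d) (b : Option (Fin (n + 1))) (A m : ℕ) :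
    hf (IhC n k d ⊔ Ideal.span {X (xv b)}) A m ≤ hf (Isp n k d ⊔ Ideal.span {X (xv b)}) A m := by
  classical
  have h := semi_hf (R := RR n d) (K := KR n d) (F := ℂ) (eval (aC n d))
    (fun t : Option (Fin 1 ⊕ Fin 1 × Fin k) => Option.elim t (X (xv b)) (gcy n k d))
    (fun t : Option (Fin 1 ⊕ Fin 1 × Fin k) => Option.elim t (X (xv b)) (gsp n k d))
    (fun t => Option.elim t (1, 0) (dge k d)) (fun t => Option.elim t 0 (kge k))
    (fun t => by
      rcases t with _ | t
      · have h1 := g18_x (R := RR n d) (N := n + 1) (k := k) b 1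
        rw [pow_one] at h1
        exact h1
      · exact gcy_bi t)
    (fun t μ hμ => by
      rcases t with _ | t
      · exact absurd hμ (Nat.not_lt_zero _)
      · exact gcy_low hd t μ hμ)
    (fun t μ => by
      rcases t with _ | t
      · show coeff μ (X (xv b) : MvPolynomial (HV (n + 1) k) ℂ) = if vd μ = 0 then
          eval (aC n d) (coeff μ (X (xv b) : MvPolynomial (HV (n + 1) k) (RR n d))) else 0
        rw [coeff_X, coeff_X]
        by_cases h1 : Finsupp.single (xv b : HV (n + 1) k) 1 = μ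
        · rw [if_pos h1, if_pos h1, ← h1, if_pos (a105_vd b), map_one]
        · rw [if_neg h1, if_neg h1, map_zero, ite_self]
      · exact gcy_eq hd t μ) A m
  have e1 : (fun t : Option (Fin 1 ⊕ Fin 1 × Fin k) => map (algebraMap (RR n d) (KR n d))
      (Option.elim t (X (xv b)) (gcy n k d))) =
      fun t => Option.elim t (X (xv b)) (gcyK n k d) := by
    funext t
    rcases t with _ | t
    · exact map_X _ _
    · exact gcy_map t
  have e2 : ∀ {M : Type} (x : M) (f : Fin 1 ⊕ Fin 1 × Fin k → M),
      (Set.range fun t : Option (Fin 1 ⊕ Fin 1 × Fin k) => Option.elim t x f) =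
        insert x (Set.range f) := by
    intro M x f
    ext y
    constructor
    · rintro ⟨t, rfl⟩
      rcases t with _ | t
      · exact Or.inl rfl
      · exact Or.inr ⟨t, rfl⟩
    · rintro (rfl | ⟨t, rfl⟩)
      · exact ⟨none, rfl⟩
      · exact ⟨some t, rfl⟩
  rw [e1, e2, e2, Ideal.span_insert, Ideal.span_insert] at h
  have e3 : Ideal.span (Set.range (gcyK n k d)) = IhC n k d := by
    unfold gcyK IhC
    rw [Set.Sum.elim_range, g18_univ, Set.image_univ]
  have e4 : Ideal.span (Set.range (gsp n k d)) = Isp n k d := span_gsp n k d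
  rw [e3, e4] at h
  rw [sup_comm (IhC n k d), sup_comm (Isp n k d)]
  exact h

end Pool.Agent.H53L
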