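import Pool.Agent.Lib.H53L.A101
import Pool.Agent.Lib.H53L.A105

set_option autoImplicit false

/-!
CHUNK A106 (M), H53L.  The Hilbert function of the generic cyclic hypersurface.
-/

open MvPolynomial

namespace Pool.Agent.H53L

open Pool.Agent.H89T Pool.Agent.H67T Pool.Agent.H53U Pool.Agent.H53V Pool.Agent.H44K

variable {n k d : ℕ}

/-- The ladder: one more generator.
PROOF.  `A ≥ e + A₁ + A₀`, `A = e + A'`.  If `m < i`: `ehc_hf_small` for both.  Otherwise `m = i + m'`: `h3` gives `≤`; `≥`: `hf_sup_ge` (A101) for `I`, `g`: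
`hf (I ⊔ g) (A, m) ≥ hf I (A, m) - hf I (A', m') = hf I' (A, m) - hf I' (A', m') = hf (I' ⊔ g') (A, m)` by `ehc_hf_sup` (H53V/EHC) with `h2`. -/
theorem a106_step {K K' : Type*} [Field K] [Field K'] {N : ℕ} {I : Ideal (MvPolynomial (HV N k) K)}
    {I' : Ideal (MvPolynomial (HV N k) K')} (hI : HomI I) (hI' : HomI I')
    {g : MvPolynomial (HV N k) K} {g' : MvPolynomial (HV N k) K'} {e i : ℕ} (hg : BiH e i g) (hg' : BiH e i g')
    {A₁ A₀ : ℕ} (h1 : ∀ A ≥ A₁, ∀ m, hf I A m = hf I' A m)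
    (h2 : ∀ A ≥ A₀, ∀ m f, BiH A m f → g' * f ∈ I' → f ∈ I')
    (h3 : ∀ A m, hf (I ⊔ Ideal.span {g}) A m ≤ hf (I' ⊔ Ideal.span {g'}) A m) :
    ∀ A ≥ e + A₁ + A₀, ∀ m, hf (I ⊔ Ideal.span {g}) A m = hf (I' ⊔ Ideal.span {g'}) A m := by
  intro A hA m
  obtain ⟨A', rfl⟩ : ∃ A', A = e + A' := ⟨A - e, by omega⟩
  rcases Nat.lt_or_ge m i with hm | hm
  · rw [ehc_hf_small hI hg (Or.inr hm), ehc_hf_small hI' hg' (Or.inr hm)]
    exact h1 _ (by omega) m
  · obtain ⟨m', rfl⟩ : ∃ m', m = i + m' := ⟨m - i, by omega⟩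
    refine le_antisymm (h3 _ _) ?_
    have k1 := ehc_hf_sup hI' hg' (A := A') (m := m') (h2 A' (by omega) m')
    have k2 := hf_sup_ge hI hg A' m'
    have k3 := h1 A' (by omega) m'
    have k4 := h1 (e + A') (by omega) (i + m')
    omega

theorem a106_bot {K : Type*} [Field K] {N : ℕ} :
    HomI (⊥ : Ideal (MvPolynomial (HV N k) K)) := by
  intro f hf A m
  rw [Ideal.mem_bot] at hf
  rw [hf, map_zero]
  exact Ideal.zero_mem _

/-- PROOF.  `Finset.induction_on Q` (classical).  `Q = ∅`: `a106_step` with `I = ⊥`, `I' = ⊥` (`ehd_hf_bot`, H53V/EHD: the same formula; `HomI ⊥`), `IgQ_empty`, `IsQ_empty`, `h2` from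
`eha_torsion` (H53V/EHA) with `TR_F0s` (`Ideal.span (F0s '' {i | i < 0}) = ⊥`) or directly (`F0s ≠ 0`, domain); `h3` = `semi_Q ∅`.  `insert q Q`: `a106_step` with
`I = IgQ Q`, `I' = IsQ Q` (`IgQ_hom`, `IsQ_hom`), `g = UhK .. q` (`UhK_bi`), `g' = U0s .. q` (`U0s_bi`), `h2` from `eha_torsion` with `TR_U0s hd Q q` (H44K/G5), `h3` = `semi_Q`
with `IgQ_insert`, `IsQ_insert`. -/
theorem hf_eqQ (hd : 1 ≤ d) (Q : Finset (Fin 1 × Fin k)) :
    ∃ A₁ : ℕ, ∀ A ≥ A₁, ∀ m, hf (IgQ n k d Q) A m = hf (IsQ n k d Q) A m := by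
  classical
  induction Q using Finset.induction_on with
  | empty =>
    have hT : TR (⊥ : Ideal (MvPolynomial (HV (n + 1) k) ℂ)) (F0s n k d 0) := by
      have h := TR_F0s (n := n) (k := k) hd 0
      have h0 : {i : Fin 1 | i < 0} = ∅ := by
        ext i
        constructor
        · intro h
          have h' : i < 0 := h
          rw [Subsingleton.elim i 0] at h'
          exact absurd h' (lt_irrefl _)
        · intro h
          exact absurd h (Set.notMem_empty i)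
      rw [h0, Set.image_empty, Ideal.span_empty] at h
      exact h
    obtain ⟨A₀, hA₀⟩ := eha_torsion a106_bot (F0s_bi (n := n) (k := k) (d := d) 0) hT
    have h := a106_step (k := k) (I := (⊥ : Ideal (MvPolynomial (HV (n + 1) k) (KR n d))))
      (I' := (⊥ : Ideal (MvPolynomial (HV (n + 1) k) ℂ))) a106_bot a106_bot
      (g := FhK k (cyc (gR n d)) 0) (g' := F0s n k d 0) (FhK_bi (cyc (gR n d)) 0) (F0s_bi 0)
      (A₁ := 0) (A₀ := A₀) (fun A _ m => by rw [ehd_hf_bot, ehd_hf_bot]) hA₀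
      (fun A m => by
        rw [← IgQ_empty, ← IsQ_empty]
        exact semi_Q hd ∅ A m)
    refine ⟨d + 0 + A₀, fun A hA m => ?_⟩
    rw [IgQ_empty, IsQ_empty]
    exact h A hA m
  | insert q Q hq ih =>
    obtain ⟨A₁, hA₁⟩ := ih
    obtain ⟨A₀, hA₀⟩ := eha_torsion (IsQ_hom (n := n) (d := d) Q) (U0s_bi (n := n) (d := d) q)
      (TR_U0s hd Q q hq)
    have h := a106_step (IgQ_hom Q) (IsQ_hom Q) (UhK_bi (cyc (gR n d)) q) (U0s_bi q) hA₁ hA₀
      (fun A m => by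
        rw [← IgQ_insert, ← IsQ_insert]
        exact semi_Q hd (insert q Q) A m)
    refine ⟨d - 1 + A₁ + A₀, fun A hA m => ?_⟩
    rw [IgQ_insert, IsQ_insert]
    exact h A hA m

/-- PROOF.  `hf_eqQ` for `univ`, `IgQ_univ`, `IsQ_univ`. -/
theorem hf_eqC (n k : ℕ) (hd : 1 ≤ d) :
    ∃ A₁ : ℕ, ∀ A ≥ A₁, ∀ m, hf (IhC n k d) A m = hf (Isp n k d) A m := by
  have h := hf_eqQ (n := n) hd (Finset.univ : Finset (Fin 1 × Fin k))
  rw [IgQ_univ, IsQ_univ] at h
  exact h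

end Pool.Agent.H53L
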