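import Pool.Agent.Lib.H53L.A1D

set_option autoImplicit false

/-!
CHUNK A107 (M), H53L.  The coordinate `x_0` at the Fermat point.  Model: `Fx0_reg`, `TR_xs`, H44K/G5.lean.
-/

open MvPolynomial

namespace Pool.Agent.H53L

open Pool.Agent.H89T Pool.Agent.H67T Pool.Agent.H53U Pool.Agent.H53V Pool.Agent.H44K

variable {n k d : ℕ}

/-- PROOF.  As `Fx0_reg` (H44K/G5) with `Polynomial.X` instead of `C (X b)`: `G = e (Fx0 n d) = X ^ d + C s`, `s = ∑ b, X b ^ d ≠ 0` (evaluate at `(1, 0, .., 0)`: the value is `1`, `1 ≤ d`).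
`r = e x %ₘ G`, `degree r < d`, `G ∣ X * r`, `X * r = G * q`; the degree of `X * r` is at most `d`, so `q` is a constant `C c` (`Polynomial.eq_C_of_degree_le_zero`; or compare
`natDegree`); evaluate at `0`: `0 = s * c`, so `c = 0`, so `X * r = 0`, `r = 0`, `G ∣ e x`. -/
theorem Fx0_reg_none (hd : 1 ≤ d) {x : MvPolynomial (Option (Fin (n + 1))) ℂ}
    (h : X none * x ∈ Ideal.span {Fx0 n d}) : x ∈ Ideal.span {Fx0 n d} := by
  have heX : optionEquivLeft ℂ (Fin (n + 1)) (X none) = Polynomial.X := by simp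
  have heS : ∀ b, optionEquivLeft ℂ (Fin (n + 1)) (X (some b)) = Polynomial.C (X b) := fun b => by simp
  have heF : optionEquivLeft ℂ (Fin (n + 1)) (Fx0 n d) = Polynomial.X ^ d +
      Polynomial.C (∑ b, X b ^ d) := by
    unfold Fx0
    rw [map_add, map_pow, map_sum, heX, map_sum]
    congr 1
    refine Finset.sum_congr rfl fun b _ => ?_
    rw [map_pow, heS, map_pow]
  have hs : (∑ b : Fin (n + 1), (X b : MvPolynomial (Fin (n + 1)) ℂ) ^ d) ≠ 0 := by
    intro h0
    have h1 := congrArg (eval (fun p : Fin (n + 1) => if p = 0 then (1 : ℂ) else 0)) h0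
    rw [map_sum, map_zero, Finset.sum_eq_single (0 : Fin (n + 1))] at h1
    · rw [map_pow, eval_X, if_pos rfl, one_pow] at h1
      exact one_ne_zero h1
    · intro b _ hb
      rw [map_pow, eval_X, if_neg hb, zero_pow (by omega)]
    · intro h2
      exact absurd (Finset.mem_univ _) h2
  have hG : (optionEquivLeft ℂ (Fin (n + 1)) (Fx0 n d)).Monic := by
    rw [heF]
    exact Polynomial.monic_X_pow_add_C _ (by omega)
  have hdeg : (optionEquivLeft ℂ (Fin (n + 1)) (Fx0 n d)).natDegree = d := by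
    rw [heF]
    exact Polynomial.natDegree_X_pow_add_C
  rw [Ideal.mem_span_singleton] at h ⊢
  have h1 : optionEquivLeft ℂ (Fin (n + 1)) (Fx0 n d) ∣
      Polynomial.X * optionEquivLeft ℂ (Fin (n + 1)) x := by
    obtain ⟨q, hq⟩ := h
    refine ⟨optionEquivLeft ℂ (Fin (n + 1)) q, ?_⟩
    rw [← heX, ← map_mul, hq, map_mul]
  have h2 : optionEquivLeft ℂ (Fin (n + 1)) (Fx0 n d) ∣ Polynomial.X *
      (optionEquivLeft ℂ (Fin (n + 1)) x %ₘ optionEquivLeft ℂ (Fin (n + 1)) (Fx0 n d)) := by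
    have h3 := Polynomial.modByMonic_add_div (optionEquivLeft ℂ (Fin (n + 1)) x)
      (optionEquivLeft ℂ (Fin (n + 1)) (Fx0 n d))
    have h4 : Polynomial.X * (optionEquivLeft ℂ (Fin (n + 1)) x %ₘ
        optionEquivLeft ℂ (Fin (n + 1)) (Fx0 n d)) =
        Polynomial.X * optionEquivLeft ℂ (Fin (n + 1)) x -
        optionEquivLeft ℂ (Fin (n + 1)) (Fx0 n d) * (Polynomial.X *
          (optionEquivLeft ℂ (Fin (n + 1)) x /ₘ optionEquivLeft ℂ (Fin (n + 1)) (Fx0 n d))) := by
      conv_rhs =>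
        enter [1]
        rw [← h3]
      ring
    rw [h4]
    exact dvd_sub h1 (dvd_mul_right _ _)
  obtain ⟨q, hq⟩ := h2
  have hr : optionEquivLeft ℂ (Fin (n + 1)) x %ₘ optionEquivLeft ℂ (Fin (n + 1)) (Fx0 n d) = 0 := by
    by_contra hr0
    have hq0 : q ≠ 0 := by
      intro h0
      rw [h0, mul_zero] at hq
      exact hr0 ((mul_eq_zero.1 hq).resolve_left Polynomial.X_ne_zero)
    have h3 := congrArg Polynomial.natDegree hq
    rw [Polynomial.natDegree_mul Polynomial.X_ne_zero hr0, Polynomial.natDegree_mul hG.ne_zero hq0,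
      Polynomial.natDegree_X, hdeg] at h3
    have h4 : (optionEquivLeft ℂ (Fin (n + 1)) x %ₘ optionEquivLeft ℂ (Fin (n + 1)) (Fx0 n d)).natDegree < d := by
      have h5 := Polynomial.natDegree_modByMonic_lt (optionEquivLeft ℂ (Fin (n + 1)) x) hG (by
        intro h6
        rw [h6, Polynomial.natDegree_one] at hdeg
        omega)
      rw [hdeg] at h5
      exact h5
    have h5 : q.natDegree = 0 := by omega
    have h6 := Polynomial.eq_C_of_natDegree_eq_zero h5
    have h7 := congrArg (Polynomial.eval 0) hq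
    rw [Polynomial.eval_mul, Polynomial.eval_mul, Polynomial.eval_X, zero_mul, heF, Polynomial.eval_add,
      Polynomial.eval_pow, Polynomial.eval_X, zero_pow (by omega), zero_add, Polynomial.eval_C] at h7
    rw [h6, Polynomial.eval_C] at h7
    have h8 := (mul_eq_zero.1 h7.symm).resolve_left hs
    apply hq0
    rw [h6, h8, Polynomial.C_0]
  rw [Polynomial.modByMonic_eq_zero_iff_dvd hG] at hr
  obtain ⟨q', hq'⟩ := hr
  refine ⟨(optionEquivLeft ℂ (Fin (n + 1))).symm q', ?_⟩
  apply (optionEquivLeft ℂ (Fin (n + 1))).injective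
  rw [map_mul, AlgEquiv.apply_symm_apply, hq']

/-- PROOF.  Copy of `TR_xs` (H44K/G5) with `none` instead of `some b` and `Fx0_reg_none` instead of `Fx0_reg`. -/
theorem TR_x0s (hd : 1 ≤ d) : TR (Isp n k d) (X (xv none)) := by
  intro f hf b'
  have hS : (fun p : ↥(Finset.univ : Finset (Fin 1)) × Fin k =>
      ((p.1.1, p.2) : Fin 1 × Fin k)) '' Set.univ =
        {q : Fin 1 × Fin k | q.1 ∈ (Finset.univ : Finset (Fin 1))} := by
    ext ⟨j, i⟩
    simp only [Set.image_univ, Set.mem_range, Set.mem_setOf_eq]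
    constructor
    · intro _
      exact Finset.mem_univ _
    · intro h
      exact ⟨(⟨j, h⟩, i), rfl⟩
  have hmap := g5_map (n := n) (d := d) {q : Fin 1 × Fin k | q.1 ∈ (Finset.univ : Finset (Fin 1))}
    Set.univ hS
  rw [Set.image_univ] at hmap
  have h1 := Ideal.mem_map_of_mem (er8_s (n + 1) k ℂ) hf
  unfold Isp at h1 ⊢
  rw [hmap, map_mul, er8_s_apply (X (xv none)), spl_xv] at h1
  have hIF : C (Fx0 n d) ∈ Ideal.span (C '' ((Ideal.span {Fx0 n d} :
        Ideal (MvPolynomial (Option (Fin (n + 1))) ℂ)) : Set _) ∪ Set.range (g5_u n k d)) :=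
    Ideal.subset_span (Or.inl ⟨_, Ideal.mem_span_singleton_self _, rfl⟩)
  obtain ⟨r, hr⟩ := g5_comb hd _ hIF (er8_s (n + 1) k ℂ f) (fun c => by
    obtain ⟨e, he⟩ := L4 (Ideal.span {Fx0 n d}) Finset.univ
      (fun _ b => C (d : ℂ) * X (some b) ^ (d - 1)) (g5_u n k d) g5_lev (fun _ => c)
      (δ := C (d : ℂ) * X (some c) ^ (d - 1)) (by rw [g5_det])
      (g := X none) (fun x hx => ⟨0, by
        rw [pow_zero, one_mul]
        exact Fx0_reg_none hd hx⟩) h1
    exact ⟨e, he⟩) b'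
  refine ⟨r, ?_⟩
  rw [← er8_mem, hmap, map_mul, map_pow, er8_s_apply (X (xv b')), spl_xv]
  exact hr

end Pool.Agent.H53L
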