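import Pool.Agent.Lib.H53L.A106
import Pool.Agent.Lib.H53L.A107

set_option autoImplicit false

/-!
CHUNK A108 (S/M), H53L.  The coordinates are non-zero-divisors in large degree.
-/

open MvPolynomial

namespace Pool.Agent.H53L

open Pool.Agent.H89T Pool.Agent.H67T Pool.Agent.H53U Pool.Agent.H53V Pool.Agent.H44K

/-- PROOF.  `A₁` from `hf_eqC`, `A₂` from `eha_torsion` (H53V/EHA) for `Isp` (`Isp_hom`), `X (xv b)` (`g19_X`) and `TR_x0s` (A107) or `TR_xs` (H44K/G5).  For `A ≥ A₁ + A₂`: `reg_of_hf` (A101) for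
`I = IhC`, `g = X (xv b)`, `(e, i) = (1, 0)`: `hf (IhC ⊔ x_b) (1 + A, m) ≤ hf (Isp ⊔ x_b) (1 + A, m)` (`semi_x`), `= hf Isp (1 + A, m) - hf Isp (A, m)` (`ehc_hf_sup`),
`= hf IhC (1 + A, m) - hf IhC (A, m)` (`hf_eqC`). -/
theorem regC_aux {n k d : ℕ} (hd : 1 ≤ d) (b : Option (Fin (n + 1))) : ∃ A₀ : ℕ, RegC n k d b A₀ := by
  obtain ⟨A₁, h1⟩ := hf_eqC (d := d) n k hd
  have hTR : TR (Isp n k d) (X (xv b)) := by
    rcases b with _ | b
    · exact TR_x0s hd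
    · exact TR_xs hd b
  obtain ⟨A₂, h2⟩ := eha_torsion (Isp_hom n k d) (g19_X b) hTR
  have hI : HomI (IhC n k d) := by
    rw [← IgQ_univ]
    exact IgQ_hom _
  refine ⟨A₁ + A₂, fun A hA m f hf hx => ?_⟩
  have h3 := ehc_hf_sup (Isp_hom n k d) (g19_X b) (h2 A (by omega) m)
  have h4 := semi_x (k := k) hd b (1 + A) (0 + m)
  have h5 := h1 (1 + A) (by omega) (0 + m)
  have h6 := h1 A (by omega) m
  exact reg_of_hf hI (g19_X b) (by omega) f hf hx

end Pool.Agent.H53L
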