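import Pool.Agent.Lib.H53L.A106

set_option autoImplicit false

/-!
CHUNK A109 (M), H53L.  The space of the sections of the generic cyclic hypersurface.  Model: `kap_ineq`, H44K/G18.lean.
-/

open MvPolynomial

namespace Pool.Agent.H53L

open Pool.Agent.H89T Pool.Agent.H67T Pool.Agent.H53U Pool.Agent.H53V Pool.Agent.H44K

theorem a109_span (n k d : ℕ) : Ideal.span (Set.range fun t =>
    map (algebraMap (RR n d) (KR n d)) (gcy n k d t)) = IhC n k d := by
  have h1 : (fun t => map (algebraMap (RR n d) (KR n d)) (gcy n k d t)) =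
      Sum.elim (FhK k (cyc (gR n d))) (UhK k (cyc (gR n d))) := by
    funext t
    rw [gcy_map]
    rfl
  have h2 := g18_univ k
  rw [h1, Set.Sum.elim_range]
  unfold IhC
  first
    | rfl
    | rw [h2, Set.image_univ]

/-- PROOF.  Copy of `kap_ineq` (H44K/G18) with `KR n d` for the field, `IhC` for `Ige`, `hf_eqC` for `hf_eq`, and `semi` (H44K/S5) for `φ = eval (aC n d)`, `gcy`, `gsp`, `dge`, `kge`
(`gcy_bi`, `gcy_low`, `gcy_eq`; `span (range (map .. ∘ gcy)) = IhC`: `gcy_map`, or `span_gcyQ` with `IgQ_univ`; `span_gsp` of H44K/G18 for `Isp`). -/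
theorem kap_ineqC {n k d : ℕ} (hd : 1 ≤ d) {A₀ : ℕ} (hE1 : ∀ c ≥ A₀, E1 (Ik n k d) c (sde n d))
    (hE2 : ∀ c ≥ A₀, ∀ s, 1 ≤ s → E2 (Ik n k d) c (fun _ => s)) :
    ∃ A₁ : ℕ, ∀ A ≥ A₁, ∀ m s t, 1 ≤ s → s ≤ (d - 1) * t →
      Module.finrank ℂ (kap (c1 (n + 1) k s) (Isp n k d) A m) ≤
        Module.finrank (KR n d) (kap (c1 (n + 1) k s) (IhC n k d) A m) +
          (n + 2) ^ 2 * Module.finrank ℂ (BG n k d t (A + s) m) := by
  obtain ⟨A₁, hA₁⟩ := hf_eqC n k hd
  obtain ⟨A₂, hA₂⟩ := Ik_large n k hd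
  refine ⟨max A₀ (max A₁ A₂), fun A hA m s t hs hst => ?_⟩
  have hA0 : A₀ ≤ A := (le_max_left _ _).trans hA
  have hA1 : A₁ ≤ A := ((le_max_left _ _).trans (le_max_right _ _)).trans hA
  have hA2 : A₂ ≤ A := ((le_max_right _ _).trans (le_max_right _ _)).trans hA
  have k1 := kap_formula (c1 (n + 1) k s) (c1_bi (n + 1) k s) (IhC n k d) A m
  have k2 := kap_formula (c1 (n + 1) k s) (c1_bi (n + 1) k s) (Isp n k d) A m
  have v1 := finrank_VP (KR n d) (n + 1) k (Option (Fin (n + 1))) A m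
  have v2 := finrank_VP ℂ (n + 1) k (Option (Fin (n + 1))) A m
  have v3 := ehc_V_finrank (K := KR n d) (N := n + 1) (k := k) A m
  have v4 := ehc_V_finrank (K := ℂ) (N := n + 1) (k := k) A m
  have v5 : Module.finrank (KR n d)
      (VP (KR n d) (n + 1) k (Option (Fin (n + 1))) A m) =
      Module.finrank ℂ (VP ℂ (n + 1) k (Option (Fin (n + 1))) A m) := by
    rw [v1, v2]
    exact congrArg _ (v3.trans v4.symm)
  have i1 := finrank_IP (IhC n k d) (Option (Fin (n + 1)) × Option (Fin (n + 1))) (A + s) m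
  have i2 := finrank_IP (Isp n k d) (Option (Fin (n + 1)) × Option (Fin (n + 1))) (A + s) m
  have i3 := ehc_hf (IhC n k d) (A + s) m
  have i4 := ehc_hf (Isp n k d) (A + s) m
  have i5 := hA₁ (A + s) (by omega) m
  have i6 := ehc_V_finrank (K := KR n d) (N := n + 1) (k := k) (A + s) m
  have i7 := ehc_V_finrank (K := ℂ) (N := n + 1) (k := k) (A + s) m
  have i8 : Module.finrank (KR n d) (ehc_P (IhC n k d) (A + s) m) =
      Module.finrank ℂ (ehc_P (Isp n k d) (A + s) m) := by omega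
  have i9 : Module.finrank (KR n d)
      (IP (IhC n k d) (Option (Fin (n + 1)) × Option (Fin (n + 1))) (A + s) m) =
      Module.finrank ℂ (IP (Isp n k d) (Option (Fin (n + 1)) × Option (Fin (n + 1))) (A + s) m) := by
    rw [i1, i2]
    exact congrArg _ i8
  have fk := g16_kap_fin (c2 (n + 1) k s) (IhC n k d) (A + s) m
  have m2 := Submodule.finrank_mono (sup_le_kap (IhC n k d) A s m)
  have m3 := semi (R := RR n d) (K := KR n d)
    (F := ℂ) (eval (aC n d)) (gcy n k d) (gsp n k d) (dge k d) (kge k)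
    gcy_bi (gcy_low hd) (gcy_eq hd)
    (c2 (n + 1) k s) (c2_bi (n + 1) k s) (A + s) m
    (by
      rw [a109_span, span_gsp]
      exact hA₁ (A + s + s) (by omega) m)
  rw [a109_span, span_gsp] at m3
  have m4 := kap2_sp hA₂ hA2 s m
  have m5 := finrank_Zc hd hE1 (hE2 · · s hs) hA0 hst m
  omega

end Pool.Agent.H53L
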