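import Pool.Agent.Lib.H53L.A108
import Pool.Agent.Lib.H44K.G19
import Pool.Agent.Lib.H53V.EHB

set_option autoImplicit false

/-!
CHUNK A110 (M), H53L.  Many sections give `DimC`.  Model: `dimV_of_kap`, H44K/G19.lean.
-/

open MvPolynomial

namespace Pool.Agent.H53L

open Pool.Agent.H89T Pool.Agent.H67T Pool.Agent.H53U Pool.Agent.H53V Pool.Agent.H44K

/-- PROOF.  Copy of `dimV_of_kap` (H44K/G19) with `KR n d` for the field, `IhC` for `Ige` (`HomI_hom univ (cyc (gR n d))`), `IK k univ (cyc (gR n d))` (`map_dhom_ideal`).  Instead of `TR_x0`: `regC_aux` (A108) for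
`b = none` gives `A₃` with: `x_0 f ∈ IhC`, `f` of bidegree `(A, m)`, `A ≥ A₃`, implies `f ∈ IhC` (this is `hA₃` of the model, `xv none = none`), and the chart statement `hA₁` follows from it with
`ehb_pow` (H53V/EHB) and `g19_tors`.  The linear form: `L = ∑ b : Fin (n + 1), C (lin0 (fun b => algebraMap ℂ _ (l b)) b) * X (xv (some b))`, `dhom L = linK k (lin0 ..)`. -/
theorem dimC_of_kap (n k : ℕ) {d : ℕ} (hd : 1 ≤ d) :
    ∃ A₂ : ℕ, ∀ A ≥ A₂, ∀ m s R, 1 ≤ s →
      (n + 2) * Module.finrank (KR n d)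
          ↥((IhC n k d).restrictScalars (KR n d) ⊓
            weightedHomogeneousSubmodule (KR n d) (hw : HV (n + 1) k → ℕ × ℕ) (A, m)) + R ≤
        Module.finrank (KR n d) (kap (c1 (n + 1) k s) (IhC n k d) A m) →
      ∀ l, DimC n k d m A s R l := by
  have hHom : HomI (IhC n k d) := HomI_hom Finset.univ (cyc (gR n d))
  obtain ⟨A₀, hA₀⟩ := exists_E12 hHom
  obtain ⟨A₃, hA₃⟩ := regC_aux (n := n) (k := k) hd (none : Option (Fin (n + 1)))
  have hmap : (IhC n k d).map (dhom : _ →ₐ[KR n d] MvPolynomial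
      (JV (n + 1) k) (KR n d)) =
      IK k Finset.univ (cyc (gR n d)) :=
    map_dhom_ideal Finset.univ (cyc (gR n d))
  have hA₁ : ∀ A ≥ A₃, ∀ m, ∀ f : MvPolynomial (HV (n + 1) k) (KR n d), BiH A m f →
      dhom f ∈ (IhC n k d).map (dhom : _ →ₐ[KR n d] MvPolynomial (JV (n + 1) k) (KR n d)) →
        f ∈ IhC n k d := by
    intro A hA m f hf h
    obtain ⟨r, hr⟩ := ehb_pow hHom hf h
    exact g19_tors hA₃ hA hf r hr
  refine ⟨A₀ + A₃, fun A hA m s R hs hR l => ?_⟩
  have hVf := ehc_V_finite (K := KR n d) (N := n + 1) (k := k) A m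
  have hVPf : FiniteDimensional (KR n d)
      (VP (KR n d) (n + 1) k (Option (Fin (n + 1))) A m) :=
    s3_finite _ (Option (Fin (n + 1)))
  have hle : kap (c1 (n + 1) k s) (IhC n k d) A m ≤
      VP (KR n d) (n + 1) k (Option (Fin (n + 1))) A m :=
    fun h hh p _ => hh.1 p
  have hfin : FiniteDimensional (KR n d)
      (kap (c1 (n + 1) k s) (IhC n k d) A m) := Submodule.finiteDimensional_of_le hle
  have hI : IP (IhC n k d) (Option (Fin (n + 1))) A m ≤
      kap (c1 (n + 1) k s) (IhC n k d) A m := by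
    intro h hh
    refine ⟨fun p => (hh p (Set.mem_univ p)).2, fun q => ?_⟩
    exact Ideal.sum_mem _ fun p _ => Ideal.mul_mem_left _ _ (hh p (Set.mem_univ p)).1
  have hcard : Fintype.card (Option (Fin (n + 1))) = n + 2 := by
    rw [Fintype.card_option, Fintype.card_fin]
  obtain ⟨g, hg, hind⟩ := exists_indep_mod (kap (c1 (n + 1) k s) (IhC n k d) A m)
    (IP (IhC n k d) (Option (Fin (n + 1))) A m) hI (R := R) (by
      rw [finrank_IP, hcard]
      exact hR)
  have hgB : ∀ i b, BiH A m (g i b) := fun i b => (hg i).1 b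
  have hgI : ∀ i a b, X (xv a) ^ s * g i b - X (xv b) ^ s * g i a ∈ IhC n k d := by
    intro i a b
    rw [← g19_c1]
    exact (hg i).2 (a, b)
  -- the linear form
  obtain ⟨L, hL⟩ : ∃ L : MvPolynomial (HV (n + 1) k) (KR n d),
      L = ∑ b : Fin (n + 1), C (lin0 (fun b => algebraMap ℂ (KR n d) (l b)) b) *
        X (xv (some b)) := ⟨_, rfl⟩
  have hLB : BiH 1 0 L := by
    rw [hL]
    exact g19_sum _ _ fun b _ => g19_X (some b)
  have hLd : dhom L = linK k (lin0 fun b => algebraMap ℂ (KR n d) (l b)) := by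
    rw [hL, map_sum]
    unfold linK
    refine Finset.sum_congr rfl fun b _ => ?_
    rw [map_mul]
    congr 1
    · unfold dhom
      rw [← algebraMap_eq, AlgHom.commutes, algebraMap_eq]
    · unfold dhom
      rw [aeval_X]
      rfl
  have hE := (hA₀ A (by omega) (fun _ => s) (fun _ => hs)).1
  have hσ : ∀ i, ∃ σ, BiH A m σ ∧ ∀ b, L ^ s * g i b - X (xv b) ^ s * σ ∈ IhC n k d := by
    intro i
    refine hE m (fun b => L ^ s * g i b) (fun b => g19_pow hLB (hgB i b) s) fun a b => ?_
    have h1 : X (xv a) ^ s * (L ^ s * g i b) - X (xv b) ^ s * (L ^ s * g i a) =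
        L ^ s * (X (xv a) ^ s * g i b - X (xv b) ^ s * g i a) := by ring
    rw [h1]
    exact Ideal.mul_mem_left _ _ (hgI i a b)
  choose σ hσB hσI using hσ
  refine ⟨fun i => dhom (g i none), fun i => dhom (σ i), fun i => dhom_bi (hgB i none),
    fun i => dhom_bi (hσB i), fun i => ?_, fun w hw => ?_⟩
  · have h1 := Ideal.mem_map_of_mem (dhom : _ →ₐ[KR n d] MvPolynomial
      (JV (n + 1) k) (KR n d)) (hσI i none)
    rw [hmap, map_sub, map_mul, map_mul, map_pow, map_pow, hLd] at h1
    have h2 : dhom (X (xv none) : MvPolynomial (HV (n + 1) k) (KR n d)) =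
        1 := by
      unfold dhom
      rw [aeval_X]
      rfl
    rw [h2, one_pow, one_mul] at h1
    exact h1
  · have hC : ∀ (c : KR n d),
        dhom (C c : MvPolynomial (HV (n + 1) k) (KR n d)) = C c := by
      intro c
      unfold dhom
      rw [← algebraMap_eq, AlgHom.commutes, algebraMap_eq]
    have hf0 : ∑ i, C (w i) * g i none ∈ IhC n k d := by
      refine hA₁ A (by omega) m _ (g19_sum _ _ fun i _ => hgB i none) ?_
      rw [hmap, map_sum]
      simp only [map_mul, hC]
      exact hw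
    apply hind w
    intro b _
    have h3 : (∑ i, w i • g i) b = ∑ i, C (w i) * g i b := by
      rw [Finset.sum_apply]
      exact Finset.sum_congr rfl fun i _ => by rw [Pi.smul_apply, smul_eq_C_mul]
    show (∑ i, w i • g i) b ∈ _
    rw [h3]
    have hB := g19_sum (Finset.univ : Finset (Fin R)) w (A := A) (m := m)
      (f := fun i => g i b) fun i _ => hgB i b
    refine ⟨?_, hB⟩
    refine g19_tors hA₃ (by omega : A₃ ≤ A) hB s ?_
    have h4 : X none ^ s * ∑ i, C (w i) * g i b =
        ∑ i, C (w i) * (X (xv none) ^ s * g i b - X (xv b) ^ s * g i none) +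
          X (xv b) ^ s * ∑ i, C (w i) * g i none := by
      rw [Finset.mul_sum, Finset.mul_sum, ← Finset.sum_add_distrib]
      refine Finset.sum_congr rfl fun i _ => ?_
      show X none ^ s * (C (w i) * g i b) = C (w i) * (X none ^ s * g i b -
        X (xv b) ^ s * g i none) + X (xv b) ^ s * (C (w i) * g i none)
      ring
    rw [h4]
    refine Ideal.add_mem _ (Ideal.sum_mem _ fun i _ => ?_) (Ideal.mul_mem_left _ _ hf0)
    exact Ideal.mul_mem_left _ _ (hgI i none b)

end Pool.Agent.H53L
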