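import Pool.Agent.Lib.H53L.A3D
import Pool.Agent.Lib.H53V.R3B

set_option autoImplicit false

/-!
CHUNK A304 (M), H53L.  The Taylor coefficients of the cyclic equation.
-/

open MvPolynomial

namespace Pool.Agent.H53L

open Pool.Agent.H89T Pool.Agent.H67T Pool.Agent.H53U Pool.Agent.H53V Pool.Agent.H44K


variable {n d k : ℕ}

/-- PROOF.  `cyc a p = coeff (expo p.2) (cyP a)`; `coeff_map`, `map (cyP a) = cyP (φ ∘ a)` (`map_rename`, `map_X`, `map_pow`; `pol_eq` in H53U/M1 and
`map_monomial` for `pol`). -/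
theorem cyc_map {B B' : Type*} [CommRing B] [CommRing B'] (φ : B →+* B') (a : Idx n d → B)
    (p : CI (n + 1) (fun _ : Fin 1 => d)) : φ (cyc a p) = cyc (fun α => φ (a α)) p := by
  have h1 : map φ (cyP a) = cyP fun α => φ (a α) := by
    unfold cyP
    rw [map_add, map_pow, map_X, map_rename, map_pol]
  unfold cyc cofs
  rw [← h1, coeff_map]

theorem a304_deg {B : Type*} [CommRing B] (a : Idx n d → B) : (cyP a).totalDegree ≤ d := by
  unfold cyP
  refine (totalDegree_add _ _).trans (max_le ?_ ?_)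
  · rw [X_pow_eq_monomial]
    refine (totalDegree_monomial_le _ _).trans ?_
    exact le_of_eq (Finsupp.degree_single _ _)
  · exact (totalDegree_rename_le _ _).trans (totalDegree_pol _)

/-- The value of the cyclic equation.
PROOF.  `ev (cofs d G) y = eval y G` for `G` of total degree at most `d` (`pol_cofs` in H53U/M1, `eval y (pol b) = ev b y`: `pol_eq`, `eval_monomial`); the total
degree of `cyP a` is at most `d` (`totalDegree_X_pow`, `totalDegree_rename_le`, `pol_eq`: every monomial `expo α` has degree at most `d`).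
`eval y (cyP a) = y (last) ^ d + eval (y ∘ castSucc) (pol a)` (`eval_rename`). -/
theorem ev_cyc {B : Type*} [CommRing B] (a : Idx n d → B) (hd : 1 ≤ d) (y : Fin (n + 1) → B) :
    ev (fun α => cyc a ⟨0, α⟩) y = y (Fin.last n) ^ d + ev a fun b => y b.castSucc := by
  have h1 : (fun α => cyc a ⟨0, α⟩) = cofs d (cyP a) := rfl
  rw [h1, ev_cofs (a304_deg a)]
  unfold cyP
  rw [map_add, map_pow, eval_X, eval_rename, eval_pol]
  rfl

/-- PROOF.  `uV (cyc a) ξ 0 i = (Fx (fun α => cyc a ⟨0, α⟩) ξ).coeff i` by definition, `Fx b ξ = ev (fun α => Polynomial.C (b α)) (arc ξ)`;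
`Polynomial.C (cyc a p) = cyc (fun α => Polynomial.C (a α)) p` (`cyc_map`); `ev_cyc` over `Polynomial B`. -/
theorem uV_cyc {B : Type*} [CommRing B] (a : Idx n d → B) (hd : 1 ≤ d) (ξ : JV (n + 1) k → B) (j : Fin 1) (i : ℕ) :
    uV (cyc a) ξ j i = (arc ξ (Fin.last n) ^ d + Fx a fun p => ξ (jin p)).coeff i := by
  have hj : j = 0 := Subsingleton.elim _ _
  subst hj
  have h1 : (Fx (fun α => cyc a ⟨0, α⟩) ξ) = arc ξ (Fin.last n) ^ d + Fx a fun p => ξ (jin p) := by
    unfold Fx
    have h2 : (fun α => Polynomial.C (cyc a ⟨0, α⟩)) =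
        fun α => cyc (fun α => Polynomial.C (a α)) ⟨0, α⟩ := by
      funext α
      exact cyc_map Polynomial.C a _
    rw [h2, ev_cyc _ hd]
    rfl
  show (Fx (fun α => cyc a ⟨0, α⟩) ξ).coeff i = _
  rw [h1]

/-- PROOF.  `uV_cyc` over `MvPolynomial (JV (n + 1) k) B` at `ξ = X` (`uK k a' j i = uV (fun p => C (a' p)) X j i` by definition; `cyc_map` for `C`), and
`Fx_map` for `rename jin` (`(uP k a).map (rename jin) = Fx (C ∘ a) (X ∘ jin)`). -/
theorem uK_cyc {B : Type*} [CommRing B] (a : Idx n d → B) (hd : 1 ≤ d) (j : Fin 1) (i : ℕ) :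
    (uK k (cyc a) j i : MvPolynomial (JV (n + 1) k) B) =
      (arc (fun p => (X p : MvPolynomial (JV (n + 1) k) B)) (Fin.last n) ^ d).coeff i +
        rename jin (uR a i : MvPolynomial (JV n k) B) := by
  have h1 : (uK k (cyc a) j i : MvPolynomial (JV (n + 1) k) B) =
      uV (fun p => C (cyc a p)) (fun p => X p) j i := rfl
  have h2 : (fun p => (C (cyc a p) : MvPolynomial (JV (n + 1) k) B)) = cyc fun α => C (a α) := by
    funext p
    exact cyc_map C a p
  rw [h1, h2, uV_cyc _ hd, Polynomial.coeff_add]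
  congr 1
  have h3 := Fx_map ((rename jin : MvPolynomial (JV n k) B →ₐ[B] MvPolynomial (JV (n + 1) k) B) :
    MvPolynomial (JV n k) B →+* MvPolynomial (JV (n + 1) k) B) (fun α => C (a α)) fun p => X p
  have h4 : (fun α => ((rename jin : MvPolynomial (JV n k) B →ₐ[B] MvPolynomial (JV (n + 1) k) B) :
    MvPolynomial (JV n k) B →+* MvPolynomial (JV (n + 1) k) B) (C (a α))) = fun α => C (a α) := by
    funext α
    exact rename_C _ _
  have h5 : (fun p => ((rename jin : MvPolynomial (JV n k) B →ₐ[B] MvPolynomial (JV (n + 1) k) B) :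
    MvPolynomial (JV n k) B →+* MvPolynomial (JV (n + 1) k) B) (X p)) = fun p => X (jin p) := by
    funext p
    exact rename_X _ _
  rw [h4, h5] at h3
  rw [← h3, Polynomial.coeff_map]
  rfl

/-- PROOF.  `U0 a x j = ev (fun α => a ⟨j, α⟩) x` (H53U), `ev_cyc`. -/
theorem U0_cyc {B : Type*} [CommRing B] (a : Idx n d → B) (hd : 1 ≤ d) (y : Fin (n + 1) → B) (j : Fin 1) :
    U0 (cyc a) y j = y (Fin.last n) ^ d + ev a fun b => y b.castSucc := by
  have hj : j = 0 := Subsingleton.elim _ _
  subst hj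
  exact ev_cyc a hd y

end Pool.Agent.H53L
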