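import Pool.Agent.Lib.H53L.A2D
import Pool.Agent.Lib.H53L.A304
import Pool.Agent.Lib.H44K.GMain

set_option autoImplicit false

/-!
Module A1 of PROOF.md (existence over the field of the coefficients of the cyclic family): definitions.
The special side is that of H44K: the Fermat hypersurface belongs to the cyclic family.
-/

open MvPolynomial

namespace Pool.Agent.H53L

open Pool.Agent.H89T Pool.Agent.H67T Pool.Agent.H53U Pool.Agent.H53V Pool.Agent.H44K

/-- The coefficients of the Fermat polynomial `1 + x_1 ^ d + ... + x_n ^ d`. -/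
noncomputable def aC (n d : ℕ) : Idx n d → ℂ := cofs d (1 + ∑ b : Fin n, X b ^ d)

/-- The generators of the ideal of the generic cyclic hypersurface, over the ring of the coefficients. -/
noncomputable def gcy (n k d : ℕ) : Fin 1 ⊕ Fin 1 × Fin k → MvPolynomial (HV (n + 1) k) (RR n d) :=
  Sum.elim (FhK k (cyc (gen n d))) (UhK k (cyc (gen n d)))

/-- The generators over the field. -/
noncomputable def gcyK (n k d : ℕ) : Fin 1 ⊕ Fin 1 × Fin k → MvPolynomial (HV (n + 1) k) (KR n d) :=
  Sum.elim (FhK k (cyc (gR n d))) (UhK k (cyc (gR n d)))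

/-- The ideal generated by the equation and by the `U q`, `q ∈ Q`, for the generic cyclic hypersurface. -/
noncomputable def IgQ (n k d : ℕ) (Q : Finset (Fin 1 × Fin k)) :
    Ideal (MvPolynomial (HV (n + 1) k) (KR n d)) :=
  Ideal.span (Set.range (FhK k (cyc (gR n d))) ∪ UhK k (cyc (gR n d)) '' (Q : Set (Fin 1 × Fin k)))

/-- The same at the Fermat point. -/
noncomputable def IsQ (n k d : ℕ) (Q : Finset (Fin 1 × Fin k)) :
    Ideal (MvPolynomial (HV (n + 1) k) ℂ) :=
  Ideal.span (Set.range (F0s n k d) ∪ U0s n k d '' (Q : Set (Fin 1 × Fin k)))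

end Pool.Agent.H53L
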