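import Pool.Agent.Lib.H53V.EDD
import Pool.Agent.Lib.H44K.D0
import Pool.Agent.Lib.H89T.CDefs
import Pool.Agent.Lib.H89T.DP2

set_option autoImplicit false

/-!
H53L (the logarithmic case: second main theorem with truncation level one and explicit bounds for generic
hypersurfaces of degree `d ≥ C n ^ 2 (log n) ^ 2`, see PROOF.md): definitions and the statements of the modules.

`n` affine variables `x`, one polynomial `F_a` of degree at most `d`, jets of order `k`.  `JV n k`, `Idx n d`, `uR`, `AA n d k`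
(the flat ring of jets and coefficients), `uA` of H89T; `CI`, `cofs`, `pol` of H53U; `BiK`, `IK`, `linK`, `tau`, `ResX` of H53V;
`Good`, `nbad`, `ngoodS` of H44K.
-/

open MvPolynomial Real MeasureTheory

namespace Pool.Agent.H53L

open Pool.Agent.H89T Pool.Agent.H67T Pool.Agent.H53U Pool.Agent.H53V Pool.Agent.H44K

/-! ### The cyclic hypersurface `w ^ d + F_a (x) = 0` -/

section Cyc

variable {n d : ℕ} {B : Type*} [CommRing B]

/-- `w ^ d + F_a (x)`, `w` the last variable. -/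
noncomputable def cyP (a : Idx n d → B) : MvPolynomial (Fin (n + 1)) B :=
  X (Fin.last n) ^ d + rename Fin.castSucc (pol a)

/-- Its coefficients. -/
noncomputable def cyc (a : Idx n d → B) : CI (n + 1) (fun _ : Fin 1 => d) → B :=
  fun p => cofs d (cyP a) p.2

/-- A linear form in the first `n` coordinates. -/
def lin0 (l : Fin n → B) : Fin (n + 1) → B := Fin.snoc l 0

end Cyc

/-- The field of the rational functions in the coefficients. -/
abbrev KR (n d : ℕ) : Type := FractionRing (RR n d)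

/-- The generic coefficients in this field. -/
noncomputable def gR (n d : ℕ) : Idx n d → KR n d := fun α => algebraMap (RR n d) (KR n d) (gen n d α)

/-- Module A1 (existence over the field): there are `R` elements of `W (a0, m)`, linearly independent modulo the ideal of the
generic cyclic hypersurface, such that `l ^ s` times any of them is congruent to an element of `W (a0, m)`. -/
def DimC (n k d m a0 s R : ℕ) (l : Fin n → ℂ) : Prop :=
  ∃ P Q : Fin R → MvPolynomial (JV (n + 1) k) (KR n d),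
    (∀ i, BiK a0 m (P i)) ∧ (∀ i, BiK a0 m (Q i)) ∧
    (∀ i, linK k (lin0 fun b => algebraMap ℂ (KR n d) (l b)) ^ s * P i - Q i ∈
      IK k Finset.univ (cyc (gR n d))) ∧
    ∀ w : Fin R → KR n d, ∑ i, C (w i) * P i ∈ IK k Finset.univ (cyc (gR n d)) → w = 0

/-- Module A2 (density): more than `tau` jet differentials of weight `m` with a very negative twist on the generic cyclic
hypersurface, independent at the jets over one point. -/
def PropC (n k q D d : ℕ) : Prop :=
  ∃ m a0 s μ : ℕ, 1 ≤ m ∧ (q + 1) * (a0 + d + D * m + 2 * k * μ) + 1 ≤ q * s ∧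
    ∀ l : Fin n → ℂ,
    ∃ (r : ℕ) (P Q : Fin r → MvPolynomial (JV (n + 1) k) (RR n d)),
      tau (FrI n (Finset.univ : Finset (Fin 1))) k m μ < r ∧
      (∀ i, BiK a0 m (P i)) ∧ (∀ i, BiK a0 m (Q i)) ∧
      (∀ i, linK k (lin0 fun b => C (l b)) ^ s * P i - Q i ∈ IK k Finset.univ (cyc (gen n d))) ∧
      ∃ (a : Idx n d → ℂ) (x : Fin n → ℂ) (w : ℂ), w ≠ 0 ∧ w ^ d + ev a x = 0 ∧
        LinearIndependent ℂ fun i =>
          ResX k Finset.univ (cyc a) (Fin.snoc x w : Fin (n + 1) → ℂ) (map (eval a) (P i))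

/-! ### Logarithmic jet differentials: `w` is eliminated -/

section Log

variable {n d k : ℕ}

/-- The exponents of the jet variables `x (b, l)`, as exponents of the flat ring. -/
noncomputable def jm (μ : JV n k →₀ ℕ) : JV n k ⊕ Idx n d →₀ ℕ := μ.mapDomain Sum.inl

/-- The degree of an exponent of `u 1, ..., u k`. -/
def ld (lam : Fin k → ℕ) : ℕ := ∑ i, lam i

/-- Its weight. -/
def lw (lam : Fin k → ℕ) : ℕ := ∑ i : Fin k, ((i : ℕ) + 1) * lam i

/-- The generators `c * μ * u 0 ^ (j + m - p) * u (l_1) * ... * u (l_p)` of `LT M m`; the coefficients `c` are in `ℂ[a]`. -/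
def LTg (n d k M m : ℕ) : Set (AA n d k) :=
  {g | ∃ (c : AA n d k) (μ : JV n k →₀ ℕ) (j : ℕ) (lam : Fin k → ℕ),
    (∀ ν ∈ c.support, ∀ p : JV n k, ν (Sum.inl p) = 0) ∧
    wt μ + d * j + lw lam ≤ M ∧ H53V.jw μ + lw lam = m ∧
    g = c * monomial (jm μ) 1 * uA 0 ^ (j + (m - ld lam)) * ∏ i : Fin k, uA ((i : ℕ) + 1) ^ lam i}

/-- Logarithmic jet differentials of weight `m` and total weight at most `M` (`x (b, l)` counts `l + 1`), multiplied by
`u 0 ^ m`; coefficients in `ℂ[a]`. -/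
def LT (M m : ℕ) (G : AA n d k) : Prop := G ∈ Submodule.span ℂ (LTg n d k M m)

/-- The same over a ring, for given coefficients `a`. -/
def LTyg {B : Type*} [CommRing B] (a : Idx n d → B) (M m : ℕ) : Set (MvPolynomial (JV n k) B) :=
  {g | ∃ (μ : JV n k →₀ ℕ) (j : ℕ) (lam : Fin k → ℕ),
    wt μ + d * j + lw lam ≤ M ∧ lw lam ≤ m ∧
    g = monomial μ 1 * uR a 0 ^ (j + (m - ld lam)) * ∏ i : Fin k, uR a ((i : ℕ) + 1) ^ lam i}

/-- Logarithmic jet differentials: total weight at most `M`, pole order at most `m`, multiplied by `u 0 ^ m`. -/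
def LTy {B : Type*} [CommRing B] (a : Idx n d → B) (M m : ℕ) (G : MvPolynomial (JV n k) B) : Prop :=
  G ∈ Submodule.span B (LTyg (k := k) a M m)

/-- The linear form in the flat ring. -/
noncomputable def linA (n d k : ℕ) (l : Fin n → ℂ) : AA n d k := ∑ b, C (l b) * xA (b, 0)

/-- The restriction to the jets over the point `x`, for given coefficients `a`: a polynomial in the `x (b, l + 1)`. -/
noncomputable def piA (a : Idx n d → ℂ) (x : Fin n → ℂ) :
    AA n d k →ₐ[ℂ] MvPolynomial (Fin n × Fin k) ℂ :=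
  aeval (Sum.elim (fun p : JV n k =>
    Fin.cases (motive := fun _ => MvPolynomial (Fin n × Fin k) ℂ) (C (x p.1)) (fun l => X (p.1, l)) p.2)
    fun α => C (a α))

end Log

/-- Module A3: logarithmic jet differentials. -/
def PropLog (n k q δ d : ℕ) : Prop :=
  ∃ m M s μ : ℕ, 1 ≤ m ∧ (q + 1) * (M + δ * m + 2 * k * μ) + 1 ≤ q * s ∧
    ∀ l : Fin n → ℂ, ∃ (r : ℕ) (G H : Fin r → AA n d k),
      tau (Fin n) k m μ < r ∧ (∀ i, LT M m (G i)) ∧ (∀ i, LT M m (H i)) ∧
      (∀ i, linA n d k l ^ s * G i = H i) ∧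
      ∃ (a : Idx n d → ℂ) (x : Fin n → ℂ), ev a x ≠ 0 ∧ LinearIndependent ℂ fun i => piA a x (G i)

/-- Module B (moves): for a generic point and all immersed jets over it. -/
def AlgLog (n k q δ d : ℕ) : Prop :=
  ∃ M m s : ℕ, 1 ≤ m ∧ (q + 1) * (M + δ * m) + 1 ≤ q * s ∧
    ∀ l : Fin n → ℂ, ∃ W : MvPolynomial (Fin n ⊕ Idx n d) ℂ, W ≠ 0 ∧
      ∀ (a : Idx n d → ℂ) (ξ : JV n k → ℂ),
        eval (Sum.elim (fun b => ξ (b, 0)) a) W ≠ 0 → ev a (fun b => ξ (b, 0)) ≠ 0 →
        (∃ b, ∃ i : Fin (k + 1), (i : ℕ) = 1 ∧ ξ (b, i) ≠ 0) →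
        ∃ G H : MvPolynomial (JV n k) ℂ, LTy a M m G ∧ LTy a M m H ∧
          linK k l ^ s * G = H ∧ eval ξ G ≠ 0

/-- Module C (analysis): the second main theorem with the coefficient `δ + c`, `c > 0`, for the curves not contained in an
exceptional set which does not contain the point `e_0`. -/
def SmtPt (N d : ℕ) (δ c : ℝ) : Prop :=
  ∃ Θ : MvPolynomial (Fin (N + 1) →₀ ℕ) ℂ,
    (∃ F : MvPolynomial (Fin (N + 1)) ℂ, F.IsHomogeneous d ∧ cval Θ F ≠ 0) ∧
    ∀ F : MvPolynomial (Fin (N + 1)) ℂ, F.IsHomogeneous d → cval Θ F ≠ 0 →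
      ∃ G : MvPolynomial (Fin (N + 1)) ℂ, eval (Pi.single 0 1) G ≠ 0 ∧ Ineq (1 - (δ + c) / d) d F G

/-- The numerical condition. -/
def CountL (n k q D d : ℕ) : Prop :=
  ∀ a0 : ℕ, ∃ m s t t' μ : ℕ, 1 ≤ m ∧ s ≤ (d - 1) * t ∧ s + (n + 2) * (d - 1) ≤ (d - 1) * t' ∧
    (q + 1) * (a0 + D * m + 2 * k * μ) + 1 ≤ q * s ∧
    tau (FrI n (Finset.univ : Finset (Fin 1))) k m μ *
        (d * (a0 + 2 * m * (d - 1) + n).choose n) +
      (n + 2) ^ 2 * (nbad n k m t * (d * (a0 + s + (d - 1) * m + n).choose n)) <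
      d * (d - 1) ^ n * ngoodS n k m t'

end Pool.Agent.H53L
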