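import Pool.Agent.Lib.H53L.D0
import Pool.Agent.Lib.H54L.G5

set_option autoImplicit false

/-!
H53L, module A1: existence over the field of the coefficients (port of `dimV_n2`, H44K/GMain.lean).
-/

open MvPolynomial

namespace Pool.Agent.H53L

open Pool.Agent.H89T Pool.Agent.H67T Pool.Agent.H53U Pool.Agent.H53V Pool.Agent.H44K

/-- MODULE A1. -/
theorem dimC_n2 {n k d : ℕ} (hn : 1 ≤ n) (hk : n ≤ k) (hd : 2 ≤ d) :
    ∃ A₀ : ℕ, ∀ A ≥ A₀, ∀ m s t t' R, 1 ≤ s → s ≤ (d - 1) * t →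
      s + (n + 2) * (d - 1) ≤ (d - 1) * t' →
      R + (n + 2) ^ 2 * (nbad n k m t * (d * (A + s + (d - 1) * m + n).choose n)) ≤
        d * (d - 1) ^ n * ngoodS n k m t' →
      ∀ l, DimC n k d m A s R l := by
  have hd1 : 1 ≤ d := by omega
  obtain ⟨A₀, hA₀⟩ := H54L.dim_fam (R := RR n d) (K := KR n d) hn hk hd (cyc (gen n d))
    (eval (cofs d (H54L.fer n d))) (fun p => by
      rw [H54L.cyc_map]
      have h1 : (fun α => eval (cofs d (H54L.fer n d)) (gen n d α)) = cofs d (H54L.fer n d) :=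
        funext fun α => eval_X _
      rw [h1]
      exact H54L.cyc_fer hd1 p)
  refine ⟨A₀, fun A hA m s t t' R hs hst ht' hR l => ?_⟩
  obtain ⟨P, Q, h1, h2, h3, h4⟩ := hA₀ A hA m s t t' R hs hst ht' hR
    (lin0 fun b => algebraMap ℂ (KR n d) (l b))
  have h5 : (fun p => algebraMap (RR n d) (KR n d) (cyc (gen n d) p)) = cyc (gR n d) := by
    funext p
    rw [H54L.cyc_map]
    rfl
  rw [h5] at h3 h4
  exact ⟨P, Q, h1, h2, h3, h4⟩

end Pool.Agent.H53L
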