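import Pool.Agent.Lib.H53L.A2D
import Pool.Agent.Lib.H53L.A304

set_option autoImplicit false

/-!
CHUNK A201 (M), H53L.  The generic point: the equation.  Model: H53V/ED4.lean, first part.
-/

open MvPolynomial

namespace Pool.Agent.H53L

open Pool.Agent.H89T Pool.Agent.H67T Pool.Agent.H53U Pool.Agent.H53V Pool.Agent.H44K

variable {n d k : ℕ}

/-- PROOF.  `totalDegree_X_pow`, `totalDegree_rename_le`, `totalDegree_pol` (H53U/M1). -/
theorem cyP_deg {B : Type*} [CommRing B] [Nontrivial B] (a : Idx n d → B) : (cyP a).totalDegree ≤ d := by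
  unfold cyP
  refine (totalDegree_add _ _).trans (max_le ?_ ?_)
  · rw [X_pow_eq_monomial]
    refine (totalDegree_monomial_le _ _).trans ?_
    exact le_of_eq (Finsupp.degree_single _ _)
  · exact (totalDegree_rename_le _ _).trans (totalDegree_pol _)

/-- PROOF.  `map_rename`, `map_pol` (H53U/M1), `map_X`. -/
theorem map_cyP {B B' : Type*} [CommRing B] [CommRing B'] (φ : B →+* B') (a : Idx n d → B) :
    map φ (cyP a) = cyP fun α => φ (a α) := by
  unfold cyP
  rw [map_add, map_pow, map_X, map_rename, map_pol]

/-- PROOF.  `PF b j = pol (fun α => b ⟨j, α⟩)` and `cyc a ⟨j, α⟩ = cofs d (cyP a) α` by definition; `pol_cofs` (H53U/M1) with `cyP_deg`. -/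
theorem PF_cyc {B : Type*} [CommRing B] [Nontrivial B] (a : Idx n d → B) (j : Fin 1) :
    PF (cyc a) j = cyP a := by
  have h1 : PF (cyc a) j = pol (cofs d (cyP a)) := rfl
  rw [h1, pol_cofs (cyP_deg a)]

/-- The value at the generic point of the equation with coefficients `g1c` is `0`: only the constant coefficient is changed.
PROOF.  `U0_cyc` (A304): `X (last) ^ d + ev (g1c n d) (X ∘ castSucc)`.  As in `U0_g1` (H53V/ED4): `ev (g1c n d) y = ev (C ∘ gen) y - cyP gen` (only the
summand of `α0`, `expo α0 = 0`, is changed, its monomial is `1`), `y = fun b => X b.castSucc`; and `ev (C ∘ gen) y = rename castSucc (pol gen)`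
(`pol gen = ev (C ∘ gen) X`; `ev_map` of H89T for `rename castSucc`).  `cyP gen = X (last) ^ d + rename castSucc (pol gen)`. -/
theorem U0_g1c (hd : 1 ≤ d) (j : Fin 1) :
    U0 (cyc (g1c n d)) (fun b => (X b : R1c n d)) j = 0 := by
  rw [U0_cyc _ hd]
  obtain ⟨α0, hα0⟩ := exists_expo (N := n) (k := d) (μ := 0) (by simp)
  have h1 : ∀ α : Idx n d, g1c n d α * ∏ b, (X (Fin.castSucc b) : R1c n d) ^ (α.1 b : ℕ)
      = C (gen n d α) * ∏ b, (X (Fin.castSucc b) : R1c n d) ^ (α.1 b : ℕ)
        - if α = α0 then cyP (gen n d) else 0 := by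
    intro α
    unfold g1c
    by_cases h : α = α0
    · subst h
      rw [if_pos hα0, if_pos rfl, sub_mul]
      have h2 : ∏ b, (X (Fin.castSucc b) : R1c n d) ^ (α.1 b : ℕ) = 1 := by
        refine Finset.prod_eq_one fun b _ => ?_
        have h3 : (α.1 b : ℕ) = 0 := by
          rw [← expo_apply α b, hα0]
          rfl
        rw [h3, pow_zero]
      rw [h2, mul_one, mul_one]
    · have h2 : ¬ expo α = 0 := fun h3 => h (expo_injective (h3.trans hα0.symm))
      rw [if_neg h2, if_neg h, sub_zero]
  have h4 : ev (g1c n d) (fun b => (X (Fin.castSucc b) : R1c n d))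
      = ∑ α : Idx n d, g1c n d α * ∏ b, (X (Fin.castSucc b) : R1c n d) ^ (α.1 b : ℕ) := rfl
  have h5 : rename Fin.castSucc (pol (gen n d)) =
      ∑ α : Idx n d, C (gen n d α) * ∏ b, (X (Fin.castSucc b) : R1c n d) ^ (α.1 b : ℕ) := by
    have h6 := ev_map ((rename Fin.castSucc : MvPolynomial (Fin n) (RR n d) →ₐ[RR n d] R1c n d) :
      MvPolynomial (Fin n) (RR n d) →+* R1c n d) (fun α => C (gen n d α)) X
    refine h6.trans ?_
    unfold ev
    refine Finset.sum_congr rfl fun α _ => ?_
    have h7 : ((rename Fin.castSucc : MvPolynomial (Fin n) (RR n d) →ₐ[RR n d] R1c n d) :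
      MvPolynomial (Fin n) (RR n d) →+* R1c n d) (C (gen n d α)) = C (gen n d α) := rename_C _ _
    have h8 : ∀ b, ((rename Fin.castSucc : MvPolynomial (Fin n) (RR n d) →ₐ[RR n d] R1c n d) :
      MvPolynomial (Fin n) (RR n d) →+* R1c n d) (X b) = X (Fin.castSucc b) := fun b => rename_X _ _
    simp only [h7, h8]
  show (X (Fin.last n) : R1c n d) ^ d + ev (g1c n d) (fun b => (X (Fin.castSucc b) : R1c n d)) = 0
  rw [h4, Finset.sum_congr rfl fun α _ => h1 α, Finset.sum_sub_distrib,
    Finset.sum_ite_eq' Finset.univ α0, if_pos (Finset.mem_univ _), ← h5]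
  unfold cyP
  ring

/-- The homomorphism `f ↦ f (g1c, x)` changes `f` only by an element of the ideal of the equation.
PROOF.  The same as `eval_g1_sub` (H53V/ED4) with the ideal `span {cyP gen}`. -/
theorem eval_g1c_sub (f : R1c n d) :
    eval₂ (phic n d) (fun b => (X b : R1c n d)) f - f ∈ Ideal.span {cyP (gen n d)} := by
  obtain ⟨I, hI⟩ : ∃ I : Ideal (R1c n d), I = Ideal.span {cyP (gen n d)} := ⟨_, rfl⟩
  rw [← hI]
  have h : (Ideal.Quotient.mk I).comp (eval₂Hom (phic n d) (fun b => (X b : R1c n d)))
      = Ideal.Quotient.mk I := by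
    refine MvPolynomial.ringHom_ext ?_ ?_
    · intro r
      have h2 : ((Ideal.Quotient.mk I).comp (phic n d)) =
          (Ideal.Quotient.mk I).comp (C : RR n d →+* R1c n d) := by
        refine MvPolynomial.ringHom_ext ?_ ?_
        · intro z
          simp only [RingHom.comp_apply]
          have h3 : phic n d (C z) = C (C z) := by
            show aeval (g1c n d) (C z) = C (C z)
            rw [aeval_C]
            rfl
          rw [h3]
        · intro p
          simp only [RingHom.comp_apply]
          have h3 : phic n d (X p) = g1c n d p := by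
            show aeval (g1c n d) (X p) = g1c n d p
            rw [aeval_X]
          rw [h3, Ideal.Quotient.eq]
          unfold g1c
          split_ifs
          · have h4 : C (gen n d p) - cyP (gen n d) - C (X p) = - cyP (gen n d) := by
              show C (X p) - cyP (gen n d) - C (X p) = - cyP (gen n d)
              ring
            rw [h4]
            exact I.neg_mem (by rw [hI]; exact Ideal.subset_span rfl)
          · have h4 : (C (gen n d p) - C (X p) : R1c n d) = 0 := sub_self _
            rw [h4]
            exact I.zero_mem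
      have h3 := congrArg (fun g : RR n d →+* (R1c n d ⧸ I) => g r) h2
      simp only [RingHom.comp_apply] at h3
      simp only [RingHom.comp_apply, coe_eval₂Hom, eval₂_C]
      exact h3
    · intro b
      simp only [RingHom.comp_apply, coe_eval₂Hom, eval₂_X]
  have h5 := congrArg (fun g : R1c n d →+* (R1c n d ⧸ I) => g f) h
  simp only [RingHom.comp_apply, coe_eval₂Hom] at h5
  exact Ideal.Quotient.eq.mp h5

end Pool.Agent.H53L
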