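import Pool.Agent.Lib.H53L.A201
import Pool.Agent.Lib.H53V.ED4
import Pool.Agent.Lib.H53V.ED8

set_option autoImplicit false

/-!
CHUNK A202 (M), H53L.  The generic point: the embedding of the fields.  Model: H53V/ED4.lean, second part.
-/

open MvPolynomial

namespace Pool.Agent.H53L

open Pool.Agent.H89T Pool.Agent.H67T Pool.Agent.H53U Pool.Agent.H53V Pool.Agent.H44K

variable {n d k : ℕ}

/-- PROOF.  `Ideal.mem_span_singleton`: `f = cyP gen * g`; `map_mul`, `map_cyP` (`gR n d α = algebraMap (gen n d α)`). -/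
theorem map_span_cyP {f : R1c n d} (hf : f ∈ Ideal.span {cyP (gen n d)}) :
    map (algebraMap (RR n d) (KR n d)) f ∈ Ideal.span {cyP (gR n d)} := by
  obtain ⟨g, rfl⟩ := Ideal.mem_span_singleton'.1 hf
  have h1 : map (algebraMap (RR n d) (KR n d)) (cyP (gen n d)) = cyP (gR n d) := map_cyP _ _
  rw [map_mul, h1]
  exact Ideal.mul_mem_left _ _ (Ideal.subset_span rfl)

theorem a202_unit {ρ : RR n d} (hρ : ρ ≠ 0) (f : MvPolynomial (Fin (n + 1)) (KR n d))
    {I : Ideal (MvPolynomial (Fin (n + 1)) (KR n d))}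
    (h : C (algebraMap (RR n d) (KR n d) ρ) * f ∈ I) : f ∈ I := by
  have hb' : algebraMap (RR n d) (KR n d) ρ ≠ 0 :=
    (map_ne_zero_iff _ (IsFractionRing.injective (RR n d) (KR n d))).2 hρ
  have h2 : f = C (algebraMap (RR n d) (KR n d) ρ)⁻¹ * (C (algebraMap (RR n d) (KR n d) ρ) * f) := by
    rw [← mul_assoc, ← C_mul, inv_mul_cancel₀ hb', C_1, one_mul]
  rw [h2]
  exact I.mul_mem_left _ h

theorem a202_surj (f : MvPolynomial (Fin (n + 1)) (KR n d)) :
    ∃ (ρ : RR n d) (f₀ : R1c n d), ρ ≠ 0 ∧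
      C (algebraMap (RR n d) (KR n d) ρ) * f = map (algebraMap (RR n d) (KR n d)) f₀ := by
  induction f using MvPolynomial.induction_on with
  | C x =>
    obtain ⟨a, b, hb, h⟩ := IsFractionRing.div_surjective (A := RR n d) x
    refine ⟨b, C a, nonZeroDivisors.ne_zero hb, ?_⟩
    have hb' : algebraMap (RR n d) (KR n d) b ≠ 0 :=
      (map_ne_zero_iff _ (IsFractionRing.injective (RR n d) (KR n d))).2 (nonZeroDivisors.ne_zero hb)
    rw [← h, map_C, ← C_mul, mul_div_cancel₀ _ hb']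
  | add p q hp hq =>
    obtain ⟨r1, f1, h1, e1⟩ := hp
    obtain ⟨r2, f2, h2, e2⟩ := hq
    refine ⟨r1 * r2, C r2 * f1 + C r1 * f2, mul_ne_zero h1 h2, ?_⟩
    simp only [map_add, map_mul, map_C]
    rw [← e1, ← e2]
    ring
  | mul_X p i hp =>
    obtain ⟨r1, f1, h1, e1⟩ := hp
    refine ⟨r1, f1 * X i, h1, ?_⟩
    rw [map_mul, map_X, ← e1, mul_assoc]

/-- If `1` is not in the ideal, the homomorphism is injective.
PROOF.  As `phi1_inj` (H53V/ED4): if `phic ρ = 0`, `ρ ≠ 0`, then `C ρ ∈ span {cyP gen}` (`eval_g1c_sub` for `f = C ρ`), over the field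
`1 ∈ span {cyP gR}` (`map_span_cyP`, multiply by `C (algebraMap ρ)⁻¹`).  `rename (b ↦ (b, 0))` maps `cyP gR = PF (cyc gR) 0` (`PF_cyc`) to
`uK k (cyc gR) 0 0 ∈ IK` (`U0_map`, `uu_zero`, exactly as in `phi1_inj`). -/
theorem phic_inj (h1 : (1 : MvPolynomial (JV (n + 1) k) (KR n d)) ∉
    IK k (Finset.univ : Finset (Fin 1)) (cyc (gR n d))) : Function.Injective (phic n d) := by
  rw [injective_iff_map_eq_zero]
  intro ρ hρ
  by_contra hne
  refine h1 ?_
  have h2 := eval_g1c_sub (n := n) (d := d) (C ρ)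
  rw [eval₂_C, hρ, zero_sub, neg_mem_iff] at h2
  have h3 := map_span_cyP h2
  rw [map_C] at h3
  have h4 : (1 : MvPolynomial (Fin (n + 1)) (KR n d)) ∈ Ideal.span {cyP (gR n d)} := by
    refine a202_unit hne 1 ?_
    rw [mul_one]
    exact h3
  have h5 : Ideal.span {cyP (gR n d)}
      ≤ (IK k (Finset.univ : Finset (Fin 1)) (cyc (gR n d))).comap
        (rename (fun b : Fin (n + 1) => ((b, 0) : JV (n + 1) k))).toRingHom := by
    rw [Ideal.span_le]
    rintro _ rfl
    show rename (fun b : Fin (n + 1) => ((b, 0) : JV (n + 1) k)) (cyP (gR n d)) ∈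
      IK k (Finset.univ : Finset (Fin 1)) (cyc (gR n d))
    have h6 : rename (fun b : Fin (n + 1) => ((b, 0) : JV (n + 1) k)) (cyP (gR n d)) =
        uK k (cyc (gR n d)) 0 0 := by
      rw [← PF_cyc (gR n d) 0]
      have h7 := U0_map ((rename (fun b : Fin (n + 1) => ((b, 0) : JV (n + 1) k))).toRingHom :
        MvPolynomial (Fin (n + 1)) (KR n d) →+* MvPolynomial (JV (n + 1) k) (KR n d))
        (fun p : CI (n + 1) (fun _ : Fin 1 => d) => C (cyc (gR n d) p)) X 0
      have h8 : U0 (fun p : CI (n + 1) (fun _ : Fin 1 => d) => C (cyc (gR n d) p)) X 0 =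
        PF (cyc (gR n d)) 0 := rfl
      rw [h8] at h7
      refine h7.trans ?_
      unfold uK uR
      rw [uu_zero]
      unfold U0
      have h9 : ∀ p : CI (n + 1) (fun _ : Fin 1 => d),
          (rename (fun b : Fin (n + 1) => ((b, 0) : JV (n + 1) k))).toRingHom (C (cyc (gR n d) p))
          = (C (cyc (gR n d) p) : MvPolynomial (JV (n + 1) k) (KR n d)) := fun p => rename_C _ _
      have h10 : ∀ b : Fin (n + 1),
          (rename (R := KR n d) (fun b : Fin (n + 1) => ((b, 0) : JV (n + 1) k))).toRingHom (X b)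
          = (X (b, 0) : MvPolynomial (JV (n + 1) k) (KR n d)) := fun b => rename_X _ _
      simp only [h9, h10]
    rw [h6]
    exact Ideal.subset_span ⟨0, 0, Nat.zero_le _, Or.inl rfl, rfl⟩
  have h11 := h5 h4
  rw [Ideal.mem_comap, map_one] at h11
  exact h11

/-- PROOF.  `IsFractionRing.lift`, as `exists_iota` (H53V/ED4). -/
theorem exists_iotac (hinj : Function.Injective (phic n d)) :
    ∃ ι : KR n d →+* K1c n d,
      ∀ p, ι (algebraMap (RR n d) (KR n d) p) = algebraMap (R1c n d) (K1c n d) (phic n d p) := by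
  have hg : Function.Injective ((algebraMap (R1c n d) (K1c n d)).comp (phic n d)) :=
    (IsFractionRing.injective (R1c n d) (K1c n d)).comp hinj
  exact ⟨IsFractionRing.lift hg, fun p => IsFractionRing.lift_algebraMap hg p⟩

/-- PROOF.  As `eval_gen_zero` (H53V/ED4).  `ed8_clear` (H53V/ED8) gives `ρ ≠ 0`, `f₀` with `map (algebraMap ..) f₀ = C ρ * f`;
`eval₂ (phic) X f₀` is mapped to `0` in the field, so it is `0`, so `f₀ ∈ span {cyP gen}` (`eval_g1c_sub`), so `C ρ * f ∈ span {cyP gR}`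
(`map_span_cyP`) and `C ρ` is a unit. -/
theorem eval_genc_zero (ι : KR n d →+* K1c n d)
    (hι : ∀ p, ι (algebraMap (RR n d) (KR n d) p) = algebraMap (R1c n d) (K1c n d) (phic n d p))
    (f : MvPolynomial (Fin (n + 1)) (KR n d)) (hf : eval₂ ι (xc n d) f = 0) :
    f ∈ Ideal.span {cyP (gR n d)} := by
  obtain ⟨ρ, f₀, hρ, hf₀⟩ := a202_surj f
  refine a202_unit hρ f ?_
  rw [hf₀]
  refine map_span_cyP ?_
  have h1 : eval₂ ι (xc n d) (map (algebraMap (RR n d) (KR n d)) f₀) = 0 := by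
    rw [← hf₀, eval₂_mul, hf, mul_zero]
  have h2 : eval₂ ι (xc n d) (map (algebraMap (RR n d) (KR n d)) f₀)
      = algebraMap (R1c n d) (K1c n d) (eval₂ (phic n d) (fun b => (X b : R1c n d)) f₀) := by
    rw [eval₂_map]
    have h3 : (ι.comp (algebraMap (RR n d) (KR n d)))
        = (algebraMap (R1c n d) (K1c n d)).comp (phic n d) := RingHom.ext hι
    rw [h3]
    exact (eval₂_comp_left (algebraMap (R1c n d) (K1c n d)) (phic n d)
      (fun b => (X b : R1c n d)) f₀).symm
  rw [h2] at h1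
  have h4 : eval₂ (phic n d) (fun b => (X b : R1c n d)) f₀ = 0 :=
    (map_eq_zero_iff _ (IsFractionRing.injective (R1c n d) (K1c n d))).mp h1
  have h5 := eval_g1c_sub f₀
  rw [h4, zero_sub, neg_mem_iff] at h5
  exact h5

/-- PROOF.  `ι (gR α) = algebraMap (g1c α)` (`phic (gen α) = g1c α`, `aeval_X`). -/
theorem iota_gR (ι : KR n d →+* K1c n d)
    (hι : ∀ p, ι (algebraMap (RR n d) (KR n d) p) = algebraMap (R1c n d) (K1c n d) (phic n d p))
    (α : Idx n d) : ι (gR n d α) = algebraMap (R1c n d) (K1c n d) (g1c n d α) := by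
  show ι (algebraMap (RR n d) (KR n d) (gen n d α)) = _
  rw [hι]
  congr 1
  show aeval (g1c n d) (X α) = g1c n d α
  rw [aeval_X]

/-- PROOF.  `iota_gR`, `cyc_map` (A304) and `U0_map` (H53U/M1) for `algebraMap (R1c n d) (K1c n d)`, `U0_g1c`. -/
theorem U0_genc (hd : 1 ≤ d) (ι : KR n d →+* K1c n d)
    (hι : ∀ p, ι (algebraMap (RR n d) (KR n d) p) = algebraMap (R1c n d) (K1c n d) (phic n d p))
    (j : Fin 1) : U0 (cyc fun α => ι (gR n d α)) (xc n d) j = 0 := by
  have h1 : (cyc fun α => ι (gR n d α)) =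
      fun p => algebraMap (R1c n d) (K1c n d) (cyc (g1c n d) p) := by
    funext p
    rw [cyc_map]
    have h2 : (fun α => ι (gR n d α)) = fun α => algebraMap (R1c n d) (K1c n d) (g1c n d α) := by
      funext α
      exact iota_gR ι hι α
    rw [h2]
  rw [h1]
  have h2 := U0_map (algebraMap (R1c n d) (K1c n d)) (cyc (g1c n d)) (fun b => (X b : R1c n d)) j
  rw [U0_g1c hd, map_zero] at h2
  exact h2.symm

end Pool.Agent.H53L
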