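import Pool.Agent.Lib.H53L.A2D
import Pool.Agent.Lib.H53L.A201

set_option autoImplicit false

/-!
CHUNK A203 (S), H53L.  The derivative with respect to `w`.
-/

open MvPolynomial

namespace Pool.Agent.H53L

open Pool.Agent.H89T Pool.Agent.H67T Pool.Agent.H53U Pool.Agent.H53V Pool.Agent.H44K

variable {n d k : ℕ}

/-- PROOF.  `evd_cofs` (H53U/M1) with `cyP_deg`: `eval y (pderiv (last) (cyP a))`; `pderiv_X_pow` or `Derivation.leibniz_pow`; `pderiv (last)` of
`rename castSucc q` is `0` (`pderiv_eq_zero_of_notMem_vars` with `vars_rename`, or `MvPolynomial.induction_on q`). -/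
theorem evd_cyc {B : Type*} [CommRing B] [Nontrivial B] (a : Idx n d → B) (y : Fin (n + 1) → B) :
    evd (Fin.last n) (fun α => cyc a ⟨0, α⟩) y = d * y (Fin.last n) ^ (d - 1) := by
  classical
  have h1 : (fun α => cyc a ⟨0, α⟩) = cofs d (cyP a) := rfl
  rw [h1, evd_cofs (cyP_deg a)]
  have h2 : pderiv (Fin.last n) (rename Fin.castSucc (pol a) : MvPolynomial (Fin (n + 1)) B) = 0 := by
    refine pderiv_eq_zero_of_notMem_vars fun h => ?_
    have h3 := vars_rename (Fin.castSucc : Fin n → Fin (n + 1)) (pol a) h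
    obtain ⟨b, -, hb⟩ := Finset.mem_image.1 h3
    exact absurd hb (Fin.castSucc_ne_last b)
  unfold cyP
  rw [map_add, h2, add_zero, Derivation.leibniz_pow, pderiv_X_self]
  rw [nsmul_eq_mul, smul_eq_mul, mul_one, map_mul, map_pow, eval_X, map_natCast]

/-- PROOF.  `DelJ` is the determinant of the matrix `MX univ (C ∘ cyc a) (X (·, 0))` of size one (`Matrix.det_unique` or
`Matrix.det_eq_elem_of_card_eq_one`; `univ : Finset (Fin 1)` has the only element `0`), with the entry
`evd (Fin.natAdd n 0) (fun α => C (cyc a ⟨0, α⟩)) (X (·, 0))`; `Fin.natAdd n 0 = Fin.last n`, `C (cyc a p) = cyc (C ∘ a) p` (`cyc_map`), `evd_cyc`. -/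
theorem DelJ_cyc {B : Type*} [CommRing B] [Nontrivial B] (a : Idx n d → B) :
    DelJ k (Finset.univ : Finset (Fin 1)) (cyc a) =
      C (d : B) * (X (Fin.last n, 0) : MvPolynomial (JV (n + 1) k) B) ^ (d - 1) := by
  have hcard : Fintype.card ↥(Finset.univ : Finset (Fin 1)) = 1 := by simp
  unfold DelJ
  rw [Matrix.det_eq_elem_of_card_eq_one hcard ⟨0, Finset.mem_univ 0⟩]
  have h1 : (fun α => (C (cyc a ⟨0, α⟩) : MvPolynomial (JV (n + 1) k) B)) =
      fun α => cyc (fun α => (C (a α) : MvPolynomial (JV (n + 1) k) B)) ⟨0, α⟩ := by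
    funext α
    exact cyc_map C a _
  have h2 := evd_cyc (fun α => (C (a α) : MvPolynomial (JV (n + 1) k) B))
    (fun b => (X (b, 0) : MvPolynomial (JV (n + 1) k) B))
  rw [← h1] at h2
  refine h2.trans ?_
  rw [map_natCast]

end Pool.Agent.H53L
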