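import Pool.Agent.Lib.H53L.A2Reg

set_option autoImplicit false

/-!
CHUNK A204 (S), H53L.  The chart and the coordinate `w` in large degree.
-/

open MvPolynomial

namespace Pool.Agent.H53L

open Pool.Agent.H89T Pool.Agent.H67T Pool.Agent.H53U Pool.Agent.H53V Pool.Agent.H44K

/-- PROOF.  `A₀` = the maximum of the two numbers of `regC` for `b = none`, `b = some (Fin.last n)`.  Second alternative: `regC`.  First alternative:
`IK = (IhC).map dhom` (`map_dhom_ideal`, H53V/ER2), `ehb_pow` (H53V/EHB, with `HomI_hom`, H53V/ED2) gives `X none ^ r * f ∈ IhC`; go down from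
`r` with `RegC` for `none` (`xv none = none`; `X none ^ i * f` has bidegree `(i + A, m)`), as in the proof of `ehb_chart` (H53V/EHB). -/
theorem goodC_exists {n k d : ℕ} (hn : 1 ≤ n) (hd : 2 ≤ d) : ∃ A₀ : ℕ, GoodC n k d A₀ := by
  obtain ⟨A₁, h1⟩ := regC (k := k) hn hd (none : Option (Fin (n + 1)))
  obtain ⟨A₂, h2⟩ := regC (k := k) hn hd (some (Fin.last n))
  refine ⟨max A₁ A₂, fun A hA m f hf h => ?_⟩
  rcases h with h | h
  · have hI : HomI (IhC n k d) := HomI_hom Finset.univ (cyc (gR n d))
    have hmap : (IhC n k d).map (dhom : MvPolynomial (HV (n + 1) k) (KR n d) →ₐ[KR n d]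
        MvPolynomial (JV (n + 1) k) (KR n d)) = IK k Finset.univ (cyc (gR n d)) :=
      map_dhom_ideal Finset.univ (cyc (gR n d))
    rw [← hmap] at h
    obtain ⟨r, hr⟩ := ehb_pow hI hf h
    have hX : BiH 1 0 (X none : MvPolynomial (HV (n + 1) k) (KR n d)) := isWeightedHomogeneous_X _ _ _
    have key : ∀ s : ℕ, X none ^ s * f ∈ IhC n k d → f ∈ IhC n k d := by
      intro s
      induction s with
      | zero =>
        intro h1
        rwa [pow_zero, one_mul] at h1
      | succ s ih =>
        intro h3
        apply ih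
        have h4 : BiH (s * 1 + A) (s * 0 + m) (X none ^ s * f) :=
          (IsWeightedHomogeneous.pow hX s).mul hf
        refine h1 (s * 1 + A) ?_ _ _ h4 ?_
        · have := le_trans (le_max_left A₁ A₂) hA
          omega
        · have h5 : (X (xv none) : MvPolynomial (HV (n + 1) k) (KR n d)) * (X none ^ s * f) =
              X none ^ (s + 1) * f := by
            rw [← mul_assoc, pow_succ']
            rfl
          rw [h5]
          exact h3
    exact key r hr
  · exact h2 A (le_trans (le_max_right _ _) hA) m f hf h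

end Pool.Agent.H53L
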