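import Pool.Agent.Lib.H53L.A202
import Pool.Agent.Lib.H53L.A203
import Pool.Agent.Lib.H53V.R7

set_option autoImplicit false

/-!
CHUNK A205 (M), H53L.  The restriction to the generic fibre is injective.  Model: H53V/ED5.lean.
-/

open MvPolynomial

namespace Pool.Agent.H53L

open Pool.Agent.H89T Pool.Agent.H67T Pool.Agent.H53U Pool.Agent.H53V Pool.Agent.H44K

/-- PROOF.  As `ResX_gen_inj` (H53V/ED5).  The coefficients of `ResX k univ (C ∘ cyc gR) X (map C P)` are in `span {cyP gR} = span (range (PF (cyc gR)))`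
(`PF_cyc`): `ResX_map` (H53V/R1) with `φ = eval₂Hom ι (xc)`, `cyc_map`, and `eval_genc_zero`.  `elim` (H53V/R7): `DelJ ^ e * P ∈ IK`; `DelJ_cyc`: `DelJ ^ e =
C (d ^ e) * X (last, 0) ^ E`, `E = (d - 1) * e`, and `C (d ^ e)` is a unit (characteristic `0`), so `X (last, 0) ^ E * P ∈ IK`.
Let `f = homz A P` (`homz_bi`: `BiH A m f`; `dhom_homz`: `dhom f = P`), `W = X (xv (some (last)))`, `dhom W = X (last, 0)`, `BiH 1 0 W`.
`dhom (W ^ E * f) = X (last, 0) ^ E * P ∈ IK`, so `W ^ E * f ∈ IhC` (`GoodC`, first alternative, in degree `A + E`), so `f ∈ IhC` (second alternative,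
`E` times), so `P = dhom f ∈ (IhC).map dhom = IK` (`map_dhom_ideal`). -/
theorem ResX_genc_inj {n k d : ℕ} (hd : 1 ≤ d) {A₀ : ℕ} (hA₀ : GoodC n k d A₀) (ι : KR n d →+* K1c n d)
    (hι : ∀ p, ι (algebraMap (RR n d) (KR n d) p) = algebraMap (R1c n d) (K1c n d) (phic n d p))
    {A m : ℕ} (hA : A₀ ≤ A) {P : MvPolynomial (JV (n + 1) k) (KR n d)} (hP : BiK A m P)
    (h0 : ResX k (Finset.univ : Finset (Fin 1)) (cyc fun α => ι (gR n d α)) (xc n d) (map ι P) = 0) :
    P ∈ IK k (Finset.univ : Finset (Fin 1)) (cyc (gR n d)) := by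
  -- the coefficients
  have hcoef : ∀ ν, coeff ν (ResX k (Finset.univ : Finset (Fin 1)) (fun p => C (cyc (gR n d) p))
      (fun b => (X b : MvPolynomial (Fin (n + 1)) (KR n d))) (map C P)) ∈
        Ideal.span (Set.range (PF (cyc (gR n d)))) := by
    intro ν
    have hr : Set.range (PF (cyc (gR n d))) = {cyP (gR n d)} := by
      ext q
      constructor
      · rintro ⟨j, rfl⟩
        exact PF_cyc (gR n d) j
      · intro hq
        exact ⟨0, (PF_cyc (gR n d) 0).trans hq.symm⟩
    rw [hr]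
    refine eval_genc_zero ι hι _ ?_
    have h1 := ResX_map (eval₂Hom ι (xc n d)) (Finset.univ : Finset (Fin 1)) (fun p => (C (cyc (gR n d) p) :
      MvPolynomial (Fin (n + 1)) (KR n d))) (fun b => X b) (map C P)
    have h2 : (fun p => eval₂Hom ι (xc n d) (C (cyc (gR n d) p))) = cyc fun α => ι (gR n d α) := by
      funext p
      exact (eval₂_C _ _ _).trans (cyc_map ι (gR n d) p)
    have h3 : (fun b : Fin (n + 1) => eval₂Hom ι (xc n d) (X b)) = xc n d := by
      funext b
      exact eval₂_X _ _ _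
    have h4 : map (eval₂Hom ι (xc n d)) (map (C : KR n d →+* MvPolynomial (Fin (n + 1)) (KR n d)) P) =
        map ι P := by
      have h5 : (eval₂Hom ι (xc n d)).comp
          (C : KR n d →+* MvPolynomial (Fin (n + 1)) (KR n d)) = ι := by
        refine RingHom.ext fun r => ?_
        exact eval₂_C ι (xc n d) r
      rw [map_map, h5]
    rw [h2, h3, h4, h0] at h1
    have h5 := congrArg (coeff ν) h1
    rw [coeff_map, coeff_zero] at h5
    exact h5
  obtain ⟨e, he⟩ := elim (Finset.univ : Finset (Fin 1)) (cyc (gR n d)) P hcoef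
  rw [DelJ_cyc, mul_pow, ← C_pow, ← pow_mul] at he
  have hd0 : ((d : KR n d) ^ e) ≠ 0 := by
    refine pow_ne_zero e ?_
    rw [Ne, Nat.cast_eq_zero]
    omega
  have he' : (X (Fin.last n, 0) : MvPolynomial (JV (n + 1) k) (KR n d)) ^ ((d - 1) * e) * P ∈
      IK k (Finset.univ : Finset (Fin 1)) (cyc (gR n d)) := by
    have h1 := Ideal.mul_mem_left _ (C ((d : KR n d) ^ e)⁻¹) he
    have h2 : C ((d : KR n d) ^ e)⁻¹ * (C ((d : KR n d) ^ e) * X (Fin.last n, 0) ^ ((d - 1) * e) * P) =
        (X (Fin.last n, 0) : MvPolynomial (JV (n + 1) k) (KR n d)) ^ ((d - 1) * e) * P := by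
      rw [← mul_assoc, ← mul_assoc, ← C_mul, inv_mul_cancel₀ hd0, C_1, one_mul]
    rw [h2] at h1
    exact h1
  -- homogenization
  obtain ⟨W, hW⟩ : ∃ W : MvPolynomial (HV (n + 1) k) (KR n d), W = X (xv (some (Fin.last n))) := ⟨_, rfl⟩
  have hWB : BiH 1 0 W := by
    rw [hW]
    exact isWeightedHomogeneous_X _ _ _
  have hWd : dhom W = (X (Fin.last n, 0) : MvPolynomial (JV (n + 1) k) (KR n d)) := by
    rw [hW]
    unfold dhom
    rw [aeval_X]
    rfl
  have hf : BiH A m (homz A P) := homz_bi hP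
  have hbi : ∀ i : ℕ, BiH (A + i) m (W ^ i * homz A P) := by
    intro i
    have h1 := (IsWeightedHomogeneous.pow hWB i).mul hf
    have h2 : i • ((1, 0) : ℕ × ℕ) + (A, m) = (A + i, m) := by
      ext
      · simp [add_comm]
      · simp
    rw [h2] at h1
    exact h1
  have hdown : ∀ i : ℕ, W ^ i * homz A P ∈ IhC n k d → homz A P ∈ IhC n k d := by
    intro i
    induction i with
    | zero =>
      intro h
      rw [pow_zero, one_mul] at h
      exact h
    | succ i ih =>
      intro h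
      refine ih ?_
      refine hA₀ (A + i) (by omega) m _ (hbi i) (Or.inr ?_)
      rw [← hW, ← mul_assoc, ← pow_succ']
      exact h
  have hmem : W ^ ((d - 1) * e) * homz A P ∈ IhC n k d := by
    refine hA₀ (A + (d - 1) * e) (by omega) m _ (hbi _) (Or.inl ?_)
    rw [map_mul, map_pow, hWd, dhom_homz]
    exact he'
  have hfin := hdown _ hmem
  have h6 := Ideal.mem_map_of_mem (dhom : MvPolynomial (HV (n + 1) k) (KR n d) →ₐ[KR n d]
    MvPolynomial (JV (n + 1) k) (KR n d)) hfin
  rw [IhC, map_dhom_ideal, dhom_homz] at h6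
  exact h6

end Pool.Agent.H53L
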