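import Pool.Agent.Lib.H53L.A202
import Pool.Agent.Lib.H89T.K1

set_option autoImplicit false

/-!
CHUNK A206 (M), H53L.  The dimension of the space of the coefficients.
-/

open MvPolynomial

namespace Pool.Agent.H53L

open Pool.Agent.H89T Pool.Agent.H67T Pool.Agent.H53U Pool.Agent.H53V Pool.Agent.H44K

/-- The number of the exponents of degree at most `B` in `n` variables.
PROOF.  Induction on `n` or an equivalence with `Sym (Option (Fin n)) B` / the slack variable: `{α : Fin n → ℕ // ∑ ≤ B} ≃ {β : Option (Fin n) → ℕ // ∑ = B}`,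
stars and bars (`Sym.card_sym_eq_choose`, `Finset.card_finsuppAntidiag`, `Finset.Nat.card_antidiagonalTuple`, or a lemma of this kind in the libraries H44K, H53V, H78N;
`grep -rn choose Pool/Agent/Lib/H44K Pool/Agent/Lib/H53V`). -/
theorem card_Idx (n B : ℕ) : Fintype.card (Idx n B) = (B + n).choose n := by
  have e : Idx n B ≃ {f : Fin n → ℕ // ∑ i, f i ≤ B} :=
    { toFun := fun α => ⟨fun b => (α.1 b : ℕ), α.2⟩
      invFun := fun f => ⟨fun b => ⟨f.1 b, Nat.lt_succ_of_le
        ((Finset.single_le_sum (f := f.1) (fun i _ => Nat.zero_le _) (Finset.mem_univ b)).trans f.2)⟩, f.2⟩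
      left_inv := fun α => rfl
      right_inv := fun f => rfl }
  rw [← Nat.card_eq_fintype_card, Nat.card_congr e, card_exp, Fintype.card_fin]

/-- The values of the monomials of bounded degree are in the span. -/
theorem a206_mem {n d : ℕ} [Algebra (KR n d) (K1c n d)] (hd : 1 ≤ d)
    (h0 : U0 (cyc fun α => algebraMap (KR n d) (K1c n d) (gR n d α)) (xc n d) 0 = 0) (B : ℕ) (i : ℕ) :
    ∀ γ : Fin n → ℕ, i + ∑ b, γ b ≤ B →
      xc n d (Fin.last n) ^ i * ∏ b : Fin n, xc n d b.castSucc ^ γ b ∈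
        Submodule.span (KR n d) (Set.range fun p : Fin d × Idx n B =>
          xc n d (Fin.last n) ^ (p.1 : ℕ) * ∏ b : Fin n, xc n d b.castSucc ^ ((p.2.1 b : ℕ))) := by
  induction i using Nat.strong_induction_on with
  | _ i ih =>
    intro γ hγ
    by_cases hi : i < d
    · have hγB : ∑ b, γ b ≤ B := (Nat.le_add_left _ _).trans hγ
      exact Submodule.subset_span ⟨(⟨i, hi⟩, ⟨fun b => ⟨γ b, Nat.lt_succ_of_le
        ((Finset.single_le_sum (f := γ) (fun i _ => Nat.zero_le _) (Finset.mem_univ b)).trans hγB)⟩, hγB⟩), rfl⟩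
    · have hdi : d ≤ i := Nat.le_of_not_lt hi
      have h1 : xc n d (Fin.last n) ^ d = - ∑ α : Idx n d, algebraMap (KR n d) (K1c n d) (gR n d α) *
          ∏ b : Fin n, xc n d b.castSucc ^ ((α.1 b : ℕ)) := by
        rw [U0_cyc _ hd] at h0
        exact eq_neg_of_add_eq_zero_left h0
      have h2 : xc n d (Fin.last n) ^ i * ∏ b : Fin n, xc n d b.castSucc ^ γ b =
          - ∑ α : Idx n d, gR n d α • (xc n d (Fin.last n) ^ (i - d) *
            ∏ b : Fin n, xc n d b.castSucc ^ (γ b + (α.1 b : ℕ))) := by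
        have h3 : xc n d (Fin.last n) ^ i = xc n d (Fin.last n) ^ (i - d) * xc n d (Fin.last n) ^ d := by
          rw [← pow_add, Nat.sub_add_cancel hdi]
        rw [h3, h1, mul_neg, neg_mul, Finset.mul_sum, Finset.sum_mul]
        refine congrArg Neg.neg (Finset.sum_congr rfl fun α _ => ?_)
        rw [Algebra.smul_def]
        have h4 : ∏ b : Fin n, xc n d b.castSucc ^ (γ b + (α.1 b : ℕ)) =
            (∏ b : Fin n, xc n d b.castSucc ^ γ b) * ∏ b : Fin n, xc n d b.castSucc ^ ((α.1 b : ℕ)) := by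
          rw [← Finset.prod_mul_distrib]
          exact Finset.prod_congr rfl fun b _ => pow_add _ _ _
        rw [h4]
        ring
      rw [h2]
      refine Submodule.neg_mem _ (Submodule.sum_mem _ fun α _ => Submodule.smul_mem _ _ ?_)
      apply ih (i - d) (by omega)
      rw [Finset.sum_add_distrib]
      have := α.2
      omega

/-- PROOF.  Let `w = xc (last)`, `x = xc ∘ castSucc`, `v (i, β) = w ^ i * ∏ b, x b ^ (β.1 b)`, `(i, β) : Fin d × Idx n B`, `S` = the span of the `v (i, β)` over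
`KR n d`.  Claim: for every exponent `μ : Fin (n + 1) →₀ ℕ` of degree at most `B`, `aeval (xc) (monomial μ 1) ∈ S`.  Strong induction on `μ (last)`:
if `μ (last) < d` it is `v (μ (last), μ ∘ castSucc)`; otherwise let `ν = μ - single (last) d`; by `h0`, `w ^ d = - ∑ α, (algebraMap (gR α)) * ∏ b, x b ^ (α.1 b)`
(`U0_cyc`, `ev`), so the value is `- ∑ α, gR α • (value at the exponent ν + (α on the first n variables))`, whose degree is at most
`B - d + d` and whose exponent of `w` is `μ (last) - d` (`1 ≤ d`).  So `Uc B ≤ S` (`mem_restrictTotalDegree`, `f = ∑ monomial`, `map_sum`, `map_smul`), and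
`finrank S ≤ card (Fin d × Idx n B) = d * (B + n).choose n` (`finrank_range_le_card`, `card_Idx`). -/
theorem finrank_Uc {n d : ℕ} [Algebra (KR n d) (K1c n d)] (hd : 1 ≤ d)
    (h0 : U0 (cyc fun α => algebraMap (KR n d) (K1c n d) (gR n d α)) (xc n d) 0 = 0) (B : ℕ) :
    FiniteDimensional (KR n d) (Uc (n := n) (d := d) B) ∧
    Module.finrank (KR n d) (Uc (n := n) (d := d) B) ≤ d * (B + n).choose n := by
  have hle : Uc (n := n) (d := d) B ≤ Submodule.span (KR n d) (Set.range fun p : Fin d × Idx n B =>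
      xc n d (Fin.last n) ^ (p.1 : ℕ) * ∏ b : Fin n, xc n d b.castSucc ^ ((p.2.1 b : ℕ))) := by
    rintro _ ⟨f, hf, rfl⟩
    have hf1 : f.totalDegree ≤ B := (mem_restrictTotalDegree _ _ _).1 hf
    have h1 : (aeval (xc n d) : MvPolynomial (Fin (n + 1)) (KR n d) →ₐ[KR n d] K1c n d).toLinearMap f =
        ∑ μ ∈ f.support, coeff μ f • (xc n d (Fin.last n) ^ μ (Fin.last n) *
          ∏ b : Fin n, xc n d b.castSucc ^ μ b.castSucc) := by
      rw [AlgHom.toLinearMap_apply, aeval_def, eval₂_eq']
      refine Finset.sum_congr rfl fun μ _ => ?_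
      rw [Fin.prod_univ_castSucc, Algebra.smul_def]
      ring
    rw [h1]
    refine Submodule.sum_mem _ fun μ hμ => Submodule.smul_mem _ _ (a206_mem hd h0 B _ _ ?_)
    have h2 := (le_totalDegree hμ).trans hf1
    rw [Finsupp.sum_fintype _ _ (fun _ => rfl), Fin.sum_univ_castSucc] at h2
    omega
  have hfd : FiniteDimensional (KR n d) (Submodule.span (KR n d) (Set.range fun p : Fin d × Idx n B =>
      xc n d (Fin.last n) ^ (p.1 : ℕ) * ∏ b : Fin n, xc n d b.castSucc ^ ((p.2.1 b : ℕ)))) :=
    FiniteDimensional.span_of_finite _ (Set.finite_range _)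
  refine ⟨Submodule.finiteDimensional_of_le hle, (Submodule.finrank_mono hle).trans ?_⟩
  refine (finrank_range_le_card _).trans ?_
  rw [Fintype.card_prod, Fintype.card_fin, card_Idx]

end Pool.Agent.H53L
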