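import Pool.Agent.Lib.H53L.A205
import Pool.Agent.Lib.H53L.A206
import Pool.Agent.Lib.H53V.ED7

set_option autoImplicit false

/-!
CHUNK A207 (M), H53L.  More than `tau` independent elements over the field of the generic point.  Model: H53V/ED7.lean.
-/

open MvPolynomial

namespace Pool.Agent.H53L

open Pool.Agent.H89T Pool.Agent.H67T Pool.Agent.H53U Pool.Agent.H53V Pool.Agent.H44K

/-- The values of the coefficients are values of polynomials of bounded degree.
PROOF.  As `ed7_mem` (H53V/ED7): `ResX_map` with `φ = aeval (xc)`, `ResX_deg` (H53V/R6B; `∑ j ∈ univ, (d - 1) = d - 1`: `Fin.sum_univ_one` or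
`Finset.sum_const`), `cyc_map` (A304): `(fun p => algebraMap .. (cyc gR p)) = cyc (fun α => algebraMap .. (gR α))`. -/
theorem a207_mem {n k d : ℕ} [Algebra (KR n d) (K1c n d)] {a0 m : ℕ}
    {P : MvPolynomial (JV (n + 1) k) (KR n d)} (hP : BiK a0 m P)
    (ν : FZ n k (Finset.univ : Finset (Fin 1)) →₀ ℕ) :
    ed7_rho k (Finset.univ : Finset (Fin 1)) (K := KR n d) (cyc fun α => algebraMap (KR n d) (K1c n d) (gR n d α))
      (xc n d) P ν ∈ Uc (n := n) (d := d) (a0 + 2 * m * (d - 1)) := by
  obtain ⟨φ, hφ⟩ : ∃ φ : MvPolynomial (Fin (n + 1)) (KR n d) →+* K1c n d, φ =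
    (aeval (xc n d) : MvPolynomial (Fin (n + 1)) (KR n d) →ₐ[KR n d] K1c n d).toRingHom := ⟨_, rfl⟩
  have h1 := ResX_map φ (Finset.univ : Finset (Fin 1)) (fun p => C (cyc (gR n d) p))
    (fun b => (X b : MvPolynomial (Fin (n + 1)) (KR n d))) (map C P)
  have hC : ∀ r, φ (C r) = algebraMap (KR n d) (K1c n d) r := fun r => by
    rw [hφ]
    exact aeval_C _ r
  have hX : ∀ b, φ (X b) = xc n d b := fun b => by
    rw [hφ]
    exact aeval_X _ b
  have hcomp : φ.comp C = algebraMap (KR n d) (K1c n d) := RingHom.ext hC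
  rw [MvPolynomial.map_map, hcomp] at h1
  have h2 : (fun p => φ (C (cyc (gR n d) p))) = cyc fun α => algebraMap (KR n d) (K1c n d) (gR n d α) := by
    funext p
    rw [hC]
    exact cyc_map _ _ p
  have h3 : (fun b => φ (X b)) = xc n d := funext hX
  rw [h2, h3] at h1
  rw [ed7_rho_apply, ← h1, coeff_map, hφ]
  refine Submodule.mem_map_of_mem (f := (aeval (xc n d) :
    MvPolynomial (Fin (n + 1)) (KR n d) →ₐ[KR n d] K1c n d).toLinearMap) ?_
  rw [mem_restrictTotalDegree]
  have h4 := ResX_deg (Finset.univ : Finset (Fin 1)) (cyc (gR n d)) hP ν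
  rw [Fin.sum_univ_one] at h4
  exact h4

/-- PROOF.  As `exists_over_K` (H53V/ED7): `1 ∉ IK` from `DimC` (`R > 0`), `phic_inj`, `exists_iotac`, `ι` makes `K1c` an algebra over `KR`; `rho = ed7_rho ..`;
the `rho (P i)` are linearly independent over `KR` (`ResX_genc_inj`, `ed7_bik`, the last part of `DimC`); their span `V` has dimension `R`, all its
coefficients are in `Uc (a0 + 2 m (d - 1))` (`a207_mem`), of dimension at most `d * (..).choose n` (`finrank_Uc`, `U0_genc`); `rank_extension` (H53V/ED1)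
with `r = tau`. -/
theorem exists_over_KR {n k d : ℕ} (hd : 1 ≤ d) {A₀ : ℕ} (hA₀ : GoodC n k d A₀) {a0 m s μ R : ℕ} (ha0 : A₀ ≤ a0)
    (hR : tau (FrI n (Finset.univ : Finset (Fin 1))) k m μ *
      (d * (a0 + 2 * m * (d - 1) + n).choose n) < R)
    (l : Fin n → ℂ) (h : DimC n k d m a0 s R l) :
    ∃ (ι : KR n d →+* K1c n d)
      (P Q : Fin (tau (FrI n (Finset.univ : Finset (Fin 1))) k m μ + 1) →
        MvPolynomial (JV (n + 1) k) (KR n d)),
      (∀ p, ι (algebraMap (RR n d) (KR n d) p) = algebraMap (R1c n d) (K1c n d) (phic n d p)) ∧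
      (∀ i, BiK a0 m (P i)) ∧ (∀ i, BiK a0 m (Q i)) ∧
      (∀ i, linK k (lin0 fun b => algebraMap ℂ (KR n d) (l b)) ^ s * P i - Q i ∈
        IK k (Finset.univ : Finset (Fin 1)) (cyc (gR n d))) ∧
      LinearIndependent (K1c n d) fun i =>
        ResX k (Finset.univ : Finset (Fin 1)) (cyc fun α => ι (gR n d α)) (xc n d) (map ι (P i)) := by
  obtain ⟨P, Q, hP, hQ, hrel, hind⟩ := h
  have h1 : (1 : MvPolynomial (JV (n + 1) k) (KR n d)) ∉
      IK k (Finset.univ : Finset (Fin 1)) (cyc (gR n d)) := by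
    intro h1
    have htop : IK k (Finset.univ : Finset (Fin 1)) (cyc (gR n d)) = ⊤ := (Ideal.eq_top_iff_one _).mpr h1
    have h2 := hind (fun _ => 1) (by rw [htop]; trivial)
    have h3 : (1 : KR n d) = 0 := congrFun h2 ⟨0, by omega⟩
    exact one_ne_zero h3
  obtain ⟨ι, hι⟩ := exists_iotac (phic_inj h1)
  letI alg : Algebra (KR n d) (K1c n d) := ι.toAlgebra
  have halg : algebraMap (KR n d) (K1c n d) = ι := rfl
  set B := a0 + 2 * m * (d - 1) with hB
  have hU0 : U0 (cyc fun α => algebraMap (KR n d) (K1c n d) (gR n d α)) (xc n d) 0 = 0 := U0_genc hd ι hι 0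
  obtain ⟨hfU, hrU⟩ := finrank_Uc hd hU0 B
  set rho := ed7_rho (n := n) k (Finset.univ : Finset (Fin 1)) (K := KR n d)
    (cyc fun α => algebraMap (KR n d) (K1c n d) (gR n d α)) (xc n d) with hrho
  -- linear independence over the small field
  have hli : LinearIndependent (KR n d) fun i => rho (P i) := by
    rw [Fintype.linearIndependent_iff]
    intro w hw
    have h2 : rho (∑ i, C (w i) * P i) = 0 := by
      rw [map_sum, ← hw]
      exact Finset.sum_congr rfl fun i _ => by rw [C_mul', map_smul]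
    have h3 : ResX k (Finset.univ : Finset (Fin 1)) (cyc fun α => ι (gR n d α)) (xc n d)
        (map ι (∑ i, C (w i) * P i)) = 0 := by
      ext ν
      rw [coeff_zero]
      exact congrFun h2 ν
    have h4 := ResX_genc_inj hd hA₀ ι hι ha0 (ed7_bik hP w) h3
    intro i
    exact congrFun (hind w h4) i
  set V := Submodule.span (KR n d) (Set.range fun i => rho (P i)) with hV
  have hVr : Module.finrank (KR n d) V = R := by
    rw [hV, finrank_span_eq_card hli, Fintype.card_fin]
  have hVf : FiniteDimensional (KR n d) V :=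
    FiniteDimensional.span_of_finite _ (Set.finite_range _)
  have hVU : ∀ v ∈ V, ∀ ν, v ν ∈ Uc (n := n) (d := d) B := by
    intro v hv ν
    have hle : V ≤ (Uc (n := n) (d := d) B).comap
        (LinearMap.proj ν : ((FZ n k (Finset.univ : Finset (Fin 1)) →₀ ℕ) → K1c n d) →ₗ[KR n d] K1c n d) := by
      rw [hV, Submodule.span_le]
      rintro _ ⟨i, rfl⟩
      exact a207_mem (hP i) ν
    exact hle hv
  have hlt : tau (FrI n (Finset.univ : Finset (Fin 1))) k m μ *
      Module.finrank (KR n d) (Uc (n := n) (d := d) B) < Module.finrank (KR n d) V := by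
    rw [hVr]
    exact lt_of_le_of_lt (Nat.mul_le_mul_left _ hrU) hR
  obtain ⟨v, hvV, hvli⟩ := rank_extension V (Uc (n := n) (d := d) B) hVU hlt
  have hex : ∀ i, ∃ w : Fin R → KR n d, ∑ t, w t • rho (P t) = v i := fun i =>
    (Submodule.mem_span_range_iff_exists_fun _).mp (hvV i)
  choose w hw using hex
  refine ⟨ι, fun i => ∑ t, C (w i t) * P t, fun i => ∑ t, C (w i t) * Q t, hι,
    fun i => ed7_bik hP (w i), fun i => ed7_bik hQ (w i), ?_, ?_⟩
  · intro i
    have h2 : linK k (lin0 fun b => algebraMap ℂ (KR n d) (l b)) ^ s * ∑ t, C (w i t) * P t -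
        ∑ t, C (w i t) * Q t = ∑ t, C (w i t) *
          (linK k (lin0 fun b => algebraMap ℂ (KR n d) (l b)) ^ s * P t - Q t) := by
      rw [Finset.mul_sum, ← Finset.sum_sub_distrib]
      exact Finset.sum_congr rfl fun t _ => by ring
    rw [h2]
    exact Ideal.sum_mem _ fun t _ => Ideal.mul_mem_left _ _ (hrel t)
  · refine LinearIndependent.of_comp (ed7_cf (σ := FZ n k (Finset.univ : Finset (Fin 1))) (L := K1c n d)) ?_
    have h2 : (⇑(ed7_cf (σ := FZ n k (Finset.univ : Finset (Fin 1))) (L := K1c n d)) ∘ fun i =>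
        ResX k (Finset.univ : Finset (Fin 1)) (cyc fun α => ι (gR n d α)) (xc n d)
          (map ι (∑ t, C (w i t) * P t))) = v := by
      funext i
      rw [← hw i]
      have h3 : ∑ t, w i t • rho (P t) = rho (∑ t, C (w i t) * P t) := by
        rw [map_sum]
        exact Finset.sum_congr rfl fun t _ => by rw [C_mul', map_smul]
      rw [h3]
      rfl
    rw [h2]
    exact hvli

end Pool.Agent.H53L
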