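import Pool.Agent.Lib.H53L.A2D
import Pool.Agent.Lib.H53L.A304
import Pool.Agent.Lib.H53V.ED8

set_option autoImplicit false

/-!
CHUNK A208 (S/M), H53L.  Clearing denominators.  Model: `clear_rel`, H53V/ED8.lean.
-/

open MvPolynomial

namespace Pool.Agent.H53L

open Pool.Agent.H89T Pool.Agent.H67T Pool.Agent.H53U Pool.Agent.H53V Pool.Agent.H44K

/-- PROOF.  As `clear_rel` (H53V/ED8), with `ed8_clear`, `ed8_mem`, `ed8_bi`, `ed8_IK_map` (all general); `cyc (gR n d) p = algebraMap (cyc (gen n d) p)` by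
`cyc_map` (A304); `map φ (linK k (lin0 (C ∘ l))) = linK k (lin0 (algebraMap ∘ l))` (`Fin.sum_univ_castSucc`, `lin0 = Fin.snoc l 0`: `Fin.snoc_castSucc`,
`Fin.snoc_last`; or `Fin.lastCases`). -/
theorem clear_relc {n k d : ℕ} {a0 m s : ℕ}
    (P Q : MvPolynomial (JV (n + 1) k) (KR n d)) (hP : BiK a0 m P) (hQ : BiK a0 m Q) (l : Fin n → ℂ)
    (h : linK k (lin0 fun b => algebraMap ℂ (KR n d) (l b)) ^ s * P - Q ∈
      IK k (Finset.univ : Finset (Fin 1)) (cyc (gR n d))) :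
    ∃ (ρ : RR n d) (P' Q' : MvPolynomial (JV (n + 1) k) (RR n d)), ρ ≠ 0 ∧ BiK a0 m P' ∧ BiK a0 m Q' ∧
      map (algebraMap (RR n d) (KR n d)) P' = C (algebraMap (RR n d) (KR n d) ρ) * P ∧
      linK k (lin0 fun b => C (l b)) ^ s * P' - Q' ∈
        IK k (Finset.univ : Finset (Fin 1)) (cyc (gen n d)) := by
  set φ : RR n d →+* KR n d := algebraMap (RR n d) (KR n d) with hφ
  obtain ⟨ρ1, x1, hρ1, hx1⟩ := ed8_clear (R := RR n d) P
  obtain ⟨ρ2, x2, hρ2, hx2⟩ := ed8_clear (R := RR n d) Q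
  have hg : (fun p => φ (cyc (gen n d) p)) = cyc (gR n d) := by
    funext p
    exact cyc_map φ (gen n d) p
  have hI : IK k (Finset.univ : Finset (Fin 1)) (cyc (gR n d)) =
      Ideal.map (map φ) (IK k (Finset.univ : Finset (Fin 1)) (cyc (gen n d))) := by
    rw [ed8_IK_map, hg]
  rw [hI] at h
  obtain ⟨ρ0, y, hρ0, hy, hyx⟩ := ed8_mem (IK k (Finset.univ : Finset (Fin 1)) (cyc (gen n d))) _ h
  rw [← hφ] at hx1 hx2 hyx
  have hlin : map φ (linK k (lin0 fun b => (C (l b) : RR n d))) =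
      linK k (lin0 fun b => algebraMap ℂ (KR n d) (l b)) := by
    unfold linK
    rw [map_sum]
    refine Finset.sum_congr rfl fun b _ => ?_
    rw [map_mul, MvPolynomial.map_C, MvPolynomial.map_X]
    congr 2
    refine Fin.lastCases ?_ (fun b => ?_) b
    · unfold lin0
      rw [Fin.snoc_last, Fin.snoc_last, map_zero]
    · unfold lin0
      rw [Fin.snoc_castSucc, Fin.snoc_castSucc]
      rfl
  refine ⟨ρ0 * ρ1 * ρ2, C (ρ0 * ρ2) * x1, C (ρ0 * ρ1) * x2, mul_ne_zero (mul_ne_zero hρ0 hρ1) hρ2,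
    ed8_bi hP hx1 _, ed8_bi hQ hx2 _, ?_, ?_⟩
  · rw [map_mul, MvPolynomial.map_C, hx1]
    simp only [map_mul]
    ring
  · have hinj : Function.Injective (map φ : MvPolynomial (JV (n + 1) k) (RR n d) → MvPolynomial (JV (n + 1) k) (KR n d)) :=
      MvPolynomial.map_injective _ (IsFractionRing.injective (RR n d) (KR n d))
    have e1 : linK k (lin0 fun b => (C (l b) : RR n d)) ^ s * (C (ρ0 * ρ2) * x1) - C (ρ0 * ρ1) * x2 =
        C (ρ1 * ρ2) * y := by
      apply hinj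
      simp only [map_sub, map_mul, map_pow, hlin, hx1, hx2, hyx, MvPolynomial.map_C]
      ring
    rw [e1]
    exact Ideal.mul_mem_left _ _ hy

end Pool.Agent.H53L
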