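import Pool.Agent.Lib.H53L.A201
import Pool.Agent.Lib.H53V.ED9

set_option autoImplicit false

/-!
CHUNK A209 (M), H53L.  The complex point.  Model: `complex_point`, H53V/ED9.lean.
-/

open MvPolynomial

namespace Pool.Agent.H53L

open Pool.Agent.H89T Pool.Agent.H67T Pool.Agent.H53U Pool.Agent.H53V Pool.Agent.H44K

/-- The evaluation of `R1c n d` at complex coefficients and a complex point. -/
noncomputable def a209e {n d : ℕ} (b : Idx n d → ℂ) (y : Fin (n + 1) → ℂ) : R1c n d →+* ℂ :=
  eval₂Hom (eval b : RR n d →+* ℂ) y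

theorem a209e_X {n d : ℕ} (b : Idx n d → ℂ) (y : Fin (n + 1) → ℂ) (i : Fin (n + 1)) :
    a209e b y (X i) = y i := by
  unfold a209e
  simp

theorem a209e_C {n d : ℕ} (b : Idx n d → ℂ) (y : Fin (n + 1) → ℂ) (f : RR n d) :
    a209e b y (C f) = eval b f := by
  unfold a209e
  simp

theorem a209_ne {n d : ℕ} {f : R1c n d} (hf : f ≠ 0) : ∃ (b : Idx n d → ℂ) (y : Fin (n + 1) → ℂ),
    a209e b y f ≠ 0 := by
  obtain ⟨m, hm⟩ := MvPolynomial.ne_zero_iff.1 hf
  have h1 : ∃ b : Idx n d → ℂ, eval b (coeff m f) ≠ 0 := by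
    by_contra hcon
    push Not at hcon
    apply hm
    apply MvPolynomial.funext
    intro b
    rw [hcon b, map_zero]
  obtain ⟨b, hb⟩ := h1
  have h2 : map (eval b : RR n d →+* ℂ) f ≠ 0 := by
    intro h0
    apply hb
    have := congrArg (coeff m) h0
    rwa [coeff_map, coeff_zero] at this
  have h3 : ∃ y : Fin (n + 1) → ℂ, eval y (map (eval b : RR n d →+* ℂ) f) ≠ 0 := by
    by_contra hcon
    push Not at hcon
    apply h2
    apply MvPolynomial.funext
    intro y
    rw [hcon y, map_zero]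
  obtain ⟨y, hy⟩ := h3
  refine ⟨b, y, ?_⟩
  unfold a209e
  rw [coe_eval₂Hom, eval₂_eq_eval_map]
  exact hy

/-- PROOF.  As `complex_point` (H53V/ED9), without the determinant and with the factor `X (Fin.last n) ≠ 0` instead.  `P₁ i = ResX k univ (cyc g1c) X (map phic (P i))`
over `R1c n d`; in the field it is the family of the hypothesis (`ResX_map`, `cyc_map`), so there are exponents `ν_1, .., ν_r` with
`g = det (coeff ν_s (P₁ i)) ≠ 0` (`minors_zero`, H53V/ER6A).  `g * X (last) ≠ 0`: there are `b : Idx n d → ℂ`, `y : Fin (n + 1) → ℂ` at which the value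
`ε = eval₂Hom (eval b) y` of it is not `0` (`MvPolynomial.funext` twice, as `ed9_ne`).  Put `a α = ε (g1c α)`, `x = y ∘ castSucc`, `w = y (last) ≠ 0`,
`Fin.snoc x w = y` (`Fin.snoc_init_self` or `Fin.lastCases`).  `w ^ d + ev a x = U0 (cyc a) y 0 = ε (U0 (cyc g1c) X 0) = 0` (`U0_cyc`, `U0_map`, `cyc_map`, `U0_g1c`).
`map ε (P₁ i) = ResX k univ (cyc a) y (map (eval a) (P i))` (`ResX_map`; `ε ∘ phic = eval a`), and the determinant of the coefficients is `ε g ≠ 0`. -/
theorem complex_pointc {n k d : ℕ} (hd : 1 ≤ d) {r : ℕ} (P : Fin r → MvPolynomial (JV (n + 1) k) (RR n d))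
    (h : LinearIndependent (K1c n d) fun i =>
      ResX k (Finset.univ : Finset (Fin 1)) (cyc fun α => algebraMap (R1c n d) (K1c n d) (g1c n d α)) (xc n d)
        (map ((algebraMap (R1c n d) (K1c n d)).comp (phic n d)) (P i))) :
    ∃ (a : Idx n d → ℂ) (x : Fin n → ℂ) (w : ℂ), w ≠ 0 ∧ w ^ d + ev a x = 0 ∧
      LinearIndependent ℂ fun i =>
        ResX k (Finset.univ : Finset (Fin 1)) (cyc a) (Fin.snoc x w : Fin (n + 1) → ℂ) (map (eval a) (P i)) := by
  classical
  obtain ⟨P₁, hP₁⟩ : ∃ P₁ : Fin r → MvPolynomial (FZ n k (Finset.univ : Finset (Fin 1))) (R1c n d),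
      P₁ = fun i => ResX k (Finset.univ : Finset (Fin 1)) (cyc (g1c n d)) (fun b => (X b : R1c n d))
        (map (phic n d) (P i)) := ⟨_, rfl⟩
  have hmap : ∀ i, map (algebraMap (R1c n d) (K1c n d)) (P₁ i) =
      ResX k (Finset.univ : Finset (Fin 1)) (cyc fun α => algebraMap (R1c n d) (K1c n d) (g1c n d α)) (xc n d)
        (map ((algebraMap (R1c n d) (K1c n d)).comp (phic n d)) (P i)) := by
    intro i
    have h1 : (fun p => algebraMap (R1c n d) (K1c n d) (cyc (g1c n d) p)) =
        cyc fun α => algebraMap (R1c n d) (K1c n d) (g1c n d α) := funext fun p => cyc_map _ _ p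
    rw [hP₁, ResX_map, map_map, h1]
    rfl
  have h' : LinearIndependent (K1c n d) fun i => map (algebraMap (R1c n d) (K1c n d)) (P₁ i) := by
    simp only [hmap]
    exact h
  -- the exponents
  obtain ⟨S, hS⟩ : ∃ S : Finset (FZ n k (Finset.univ : Finset (Fin 1)) →₀ ℕ), S = Finset.univ.biUnion fun i =>
      (map (algebraMap (R1c n d) (K1c n d)) (P₁ i)).support := ⟨_, rfl⟩
  have hex : ∃ β : Fin r → S, (Matrix.of fun (i : Fin r) (s : Fin r) =>
      coeff (β s).1 (map (algebraMap (R1c n d) (K1c n d)) (P₁ i))).det ≠ 0 := by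
    by_contra hcon
    push Not at hcon
    obtain ⟨lam, hlam, hrel⟩ := minors_zero (fun (i : Fin r) (s : S) =>
      coeff s.1 (map (algebraMap (R1c n d) (K1c n d)) (P₁ i))) hcon
    apply hlam
    have h2 : ∑ i, lam i • map (algebraMap (R1c n d) (K1c n d)) (P₁ i) = 0 := by
      ext μ
      rw [coeff_sum, coeff_zero]
      by_cases hμ : μ ∈ S
      · have := hrel ⟨μ, hμ⟩
        simpa only [coeff_smul, smul_eq_mul] using this
      · refine Finset.sum_eq_zero fun i _ => ?_
        have h3 : coeff μ (map (algebraMap (R1c n d) (K1c n d)) (P₁ i)) = 0 := by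
          by_contra h4
          apply hμ
          rw [hS, Finset.mem_biUnion]
          exact ⟨i, Finset.mem_univ i, mem_support_iff.2 h4⟩
        rw [coeff_smul, h3, smul_zero]
    funext i
    exact Fintype.linearIndependent_iff.1 h' lam h2 i
  obtain ⟨β, hβ⟩ := hex
  obtain ⟨g, hg⟩ : ∃ g : R1c n d, g = (Matrix.of fun (i : Fin r) (s : Fin r) => coeff (β s).1 (P₁ i)).det :=
    ⟨_, rfl⟩
  have hg0 : g ≠ 0 := by
    intro h0
    apply hβ
    have h2 := congrArg (algebraMap (R1c n d) (K1c n d)) h0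
    rw [hg, RingHom.map_det, map_zero] at h2
    rw [← h2]
    congr 1
  have hX0 : (X (Fin.last n) : R1c n d) ≠ 0 := MvPolynomial.X_ne_zero _
  obtain ⟨b, y, hax⟩ := a209_ne (mul_ne_zero hg0 hX0)
  rw [map_mul] at hax
  have hax1 := left_ne_zero_of_mul hax
  have hax2 := right_ne_zero_of_mul hax
  rw [a209e_X] at hax2
  obtain ⟨a, ha⟩ : ∃ a : Idx n d → ℂ, a = fun α => a209e b y (g1c n d α) := ⟨_, rfl⟩
  have hsn : (Fin.snoc (fun i : Fin n => y i.castSucc) (y (Fin.last n)) : Fin (n + 1) → ℂ) = y :=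
    Fin.snoc_init_self y
  have hcyc : (fun p => a209e b y (cyc (g1c n d) p)) = cyc a := by
    rw [ha]
    exact funext fun p => cyc_map _ _ p
  refine ⟨a, fun i => y i.castSucc, y (Fin.last n), hax2, ?_, ?_⟩
  · have h2 := congrArg (a209e b y) (U0_g1c (n := n) (d := d) hd 0)
    rw [U0_map, map_zero, hcyc, U0_cyc a hd] at h2
    simpa only [a209e_X] using h2
  · rw [hsn]
    have hcomp : (a209e b y).comp (phic n d) = eval a := by
      apply MvPolynomial.ringHom_ext
      · intro z
        rw [RingHom.comp_apply, eval_C]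
        show a209e b y (aeval (g1c n d) (C z)) = z
        rw [aeval_C]
        show a209e b y (C (C z)) = z
        rw [a209e_C, eval_C]
      · intro p
        rw [RingHom.comp_apply, eval_X, ha]
        show a209e b y (aeval (g1c n d) (X p)) = _
        rw [aeval_X]
    have hmap2 : ∀ i, map (a209e b y) (P₁ i) =
        ResX k (Finset.univ : Finset (Fin 1)) (cyc a) y (map (eval a) (P i)) := by
      intro i
      rw [hP₁, ResX_map, map_map, hcomp, hcyc]
      simp only [a209e_X]
    simp only [← hmap2]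
    rw [Fintype.linearIndependent_iff]
    intro z hz
    have h3 : Matrix.vecMul z (Matrix.of fun (i : Fin r) (s : Fin r) => coeff (β s).1 (map (a209e b y) (P₁ i))) = 0 := by
      funext s
      have h4 := congrArg (coeff (β s).1) hz
      rw [coeff_sum, coeff_zero] at h4
      simpa only [Matrix.vecMul, dotProduct, Matrix.of_apply, Pi.zero_apply, coeff_smul, smul_eq_mul] using h4
    have h5 : (Matrix.of fun (i : Fin r) (s : Fin r) => coeff (β s).1 (map (a209e b y) (P₁ i))).det ≠ 0 := by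
      intro h0
      apply hax1
      rw [hg, RingHom.map_det, ← h0]
      congr 1
    have h6 := Matrix.eq_zero_of_vecMul_eq_zero h5 h3
    intro i
    rw [h6]
    rfl

end Pool.Agent.H53L
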