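import Pool.Agent.Lib.H53L.D0
import Pool.Agent.Lib.H53V.ED1
import Pool.Agent.Lib.H53V.ED2
import Pool.Agent.Lib.H53V.ED5
import Pool.Agent.Lib.H53V.EH

set_option autoImplicit false

/-!
Module A2 of PROOF.md (density): definitions.
-/

open MvPolynomial

namespace Pool.Agent.H53L

open Pool.Agent.H89T Pool.Agent.H67T Pool.Agent.H53U Pool.Agent.H53V Pool.Agent.H44K

/-- The degrees of the cyclic hypersurface. -/
abbrev d1 (d : ℕ) : Fin 1 → ℕ := fun _ => d

/-! ### The generic point -/

/-- The ring of the generic point: the coefficients, the point `x` and `w` (the last variable). -/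
abbrev R1c (n d : ℕ) : Type := MvPolynomial (Fin (n + 1)) (RR n d)

/-- The generic coefficients for which `w ^ d + F (x) = 0` at the generic point: the constant coefficient
`a 0` is replaced by `a 0 - (w ^ d + F_a (x))`. -/
noncomputable def g1c (n d : ℕ) (α : Idx n d) : R1c n d :=
  if expo α = 0 then C (gen n d α) - cyP (gen n d) else C (gen n d α)

/-- The corresponding homomorphism. -/
noncomputable def phic (n d : ℕ) : RR n d →+* R1c n d :=
  (aeval (g1c n d) : RR n d →ₐ[ℂ] R1c n d).toRingHom

/-- The field of the generic point. -/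
abbrev K1c (n d : ℕ) : Type := FractionRing (R1c n d)

/-- The generic point. -/
noncomputable def xc (n d : ℕ) (b : Fin (n + 1)) : K1c n d := algebraMap (R1c n d) (K1c n d) (X b)

/-! ### The homogeneous ideal -/

/-- The homogeneous ideal of the jets of the generic cyclic hypersurface. -/
noncomputable def IhC (n k d : ℕ) : Ideal (MvPolynomial (HV (n + 1) k) (KR n d)) :=
  Ideal.span (Set.range (FhK k (cyc (gR n d))) ∪
    UhK k (cyc (gR n d)) '' {q | q.1 ∈ (Finset.univ : Finset (Fin 1))})

/-- `x_b` is a non-zero-divisor in degree at least `A₀`. -/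
def RegC (n k d : ℕ) (b : Option (Fin (n + 1))) (A₀ : ℕ) : Prop :=
  ∀ A ≥ A₀, ∀ m, ∀ f : MvPolynomial (HV (n + 1) k) (KR n d), BiH A m f →
    X (xv b) * f ∈ IhC n k d → f ∈ IhC n k d

/-- The chart `x_0 = 1` and the coordinate `w` are good from the degree `A₀` on. -/
def GoodC (n k d A₀ : ℕ) : Prop :=
  ∀ A ≥ A₀, ∀ m, ∀ f : MvPolynomial (HV (n + 1) k) (KR n d), BiH A m f →
    (dhom f ∈ IK k (Finset.univ : Finset (Fin 1)) (cyc (gR n d)) ∨
      X (xv (some (Fin.last n))) * f ∈ IhC n k d) → f ∈ IhC n k d

/-! ### The space of the coefficients -/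

/-- The values at the generic point of the polynomials of degree at most `B`. -/
noncomputable def Uc {n d : ℕ} [Algebra (KR n d) (K1c n d)] (B : ℕ) : Submodule (KR n d) (K1c n d) :=
  (restrictTotalDegree (Fin (n + 1)) (KR n d) B).map (aeval (xc n d) :
    MvPolynomial (Fin (n + 1)) (KR n d) →ₐ[KR n d] K1c n d).toLinearMap

end Pool.Agent.H53L
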