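import Pool.Agent.Lib.H53L.A204
import Pool.Agent.Lib.H53L.A207
import Pool.Agent.Lib.H53L.A208
import Pool.Agent.Lib.H53L.A209

set_option autoImplicit false

/-!
CHUNK A2Main (S/M).  H53L, module A2: density (port of `propV_of_dimV`, H53V/EMain.lean).
-/

open MvPolynomial

namespace Pool.Agent.H53L

open Pool.Agent.H89T Pool.Agent.H67T Pool.Agent.H53U Pool.Agent.H53V Pool.Agent.H44K

/-- MODULE A2.
PROOF.  As `propV_of_dimV` (H53V/EMain.lean).  `A₀` from `goodC_exists`.  For every `l`: `exists_over_KR`, `clear_relc` for all `i` (`choose`), and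
`complex_pointc` for the `P' i`: its hypothesis is the conclusion of `exists_over_KR` up to the units `ι ρ_i` (`LinearIndependent.units_smul`),
`iota_gR`. -/
theorem propC_of_dimC {n k q D d : ℕ} (hn : 1 ≤ n) (hd : 2 ≤ d) :
    ∃ A₀ : ℕ, ∀ a0 ≥ A₀, ∀ m s μ R : ℕ,
      tau (FrI n (Finset.univ : Finset (Fin 1))) k m μ *
        (d * (a0 + 2 * m * (d - 1) + n).choose n) < R →
      1 ≤ m → (q + 1) * (a0 + d + D * m + 2 * k * μ) + 1 ≤ q * s →
      (∀ l, DimC n k d m a0 s R l) → PropC n k q D d := by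
  obtain ⟨A₀, hA₀⟩ := goodC_exists (n := n) (k := k) (d := d) hn hd
  refine ⟨A₀, fun a0 ha0 m s μ R hR hm hq hD => ?_⟩
  refine ⟨m, a0, s, μ, hm, hq, fun l => ?_⟩
  have hd1 : 1 ≤ d := by omega
  obtain ⟨ι, P, Q, hι, hP, hQ, hrel, hli⟩ := exists_over_KR hd1 hA₀ ha0 hR l (hD l)
  have hcl := fun i => clear_relc (P i) (Q i) (hP i) (hQ i) l (hrel i)
  choose ρ P' Q' hρ hP' hQ' hmap hrel' using hcl
  refine ⟨tau (FrI n (Finset.univ : Finset (Fin 1))) k m μ + 1, P', Q', Nat.lt_succ_self _, hP', hQ', hrel', ?_⟩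
  refine complex_pointc hd1 P' ?_
  -- the generic coefficients
  have hg : (fun α => ι (gR n d α)) = fun α => algebraMap (R1c n d) (K1c n d) (g1c n d α) := by
    funext α
    have h1 := hι (gen n d α)
    have h2 : phic n d (gen n d α) = g1c n d α := by
      unfold phic gen
      exact aeval_X _ _
    rw [h2] at h1
    exact h1
  rw [hg] at hli
  have hcomp : ι.comp (algebraMap (RR n d) (KR n d)) =
      (algebraMap (R1c n d) (K1c n d)).comp (phic n d) :=
    RingHom.ext hι
  have hmapι : ∀ i, map ((algebraMap (R1c n d) (K1c n d)).comp (phic n d)) (P' i) =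
      C (ι (algebraMap (RR n d) (KR n d) (ρ i))) * map ι (P i) := by
    intro i
    rw [← hcomp, ← MvPolynomial.map_map, hmap i, map_mul, map_C]
  have hne : ∀ i, ι (algebraMap (RR n d) (KR n d) (ρ i)) ≠ 0 := by
    intro i h0
    have h1 : algebraMap (RR n d) (KR n d) (ρ i) = 0 :=
      (map_eq_zero ι).mp h0
    have h2 : ρ i = 0 := by
      have hinj := IsFractionRing.injective (RR n d) (KR n d)
      exact hinj (by rw [h1, map_zero])
    exact hρ i h2
  have hfin := hli.units_smul (fun i => Units.mk0 _ (hne i))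
  have heq : (fun i => ResX k (Finset.univ : Finset (Fin 1)) (cyc fun α => algebraMap (R1c n d) (K1c n d) (g1c n d α)) (xc n d)
        (map ((algebraMap (R1c n d) (K1c n d)).comp (phic n d)) (P' i))) =
      ((fun i => Units.mk0 _ (hne i)) • fun i => ResX k (Finset.univ : Finset (Fin 1))
        (cyc fun α => algebraMap (R1c n d) (K1c n d) (g1c n d α)) (xc n d) (map ι (P i))) := by
    funext i
    rw [hmapι i, map_mul]
    rw [Pi.smul_apply', Units.smul_mk0, smul_eq_C_mul]
    congr 1
    have h3 := (ResX k (Finset.univ : Finset (Fin 1)) (cyc fun α => algebraMap (R1c n d) (K1c n d) (g1c n d α)) (xc n d)).commutes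
      (ι (algebraMap (RR n d) (KR n d) (ρ i)))
    rw [algebraMap_eq, algebraMap_eq] at h3
    exact h3
  rw [heq]
  exact hfin

end Pool.Agent.H53L
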