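import Pool.Agent.Lib.H53L.A2D
import Pool.Agent.Lib.H53L.A1Main

set_option autoImplicit false

/-!
H53L: `x_0, ..., x_n, w` are non-zero-divisors in large degree.
-/

open MvPolynomial

namespace Pool.Agent.H53L

open Pool.Agent.H89T Pool.Agent.H67T Pool.Agent.H53U Pool.Agent.H53V Pool.Agent.H44K

theorem regC {n k d : ℕ} (_hn : 1 ≤ n) (hd : 2 ≤ d) (b : Option (Fin (n + 1))) :
    ∃ A₀ : ℕ, RegC n k d b A₀ := by
  have hd1 : 1 ≤ d := by omega
  have hev : ∀ p, eval (cofs d (H54L.fer n d)) (cyc (gen n d) p) = aF n d p := fun p => by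
    rw [H54L.cyc_map]
    have h1 : (fun α => eval (cofs d (H54L.fer n d)) (gen n d α)) = cofs d (H54L.fer n d) :=
      funext fun α => eval_X _
    rw [h1]
    exact H54L.cyc_fer hd1 p
  have h := H54L.TR_transfer (K := KR n d) (eval (cofs d (H54L.fer n d)))
    (H54L.gfa k (cyc (gen n d))) (gsp n k d) (dge k d) (kge k) (H54L.gfa_bi _)
    (H54L.gfa_low hd1 _ _ hev) (H54L.gfa_eq hd1 _ _ hev) (H54L.hf_fam hd1 _ _ hev k) b (by
      rw [span_gsp]
      cases b with
      | none => exact H54L.TR_x0s hd1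
      | some b => exact TR_xs hd1 b)
  rw [H54L.span_gfa] at h
  have h5 : (fun p => algebraMap (RR n d) (KR n d) (cyc (gen n d) p)) = cyc (gR n d) := by
    funext p
    rw [H54L.cyc_map]
    rfl
  rw [h5] at h
  exact eha_torsion (H54L.HomI_fam (cyc (gR n d))) (g19_X b) h

end Pool.Agent.H53L
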