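import Pool.Agent.Lib.H53L.A3D

set_option autoImplicit false

/-!
CHUNK A301 (M), H53L.  The `d`-th root of a power series (`beta_pow`) and its uniqueness.
-/

open MvPolynomial

namespace Pool.Agent.H53L

open Pool.Agent.H89T Pool.Agent.H67T Pool.Agent.H53U Pool.Agent.H53V Pool.Agent.H44K


theorem a301_coeff {T : Type*} [CommRing T] {k : ℕ} {A B : Polynomial T} (h : Polynomial.X ^ (k + 1) ∣ A - B)
    {i : ℕ} (hi : i ≤ k) : A.coeff i = B.coeff i := by
  have h1 := Polynomial.X_pow_dvd_iff.1 h i (by omega)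
  rw [Polynomial.coeff_sub] at h1
  exact sub_eq_zero.1 h1

theorem a301_q {T : Type*} [CommRing T] [Algebra ℂ T] (c : Polynomial ℂ) (U : Polynomial T) {v' : T}
    (hv : U.coeff 0 * v' = 1) (l : ℕ) :
    (Polynomial.aeval (Polynomial.C v' * (U - Polynomial.C (U.coeff 0))) c).coeff l = v' ^ l * NbT c U l := by
  have hX : Polynomial.X ∣ U - Polynomial.C (U.coeff 0) := by
    rw [Polynomial.X_dvd_iff, Polynomial.coeff_sub, Polynomial.coeff_C_zero, sub_self]
  have hz : ∀ j : ℕ, l < j → ((U - Polynomial.C (U.coeff 0)) ^ j).coeff l = 0 := by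
    intro j hj
    exact Polynomial.X_pow_dvd_iff.1 (pow_dvd_pow_of_dvd hX j) l hj
  have e1 : Polynomial.aeval (Polynomial.C v' * (U - Polynomial.C (U.coeff 0))) c =
      ∑ j ∈ Finset.range (c.natDegree + l + 1), Polynomial.C (algebraMap ℂ T (c.coeff j) * v' ^ j) *
        (U - Polynomial.C (U.coeff 0)) ^ j := by
    rw [Polynomial.aeval_eq_sum_range' (n := c.natDegree + l + 1) (by omega)]
    refine Finset.sum_congr rfl fun j _ => ?_
    rw [mul_pow, ← Polynomial.C_pow, Polynomial.C_mul, Algebra.smul_def, ← mul_assoc]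
    rfl
  rw [e1, Polynomial.finsetSum_coeff]
  unfold NbT
  rw [Finset.mul_sum]
  have hsub : Finset.range (l + 1) ⊆ Finset.range (c.natDegree + l + 1) := Finset.range_mono (by omega)
  rw [← Finset.sum_subset hsub]
  · refine Finset.sum_congr rfl fun j hj => ?_
    rw [Finset.mem_range] at hj
    rw [Polynomial.coeff_C_mul]
    have e2 : v' ^ l * U.coeff 0 ^ (l - j) = v' ^ j := by
      have e3 : v' ^ l = v' ^ j * v' ^ (l - j) := by
        rw [← pow_add]
        congr 1
        omega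
      rw [e3, mul_assoc, ← mul_pow, mul_comm v' (U.coeff 0), hv, one_pow, mul_one]
    calc algebraMap ℂ T (c.coeff j) * v' ^ j * ((U - Polynomial.C (U.coeff 0)) ^ j).coeff l
        = algebraMap ℂ T (c.coeff j) * (v' ^ l * U.coeff 0 ^ (l - j)) *
            ((U - Polynomial.C (U.coeff 0)) ^ j).coeff l := by rw [e2]
      _ = _ := by ring
  · intro j _ hj
    rw [Finset.mem_range] at hj
    rw [Polynomial.coeff_C_mul, hz j (by omega), mul_zero]

/-- PROOF.  Let `υ = U.coeff 0`, `z = C v' * (U - C υ)`: `z.coeff 0 = 0`, `1 + z = C v' * U` (because `υ * v' = 1`).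
Write `c ^ d - (1 + X) = X ^ (k + 1) * r` and apply `Polynomial.aeval z : Polynomial ℂ →ₐ[ℂ] Polynomial T`:
`q ^ d - (1 + z) = z ^ (k + 1) * aeval z r`, `q = aeval z c`; `X ∣ z`, so `X ^ (k + 1) ∣ q ^ d - C v' * U`.
The sum `β` of the statement is congruent to `q` modulo `X ^ (k + 1)`: `q = ∑_j C (c_j) * z ^ j` (`Polynomial.aeval_eq_sum_range'`),
`z ^ j = C (v' ^ j) * (U - C υ) ^ j`, `X ^ j ∣ (U - C υ) ^ j` (so the terms `j > l` have coefficient `0` at `l ≤ k`), and
`v' ^ l * υ ^ (l - j) = v' ^ j` for `j ≤ l`.  So `X ^ (k + 1) ∣ β ^ d - q ^ d` (`sub_dvd_pow_sub_pow`), hence for `i ≤ k`: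
`υ * (β ^ d).coeff i = υ * (C v' * U).coeff i = U.coeff i`. -/
theorem beta_pow {T : Type*} [CommRing T] [Algebra ℂ T] {c : Polynomial ℂ} {d k : ℕ}
    (hc : Polynomial.X ^ (k + 1) ∣ c ^ d - (1 + Polynomial.X)) (U : Polynomial T) {v' : T}
    (hv : U.coeff 0 * v' = 1) {i : ℕ} (hi : i ≤ k) :
    U.coeff 0 * ((∑ l : Fin (k + 1), Polynomial.C (v' ^ (l : ℕ) * NbT c U (l : ℕ)) *
      Polynomial.X ^ (l : ℕ)) ^ d).coeff i = U.coeff i := by
  have hX : Polynomial.X ∣ Polynomial.C v' * (U - Polynomial.C (U.coeff 0)) := by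
    rw [Polynomial.X_dvd_iff, Polynomial.coeff_C_mul, Polynomial.coeff_sub, Polynomial.coeff_C_zero, sub_self, mul_zero]
  obtain ⟨r, hr⟩ := hc
  have h1 : Polynomial.aeval (Polynomial.C v' * (U - Polynomial.C (U.coeff 0))) c ^ d -
      (1 + Polynomial.C v' * (U - Polynomial.C (U.coeff 0))) =
      (Polynomial.C v' * (U - Polynomial.C (U.coeff 0))) ^ (k + 1) *
        Polynomial.aeval (Polynomial.C v' * (U - Polynomial.C (U.coeff 0))) r := by
    have h2 := congrArg (Polynomial.aeval (Polynomial.C v' * (U - Polynomial.C (U.coeff 0)))) hr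
    rw [map_sub, map_pow, map_add, map_one, Polynomial.aeval_X, map_mul, map_pow, Polynomial.aeval_X] at h2
    exact h2
  have h2 : Polynomial.X ^ (k + 1) ∣ Polynomial.aeval (Polynomial.C v' * (U - Polynomial.C (U.coeff 0))) c ^ d -
      Polynomial.C v' * U := by
    have h3 : (1 : Polynomial T) + Polynomial.C v' * (U - Polynomial.C (U.coeff 0)) = Polynomial.C v' * U := by
      have h4 : Polynomial.C v' * Polynomial.C (U.coeff 0) = 1 := by
        rw [← Polynomial.C_mul, mul_comm, hv, Polynomial.C_1]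
      rw [mul_sub, h4]
      ring
    rw [← h3, h1]
    exact Dvd.dvd.mul_right (pow_dvd_pow_of_dvd hX (k + 1)) _
  have h3 : Polynomial.X ^ (k + 1) ∣ (∑ l : Fin (k + 1), Polynomial.C (v' ^ (l : ℕ) * NbT c U (l : ℕ)) *
      Polynomial.X ^ (l : ℕ)) - Polynomial.aeval (Polynomial.C v' * (U - Polynomial.C (U.coeff 0))) c := by
    rw [Polynomial.X_pow_dvd_iff]
    intro j hj
    rw [Polynomial.coeff_sub, a301_q c U hv j, Polynomial.finsetSum_coeff]
    have h4 : ∀ l : Fin (k + 1), (Polynomial.C (v' ^ (l : ℕ) * NbT c U (l : ℕ)) * Polynomial.X ^ (l : ℕ) :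
        Polynomial T).coeff j = if l = ⟨j, hj⟩ then v' ^ j * NbT c U j else 0 := by
      intro l
      rw [Polynomial.coeff_C_mul_X_pow]
      by_cases h : l = ⟨j, hj⟩
      · subst h
        rw [if_pos rfl, if_pos rfl]
      · rw [if_neg h, if_neg]
        intro h'
        exact h (Fin.ext h'.symm)
    rw [Finset.sum_congr rfl fun l _ => h4 l, Finset.sum_ite_eq' , if_pos (Finset.mem_univ _), sub_self]
  have h5 : ((∑ l : Fin (k + 1), Polynomial.C (v' ^ (l : ℕ) * NbT c U (l : ℕ)) *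
      Polynomial.X ^ (l : ℕ)) ^ d).coeff i =
      (Polynomial.aeval (Polynomial.C v' * (U - Polynomial.C (U.coeff 0))) c ^ d).coeff i :=
    a301_coeff (h3.trans (sub_dvd_pow_sub_pow _ _ d)) hi
  rw [h5, a301_coeff h2 hi, Polynomial.coeff_C_mul, ← mul_assoc, hv, one_mul]

/-- Uniqueness of the root with a given constant term.
PROOF.  By strong induction on `i`: suppose `A.coeff i' = B.coeff i'` for `i' < i`, i.e. `X ^ i ∣ A - B`, `A - B = X ^ i * E`.
`A ^ d - B ^ d = (A - B) * S`, `S = ∑_{e < d} A ^ e * B ^ (d - 1 - e)` (`Commute.geom_sum₂_mul` or `geom_sum₂_mul`), `S.coeff 0 = d ω ^ (d - 1) ≠ 0`.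
The coefficient of `X ^ i` is `0 = E.coeff 0 * S.coeff 0`, so `E.coeff 0 = (A - B).coeff i = 0`. -/
theorem root_uniq {T : Type*} [CommRing T] [IsDomain T] [CharZero T] {d k : ℕ} (hd : 1 ≤ d)
    {A B : Polynomial T} {ω : T} (hω : ω ≠ 0) (hA : A.coeff 0 = ω) (hB : B.coeff 0 = ω)
    (h : ∀ i ≤ k, (A ^ d).coeff i = (B ^ d).coeff i) : ∀ i ≤ k, A.coeff i = B.coeff i := by
  intro i
  induction i using Nat.strong_induction_on with
  | _ i ih =>
    intro hi
    have h1 : Polynomial.X ^ i ∣ A - B := by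
      rw [Polynomial.X_pow_dvd_iff]
      intro j hj
      rw [Polynomial.coeff_sub, ih j hj (by omega), sub_self]
    obtain ⟨E, hE⟩ := h1
    have h2 := (Commute.all A B).geom_sum₂_mul d
    have h3 : (A ^ d - B ^ d).coeff i = 0 := by
      rw [Polynomial.coeff_sub, h i hi, sub_self]
    rw [← h2, hE, mul_left_comm, Polynomial.coeff_X_pow_mul', if_pos le_rfl, Nat.sub_self,
      Polynomial.mul_coeff_zero, Polynomial.finsetSum_coeff] at h3
    have h4 : ∑ e ∈ Finset.range d, (A ^ e * B ^ (d - 1 - e)).coeff 0 = (d : T) * ω ^ (d - 1) := by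
      have h5 : ∀ e ∈ Finset.range d, (A ^ e * B ^ (d - 1 - e)).coeff 0 = ω ^ (d - 1) := by
        intro e he
        rw [Finset.mem_range] at he
        rw [Polynomial.mul_coeff_zero, Polynomial.coeff_zero_eq_eval_zero (A ^ e), Polynomial.eval_pow,
          ← Polynomial.coeff_zero_eq_eval_zero, hA, Polynomial.coeff_zero_eq_eval_zero (B ^ (d - 1 - e)),
          Polynomial.eval_pow, ← Polynomial.coeff_zero_eq_eval_zero, hB, ← pow_add]
        congr 1
        omega
      rw [Finset.sum_congr rfl h5, Finset.sum_const, Finset.card_range, nsmul_eq_mul]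
    rw [h4] at h3
    have hd0 : (d : T) ≠ 0 := by
      exact_mod_cast (show d ≠ 0 by omega)
    have h6 : E.coeff 0 = 0 := by
      rcases mul_eq_zero.1 h3 with h7 | h7
      · exact absurd h7 (mul_ne_zero hd0 (pow_ne_zero _ hω))
      · exact h7
    have h8 : (A - B).coeff i = 0 := by
      rw [hE, Polynomial.coeff_X_pow_mul', if_pos le_rfl, Nat.sub_self, h6]
    rw [Polynomial.coeff_sub] at h8
    exact sub_eq_zero.1 h8

end Pool.Agent.H53L
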