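import Pool.Agent.Lib.H53L.A3D

set_option autoImplicit false

/-!
CHUNK A302 (S/M), H53L.  Functoriality.
-/

open MvPolynomial

namespace Pool.Agent.H53L

open Pool.Agent.H89T Pool.Agent.H67T Pool.Agent.H53U Pool.Agent.H53V Pool.Agent.H44K


variable {n d k : ℕ}

/-- PROOF.  Unfold, `map_sum`, `map_mul`, `AlgHom.commutes`, `Polynomial.coeff_map`, `Polynomial.map_pow`, `Polynomial.map_sub`, `Polynomial.map_C`. -/
theorem NbT_map {T T' : Type*} [CommRing T] [Algebra ℂ T] [CommRing T'] [Algebra ℂ T'] (φ : T →ₐ[ℂ] T')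
    (c : Polynomial ℂ) (U : Polynomial T) (l : ℕ) :
    φ (NbT c U l) = NbT c (U.map (φ : T →+* T')) l := by
  unfold NbT
  rw [map_sum]
  refine Finset.sum_congr rfl fun j _ => ?_
  have h1 : (U.map (φ : T →+* T')).coeff 0 = φ (U.coeff 0) := Polynomial.coeff_map _ _
  have h2 : (U.map (φ : T →+* T') - Polynomial.C ((U.map (φ : T →+* T')).coeff 0)) ^ j =
      ((U - Polynomial.C (U.coeff 0)) ^ j).map (φ : T →+* T') := by
    rw [Polynomial.map_pow, Polynomial.map_sub, Polynomial.map_C, h1]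
    rfl
  rw [h2, h1, Polynomial.coeff_map, map_mul, map_mul, map_pow, AlgHom.commutes]
  rfl

/-- PROOF.  `NbT_map`, `map_prod`, `map_pow`, `Polynomial.coeff_map`. -/
theorem lamM_map {T T' : Type*} [CommRing T] [Algebra ℂ T] [CommRing T'] [Algebra ℂ T'] (φ : T →ₐ[ℂ] T')
    (U : Polynomial T) (m : ℕ) (μ : JV (n + 1) k →₀ ℕ) :
    φ (lamM d k U m μ) = lamM d k (U.map (φ : T →+* T')) m μ := by
  unfold lamM
  have h1 : (U.map (φ : T →+* T')).coeff 0 = φ (U.coeff 0) := Polynomial.coeff_map _ _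
  rw [h1, map_mul, map_mul, map_pow, map_pow, map_neg, map_prod]
  congr 1
  refine Finset.prod_congr rfl fun l _ => ?_
  rw [map_pow, NbT_map]

/-- PROOF.  `Fx_map` (H89T/N1) with `MvPolynomial.map φ`, `map_C`, `map_X`. -/
theorem uP_map {B B' : Type*} [CommRing B] [CommRing B'] (φ : B →+* B') (a : Idx n d → B) :
    (uP k a).map (map φ) = uP k fun α => φ (a α) := by
  unfold uP
  rw [Fx_map]
  congr 1
  · funext α
    rw [map_C]
  · funext p
    rw [map_X]

/-- PROOF.  Both sides are additive in `P`; on `monomial μ c`: `Lam_monomial`, `map_monomial`, `lamM_map` for the `ℂ`-algebra homomorphism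
`mapAlgHom φ`, `uP_map`. -/
theorem Lam_map {B B' : Type*} [CommRing B] [Algebra ℂ B] [CommRing B'] [Algebra ℂ B'] (φ : B →ₐ[ℂ] B')
    (a : Idx n d → B) (m : ℕ) (P : MvPolynomial (JV (n + 1) k) B) :
    map (φ : B →+* B') (Lam a m P) = Lam (fun α => φ (a α)) m (map (φ : B →+* B') P) := by
  induction P using MvPolynomial.induction_on' with
  | monomial μ c =>
    rw [Lam_monomial, map_monomial, Lam_monomial, map_mul, map_monomial]
    have h1 := lamM_map (d := d) (k := k) (mapAlgHom φ : MvPolynomial (JV n k) B →ₐ[ℂ] MvPolynomial (JV n k) B') (uP k a) m μ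
    have h2 : (uP k a).map ((mapAlgHom φ : MvPolynomial (JV n k) B →ₐ[ℂ] MvPolynomial (JV n k) B') : MvPolynomial (JV n k) B →+* MvPolynomial (JV n k) B') =
        uP k fun α => φ (a α) := uP_map (φ : B →+* B') a
    rw [h2] at h1
    have h3 : map (φ : B →+* B') (lamM d k (uP k a) m μ) = lamM d k (uP k fun α => φ (a α)) m μ := h1
    rw [h3]
  | add p q hp hq => rw [map_add, map_add, hp, hq, map_add, map_add]

/-- PROOF.  `NbT .. 0 = algebraMap 1`: the sum has one term `j = 0`: `U.coeff 0 ^ 0 * (1 : Polynomial).coeff 0 = 1`, `rt_zero`. -/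
theorem NbT_zero {T : Type*} [CommRing T] [Algebra ℂ T] (U : Polynomial T) : NbT (rt d k) U 0 = 1 := by
  unfold NbT
  rw [zero_add, Finset.sum_range_one, rt_zero, map_one, pow_zero, pow_zero, Polynomial.coeff_one_zero]
  ring

/-- Multiplication by a polynomial without `w`.
PROOF.  Both sides are additive in `Q` and `P`; on monomials: `rename_monomial`, `Lam_monomial`, `monomial_mul`; the exponent `ν.mapDomain jin` has no
`w`: `wd (ν.mapDomain jin + μ) = wd μ`, `ww (..) = ww μ`, `xpt (ν.mapDomain jin + μ) = ν + xpt μ` (`Finsupp.mapDomain_apply` with `jin`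
injective, `Finsupp.mapDomain_notin_range` at `(Fin.last n, l)`: `b.castSucc ≠ Fin.last n`). -/
theorem Lam_mul {B : Type*} [CommRing B] [Algebra ℂ B] (a : Idx n d → B) (m : ℕ)
    (Q : MvPolynomial (JV n k) B) (P : MvPolynomial (JV (n + 1) k) B) :
    Lam a m (rename jin Q * P) = Q * Lam a m P := by
  have hinj : Function.Injective (jin : JV n k → JV (n + 1) k) := by
    intro p q h
    have h1 : p.1.castSucc = q.1.castSucc := congrArg Prod.fst h
    have h2 : (jin p).2 = (jin q).2 := congrArg Prod.snd h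
    exact Prod.ext (Fin.castSucc_injective _ h1) h2
  have hw : ∀ (ν : JV n k →₀ ℕ) (μ : JV (n + 1) k →₀ ℕ) (l : Fin (k + 1)), (ν.mapDomain jin + μ) (Fin.last n, l) = μ (Fin.last n, l) := by
    intro ν μ l
    rw [Finsupp.add_apply, Finsupp.mapDomain_of_notMem_range, zero_add]
    rintro ⟨p, hp⟩
    have h1 : p.1.castSucc = Fin.last n := congrArg Prod.fst hp
    exact (Fin.castSucc_lt_last p.1).ne h1
  have h1 : ∀ (ν : JV n k →₀ ℕ) (μ : JV (n + 1) k →₀ ℕ), wd (ν.mapDomain jin + μ) = wd μ := by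
    intro ν μ
    unfold wd
    exact Finset.sum_congr rfl fun l _ => hw ν μ l
  have h2 : ∀ (ν : JV n k →₀ ℕ) (μ : JV (n + 1) k →₀ ℕ), ww (ν.mapDomain jin + μ) = ww μ := by
    intro ν μ
    unfold ww
    exact Finset.sum_congr rfl fun l _ => by rw [hw ν μ l]
  have h3 : ∀ (ν : JV n k →₀ ℕ) (μ : JV (n + 1) k →₀ ℕ), xpt (ν.mapDomain jin + μ) = ν + xpt μ := by
    intro ν μ
    ext p
    rw [Finsupp.add_apply, xpt_apply, xpt_apply, Finsupp.add_apply, Finsupp.mapDomain_apply hinj]
  have h4 : ∀ (U : Polynomial (MvPolynomial (JV n k) B)) (ν : JV n k →₀ ℕ) (μ : JV (n + 1) k →₀ ℕ),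
      lamM d k U m (ν.mapDomain jin + μ) = lamM d k U m μ := by
    intro U ν μ
    unfold lamM
    rw [h1, h2]
    congr 1
    exact Finset.prod_congr rfl fun l _ => by rw [hw ν μ l]
  induction Q using MvPolynomial.induction_on' with
  | monomial ν b =>
    induction P using MvPolynomial.induction_on' with
    | monomial μ c =>
      rw [rename_monomial, monomial_mul, Lam_monomial, Lam_monomial, h3, h4, ← mul_assoc, monomial_mul]
    | add p q hp hq => rw [mul_add, map_add, hp, hq, map_add, mul_add]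
  | add p q hp hq => rw [map_add, add_mul, map_add, hp, hq, add_mul]

end Pool.Agent.H53L
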