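import Pool.Agent.Lib.H53L.A3D

set_option autoImplicit false

/-!
CHUNK A303 (M), H53L.  The general lemma on the elimination.
-/

open MvPolynomial

namespace Pool.Agent.H53L

open Pool.Agent.H89T Pool.Agent.H67T Pool.Agent.H53U Pool.Agent.H53V Pool.Agent.H44K


variable {n d k : ℕ}

theorem a303_mono {B : Type*} [CommRing B] (μ : JV (n + 1) k →₀ ℕ) (c : B) :
    (monomial μ c : MvPolynomial (JV (n + 1) k) B) =
      rename jin (monomial (xpt μ) c : MvPolynomial (JV n k) B) *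
        ∏ l : Fin (k + 1), X (Fin.last n, l) ^ μ (Fin.last n, l) := by
  rw [monomial_eq, monomial_eq, map_mul, rename_C, Finsupp.prod_fintype _ _ (fun i => pow_zero _),
    Finsupp.prod_fintype _ _ (fun i => pow_zero _), map_prod, mul_assoc]
  rw [Fintype.prod_prod_type, Fin.prod_univ_castSucc, Fintype.prod_prod_type]
  refine congrArg (fun z => C c * (z * ∏ l : Fin (k + 1), X (Fin.last n, l) ^ μ (Fin.last n, l))) ?_
  refine Finset.prod_congr rfl fun i _ => Finset.prod_congr rfl fun l _ => ?_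
  rw [map_pow, rename_X, xpt_apply]
  rfl

theorem a303_key {B : Type*} [CommRing B] [Algebra ℂ B] {T : Type*} [CommRing T] [Algebra ℂ T]
    (g : MvPolynomial (JV (n + 1) k) B →ₐ[ℂ] T) (a : Idx n d → B) (m : ℕ) (ω : T)
    (h1 : ω ^ d = - g (rename jin (uR a 0 : MvPolynomial (JV n k) B)))
    (h2 : ∀ l : Fin (k + 1), g (rename jin (uR a 0 : MvPolynomial (JV n k) B)) ^ (l : ℕ) *
      g (X (Fin.last n, l)) = ω * g (rename jin (NbT (rt d k) (uP k a) (l : ℕ))))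
    (μ : JV (n + 1) k →₀ ℕ) (c : B) (hd : d ∣ wd μ) (hm : ww μ ≤ m) :
    g (rename jin (uR a 0 : MvPolynomial (JV n k) B)) ^ m * g (monomial μ c) =
      g (rename jin (Lam a m (monomial μ c))) := by
  rw [Lam_monomial, a303_mono μ c]
  unfold lamM
  rw [uP_coeff]
  simp only [map_mul, map_pow, map_prod, map_neg]
  obtain ⟨υ, hυ⟩ : ∃ υ : T, υ = g (rename jin (uR a 0 : MvPolynomial (JV n k) B)) := ⟨_, rfl⟩
  rw [← hυ] at h1 ⊢
  simp only [← hυ] at h2
  have e1 : υ ^ ww μ * ∏ l : Fin (k + 1), g (X (Fin.last n, l)) ^ μ (Fin.last n, l) =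
      (-υ) ^ (wd μ / d) * ∏ l : Fin (k + 1), g (rename jin (NbT (rt d k) (uP k a) (l : ℕ))) ^ μ (Fin.last n, l) := by
    have e2 : υ ^ ww μ = ∏ l : Fin (k + 1), (υ ^ (l : ℕ)) ^ μ (Fin.last n, l) := by
      unfold ww
      rw [← Finset.prod_pow_eq_pow_sum]
      exact Finset.prod_congr rfl fun l _ => pow_mul _ _ _
    have e3 : (-υ) ^ (wd μ / d) = ∏ l : Fin (k + 1), ω ^ μ (Fin.last n, l) := by
      rw [← h1, ← pow_mul, Nat.mul_div_cancel' hd]
      unfold wd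
      rw [← Finset.prod_pow_eq_pow_sum]
    rw [e2, e3, ← Finset.prod_mul_distrib, ← Finset.prod_mul_distrib]
    refine Finset.prod_congr rfl fun l _ => ?_
    rw [← mul_pow, ← mul_pow, h2 l]
  have e4 : υ ^ m = υ ^ (m - ww μ) * υ ^ ww μ := by
    rw [← pow_add, Nat.sub_add_cancel hm]
  calc υ ^ m * (g (rename jin (monomial (xpt μ) c)) * ∏ l : Fin (k + 1), g (X (Fin.last n, l)) ^ μ (Fin.last n, l)) =
      g (rename jin (monomial (xpt μ) c)) * υ ^ (m - ww μ) *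
        (υ ^ ww μ * ∏ l : Fin (k + 1), g (X (Fin.last n, l)) ^ μ (Fin.last n, l)) := by
        rw [e4]
        ring
    _ = _ := by
        rw [e1]
        ring

/-- PROOF.  Let `υ = g (rename jin (uR a 0))`, `g' = g.comp (rename jin)`.  Both sides are additive in `P`: it is enough to treat
`P = monomial μ c`, `d ∣ wd μ`, `ww μ ≤ m` (write `P = ∑ μ ∈ P.support, monomial μ (coeff μ P)`, `P.as_sum`).
`monomial μ c = rename jin (monomial (xpt μ) c) * ∏ l, X (Fin.last n, l) ^ μ (Fin.last n, l)` (`monomial_eq`, `Finsupp.prod_fintype`,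
`Fintype.prod_prod_type`, `Fin.prod_univ_castSucc`), and `Lam_monomial`.  With `U = uP k a`: `g' (lamM d k U m μ) =
(- υ) ^ (wd μ / d) * υ ^ (m - ww μ) * ∏ l, (g' (NbT (rt d k) U l)) ^ μ (last, l)` (`map_mul`, `map_pow`, `map_prod`; `U.coeff 0 = uR a 0`).
By `h2`, `∏ l, (υ ^ l * g (X (last, l))) ^ μ_l = ω ^ (wd μ) * ∏ l, (g' (NbT ..)) ^ μ_l`; the left side is `υ ^ (ww μ) * ∏ l, g (X ..) ^ μ_l`;
`ω ^ (wd μ) = (ω ^ d) ^ (wd μ / d) = (- υ) ^ (wd μ / d)` (`Nat.mul_div_cancel'`), `υ ^ m = υ ^ (m - ww μ) * υ ^ (ww μ)`. -/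
theorem lam_gen {B : Type*} [CommRing B] [Algebra ℂ B] {T : Type*} [CommRing T] [Algebra ℂ T]
    (g : MvPolynomial (JV (n + 1) k) B →ₐ[ℂ] T) (a : Idx n d → B) (m : ℕ) (ω : T)
    (h1 : ω ^ d = - g (rename jin (uR a 0 : MvPolynomial (JV n k) B)))
    (h2 : ∀ l : Fin (k + 1), g (rename jin (uR a 0 : MvPolynomial (JV n k) B)) ^ (l : ℕ) *
      g (X (Fin.last n, l)) = ω * g (rename jin (NbT (rt d k) (uP k a) (l : ℕ))))
    {P : MvPolynomial (JV (n + 1) k) B} (hP : ∀ μ ∈ P.support, d ∣ wd μ ∧ ww μ ≤ m) :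
    g (rename jin (uR a 0 : MvPolynomial (JV n k) B)) ^ m * g P = g (rename jin (Lam a m P)) := by
  have hs : P = ∑ μ ∈ P.support, monomial μ (coeff μ P) := P.as_sum
  obtain ⟨S, hS⟩ : ∃ S, S = P.support := ⟨_, rfl⟩
  obtain ⟨cf, hcf⟩ : ∃ cf : (JV (n + 1) k →₀ ℕ) → B, cf = fun μ => coeff μ P := ⟨_, rfl⟩
  have hs' : P = ∑ μ ∈ S, monomial μ (cf μ) := by
    rw [hS, hcf]
    exact hs
  rw [← hS] at hP
  rw [hs', map_sum, map_sum, map_sum, map_sum, Finset.mul_sum]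
  exact Finset.sum_congr rfl fun μ hμ => a303_key g a m ω h1 h2 μ (cf μ) (hP μ hμ).1 (hP μ hμ).2

end Pool.Agent.H53L
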