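import Pool.Agent.Lib.H53L.A301
import Pool.Agent.Lib.H53L.A302
import Pool.Agent.Lib.H53L.A303
import Pool.Agent.Lib.H53L.A304

set_option autoImplicit false

/-!
CHUNK A305 (M), H53L.  The elimination kills the ideal.
-/

open MvPolynomial

namespace Pool.Agent.H53L

open Pool.Agent.H89T Pool.Agent.H67T Pool.Agent.H53U Pool.Agent.H53V Pool.Agent.H44K


variable {n d k : ℕ}

theorem a305_gen {B : Type} [CommRing B] [IsDomain B] [Algebra ℂ B] (a : Idx n d → B) (hd : 1 ≤ d)
    (h0 : (uR a 0 : MvPolynomial (JV n k) B) ≠ 0) {T : Type} [Field T] [Algebra ℂ T] [IsAlgClosed T]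
    (ι : MvPolynomial (JV n k) B →ₐ[ℂ] T) (hι : Function.Injective ι) :
    ∃ (g : MvPolynomial (JV (n + 1) k) B →ₐ[ℂ] T) (ω : T),
      (∀ Q : MvPolynomial (JV n k) B, g (rename jin Q) = 0 → Q = 0) ∧
      ω ^ d = - g (rename jin (uR a 0 : MvPolynomial (JV n k) B)) ∧
      (∀ l : Fin (k + 1), g (rename jin (uR a 0 : MvPolynomial (JV n k) B)) ^ (l : ℕ) *
        g (X (Fin.last n, l)) = ω * g (rename jin (NbT (rt d k) (uP k a) (l : ℕ)))) ∧
      ∀ P ∈ IK k (Finset.univ : Finset (Fin 1)) (cyc a), g P = 0 := by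
  obtain ⟨υ, hυ⟩ : ∃ υ : T, υ = ι (uR a 0) := ⟨_, rfl⟩
  have hυ0 : υ ≠ 0 := by
    intro h
    rw [hυ] at h
    exact h0 (hι (h.trans (map_zero ι).symm))
  obtain ⟨ω, hω⟩ := IsAlgClosed.exists_pow_nat_eq (- υ) (show 0 < d by omega)
  obtain ⟨v', hv'⟩ : ∃ v' : T, υ * v' = 1 := ⟨υ⁻¹, mul_inv_cancel₀ hυ0⟩
  obtain ⟨img, himg⟩ : ∃ img : JV (n + 1) k → T, img = fun p =>
      Fin.lastCases (motive := fun _ => T) (ω * (v' ^ (p.2 : ℕ) * ι (NbT (rt d k) (uP k a) (p.2 : ℕ))))
        (fun b => ι (X (b, p.2))) p.1 := ⟨_, rfl⟩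
  have himg1 : ∀ p : JV n k, img (jin p) = ι (X p) := by
    intro p
    rw [himg]
    show Fin.lastCases (motive := fun _ => T)
      (ω * (v' ^ (p.2 : ℕ) * ι (NbT (rt d k) (uP k a) (p.2 : ℕ))))
        (fun b => ι (X (b, p.2))) p.1.castSucc = ι (X p)
    rw [Fin.lastCases_castSucc]
  have himg2 : ∀ l : Fin (k + 1), img (Fin.last n, l) =
      ω * (v' ^ (l : ℕ) * ι (NbT (rt d k) (uP k a) (l : ℕ))) := by
    intro l
    rw [himg]
    show Fin.lastCases (motive := fun _ => T)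
      (ω * (v' ^ (l : ℕ) * ι (NbT (rt d k) (uP k a) (l : ℕ))))
        (fun b => ι (X (b, l))) (Fin.last n) = _
    rw [Fin.lastCases_last]
  obtain ⟨g, hgC, hgX⟩ : ∃ g : MvPolynomial (JV (n + 1) k) B →ₐ[ℂ] T,
      (∀ b, g (C b) = ι (C b)) ∧ ∀ p, g (X p) = img p := by
    refine ⟨{ eval₂Hom ((ι : MvPolynomial (JV n k) B →+* T).comp C) img with
      commutes' := ?_ }, ?_, ?_⟩
    · intro r
      show eval₂Hom ((ι : MvPolynomial (JV n k) B →+* T).comp C) img
        (algebraMap ℂ (MvPolynomial (JV (n + 1) k) B) r) = algebraMap ℂ T r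
      have h1 : algebraMap ℂ (MvPolynomial (JV (n + 1) k) B) r = C (algebraMap ℂ B r) := rfl
      have h2 : algebraMap ℂ (MvPolynomial (JV n k) B) r = C (algebraMap ℂ B r) := rfl
      rw [h1, eval₂Hom_C, RingHom.comp_apply, ← h2]
      exact ι.commutes r
    · intro b
      show eval₂Hom ((ι : MvPolynomial (JV n k) B →+* T).comp C) img (C b) = _
      rw [eval₂Hom_C]
      rfl
    · intro p
      show eval₂Hom ((ι : MvPolynomial (JV n k) B →+* T).comp C) img (X p) = _
      rw [eval₂Hom_X']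
  have hgι : ∀ Q : MvPolynomial (JV n k) B, g (rename jin Q) = ι Q := by
    intro Q
    induction Q using MvPolynomial.induction_on with
    | C b => rw [rename_C, hgC]
    | add p q hp hq => rw [map_add, map_add, map_add, hp, hq]
    | mul_X p i hp => rw [map_mul, map_mul, map_mul, hp, rename_X, hgX, himg1]
  refine ⟨g, ω, ?_, ?_, ?_, ?_⟩
  · intro Q hQ
    rw [hgι] at hQ
    exact hι (hQ.trans (map_zero ι).symm)
  · rw [hgι, hω, hυ]
  · intro l
    rw [hgι, hgι, hgX, himg2, ← hυ]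
    have h1 : υ ^ (l : ℕ) * v' ^ (l : ℕ) = 1 := by
      rw [← mul_pow, hv', one_pow]
    calc υ ^ (l : ℕ) * (ω * (v' ^ (l : ℕ) * ι (NbT (rt d k) (uP k a) (l : ℕ)))) =
        (υ ^ (l : ℕ) * v' ^ (l : ℕ)) * (ω * ι (NbT (rt d k) (uP k a) (l : ℕ))) := by ring
      _ = ω * ι (NbT (rt d k) (uP k a) (l : ℕ)) := by rw [h1, one_mul]
  · intro P hP
    have hle : IK k (Finset.univ : Finset (Fin 1)) (cyc a) ≤
        RingHom.ker (g : MvPolynomial (JV (n + 1) k) B →+* T) := by
      unfold IK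
      rw [Ideal.span_le]
      rintro _ ⟨j, i, hi, -, rfl⟩
      rw [SetLike.mem_coe, RingHom.mem_ker, uK_cyc a hd j i, map_add]
      obtain ⟨U, hU⟩ : ∃ U : Polynomial T, U = (uP k a).map (ι : MvPolynomial (JV n k) B →+* T) :=
        ⟨_, rfl⟩
      have hUc : ∀ i, U.coeff i = ι (uR a i) := by
        intro i
        rw [hU, Polynomial.coeff_map, uP_coeff]
        rfl
      have h1 : (g : MvPolynomial (JV (n + 1) k) B →+* T)
          ((arc (fun p => (X p : MvPolynomial (JV (n + 1) k) B)) (Fin.last n) ^ d).coeff i) =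
          ω ^ d * ((∑ l : Fin (k + 1), Polynomial.C (v' ^ (l : ℕ) * NbT (rt d k) U (l : ℕ)) *
            Polynomial.X ^ (l : ℕ)) ^ d).coeff i := by
        rw [← Polynomial.coeff_map, Polynomial.map_pow, arc_map]
        have h2 : arc (fun p => (g : MvPolynomial (JV (n + 1) k) B →+* T) (X p)) (Fin.last n) =
            Polynomial.C ω * ∑ l : Fin (k + 1), Polynomial.C (v' ^ (l : ℕ) * NbT (rt d k) U (l : ℕ)) *
            Polynomial.X ^ (l : ℕ) := by
          unfold arc
          rw [Finset.mul_sum]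
          refine Finset.sum_congr rfl fun l _ => ?_
          have h3 : (g : MvPolynomial (JV (n + 1) k) B →+* T) (X (Fin.last n, l)) =
              ω * (v' ^ (l : ℕ) * NbT (rt d k) U (l : ℕ)) := by
            rw [hU, ← NbT_map ι, ← himg2]
            exact hgX _
          beta_reduce
          rw [h3, Polynomial.C_mul, mul_assoc]
        rw [h2, mul_pow, ← Polynomial.C_pow, Polynomial.coeff_C_mul]
      have h4 : (g : MvPolynomial (JV (n + 1) k) B →+* T) (rename jin (uR a i)) = U.coeff i := by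
        rw [hUc]
        exact hgι _
      have h5 : U.coeff 0 * v' = 1 := by
        rw [hUc, ← hυ, hv']
      have h6 := beta_pow (rt_dvd k hd) U h5 hi
      rw [h1, h4, hω, ← h6, hUc, ← hυ]
      ring
    exact RingHom.mem_ker.1 (hle hP)

/-- A homomorphism which kills the ideal of the cyclic hypersurface and is injective on the jets of `x`.
PROOF.  `S = MvPolynomial (JV n k) B` (a domain), `T = AlgebraicClosure (FractionRing S)`, `ι : S →ₐ[ℂ] T` the canonical (injective) map, `υ = ι (uR a 0) ≠ 0`,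
`v' = υ⁻¹`, `ω` with `ω ^ d = - υ` (`IsAlgClosed.exists_pow_nat_eq`, `0 < d`).  `g` = the homomorphism with `g = ι` on the `X (jin p)` and on `B`
and `g (X (last, l)) = ω * v' ^ l * ι (NbT (rt d k) (uP k a) l)` (`eval₂Hom`, made an `AlgHom` over `ℂ`: `AlgHom.mk` with `eval₂_C`).
`g ∘ rename jin = ι` (ring homomorphisms equal on `C` and `X`).  Ideal: for `i ≤ k`, by `uK_cyc`, `g (uK ..) = (ω β) ^ d` coefficient `i` plus
`ι (uR a i)`, where `β = ∑ l, C (v' ^ l * NbT .. (U) l) X ^ l`, `U = (uP k a).map ι` (`NbT_map`): `ω ^ d * (β ^ d).coeff i + U.coeff i =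
- υ (β ^ d).coeff i + U.coeff i = 0` by `beta_pow` with `rt_dvd`. -/
theorem exists_gamma {B : Type} [CommRing B] [IsDomain B] [Algebra ℂ B] (a : Idx n d → B) (hd : 1 ≤ d)
    (h0 : (uR a 0 : MvPolynomial (JV n k) B) ≠ 0) :
    ∃ (T : Type) (_ : Field T) (_ : Algebra ℂ T) (g : MvPolynomial (JV (n + 1) k) B →ₐ[ℂ] T) (ω : T),
      (∀ Q : MvPolynomial (JV n k) B, g (rename jin Q) = 0 → Q = 0) ∧
      ω ^ d = - g (rename jin (uR a 0 : MvPolynomial (JV n k) B)) ∧
      (∀ l : Fin (k + 1), g (rename jin (uR a 0 : MvPolynomial (JV n k) B)) ^ (l : ℕ) *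
        g (X (Fin.last n, l)) = ω * g (rename jin (NbT (rt d k) (uP k a) (l : ℕ)))) ∧
      ∀ P ∈ IK k (Finset.univ : Finset (Fin 1)) (cyc a), g P = 0 := by
  have hinj : Function.Injective (algebraMap (MvPolynomial (JV n k) B)
      (AlgebraicClosure (FractionRing (MvPolynomial (JV n k) B)))) := by
    rw [IsScalarTower.algebraMap_eq (MvPolynomial (JV n k) B) (FractionRing (MvPolynomial (JV n k) B))
      (AlgebraicClosure (FractionRing (MvPolynomial (JV n k) B)))]
    exact (algebraMap (FractionRing (MvPolynomial (JV n k) B))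
      (AlgebraicClosure (FractionRing (MvPolynomial (JV n k) B)))).injective.comp
      (IsFractionRing.injective _ _)
  letI alg : Algebra ℂ (AlgebraicClosure (FractionRing (MvPolynomial (JV n k) B))) :=
    ((algebraMap (MvPolynomial (JV n k) B)
      (AlgebraicClosure (FractionRing (MvPolynomial (JV n k) B)))).comp
      (algebraMap ℂ (MvPolynomial (JV n k) B))).toAlgebra
  obtain ⟨ι, hι⟩ : ∃ ι : MvPolynomial (JV n k) B →ₐ[ℂ]
      AlgebraicClosure (FractionRing (MvPolynomial (JV n k) B)), Function.Injective ι := by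
    refine ⟨{ algebraMap (MvPolynomial (JV n k) B)
      (AlgebraicClosure (FractionRing (MvPolynomial (JV n k) B))) with
      commutes' := fun r => rfl }, ?_⟩
    exact hinj
  obtain ⟨g, ω, h1, h2, h3, h4⟩ := a305_gen a hd h0 ι hι
  exact ⟨_, inferInstance, alg, g, ω, h1, h2, h3, h4⟩

/-- PROOF.  `exists_gamma`, `lam_gen`: `g (rename jin (Lam a m P)) = υ ^ m * g P = 0`. -/
theorem Lam_IK {B : Type} [CommRing B] [IsDomain B] [Algebra ℂ B] (a : Idx n d → B) (hd : 1 ≤ d)
    (h0 : (uR a 0 : MvPolynomial (JV n k) B) ≠ 0) (m : ℕ) {P : MvPolynomial (JV (n + 1) k) B}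
    (hP : ∀ μ ∈ P.support, d ∣ wd μ ∧ ww μ ≤ m) (hI : P ∈ IK k (Finset.univ : Finset (Fin 1)) (cyc a)) :
    Lam a m P = 0 := by
  obtain ⟨T, _, _, g, ω, h1, h2, h3, h4⟩ := exists_gamma a hd h0
  apply h1
  rw [← lam_gen g a m ω h2 h3 hP, h4 P hI, mul_zero]

/-- PROOF.  `uR gen 0 = 0` would give, by `uu_map` for the evaluation at `a = (1, 0, .., 0)`-th ..: the simplest: the coefficient of `C (X α0)` with `α0 = 0`: apply
`map (eval a)` with `a = fun α => if expo α = 0 then 1 else 0` and evaluate the jets at `0`: `ev a 0 = 1` (`uR_map` in H89T/N1, `uu .. 0 = ev` at the base point: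
`(Fx a ξ).coeff 0 = ev a (ξ (·, 0))`; see the lemmas on `uu` at `0` in H89T/N1, N2). -/
theorem uR_gen_ne (n d k : ℕ) : (uR (gen n d) 0 : MvPolynomial (JV n k) (RR n d)) ≠ 0 := by
  intro h
  have h1 := congrArg (eval₂Hom (eval (cofs d (1 : MvPolynomial (Fin n) ℂ)))
    (0 : JV n k → ℂ)) h
  unfold uR at h1
  rw [uu_map, map_zero, uu_zero] at h1
  have h2 : (fun α => eval₂Hom (eval (cofs d (1 : MvPolynomial (Fin n) ℂ)))
    (0 : JV n k → ℂ) (C (gen n d α))) = cofs d (1 : MvPolynomial (Fin n) ℂ) := by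
    funext α
    rw [eval₂Hom_C, eval_X]
  rw [h2, ev_cofs (by rw [totalDegree_one]; exact Nat.zero_le _), map_one] at h1
  exact one_ne_zero h1

end Pool.Agent.H53L
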