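import Pool.Agent.Lib.H53L.A301
import Pool.Agent.Lib.H53L.A302
import Pool.Agent.Lib.H53L.A303
import Pool.Agent.Lib.H53L.A304

set_option autoImplicit false

/-!
CHUNK A306 (M), H53L.  Comparison of the two restrictions to the fibre.
-/

open MvPolynomial

namespace Pool.Agent.H53L

open Pool.Agent.H89T Pool.Agent.H67T Pool.Agent.H53U Pool.Agent.H53V Pool.Agent.H44K


variable {n d k : ℕ}

/-- PROOF.  `aeval` with images `C (Δ ^ ..) * X (injective renaming)`: `psi = (rename e).comp (aeval (C (Δ ^ ..) * X))`; the second is injective because it has a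
left inverse (`aeval (C (Δ ^ ..)⁻¹ * X)`), `rename_injective`.  Or: coefficient of `psi P` at `μ.mapDomain e` is `Δ ^ (..) * coeff μ P`. -/
theorem psi_inj {Δ : ℂ} (hΔ : Δ ≠ 0) : Function.Injective (psi n k Δ) := by
  obtain ⟨cc, hcc⟩ : ∃ cc : Fin n × Fin k → ℂ, cc = fun p => Δ ^ (2 * ((p.2 : ℕ) + 1)) := ⟨_, rfl⟩
  have hcc0 : ∀ p, cc p ≠ 0 := by
    intro p
    rw [hcc]
    exact pow_ne_zero _ hΔ
  obtain ⟨e, he⟩ : ∃ e : Fin n × Fin k → FZ n k (Finset.univ : Finset (Fin 1)),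
    e = fun p => (⟨p.1.castSucc, isFr_castSucc p.1⟩, p.2) := ⟨_, rfl⟩
  have heinj : Function.Injective e := by
    intro p q hpq
    rw [he] at hpq
    have h1 := congrArg Prod.snd hpq
    have h2 := congrArg (fun z => (z.1 : Fin (n + 1))) hpq
    exact Prod.ext (Fin.castSucc_injective _ h2) h1
  have h1 : psi n k Δ = (rename e).comp (aeval fun p => C (cc p) * X p) := by
    apply algHom_ext
    intro p
    unfold psi
    rw [aeval_X, AlgHom.comp_apply, aeval_X, map_mul, rename_C, rename_X, hcc, he]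
  have h2 : ((aeval fun p => C (cc p)⁻¹ * X p : MvPolynomial (Fin n × Fin k) ℂ →ₐ[ℂ] _).comp
      (aeval fun p => C (cc p) * X p)) = AlgHom.id ℂ (MvPolynomial (Fin n × Fin k) ℂ) := by
    apply algHom_ext
    intro p
    rw [AlgHom.comp_apply, aeval_X, map_mul, aeval_X, aeval_C, AlgHom.id_apply]
    show C (cc p) * (C (cc p)⁻¹ * X p) = X p
    rw [← mul_assoc, ← C_mul, mul_inv_cancel₀ (hcc0 p), C_1, one_mul]
  rw [h1]
  intro P Q hPQ
  have h3 := rename_injective e heinj hPQ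
  have h4 := congrArg (aeval fun p => C (cc p)⁻¹ * X p : MvPolynomial (Fin n × Fin k) ℂ →ₐ[ℂ]
    MvPolynomial (Fin n × Fin k) ℂ) h3
  have h5 := AlgHom.congr_fun h2 P
  have h6 := AlgHom.congr_fun h2 Q
  exact h5.symm.trans (h4.trans h6)

/-- PROOF.  Algebra homomorphisms (over `ℂ`, in `Q`): on `C`: `AlgHom.commutes`; on `X (b, 0)`: `rename_X`, `aeval_X`, `rs_zero`; on `X (b, l.succ)`: `rs_free`
with `isFr_castSucc`; `Δ = (MJ univ (tra (- y) (cyc a))).det`. -/
theorem ResX_jin (a : Idx n d → ℂ) (y : Fin (n + 1) → ℂ) (Q : MvPolynomial (JV n k) ℂ) :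
    ResX k (Finset.univ : Finset (Fin 1)) (cyc a) y (rename jin Q) =
      psi n k (MJ (Finset.univ : Finset (Fin 1)) (tra (fun b => - y b) (cyc a))).det
        (piQ (fun b => y b.castSucc) Q) := by
  have h1 : ((ResX k (Finset.univ : Finset (Fin 1)) (cyc a) y).comp (rename jin) :
      MvPolynomial (JV n k) ℂ →ₐ[ℂ] _) = (psi n k (MJ (Finset.univ : Finset (Fin 1))
        (tra (fun b => - y b) (cyc a))).det).comp (piQ (fun b => y b.castSucc)) := by
    apply algHom_ext
    rintro ⟨b, l⟩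
    rw [AlgHom.comp_apply, AlgHom.comp_apply, rename_X]
    unfold ResX piQ
    rw [aeval_X, aeval_X]
    refine Fin.cases ?_ (fun l => ?_) l
    · show (if (0 : Fin (k + 1)) = 0 then C (y b.castSucc) else 0) +
        rs k Finset.univ (tra (fun b => - y b) (cyc a)) (b.castSucc, 0) =
        psi n k _ (C (y b.castSucc))
      rw [if_pos rfl]
      have h2 : psi n k (MJ (Finset.univ : Finset (Fin 1))
        (tra (fun b => - y b) (cyc a))).det (C (y b.castSucc)) = C (y b.castSucc) :=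
        AlgHom.commutes _ _
      have h3 := rs_zero (k := k) (Finset.univ : Finset (Fin 1)) (tra (fun b => - y b) (cyc a)) b.castSucc
      rw [h2]
      refine (congrArg (fun z => C (y b.castSucc) + z) h3).trans ?_
      exact add_zero _
    · show (if (l.succ : Fin (k + 1)) = 0 then C (y b.castSucc) else 0) +
        rs k Finset.univ (tra (fun b => - y b) (cyc a)) (b.castSucc, l.succ) =
        psi n k _ (X (b, l))
      rw [if_neg (Fin.succ_ne_zero l), zero_add]
      unfold psi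
      rw [aeval_X]
      exact rs_free (Finset.univ : Finset (Fin 1)) _ (isFr_castSucc b) l
  exact AlgHom.congr_fun h1 Q

/-- PROOF.  `MJ_tra` (H53V/R5B): the matrix is `MX univ (cyc a) y`, of size one (`Matrix.det_unique` or `Matrix.det_eq_elem_of_card_eq_one`), with the entry
`evd (Fin.natAdd n 0) (fun α => cyc a ⟨0, α⟩) y`, `Fin.natAdd n 0 = Fin.last n`; `evd b a' y = eval y (pderiv b (pol a'))` (`eval_pderiv_PF` or the lemma on `evd` in H53U/M1),
`pol (cofs d G) = G` (`pol_cofs`; total degree, see A304), `pderiv (last) (cyP a) = d X ^ (d - 1)` (`pderiv` of `rename castSucc (..)` is `0`: `pderiv_eq_zero_of_notMem_vars`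
or `vars_rename`).  Alternative: `ev_cyc` over the dual numbers or over `ℂ[t]` at `y + t e_last`. -/
theorem det_cyc (a : Idx n d → ℂ) (hd : 1 ≤ d) (y : Fin (n + 1) → ℂ) :
    (MJ (Finset.univ : Finset (Fin 1)) (tra (fun b => - y b) (cyc a))).det =
      d * y (Fin.last n) ^ (d - 1) := by
  rw [MJ_tra]
  have h1 := Matrix.det_eq_elem_of_card_eq_one (A := MX (Finset.univ : Finset (Fin 1)) (cyc a) y)
    (by rw [Fintype.card_coe]; rfl) ⟨0, Finset.mem_univ 0⟩
  rw [h1]
  have h2 : MX (Finset.univ : Finset (Fin 1)) (cyc a) y ⟨0, Finset.mem_univ 0⟩ ⟨0, Finset.mem_univ 0⟩ =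
      evd (Fin.last n) (cofs d (cyP a)) y := rfl
  have h3 : pderiv (Fin.last n) (rename Fin.castSucc (pol a)) = 0 := by
    apply pderiv_eq_zero_of_notMem_vars
    intro h
    obtain ⟨b, -, hb⟩ := Finset.mem_image.1 (vars_rename _ _ h)
    exact absurd hb (Fin.castSucc_lt_last b).ne
  rw [h2, evd_cofs (a304_deg a)]
  unfold cyP
  rw [map_add, h3, add_zero, pderiv_pow, pderiv_X_self, mul_one, map_mul, map_pow, eval_X, map_natCast]

theorem a306_X (a : Idx n d → ℂ) (y : Fin (n + 1) → ℂ) (b : Fin (n + 1)) :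
    ResX k (Finset.univ : Finset (Fin 1)) (cyc a) y (X (b, 0)) = C (y b) := by
  unfold ResX
  rw [aeval_X]
  show (if (0 : Fin (k + 1)) = 0 then C (y b) else 0) +
        rs k Finset.univ (tra (fun b => - y b) (cyc a)) (b, 0) = C (y b)
  have h3 := rs_zero (k := k) (Finset.univ : Finset (Fin 1)) (tra (fun b => - y b) (cyc a)) b
  rw [if_pos rfl]
  exact (congrArg (fun z => C (y b) + z) h3).trans (add_zero _)

theorem a306_u (a : Idx n d → ℂ) (y : Fin (n + 1) → ℂ) :
    ResX k (Finset.univ : Finset (Fin 1)) (cyc a) y (rename jin (uR a 0 : MvPolynomial (JV n k) ℂ)) =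
      C (ev a fun b => y b.castSucc) := by
  obtain ⟨φ, hφ⟩ : ∃ φ : MvPolynomial (JV n k) ℂ →ₐ[ℂ]
    MvPolynomial (FZ n k (Finset.univ : Finset (Fin 1))) ℂ,
    φ = (ResX k (Finset.univ : Finset (Fin 1)) (cyc a) y).comp (rename jin) := ⟨_, rfl⟩
  have h0 : ResX k (Finset.univ : Finset (Fin 1)) (cyc a) y
      (rename jin (uR a 0 : MvPolynomial (JV n k) ℂ)) = φ (uR a 0) := by
    rw [hφ]
    rfl
  have h1 : φ (uR a 0) = uu (fun α => φ (C (a α))) (fun p => φ (X p)) 0 :=
    uu_map (φ : MvPolynomial (JV n k) ℂ →+*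
      MvPolynomial (FZ n k (Finset.univ : Finset (Fin 1))) ℂ) (fun α => C (a α)) (fun p => X p) 0
  have h2 : (fun α => φ (C (a α))) = fun α => C (a α) := by
    funext α
    exact φ.commutes _
  have h3 : (fun b : Fin n => φ (X (b, 0))) = fun b => C (y b.castSucc) := by
    funext b
    rw [hφ, AlgHom.comp_apply, rename_X]
    exact a306_X a y b.castSucc
  rw [h0, h1, uu_zero, h2, h3, ← ev_map]

/-- The arc of `w` is the root.
PROOF.  Let `g = ResX k univ (cyc a) y`, `T = MvPolynomial (FZ ..) ℂ`, `A = ∑ l : Fin (k + 1), C (g (X (last, l))) X ^ l`, `υ = C (ev a x) = - C (w ^ d)`,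
`x = y ∘ castSucc`, `w = y (last)`, `U = (uP k a).map (g ∘ rename jin)`, `U.coeff 0 = υ` (`ResX_jin`, `piQ` of `uR a 0` is `C (ev a x)`; or directly by `uu_map`).
For `i ≤ k`: `g (uK k (cyc a) 0 i) = 0` (`ResX_IK` or `ResX_uK`, `U0_cyc`), so by `uK_cyc` `(A ^ d).coeff i = - U.coeff i`.
With `v' = C (ev a x)⁻¹` and `β` of `beta_pow`: `((C (C w) * β) ^ d).coeff i = C w ^ d * (β ^ d).coeff i = - υ * (β ^ d).coeff i = - U.coeff i`.
`A.coeff 0 = g (X (last, 0)) = C w` (`rs_zero`), `(C (C w) * β).coeff 0 = C w` (`NbT_zero`).  `root_uniq`: for `l ≤ k`,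
`g (X (last, l)) = C w * (v' ^ l * NbT (rt d k) U l)`; multiply by `υ ^ l`; `NbT_map`. -/
theorem ResX_w (a : Idx n d → ℂ) (hd : 1 ≤ d) (y : Fin (n + 1) → ℂ) (hw : y (Fin.last n) ≠ 0)
    (hy : y (Fin.last n) ^ d + ev a (fun b => y b.castSucc) = 0) (l : Fin (k + 1)) :
    ResX k (Finset.univ : Finset (Fin 1)) (cyc a) y (rename jin (uR a 0 : MvPolynomial (JV n k) ℂ)) ^ (l : ℕ) *
      ResX k (Finset.univ : Finset (Fin 1)) (cyc a) y (X (Fin.last n, l)) =
    C (y (Fin.last n)) *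
      ResX k (Finset.univ : Finset (Fin 1)) (cyc a) y (rename jin (NbT (rt d k) (uP k a) (l : ℕ))) := by
  obtain ⟨w, hwy⟩ : ∃ w, w = y (Fin.last n) := ⟨_, rfl⟩
  obtain ⟨g, hg⟩ : ∃ g : MvPolynomial (JV (n + 1) k) ℂ →ₐ[ℂ]
    MvPolynomial (FZ n k (Finset.univ : Finset (Fin 1))) ℂ,
    g = ResX k (Finset.univ : Finset (Fin 1)) (cyc a) y := ⟨_, rfl⟩
  obtain ⟨v, hv⟩ : ∃ v, v = ev a fun b => y b.castSucc := ⟨_, rfl⟩
  have hgu : g (rename jin (uR a 0 : MvPolynomial (JV n k) ℂ)) = C v := by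
    rw [hg, hv]
    exact a306_u a y
  rw [← hg, ← hwy]
  rw [← hwy] at hw hy
  rw [← hv] at hy
  have hv0 : v ≠ 0 := by
    intro h
    rw [h, add_zero] at hy
    exact hw (pow_eq_zero_iff (by omega) |>.1 hy)
  obtain ⟨φ, hφ⟩ : ∃ φ : MvPolynomial (JV n k) ℂ →ₐ[ℂ]
    MvPolynomial (FZ n k (Finset.univ : Finset (Fin 1))) ℂ, φ = g.comp (rename jin) := ⟨_, rfl⟩
  obtain ⟨U, hU⟩ : ∃ U : Polynomial (MvPolynomial (FZ n k (Finset.univ : Finset (Fin 1))) ℂ),
    U = (uP k a).map (φ : MvPolynomial (JV n k) ℂ →+*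
      MvPolynomial (FZ n k (Finset.univ : Finset (Fin 1))) ℂ) := ⟨_, rfl⟩
  have hUc : ∀ i, U.coeff i = g (rename jin (uR a i)) := by
    intro i
    rw [hU, Polynomial.coeff_map, uP_coeff, hφ]
    rfl
  have hNb : ∀ l : ℕ, g (rename jin (NbT (rt d k) (uP k a) l)) = NbT (rt d k) U l := by
    intro l
    rw [hU, ← NbT_map φ, hφ]
    rfl
  have hvv : U.coeff 0 * C v⁻¹ = 1 := by
    rw [hUc, hgu, ← C_mul, mul_inv_cancel₀ hv0, C_1]
  have hA0 : g (X (Fin.last n, 0)) = C w := by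
    rw [hg, hwy]
    exact a306_X a y (Fin.last n)
  have hroot := root_uniq (k := k) hd
    (A := arc (fun p => g (X p)) (Fin.last n))
    (B := Polynomial.C (C w) * ∑ l : Fin (k + 1), Polynomial.C ((C v⁻¹) ^ (l : ℕ) *
      NbT (rt d k) U (l : ℕ)) * Polynomial.X ^ (l : ℕ)) (ω := C w)
    (by
      intro h
      exact hw (C_eq_zero.1 h))
    (by
      rw [coeff_arc, dif_pos (Nat.succ_pos k)]
      exact hA0)
    (by
      rw [Polynomial.coeff_C_mul, Polynomial.finsetSum_coeff, Finset.sum_eq_single (0 : Fin (k + 1))]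
      · rw [Fin.val_zero, pow_zero, NbT_zero, pow_zero, mul_one, mul_one, Polynomial.coeff_C_zero,
          mul_one]
      · intro l _ hl
        rw [Polynomial.coeff_C_mul, Polynomial.coeff_X_pow, if_neg, mul_zero]
        intro h
        exact hl (Fin.ext h.symm)
      · intro h
        exact absurd (Finset.mem_univ _) h)
    (by
      intro i hi
      have h1 : g (uK k (cyc a) 0 i) = 0 := by
        rw [hg]
        refine ResX_uK (Finset.univ : Finset (Fin 1)) (cyc a) y ?_ hi (Or.inr (Finset.mem_univ _))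
        intro j
        rw [U0_cyc a hd y j, ← hwy, ← hv]
        exact hy
      rw [uK_cyc a hd 0 i, map_add, ← hUc] at h1
      have h2 : g ((arc (fun p => (X p : MvPolynomial (JV (n + 1) k) ℂ)) (Fin.last n) ^ d).coeff i) =
          (arc (fun p => g (X p)) (Fin.last n) ^ d).coeff i := by
        have h3 := arc_map (g : MvPolynomial (JV (n + 1) k) ℂ →+*
            MvPolynomial (FZ n k (Finset.univ : Finset (Fin 1))) ℂ)
          (fun p => (X p : MvPolynomial (JV (n + 1) k) ℂ)) (Fin.last n)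
        have h4 : (arc (fun p => g (X p)) (Fin.last n)) = (arc (fun p =>
          (X p : MvPolynomial (JV (n + 1) k) ℂ)) (Fin.last n)).map
            (g : MvPolynomial (JV (n + 1) k) ℂ →+*
            MvPolynomial (FZ n k (Finset.univ : Finset (Fin 1))) ℂ) := h3.symm
        rw [h4, ← Polynomial.map_pow, Polynomial.coeff_map]
        rfl
      rw [h2] at h1
      have h5 := beta_pow (rt_dvd k hd) U hvv hi
      have h6 : (C w : MvPolynomial (FZ n k (Finset.univ : Finset (Fin 1))) ℂ) ^ d = - C v := by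
        rw [← C_pow, ← C_neg]
        congr 1
        exact eq_neg_of_add_eq_zero_left hy
      rw [mul_pow, ← Polynomial.C_pow, Polynomial.coeff_C_mul, h6, eq_neg_of_add_eq_zero_left h1, ← h5,
        hUc 0, hgu]
      ring)
  have h7 := hroot (l : ℕ) (by have := l.2; omega)
  rw [coeff_arc, dif_pos l.2, Polynomial.coeff_C_mul, Polynomial.finsetSum_coeff,
    Finset.sum_eq_single l] at h7
  · rw [Polynomial.coeff_C_mul, Polynomial.coeff_X_pow_self, mul_one] at h7
    have h8 : g (X (Fin.last n, l)) = C w * (C v⁻¹ ^ (l : ℕ) * NbT (rt d k) U (l : ℕ)) := h7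
    rw [h8, hNb, hgu]
    have h9 : (C v : MvPolynomial (FZ n k (Finset.univ : Finset (Fin 1))) ℂ) ^ (l : ℕ) *
        C v⁻¹ ^ (l : ℕ) = 1 := by
      rw [← mul_pow, ← C_mul, mul_inv_cancel₀ hv0, C_1, one_pow]
    calc (C v : MvPolynomial (FZ n k (Finset.univ : Finset (Fin 1))) ℂ) ^ (l : ℕ) *
          (C w * (C v⁻¹ ^ (l : ℕ) * NbT (rt d k) U (l : ℕ))) =
          (C v ^ (l : ℕ) * C v⁻¹ ^ (l : ℕ)) * (C w * NbT (rt d k) U (l : ℕ)) := by ring
      _ = C w * NbT (rt d k) U (l : ℕ) := by rw [h9, one_mul]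
  · intro l' _ hl
    rw [Polynomial.coeff_C_mul, Polynomial.coeff_X_pow, if_neg, mul_zero]
    intro h
    exact hl (Fin.ext h.symm)
  · intro h
    exact absurd (Finset.mem_univ _) h

/-- PROOF.  `lam_gen` for `g = ResX ..`, `ω = C w` (`h1`: `g (rename jin (uR a 0)) = C (ev a x)` as above; `h2`: `ResX_w`), `ResX_jin`. -/
theorem ResX_Lam (a : Idx n d → ℂ) (hd : 1 ≤ d) (y : Fin (n + 1) → ℂ) (hw : y (Fin.last n) ≠ 0)
    (hy : y (Fin.last n) ^ d + ev a (fun b => y b.castSucc) = 0) (m : ℕ) {P : MvPolynomial (JV (n + 1) k) ℂ}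
    (hP : ∀ μ ∈ P.support, d ∣ wd μ ∧ ww μ ≤ m) :
    C (ev a fun b => y b.castSucc) ^ m * ResX k (Finset.univ : Finset (Fin 1)) (cyc a) y P =
      psi n k (d * y (Fin.last n) ^ (d - 1)) (piQ (fun b => y b.castSucc) (Lam a m P)) := by
  have h1 : (C (y (Fin.last n)) : MvPolynomial (FZ n k (Finset.univ : Finset (Fin 1))) ℂ) ^ d =
      - ResX k (Finset.univ : Finset (Fin 1)) (cyc a) y
        (rename jin (uR a 0 : MvPolynomial (JV n k) ℂ)) := by
    have h2 := a306_u (k := k) a y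
    rw [eq_neg_iff_add_eq_zero]
    refine (congrArg (fun z => C (y (Fin.last n)) ^ d + z) h2).trans ?_
    rw [← C_pow, ← C_add, hy, C_0]
  have h2 := lam_gen (ResX k (Finset.univ : Finset (Fin 1)) (cyc a) y) a m (C (y (Fin.last n))) h1
    (fun l => ResX_w a hd y hw hy l) hP
  have h3 := ResX_jin (k := k) a y (Lam a m P)
  rw [det_cyc a hd y] at h3
  rw [← h3]
  refine Eq.trans ?_ h2
  exact congrArg (fun z => z ^ m * ResX k (Finset.univ : Finset (Fin 1)) (cyc a) y P)
    (a306_u (k := k) a y).symm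

end Pool.Agent.H53L
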