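import Pool.Agent.Lib.H53L.A3D

set_option autoImplicit false

/-!
CHUNK A307 (S/M), H53L.  Restriction to the fibre in the flat ring.
-/

open MvPolynomial

namespace Pool.Agent.H53L

open Pool.Agent.H89T Pool.Agent.H67T Pool.Agent.H53U Pool.Agent.H53V Pool.Agent.H44K


variable {n d k : ℕ}

/-- PROOF.  Both sides are ring homomorphisms in `Q` (`C10_fl` in H89T/C10 is `flat` as a ring homomorphism): on `C (C c)`, `C (X α)`, `X p`:
`C10_flat_C_C`, `C10_flat_C_X`, `C10_flat_X`, `aeval_X`.  Induction with `MvPolynomial.induction_on` twice, or `ringHom_ext`. -/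
theorem piA_flat (a : Idx n d → ℂ) (x : Fin n → ℂ) (Q : MvPolynomial (JV n k) (RR n d)) :
    piA a x (flat Q) = piQ x (map (eval a) Q) := by
  have h1 : (piA a x : AA n d k →ₐ[ℂ] MvPolynomial (Fin n × Fin k) ℂ).toRingHom.comp C10_fl =
      (piQ x : MvPolynomial (JV n k) ℂ →ₐ[ℂ] MvPolynomial (Fin n × Fin k) ℂ).toRingHom.comp
        (map (eval a) : MvPolynomial (JV n k) (RR n d) →+* MvPolynomial (JV n k) ℂ) := by
    refine MvPolynomial.ringHom_ext (fun q => ?_) fun p => ?_
    · change piA a x (C10_fl (C q)) = piQ x (map (eval a) (C q))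
      rw [C10_fl_apply, map_C]
      induction q using MvPolynomial.induction_on with
      | C c =>
        rw [C10_flat_C_C, eval_C]
        unfold piA piQ
        rw [aeval_C, aeval_C]
      | add p q hp hq =>
        rw [map_add, flat_add, map_add, hp, hq, map_add, map_add, map_add]
      | mul_X p α hp =>
        rw [map_mul, flat_mul, map_mul, hp, C10_flat_C_X, map_mul, eval_X, map_mul, map_mul]
        congr 1
        unfold piA piQ
        rw [aeval_C]
        simp [aA]
    · change piA a x (C10_fl (X p)) = piQ x (map (eval a) (X p))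
      rw [C10_fl_apply, map_X, C10_flat_X]
      unfold piA piQ
      rw [aeval_X]
      simp [xA]
  exact DFunLike.congr_fun h1 Q

end Pool.Agent.H53L
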