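import Pool.Agent.Lib.H53L.A3D

set_option autoImplicit false

/-!
CHUNK A308 (M), H53L.  Homogeneous polynomials in the `u_l`.
-/

open MvPolynomial

namespace Pool.Agent.H53L

open Pool.Agent.H89T Pool.Agent.H67T Pool.Agent.H53U Pool.Agent.H53V Pool.Agent.H44K


/-- PROOF.  `ld lam ≤ lw lam` (termwise). -/
theorem ld_le_lw {k : ℕ} (lam : Fin k → ℕ) : ld lam ≤ lw lam := by
  unfold ld lw
  exact Finset.sum_le_sum fun i _ => Nat.le_mul_of_pos_left _ (Nat.succ_pos _)

variable {T : Type*} [CommRing T] [Algebra ℂ T] {k : ℕ} {U : Polynomial T}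

theorem a308_lw_add {k : ℕ} (lam lam' : Fin k → ℕ) : lw (lam + lam') = lw lam + lw lam' := by
  unfold lw
  rw [← Finset.sum_add_distrib]
  exact Finset.sum_congr rfl fun i _ => by rw [Pi.add_apply, mul_add]

theorem a308_ld_add {k : ℕ} (lam lam' : Fin k → ℕ) : ld (lam + lam') = ld lam + ld lam' := by
  unfold ld
  rw [← Finset.sum_add_distrib]
  exact Finset.sum_congr rfl fun i _ => by rw [Pi.add_apply]

/-- PROOF.  `Submodule.span_induction₂` or `Submodule.mul_mem_mul` and `Submodule.span_mul_span`: the product of two generators (`lam`, `lam'`) is the generator of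
`lam + lam'`: `l - ld lam + (l' - ld lam') = (l + l') - ld (lam + lam')` because `ld lam ≤ lw lam = l`. -/
theorem HN_mul {l l' : ℕ} {g g' : T} (h : HN k U l g) (h' : HN k U l' g') : HN k U (l + l') (g * g') := by
  unfold HN at h h' ⊢
  have h1 := Submodule.mul_mem_mul h h'
  rw [Submodule.span_mul_span] at h1
  refine Submodule.span_mono ?_ h1
  rintro _ ⟨x, ⟨lam, hl, rfl⟩, y, ⟨lam', hl', rfl⟩, rfl⟩
  refine ⟨lam + lam', ?_, ?_⟩
  · rw [a308_lw_add, hl, hl']
  · dsimp only
    have h2 := ld_le_lw lam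
    have h3 := ld_le_lw lam'
    rw [a308_ld_add, show l + l' - (ld lam + ld lam') = (l - ld lam) + (l' - ld lam') by omega,
      pow_add]
    simp only [Pi.add_apply, pow_add, Finset.prod_mul_distrib]
    ring

/-- PROOF.  `lam = 0`. -/
theorem HN_one : HN k U 0 1 := by
  refine Submodule.subset_span ⟨0, ?_, ?_⟩
  · unfold lw
    simp
  · rw [Nat.zero_sub, pow_zero, one_mul]
    simp

/-- PROOF.  Induction on `e`, `HN_mul`. -/
theorem HN_pow {l : ℕ} {g : T} (h : HN k U l g) (e : ℕ) : HN k U (l * e) (g ^ e) := by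
  induction e with
  | zero =>
    rw [mul_zero, pow_zero]
    exact HN_one
  | succ e ih =>
    rw [pow_succ, Nat.mul_succ]
    exact HN_mul ih h

/-- PROOF.  `Finset.induction_on`, `HN_mul`. -/
theorem HN_prod {ι : Type*} (s : Finset ι) (l : ι → ℕ) (g : ι → T) (h : ∀ i ∈ s, HN k U (l i) (g i)) :
    HN k U (∑ i ∈ s, l i) (∏ i ∈ s, g i) := by
  classical
  induction s using Finset.induction_on with
  | empty =>
    rw [Finset.sum_empty, Finset.prod_empty]
    exact HN_one
  | insert a s ha ih =>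
    rw [Finset.sum_insert ha, Finset.prod_insert ha]
    exact HN_mul (h a (Finset.mem_insert_self a s)) (ih fun i hi => h i (Finset.mem_insert_of_mem hi))

theorem a308_gen {l : ℕ} (h1 : 1 ≤ l) (hl : l ≤ k) : HN k U l (U.coeff 0 ^ (l - 1) * U.coeff l) := by
  have h2 : l - 1 < k := by omega
  refine Submodule.subset_span ⟨Pi.single ⟨l - 1, h2⟩ 1, ?_, ?_⟩
  · unfold lw
    rw [Finset.sum_eq_single ⟨l - 1, h2⟩]
    · rw [Pi.single_eq_same, mul_one]
      exact Nat.sub_add_cancel h1
    · intro i _ hi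
      rw [Pi.single_eq_of_ne hi, mul_zero]
    · intro h
      exact absurd (Finset.mem_univ _) h
  · have h3 : ld (Pi.single (⟨l - 1, h2⟩ : Fin k) 1) = 1 := by
      unfold ld
      rw [Finset.sum_eq_single ⟨l - 1, h2⟩]
      · rw [Pi.single_eq_same]
      · intro i _ hi
        rw [Pi.single_eq_of_ne hi]
      · intro h
        exact absurd (Finset.mem_univ _) h
    rw [h3, Finset.prod_eq_single ⟨l - 1, h2⟩]
    · rw [Pi.single_eq_same, pow_one]
      congr 2
      exact (Nat.sub_add_cancel h1).symm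
    · intro i _ hi
      rw [Pi.single_eq_of_ne hi, pow_zero]
    · intro h
      exact absurd (Finset.mem_univ _) h

/-- The coefficient of `t ^ l` in `(U - U_0) ^ j`, times `U_0 ^ (l - j)`, `j ≤ l ≤ k`.
PROOF.  For `j ≤ l` by induction on `j` (all `l`): `V = U - C (U.coeff 0)`, `V ^ (j + 1) = V ^ j * V`,
`(V ^ (j + 1)).coeff l = ∑ (l1, l2) ∈ antidiagonal l, (V ^ j).coeff l1 * V.coeff l2`; the terms with `l2 = 0` vanish, the terms with `l1 < j` vanish
(`X ^ j ∣ V ^ j`); for `l2 ≥ 1`, `l1 ≥ j`: `U_0 ^ (l - (j + 1)) = U_0 ^ (l1 - j) * U_0 ^ (l2 - 1)`, the first factor gives `HN l1`, and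
`U_0 ^ (l2 - 1) * U.coeff l2` is the generator of `HN l2` with `lam = Pi.single ⟨l2 - 1, _⟩ 1` (`l2 ≤ l ≤ k`).  `j = 0`: `l = 0`: `HN_one`;
`l > 0`: the coefficient is `0` (`Submodule.zero_mem`). -/
theorem HN_coeff {l j : ℕ} (hl : l ≤ k) (hj : j ≤ l) :
    HN k U l (U.coeff 0 ^ (l - j) * ((U - Polynomial.C (U.coeff 0)) ^ j).coeff l) := by
  induction j generalizing l with
  | zero =>
    rw [pow_zero, Polynomial.coeff_one]
    split_ifs with h
    · subst h
      rw [Nat.sub_zero, pow_zero, one_mul]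
      exact HN_one
    · rw [mul_zero]
      exact Submodule.zero_mem _
  | succ j ih =>
    have hV0 : (U - Polynomial.C (U.coeff 0)).coeff 0 = 0 := by
      rw [Polynomial.coeff_sub, Polynomial.coeff_C_zero, sub_self]
    have hV2 : ∀ i, i ≠ 0 → (U - Polynomial.C (U.coeff 0)).coeff i = U.coeff i := by
      intro i hi
      rw [Polynomial.coeff_sub, Polynomial.coeff_C_ne_zero hi, sub_zero]
    have hVj : ∀ i, i < j → ((U - Polynomial.C (U.coeff 0)) ^ j).coeff i = 0 := by
      intro i hi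
      have h1 : Polynomial.X ^ j ∣ (U - Polynomial.C (U.coeff 0)) ^ j :=
        pow_dvd_pow_of_dvd (Polynomial.X_dvd_iff.2 hV0) j
      exact Polynomial.X_pow_dvd_iff.1 h1 i hi
    rw [pow_succ, Polynomial.coeff_mul, Finset.mul_sum]
    unfold HN
    refine Submodule.sum_mem _ fun p hp => ?_
    rw [Finset.HasAntidiagonal.mem_antidiagonal] at hp
    by_cases h2 : p.2 = 0
    · rw [h2, hV0, mul_zero, mul_zero]
      exact Submodule.zero_mem _
    by_cases h1 : p.1 < j
    · rw [hVj p.1 h1, zero_mul, mul_zero]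
      exact Submodule.zero_mem _
    have h3 : U.coeff 0 ^ (l - (j + 1)) * (((U - Polynomial.C (U.coeff 0)) ^ j).coeff p.1 *
        (U - Polynomial.C (U.coeff 0)).coeff p.2) =
        (U.coeff 0 ^ (p.1 - j) * ((U - Polynomial.C (U.coeff 0)) ^ j).coeff p.1) *
          (U.coeff 0 ^ (p.2 - 1) * U.coeff p.2) := by
      rw [hV2 p.2 h2, show l - (j + 1) = (p.1 - j) + (p.2 - 1) by omega, pow_add]
      ring
    rw [h3]
    have h4 := HN_mul (ih (l := p.1) (by omega) (by omega))
      (a308_gen (U := U) (k := k) (l := p.2) (by omega) (by omega))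
    rw [hp] at h4
    exact h4

/-- PROOF.  `HN_coeff`, sums (`Submodule.sum_mem`) and multiples by constants (`Algebra.smul_def`). -/
theorem HN_NbT (c : Polynomial ℂ) {l : ℕ} (hl : l ≤ k) : HN k U l (NbT c U l) := by
  unfold HN NbT
  refine Submodule.sum_mem _ fun j hj => ?_
  rw [Finset.mem_range] at hj
  rw [mul_assoc, ← Algebra.smul_def]
  exact Submodule.smul_mem _ _ (HN_coeff hl (by omega))

end Pool.Agent.H53L
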