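import Pool.Agent.Lib.H53L.A302
import Pool.Agent.Lib.H53L.A308
import Pool.Agent.Lib.H53L.A307

set_option autoImplicit false

/-!
CHUNK A309 (M), H53L.  The elimination gives logarithmic jet differentials.
-/

open MvPolynomial

namespace Pool.Agent.H53L

open Pool.Agent.H89T Pool.Agent.H67T Pool.Agent.H53U Pool.Agent.H53V Pool.Agent.H44K


variable {n d k : ℕ}

/-- PROOF.  `wt μ = ∑_{(b, l)} (l + 1) μ (b, l)`: `Fintype.sum_prod_type`, `Fin.sum_univ_castSucc`; the part of `w` is `wd μ + ww μ`. -/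
theorem wt_xpt (μ : JV (n + 1) k →₀ ℕ) : wt (xpt μ) + wd μ + ww μ = wt μ := by
  unfold wt wd ww
  have h1 : ∑ p : JV (n + 1) k, ((p.2 : ℕ) + 1) * μ p =
      ∑ b : Fin n, ∑ l : Fin (k + 1), ((l : ℕ) + 1) * μ (b.castSucc, l) +
        ∑ l : Fin (k + 1), ((l : ℕ) + 1) * μ (Fin.last n, l) := by
    rw [Fintype.sum_prod_type, Fin.sum_univ_castSucc]
  have h2 : ∑ l : Fin (k + 1), ((l : ℕ) + 1) * μ (Fin.last n, l) =
      ∑ l : Fin (k + 1), μ (Fin.last n, l) + ∑ l : Fin (k + 1), (l : ℕ) * μ (Fin.last n, l) := by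
    rw [← Finset.sum_add_distrib]
    exact Finset.sum_congr rfl fun l _ => by ring
  have h3 : ∑ p : JV n k, ((p.2 : ℕ) + 1) * xpt μ p =
      ∑ b : Fin n, ∑ l : Fin (k + 1), ((l : ℕ) + 1) * μ (b.castSucc, l) := by
    rw [Fintype.sum_prod_type]
    rfl
  omega

/-- PROOF.  The same for `jw`. -/
theorem jw_xpt (μ : JV (n + 1) k →₀ ℕ) : H53V.jw (xpt μ) + ww μ = H53V.jw μ := by
  unfold H53V.jw ww
  have h1 : ∑ p : JV (n + 1) k, (p.2 : ℕ) * μ p =
      ∑ b : Fin n, ∑ l : Fin (k + 1), (l : ℕ) * μ (b.castSucc, l) +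
        ∑ l : Fin (k + 1), (l : ℕ) * μ (Fin.last n, l) := by
    rw [Fintype.sum_prod_type, Fin.sum_univ_castSucc]
  have h3 : ∑ p : JV n k, (p.2 : ℕ) * xpt μ p =
      ∑ b : Fin n, ∑ l : Fin (k + 1), (l : ℕ) * μ (b.castSucc, l) := by
    rw [Fintype.sum_prod_type]
    rfl
  omega

/-- PROOF.  The exponents: `wt μ = xd μ + ∑_{l ≥ 1} (l + 1) μ ≤ xd μ + 2 jw μ`. -/
theorem wt_le (μ : JV (n + 1) k →₀ ℕ) : wt μ ≤ xd μ + 2 * H53V.jw μ := by
  unfold wt xd H53V.jw
  rw [Fintype.sum_prod_type, Fintype.sum_prod_type, Finset.mul_sum, ← Finset.sum_add_distrib]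
  refine Finset.sum_le_sum fun b _ => ?_
  rw [Fin.sum_univ_succ, Fin.sum_univ_succ, mul_add, Finset.mul_sum]
  dsimp only
  have h1 : ∑ i : Fin k, ((i.succ : ℕ) + 1) * μ (b, i.succ) ≤
      ∑ i : Fin k, 2 * ((i.succ : ℕ) * μ (b, i.succ)) := by
    refine Finset.sum_le_sum fun i _ => ?_
    rw [← mul_assoc]
    refine Nat.mul_le_mul_right _ ?_
    rw [Fin.val_succ]
    omega
  have h2 : (((0 : Fin (k + 1)) : ℕ) + 1) * μ (b, 0) = μ (b, 0) := by
    rw [Fin.val_zero, zero_add, one_mul]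
  omega

/-- `flat` as a homomorphism of algebras. -/
noncomputable def a309_fl : MvPolynomial (JV n k) (RR n d) →ₐ[ℂ] AA n d k :=
  ((sumAlgEquiv ℂ (JV n k) (Idx n d)).symm : MvPolynomial (JV n k) (RR n d) →ₐ[ℂ] AA n d k)

theorem a309_fl_apply (P : MvPolynomial (JV n k) (RR n d)) : a309_fl P = flat P := rfl

theorem a309_flat_monomial (ν : JV n k →₀ ℕ) (c : RR n d) :
    flat (monomial ν c) = rename Sum.inr c * monomial (jm ν) 1 := by
  have h5 : (∏ p : JV n k, xA p ^ (ν p) : AA n d k) = monomial (jm ν) 1 := by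
    unfold jm
    rw [monomial_eq, map_one, one_mul, Finsupp.prod_mapDomain_index_inj Sum.inl_injective,
      Finsupp.prod_fintype _ _ (fun _ => pow_zero _)]
    rfl
  rw [← h5, monomial_eq, flat_mul, C10_flat_C]
  congr 1
  rw [← C10_fl_apply, Finsupp.prod_fintype _ _ (fun _ => pow_zero _), map_prod]
  refine Finset.prod_congr rfl fun p _ => ?_
  rw [map_pow, C10_fl_apply, C10_flat_X]

theorem a309_rename (c : RR n d) :
    ∀ ν ∈ (rename Sum.inr c : AA n d k).support, ∀ p : JV n k, ν (Sum.inl p) = 0 := by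
  classical
  intro ν hν p
  rw [support_rename_of_injective Sum.inr_injective] at hν
  obtain ⟨w, _, rfl⟩ := Finset.mem_image.1 hν
  exact Finsupp.mapDomain_of_notMem_range _ _ (by simp)

theorem a309_term {M m : ℕ} (μ : JV (n + 1) k →₀ ℕ) (c : RR n d) (h2 : d ∣ wd μ)
    (h3 : H53V.jw μ = m) (h4 : wt μ ≤ M) :
    flat (monomial (xpt μ) c) * flat (lamM d k (uP k (gen n d)) m μ) ∈
      Submodule.span ℂ (LTg n d k M m) := by
  classical
  obtain ⟨U, hU⟩ : ∃ U : Polynomial (AA n d k),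
      U = (uP k (gen n d)).map ((a309_fl : MvPolynomial (JV n k) (RR n d) →ₐ[ℂ] AA n d k) :
        MvPolynomial (JV n k) (RR n d) →+* AA n d k) := ⟨_, rfl⟩
  have hUc : ∀ i, U.coeff i = uA i := by
    intro i
    rw [hU, Polynomial.coeff_map, uP_coeff]
    exact flat_uR i
  have hl : flat (lamM d k (uP k (gen n d)) m μ) = lamM d k U m μ := by
    rw [← a309_fl_apply, lamM_map, hU]
  have hN : HN k U (ww μ) (∏ l : Fin (k + 1), NbT (rt d k) U (l : ℕ) ^ μ (Fin.last n, l)) :=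
    HN_prod Finset.univ (fun l : Fin (k + 1) => (l : ℕ) * μ (Fin.last n, l)) _
      fun l _ => HN_pow (HN_NbT (rt d k) (Nat.lt_succ_iff.1 l.2)) _
  rw [hl, a309_flat_monomial]
  unfold lamM
  have h5 := wt_xpt μ
  have h6 := jw_xpt μ
  have h7 : d * (wd μ / d) = wd μ := Nat.mul_div_cancel' h2
  obtain ⟨Pq, hPq⟩ : ∃ Pq, Pq = ∏ l : Fin (k + 1), NbT (rt d k) U (l : ℕ) ^ μ (Fin.last n, l) :=
    ⟨_, rfl⟩
  rw [← hPq] at hN ⊢
  clear hPq hl
  unfold HN at hN
  induction hN using Submodule.span_induction with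
  | mem g hg =>
    obtain ⟨lam, hlam, rfl⟩ := hg
    have h8 := ld_le_lw lam
    refine Submodule.subset_span ⟨rename Sum.inr (c * (-1) ^ (wd μ / d)), xpt μ, wd μ / d, lam,
      a309_rename _, ?_, ?_, ?_⟩
    · rw [h7, hlam]
      omega
    · rw [hlam]
      omega
    · have h9 : m - ld lam = (m - ww μ) + (ww μ - ld lam) := by omega
      have h10 : (rename Sum.inr (-1 : RR n d) : AA n d k) = -1 := by
        rw [map_neg, map_one]
      simp only [hUc]
      rw [h9, map_mul, map_pow, h10, neg_pow (uA 0) (wd μ / d), pow_add, pow_add]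
      ring
  | zero =>
    rw [mul_zero, mul_zero]
    exact Submodule.zero_mem _
  | add x y _ _ hx hy =>
    rw [mul_add, mul_add]
    exact Submodule.add_mem _ hx hy
  | smul t x _ hx =>
    rw [mul_smul_comm, mul_smul_comm]
    exact Submodule.smul_mem _ _ hx

/-- PROOF.  `flat` is a ring homomorphism (`C10_fl` in H89T/C10), so `flat (Lam ..)` is the sum over `μ ∈ P.support` of `flat (monomial (xpt μ) c) * flat (lamM ..)`, `c = coeff μ P`
(`P.as_sum`, `Lam_monomial`); `LT` is closed under sums.  `flat (monomial ν c) = flat (C c) * monomial (jm ν) 1` (`monomial_eq`, `C10_flat_X`, or as in `C10_flat_support`),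
and `flat (C c) = rename Sum.inr c` has no variables `Sum.inl p` (`C10_flat_C`).  `flat (lamM d k (uP k gen) m μ) = lamM d k (uP_A) m μ`, `uP_A = (uP k gen).map flat`,
`uP_A.coeff i = uA i` (`flat_uR`; `lamM_map` needs an algebra homomorphism over `ℂ`: `flat` is one: `flat (C (C c)) = C c`).  With `U = uP_A`:
`lamM = ± U_0 ^ (wd μ / d) * U_0 ^ (m - ww μ) * Π`, `Π = ∏ l, NbT .. ^ μ_l`, `HN k U (ww μ) Π` (`HN_NbT`, `HN_pow`, `HN_prod`).  By linearity in the element of `HN`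
(`Submodule.span_induction`) it is enough to take `Π = U_0 ^ (ww μ - ld lam) * ∏ U_(i+1) ^ lam i`, `lw lam = ww μ`: then the product is the generator of `LTg` with `c` (the
sign included), `xpt μ`, `j = wd μ / d`, `lam`: `(m - ww μ) + (ww μ - ld lam) = m - ld lam` (`ld_le_lw`, `ww μ ≤ jw μ = m` by `jw_xpt`), and the conditions are `wt_xpt`, `jw_xpt`
with `d * (wd μ / d) = wd μ`. -/
theorem LT_Lam {M m : ℕ} {P : MvPolynomial (JV (n + 1) k) (RR n d)}
    (hP : ∀ μ ∈ P.support, d ∣ wd μ ∧ H53V.jw μ = m ∧ wt μ ≤ M) :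
    LT M m (flat (Lam (gen n d) m P)) := by
  classical
  have h1 : flat (Lam (gen n d) m P) = ∑ μ ∈ P.support,
      flat (monomial (xpt μ) (P.coeff μ)) * flat (lamM d k (uP k (gen n d)) m μ) := by
    conv_lhs => rw [P.as_sum]
    rw [map_sum, ← C10_fl_apply, map_sum]
    refine Finset.sum_congr rfl fun μ _ => ?_
    rw [Lam_monomial, C10_fl_apply, flat_mul]
  rw [h1]
  unfold LT
  refine Submodule.sum_mem _ fun μ hμ => ?_
  obtain ⟨h2, h3, h4⟩ := hP μ hμ
  exact a309_term μ (P.coeff μ) h2 h3 h4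

end Pool.Agent.H53L
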