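import Pool.Agent.Lib.H53L.A304

set_option autoImplicit false

/-!
CHUNK A310 (M), H53L.  Components modulo `d`.
-/

open MvPolynomial

namespace Pool.Agent.H53L

open Pool.Agent.H89T Pool.Agent.H67T Pool.Agent.H53U Pool.Agent.H53V Pool.Agent.H44K


variable {n d k : ℕ} {B : Type*} [CommRing B]

/-- PROOF.  `Finsupp.weight`-formula: the weight of `μ` is `∑ p, μ p • wv p`, only the `p = (last, l)` contribute. -/
theorem weight_wv (d : ℕ) (μ : JV (n + 1) k →₀ ℕ) : Finsupp.weight (wv n k d) μ = (wd μ : ZMod d) := by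
  rw [Finsupp.weight_apply, Finsupp.sum_fintype _ _ (fun i => by simp)]
  unfold wd wv
  rw [Fintype.sum_prod_type, Finset.sum_eq_single (Fin.last n)]
  · push_cast
    refine Finset.sum_congr rfl fun l _ => ?_
    simp
  · intro b _ hb
    refine Finset.sum_eq_zero fun l _ => ?_
    simp [hb]
  · intro h
    exact absurd (Finset.mem_univ _) h

/-- all the coefficients have weight `r` -/
def a310_G (n k d : ℕ) {B : Type*} [CommRing B] (r : ZMod d)
    (f : Polynomial (MvPolynomial (JV (n + 1) k) B)) : Prop :=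
  ∀ i, IsWeightedHomogeneous (wv n k d) (f.coeff i) r

theorem a310_mul {r s : ZMod d} {f g : Polynomial (MvPolynomial (JV (n + 1) k) B)}
    (hf : a310_G n k d r f) (hg : a310_G n k d s g) : a310_G n k d (r + s) (f * g) := by
  intro i
  rw [Polynomial.coeff_mul]
  exact IsWeightedHomogeneous.sum _ _ _ fun x _ => (hf x.1).mul (hg x.2)

theorem a310_one : a310_G n k d 0 (1 : Polynomial (MvPolynomial (JV (n + 1) k) B)) := by
  intro i
  rw [Polynomial.coeff_one]
  split_ifs
  · exact isWeightedHomogeneous_one _ _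
  · exact isWeightedHomogeneous_zero _ _ _

theorem a310_pow {r : ZMod d} {f : Polynomial (MvPolynomial (JV (n + 1) k) B)}
    (hf : a310_G n k d r f) (e : ℕ) : a310_G n k d (e * r) (f ^ e) := by
  induction e with
  | zero =>
    rw [Nat.cast_zero, zero_mul, pow_zero]
    exact a310_one
  | succ e ih =>
    rw [pow_succ, Nat.cast_succ, add_mul, one_mul]
    exact a310_mul ih hf

theorem a310_arc : a310_G n k d 1
    (arc (fun p => (X p : MvPolynomial (JV (n + 1) k) B)) (Fin.last n)) := by
  intro i
  unfold arc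
  rw [Polynomial.finset_sum_coeff]
  refine IsWeightedHomogeneous.sum _ _ _ fun l _ => ?_
  rw [Polynomial.coeff_C_mul_X_pow]
  split_ifs
  · have h := isWeightedHomogeneous_X B (wv n k d) ((Fin.last n, l) : JV (n + 1) k)
    have h2 : wv n k d ((Fin.last n, l) : JV (n + 1) k) = 1 := by simp [wv]
    rw [h2] at h
    exact h
  · exact isWeightedHomogeneous_zero _ _ _

theorem a310_rename (f : MvPolynomial (JV n k) B) :
    IsWeightedHomogeneous (wv n k d) (rename jin f) 0 := by
  intro μ hμ
  obtain ⟨ν, hν, _⟩ := coeff_rename_ne_zero jin f μ hμ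
  rw [weight_wv, ← hν]
  have h : wd (Finsupp.mapDomain jin ν) = 0 := by
    unfold wd
    refine Finset.sum_eq_zero fun l _ => ?_
    apply Finsupp.mapDomain_notin_range
    rintro ⟨p, hp⟩
    have h1 := congrArg Prod.fst hp
    exact (Fin.castSucc_lt_last p.1).ne h1
  rw [h, Nat.cast_zero]

/-- PROOF.  `uK_cyc`: `rename jin (..)` has only monomials without `w` (weight `0`); the coefficients of `arc X (last) ^ d` are sums of products of `d` variables
`X (last, l)`: weight `d = 0` in `ZMod d` (as `g17_pow` in H44K/G17: a predicate on all coefficients closed under products; `arc` has weight `1`, `d • 1 = 0`). -/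
theorem uK_cyc_wh (a : Idx n d → B) (hd : 1 ≤ d) (j : Fin 1) (i : ℕ) :
    IsWeightedHomogeneous (wv n k d) (uK k (cyc a) j i : MvPolynomial (JV (n + 1) k) B) 0 := by
  rw [uK_cyc a hd]
  refine IsWeightedHomogeneous.add ?_ (a310_rename _)
  have h := a310_pow (a310_arc (n := n) (k := k) (d := d) (B := B)) d
  rw [ZMod.natCast_self, zero_mul] at h
  exact h i

/-- PROOF.  Coefficients (`coeff_weightedHomogeneousComponent`, `coeff_mul`): in `coeff μ (f * g) = ∑ coeff μ1 f * coeff μ2 g` only the `μ2` of weight `0` contribute, so the weight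
of `μ1` is the weight of `μ`. -/
theorem comp_mul {σ : Type*} {w : σ → ZMod d} {g : MvPolynomial σ B} (hg : IsWeightedHomogeneous w g 0) (j : ZMod d)
    (f : MvPolynomial σ B) :
    weightedHomogeneousComponent w j (f * g) = weightedHomogeneousComponent w j f * g := by
  classical
  ext μ
  rw [coeff_weightedHomogeneousComponent, coeff_mul, coeff_mul]
  have key : ∀ x ∈ Finset.HasAntidiagonal.antidiagonal μ,
      coeff x.1 (weightedHomogeneousComponent w j f) * coeff x.2 g =
        if Finsupp.weight w μ = j then coeff x.1 f * coeff x.2 g else 0 := by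
    intro x hx
    rw [coeff_weightedHomogeneousComponent]
    by_cases h0 : coeff x.2 g = 0
    · rw [h0]
      simp
    · have h1 := hg h0
      have h2 : Finsupp.weight w μ = Finsupp.weight w x.1 := by
        rw [← Finset.HasAntidiagonal.mem_antidiagonal.1 hx, map_add, h1, add_zero]
      rw [h2]
      split_ifs
      · rfl
      · rw [zero_mul]
  rw [Finset.sum_congr rfl key]
  split_ifs
  · rfl
  · rw [Finset.sum_const_zero]

/-- PROOF.  `Submodule.span_induction` on `P ∈ IK = Ideal.span {..}` (as `f * g`, `g` a generator: `Submodule.span_induction` with `smul`, or `mem_span_set`/`Ideal.span` via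
`Submodule.mem_span_set'`: `P = ∑ f_i g_i`), `comp_mul`, `uK_cyc_wh`. -/
theorem comp_IK (a : Idx n d → B) (hd : 1 ≤ d) (j : ZMod d) {P : MvPolynomial (JV (n + 1) k) B}
    (hP : P ∈ IK k (Finset.univ : Finset (Fin 1)) (cyc a)) :
    weightedHomogeneousComponent (wv n k d) j P ∈ IK k (Finset.univ : Finset (Fin 1)) (cyc a) := by
  have key : ∀ f : MvPolynomial (JV (n + 1) k) B,
      weightedHomogeneousComponent (wv n k d) j (f * P) ∈
        IK k (Finset.univ : Finset (Fin 1)) (cyc a) := by
    unfold IK at hP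
    refine Submodule.span_induction (p := fun P _ => ∀ f : MvPolynomial (JV (n + 1) k) B,
      weightedHomogeneousComponent (wv n k d) j (f * P) ∈
        IK k (Finset.univ : Finset (Fin 1)) (cyc a)) ?_ ?_ ?_ ?_ hP
    · rintro g ⟨j', i, hi, hj, rfl⟩ f
      rw [comp_mul (uK_cyc_wh a hd j' i)]
      exact Ideal.mul_mem_left _ _ (Ideal.subset_span ⟨j', i, hi, hj, rfl⟩)
    · intro f
      rw [mul_zero, map_zero]
      exact Ideal.zero_mem _
    · intro x y _ _ hx hy f
      rw [mul_add, map_add]
      exact Ideal.add_mem _ (hx f) (hy f)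
    · intro c x _ hx f
      rw [smul_eq_mul, ← mul_assoc]
      exact hx (f * c)
  have h := key 1
  rw [one_mul] at h
  exact h

/-- PROOF.  `linK k (lin0 l) = rename jin (∑ b, C (l b) * X (b, 0))` (`Fin.sum_univ_castSucc`, `Fin.snoc_castSucc`, `Fin.snoc_last`). -/
theorem linK_lin0 (l : Fin n → B) : (linK k (lin0 l) : MvPolynomial (JV (n + 1) k) B) =
    rename jin (∑ b, C (l b) * X (b, 0)) := by
  unfold linK lin0
  rw [Fin.sum_univ_castSucc, map_sum]
  simp only [Fin.snoc_castSucc, Fin.snoc_last, map_zero, zero_mul, add_zero, map_mul, rename_C,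
    rename_X, jin]

/-- PROOF.  `comp_IK` of `linK ^ s * P - Q`, `comp_mul` for `linK ^ s` (weight `0`: `linK_lin0`, no `w`), `map_sub`. -/
theorem comp_rel (a : Idx n d → B) (hd : 1 ≤ d) (j : ZMod d) (l : Fin n → B) (s : ℕ)
    {P Q : MvPolynomial (JV (n + 1) k) B}
    (h : linK k (lin0 l) ^ s * P - Q ∈ IK k (Finset.univ : Finset (Fin 1)) (cyc a)) :
    linK k (lin0 l) ^ s * weightedHomogeneousComponent (wv n k d) j P -
      weightedHomogeneousComponent (wv n k d) j Q ∈ IK k (Finset.univ : Finset (Fin 1)) (cyc a) := by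
  have h1 := comp_IK a hd j h
  have hw : IsWeightedHomogeneous (wv n k d) (linK k (lin0 l) ^ s : MvPolynomial (JV (n + 1) k) B)
      0 := by
    rw [linK_lin0, ← map_pow]
    exact a310_rename _
  rw [map_sub, mul_comm, comp_mul hw, mul_comm] at h1
  exact h1

end Pool.Agent.H53L
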