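import Pool.Agent.Lib.H53L.A3D

set_option autoImplicit false

/-!
CHUNK A311 (S/M), H53L.  Linear algebra: the choice of the components.
-/

open MvPolynomial

namespace Pool.Agent.H53L

open Pool.Agent.H89T Pool.Agent.H67T Pool.Agent.H53U Pool.Agent.H53V Pool.Agent.H44K


/-- PROOF.  The span of the `v i` has dimension `r` (`finrank_span_eq_card`) and is contained in the span of the `u i j`, so this span has dimension at least `r`
(`Submodule.finrank_mono`, finite-dimensional: finite family).  A finite family contains a basis of its span (`exists_linearIndependent` / `Submodule.exists_fun_fin_finrank_span_eq` or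
`exists_linearIndependent'`), with at least `r` elements; take `r` of them (injective `Fin r → ..`, `LinearIndependent.comp`). -/
theorem choose_comp {E : Type*} [AddCommGroup E] [Module ℂ E] {r : ℕ} {ι : Type*} [Fintype ι] (v : Fin r → E)
    (u : Fin r → ι → E) (hv : LinearIndependent ℂ v) (h : ∀ i, v i = ∑ j, u i j) :
    ∃ f : Fin r → Fin r × ι, LinearIndependent ℂ fun i => u (f i).1 (f i).2 := by
  classical
  obtain ⟨κ, a, ha, hsp, hli⟩ := exists_linearIndependent' ℂ (fun p : Fin r × ι => u p.1 p.2)
  have hfin : Finite κ := Finite.of_injective a ha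
  have hft : Fintype κ := Fintype.ofFinite κ
  have hsub : Submodule.span ℂ (Set.range v) ≤
      Submodule.span ℂ (Set.range ((fun p : Fin r × ι => u p.1 p.2) ∘ a)) := by
    rw [hsp, Submodule.span_le]
    rintro _ ⟨i, rfl⟩
    rw [h i]
    exact Submodule.sum_mem _ fun j _ => Submodule.subset_span ⟨(i, j), rfl⟩
  have hfd : FiniteDimensional ℂ (Submodule.span ℂ (Set.range ((fun p : Fin r × ι => u p.1 p.2) ∘ a))) :=
    FiniteDimensional.span_of_finite ℂ (Set.finite_range _)
  have h1 := Submodule.finrank_mono hsub
  rw [finrank_span_eq_card hv, finrank_span_eq_card hli, Fintype.card_fin] at h1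
  obtain ⟨e⟩ : Nonempty (Fin r ↪ κ) := by
    apply Function.Embedding.nonempty_of_card_le
    rw [Fintype.card_fin]
    exact h1
  exact ⟨fun i => a (e i), hli.comp e e.injective⟩

end Pool.Agent.H53L
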