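import Pool.Agent.Lib.H53L.A305
import Pool.Agent.Lib.H53L.A306
import Pool.Agent.Lib.H53L.A307
import Pool.Agent.Lib.H53L.A309
import Pool.Agent.Lib.H53L.A310
import Pool.Agent.Lib.H53L.A311

set_option autoImplicit false

/-!
CHUNK A312 (M), H53L.  Module A3: assembly.
-/

open MvPolynomial

namespace Pool.Agent.H53L

open Pool.Agent.H89T Pool.Agent.H67T Pool.Agent.H53U Pool.Agent.H53V Pool.Agent.H44K


variable {n d k : ℕ}

/-- From one `P` with all `w`-degrees in one class to a polynomial with `w`-degrees divisible by `d`.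
PROOF.  `e = (- j).val < d` (`ZMod.val_lt`; `NeZero d`).  The exponents of `X (last, 0) ^ e * P` are `single (last, 0) e + μ`, `μ ∈ P.support` (`coeff_X_pow_mul'` or `support_mul`):
`wd` increases by `e`, `((wd μ + e : ℕ) : ZMod d) = j + (- j) = 0` (`weight_wv`, `ZMod.natCast_zmod_val`, `ZMod.natCast_eq_zero_iff`), `jw` does not change, `xd` increases by `e ≤ d`;
`wt ≤ xd + 2 jw` (`wt_le`). -/
theorem shift_w (hd : 1 ≤ d) {B : Type*} [CommRing B] (j : ZMod d) {a0 m : ℕ} {P : MvPolynomial (JV (n + 1) k) B}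
    (hP : BiK a0 m P) (hj : IsWeightedHomogeneous (wv n k d) P j) :
    ∀ μ ∈ (X (Fin.last n, 0) ^ (- j).val * P : MvPolynomial (JV (n + 1) k) B).support,
      d ∣ wd μ ∧ H53V.jw μ = m ∧ wt μ ≤ a0 + d + 2 * m := by
  haveI : NeZero d := ⟨by omega⟩
  obtain ⟨e, he⟩ : ∃ e, e = (- j).val := ⟨_, rfl⟩
  have hed : e < d := by
    rw [he]
    exact ZMod.val_lt _
  rw [← he, X_pow_eq_monomial]
  intro μ hμ
  rw [mem_support_iff, coeff_monomial_mul'] at hμ
  have hle : Finsupp.single (Fin.last n, (0 : Fin (k + 1))) e ≤ μ := by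
    by_contra h
    rw [if_neg h] at hμ
    exact hμ rfl
  rw [if_pos hle, one_mul] at hμ
  obtain ⟨ν, hν⟩ : ∃ ν, ν = μ - Finsupp.single (Fin.last n, (0 : Fin (k + 1))) e := ⟨_, rfl⟩
  have hμν : μ = Finsupp.single (Fin.last n, (0 : Fin (k + 1))) e + ν := by
    rw [hν, add_tsub_cancel_of_le hle]
  rw [← hν] at hμ
  obtain ⟨h1, h2⟩ := hP ν (mem_support_iff.2 hμ)
  have h3 : (wd ν : ZMod d) = j := by
    rw [← weight_wv]
    exact hj hμ
  have h4 : wd μ = e + wd ν := by
    rw [hμν]
    unfold wd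
    simp only [Finsupp.add_apply, Finset.sum_add_distrib]
    congr 1
    rw [Finset.sum_eq_single 0]
    · rw [Finsupp.single_eq_same]
    · intro b _ hb
      rw [Finsupp.single_eq_of_ne]
      intro h
      exact hb (congrArg Prod.snd h)
    · intro h
      exact absurd (Finset.mem_univ _) h
  have h5 : H53V.jw μ = m := by
    rw [hμν, ← h2]
    unfold H53V.jw
    refine Finset.sum_congr rfl fun p _ => ?_
    rw [Finsupp.add_apply]
    by_cases hp : p = (Fin.last n, (0 : Fin (k + 1)))
    · rw [hp]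
      simp
    · rw [Finsupp.single_eq_of_ne hp, zero_add]
  have h6 : xd μ ≤ a0 + d := by
    have h7 : xd μ = e + xd ν := by
      rw [hμν]
      unfold xd
      simp only [Finsupp.add_apply, Finset.sum_add_distrib]
      congr 1
      rw [Finset.sum_eq_single (Fin.last n)]
      · rw [Finsupp.single_eq_same]
      · intro b _ hb
        rw [Finsupp.single_eq_of_ne]
        intro h
        exact hb (congrArg Prod.fst h)
      · intro h
        exact absurd (Finset.mem_univ _) h
    omega
  refine ⟨?_, h5, ?_⟩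
  · rw [← ZMod.natCast_eq_zero_iff, h4, Nat.cast_add, h3, he, ZMod.natCast_zmod_val, neg_add_cancel]
  · have := wt_le μ
    rw [h5] at this
    omega

/-- PROOF.  `tau (FrI n univ) k m μ = tau (Fin n) k m μ`: the types are in bijection (`b ↦ ⟨b.castSucc, isFr_castSucc b⟩`; surjective: `free_or_pivot`, `Fin.natAdd n 0 = Fin.last n`),
`Nat.card_congr` with `Equiv.arrowCongr`/`Equiv.subtypeEquiv`. -/
theorem tau_fr (n k m μ : ℕ) : tau (FrI n (Finset.univ : Finset (Fin 1))) k m μ = tau (Fin n) k m μ := by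
  classical
  obtain ⟨E, hE⟩ : ∃ E : Fin n ≃ FrI n (Finset.univ : Finset (Fin 1)),
      ∀ b, E b = ⟨b.castSucc, isFr_castSucc b⟩ := by
    refine ⟨Equiv.ofBijective (fun b => ⟨b.castSucc, isFr_castSucc b⟩) ⟨?_, ?_⟩, fun b => rfl⟩
    · intro b b' h
      have h1 : b.castSucc = b'.castSucc := congrArg Subtype.val h
      exact Fin.castSucc_injective _ h1
    · rintro ⟨b, hb⟩
      have h1 : b ≠ Fin.last n := by
        have h2 := hb 0 (Finset.mem_univ _)
        intro h3
        apply h2
        rw [h3]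
        exact Fin.ext (by simp)
      exact ⟨b.castPred h1, Subtype.ext (Fin.castSucc_castPred b h1)⟩
  obtain ⟨E2, hE2⟩ : ∃ E2 : (Fin n × Fin k) ≃ (FrI n (Finset.univ : Finset (Fin 1)) × Fin k),
      E2 = E.prodCongr (Equiv.refl _) := ⟨_, rfl⟩
  have hE3 : ∀ p, (E2 p).2 = p.2 := by
    intro p
    rw [hE2]
    rfl
  unfold tau
  refine Nat.card_congr (Equiv.subtypeEquiv (Equiv.arrowCongr E2.symm (Equiv.refl ℕ)) ?_)
  intro ν
  have h1 : ∑ p, ((p.2 : ℕ) + 1) * ν p =
      ∑ p : Fin n × Fin k, ((p.2 : ℕ) + 1) * (Equiv.arrowCongr E2.symm (Equiv.refl ℕ) ν) p := by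
    rw [← Equiv.sum_comp E2]
    refine Finset.sum_congr rfl fun p _ => ?_
    rw [hE3]
    rfl
  have h2 : ∑ p, ν p = ∑ p : Fin n × Fin k, (Equiv.arrowCongr E2.symm (Equiv.refl ℕ) ν) p := by
    rw [← Equiv.sum_comp E2]
    rfl
  rw [h1, h2]

/-- PROOF.  Let `m, a0, s, μ` be as in `PropC`; `M = a0 + d + 2 m`.  Fix `l`, let `P i, Q i` be given, `y = Fin.snoc x w`.  `NeZero d`.  `P i = ∑ j : ZMod d, component j (P i)`
(`sum_weightedHomogeneousComponent` (finsum) or by coefficients), so `ResX (map (eval a) (P i)) = ∑ j, ResX (map (eval a) (component j (P i)))`; `choose_comp` gives `f`.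
Put `P' i = X (last, 0) ^ e * component (f i).2 (P (f i).1)`, `e = (- (f i).2).val`, and `Q' i` the same for `Q`; `G i = flat (Lam gen m (P' i))`, `H i = flat (Lam gen m (Q' i))`.
(1) `LT M m`: `LT_Lam` with `shift_w` (the component has support in the support of `P`: `BiK`, and is homogeneous: `weightedHomogeneousComponent_isWeightedHomogeneous`).
(2) `linA ^ s * G = H`: `comp_rel`, multiplied by `X (last, 0) ^ e`: `linK ^ s * P' - Q' ∈ IK`; `linK_lin0`; `Lam_IK` (`uR_gen_ne`) for `linK ^ s * P' - Q'`: its monomials satisfy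
`d ∣ wd`, `ww ≤ m` (`ww ≤ jw = m` by `jw_xpt`; the monomials of `rename jin R * P'` are `ν.mapDomain jin + μ`; use `d ∣ wd` via the weights: it is homogeneous of weight `0`, and
`jw`: `linK ^ s` has `jw = 0`); `map_sub`, `Lam_mul` with `rename jin R ^ s = rename jin (R ^ s)`; apply `flat` (`C10_fl`), `flat (∑ b, C (l b) * X (b, 0)) = linA`.
(3) independence: `ev a x = - w ^ d ≠ 0`.  `piA a x (flat (Lam gen m P')) = piQ x (Lam a m (map (eval a) P'))` (`piA_flat`, `Lam_map` for `aeval a : RR n d →ₐ[ℂ] ℂ`), and by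
`ResX_Lam` `psi Δ (..) = C (ev a x) ^ m * ResX (map (eval a) P')`, `ResX (X (last, 0) ^ e * ..) = C w ^ e * ..` (`rs_zero`).  The family `C (nonzero constant) * independent` is
independent (`LinearIndependent.units_smul`), and `psi Δ` is linear, so the preimages are independent (`LinearIndependent.of_comp` with `(psi ..).toLinearMap`). -/
theorem propLog_of_propC' {q δ : ℕ} (hd : 1 ≤ d) (h : PropC n k q (2 + δ) d) : PropLog n k q δ d := by
  classical
  haveI : NeZero d := ⟨by omega⟩
  obtain ⟨m, a0, s, μ, hm, hnum, h⟩ := h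
  refine ⟨m, a0 + d + 2 * m, s, μ, hm, ?_, fun l => ?_⟩
  · have h1 : a0 + d + 2 * m + δ * m + 2 * k * μ = a0 + d + (2 + δ) * m + 2 * k * μ := by ring
    rw [h1]
    exact hnum
  obtain ⟨r, P, Q, hr, hP, hQ, hPQ, a, x, w, hw, hev, hli⟩ := h l
  obtain ⟨y, hy⟩ : ∃ y : Fin (n + 1) → ℂ, y = Fin.snoc x w := ⟨_, rfl⟩
  rw [← hy] at hli
  have hyl : y (Fin.last n) = w := by
    rw [hy, Fin.snoc_last]
  have hyc : (fun b : Fin n => y b.castSucc) = x := by
    funext b
    rw [hy, Fin.snoc_castSucc]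
  have hsum : ∀ i, ResX k Finset.univ (cyc a) y (map (eval a) (P i)) =
      ∑ j : ZMod d, ResX k Finset.univ (cyc a) y
        (map (eval a) (weightedHomogeneousComponent (wv n k d) j (P i))) := by
    intro i
    rw [← map_sum, ← map_sum]
    have h1 : ∑ j : ZMod d, weightedHomogeneousComponent (wv n k d) j (P i) = P i := by
      rw [← finsum_eq_sum_of_fintype]
      exact sum_weightedHomogeneousComponent _ _
    rw [h1]
  obtain ⟨f, hf⟩ := choose_comp _ _ hli hsum
  obtain ⟨P', hP'⟩ : ∃ P' : Fin r → MvPolynomial (JV (n + 1) k) (RR n d), ∀ i, P' i =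
      X (Fin.last n, 0) ^ (- (f i).2).val * weightedHomogeneousComponent (wv n k d) (f i).2 (P (f i).1) :=
    ⟨_, fun _ => rfl⟩
  obtain ⟨Q', hQ'⟩ : ∃ Q' : Fin r → MvPolynomial (JV (n + 1) k) (RR n d), ∀ i, Q' i =
      X (Fin.last n, 0) ^ (- (f i).2).val * weightedHomogeneousComponent (wv n k d) (f i).2 (Q (f i).1) :=
    ⟨_, fun _ => rfl⟩
  have hBi : ∀ (j : ZMod d) (R : MvPolynomial (JV (n + 1) k) (RR n d)), BiK a0 m R →
      BiK a0 m (weightedHomogeneousComponent (wv n k d) j R) := by
    intro j R hR ν hν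
    apply hR
    rw [mem_support_iff] at hν ⊢
    intro h0
    apply hν
    rw [coeff_weightedHomogeneousComponent, h0]
    split_ifs <;> rfl
  have hsP : ∀ i, ∀ ν ∈ (P' i).support, d ∣ wd ν ∧ H53V.jw ν = m ∧ wt ν ≤ a0 + d + 2 * m := by
    intro i
    rw [hP']
    exact shift_w hd _ (hBi _ _ (hP _)) (weightedHomogeneousComponent_isWeightedHomogeneous _ _)
  have hsQ : ∀ i, ∀ ν ∈ (Q' i).support, d ∣ wd ν ∧ H53V.jw ν = m ∧ wt ν ≤ a0 + d + 2 * m := by
    intro i
    rw [hQ']
    exact shift_w hd _ (hBi _ _ (hQ _)) (weightedHomogeneousComponent_isWeightedHomogeneous _ _)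
  have hww : ∀ ν : JV (n + 1) k →₀ ℕ, ww ν ≤ H53V.jw ν := fun ν => by
    have := jw_xpt ν
    omega
  refine ⟨r, fun i => flat (Lam (gen n d) m (P' i)), fun i => flat (Lam (gen n d) m (Q' i)), ?_,
    fun i => LT_Lam (hsP i), fun i => LT_Lam (hsQ i), ?_, a, x, ?_, ?_⟩
  · rw [← tau_fr]
    exact hr
  · intro i
    obtain ⟨R, hR⟩ : ∃ R : MvPolynomial (JV n k) (RR n d), R = ∑ b, C (C (l b)) * X (b, 0) := ⟨_, rfl⟩
    have h1 := comp_rel (gen n d) hd (f i).2 (fun b => (C (l b) : RR n d)) s (hPQ (f i).1)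
    have h2 : linK k (lin0 fun b => (C (l b) : RR n d)) ^ s * P' i - Q' i ∈
        IK k (Finset.univ : Finset (Fin 1)) (cyc (gen n d)) := by
      rw [hP', hQ']
      have h3 : (linK k (lin0 fun b => (C (l b) : RR n d)) ^ s *
          (X (Fin.last n, 0) ^ (- (f i).2).val * weightedHomogeneousComponent (wv n k d) (f i).2 (P (f i).1)) -
          X (Fin.last n, 0) ^ (- (f i).2).val * weightedHomogeneousComponent (wv n k d) (f i).2 (Q (f i).1)) =
          X (Fin.last n, 0) ^ (- (f i).2).val * (linK k (lin0 fun b => (C (l b) : RR n d)) ^ s *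
            weightedHomogeneousComponent (wv n k d) (f i).2 (P (f i).1) -
            weightedHomogeneousComponent (wv n k d) (f i).2 (Q (f i).1)) := by ring
      rw [h3]
      exact Ideal.mul_mem_left _ _ h1
    rw [linK_lin0, ← hR, ← map_pow] at h2
    have h4 : ∀ ν ∈ (rename jin (R ^ s) * P' i - Q' i : MvPolynomial (JV (n + 1) k) (RR n d)).support,
        d ∣ wd ν ∧ ww ν ≤ m := by
      intro ν hν
      have hν2 := support_sub (JV (n + 1) k) _ _ hν
      rcases Finset.mem_union.1 hν2 with h5 | h5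
      · have h6 := support_mul _ _ h5
        obtain ⟨α, hα, β, hβ, hαβ⟩ := Finset.mem_add.1 h6
        obtain ⟨h7, h8, _⟩ := hsP i β hβ
        have h9 : ∀ lv : Fin (k + 1), α (Fin.last n, lv) = 0 := by
          intro lv
          have hα2 : α ∈ (rename jin (R ^ s) : MvPolynomial (JV (n + 1) k) (RR n d)).support := hα
          rw [mem_support_iff] at hα2
          obtain ⟨u, hu, _⟩ := coeff_rename_ne_zero _ _ _ hα2
          rw [← hu, Finsupp.mapDomain_of_notMem_range]
          rintro ⟨p, hp⟩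
          have h1 : p.1.castSucc = Fin.last n := congrArg Prod.fst hp
          exact (Fin.castSucc_lt_last p.1).ne h1
        have h10 : wd ν = wd β := by
          rw [← hαβ]
          unfold wd
          refine Finset.sum_congr rfl fun lv _ => ?_
          rw [Finsupp.add_apply, h9, zero_add]
        have h11 : ww ν = ww β := by
          rw [← hαβ]
          unfold ww
          refine Finset.sum_congr rfl fun lv _ => ?_
          rw [Finsupp.add_apply, h9, zero_add]
        rw [h10, h11]
        exact ⟨h7, (hww β).trans h8.le⟩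
      · obtain ⟨h7, h8, _⟩ := hsQ i ν h5
        exact ⟨h7, (hww ν).trans h8.le⟩
    have h5 := Lam_IK (gen n d) hd (uR_gen_ne n d k) m h4 h2
    rw [map_sub, Lam_mul, sub_eq_zero] at h5
    have h6 := congrArg flat h5
    rw [flat_mul] at h6
    have h7 : flat (R ^ s) = linA n d k l ^ s := by
      rw [← C10_fl_apply, map_pow]
      congr 1
      rw [hR, map_sum]
      unfold linA
      refine Finset.sum_congr rfl fun b _ => ?_
      rw [map_mul, C10_fl_apply, C10_fl_apply, C10_flat_C_C, C10_flat_X]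
    rw [h7] at h6
    exact h6
  · intro h0
    rw [h0, add_zero] at hev
    exact hw (pow_eq_zero_iff (by omega) |>.1 hev)
  · have hev0 : ev a x ≠ 0 := by
      intro h0
      rw [h0, add_zero] at hev
      exact hw (pow_eq_zero_iff (by omega) |>.1 hev)
    have key : ∀ i, psi n k (d * w ^ (d - 1)) (piA a x (flat (Lam (gen n d) m (P' i)))) =
        (ev a x ^ m * w ^ (- (f i).2).val) • ResX k Finset.univ (cyc a) y
          (map (eval a) (weightedHomogeneousComponent (wv n k d) (f i).2 (P (f i).1))) := by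
      intro i
      have h1 : map (eval a) (Lam (gen n d) m (P' i)) = Lam a m (map (eval a) (P' i)) := by
        have h2 := Lam_map (aeval a : RR n d →ₐ[ℂ] ℂ) (gen n d) m (P' i)
        have h3 : (fun α => (aeval a : RR n d →ₐ[ℂ] ℂ) (gen n d α)) = a := by
          funext α
          exact aeval_X a α
        rw [h3] at h2
        exact h2
      have h4 : ∀ ν ∈ (map (eval a) (P' i)).support, d ∣ wd ν ∧ ww ν ≤ m := by
        intro ν hν
        obtain ⟨h7, h8, _⟩ := hsP i ν (support_map_subset _ _ hν)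
        exact ⟨h7, (hww ν).trans h8.le⟩
      have h5 := ResX_Lam (k := k) a hd y (by rw [hyl]; exact hw)
        (by rw [hyl, hyc]; exact hev) m h4
      rw [hyl, hyc] at h5
      rw [piA_flat, h1, ← h5, hP', map_mul, map_pow, map_X, map_mul, map_pow, a306_X, hyl,
        smul_eq_C_mul, map_mul, map_pow, map_pow, mul_assoc]
    have hind : LinearIndependent ℂ fun i => psi n k (d * w ^ (d - 1))
        (piA a x (flat (Lam (gen n d) m (P' i)))) := by
      have hc : ∀ i, ev a x ^ m * w ^ (- (f i).2).val ≠ 0 := fun i =>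
        mul_ne_zero (pow_ne_zero _ hev0) (pow_ne_zero _ hw)
      have h1 := hf.units_smul fun i => Units.mk0 _ (hc i)
      have h2 : (fun i => psi n k (d * w ^ (d - 1)) (piA a x (flat (Lam (gen n d) m (P' i))))) =
          (fun i => Units.mk0 _ (hc i)) • fun i => ResX k Finset.univ (cyc a) y
            (map (eval a) (weightedHomogeneousComponent (wv n k d) (f i).2 (P (f i).1))) := by
        funext i
        rw [key]
        rfl
      rw [h2]
      exact h1
    exact LinearIndependent.of_comp (psi n k (d * w ^ (d - 1))).toLinearMap hind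

end Pool.Agent.H53L
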