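import Pool.Agent.Lib.H53L.D0
import Pool.Agent.Lib.H89T.C10
import Pool.Agent.Lib.H53V.R5B

set_option autoImplicit false

/-!
Module A3 of PROOF.md: definitions.
-/

open MvPolynomial

namespace Pool.Agent.H53L

open Pool.Agent.H89T Pool.Agent.H67T Pool.Agent.H53U Pool.Agent.H53V Pool.Agent.H44K


/-! ### The root of `1 + z` -/

/-- A polynomial `p` with `p (0) = 1` and `p ^ d = 1 + z` modulo `z ^ (k + 1)`. -/
theorem exists_root (d k : ℕ) (hd : 1 ≤ d) : ∃ p : Polynomial ℂ, p.coeff 0 = 1 ∧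
    Polynomial.X ^ (k + 1) ∣ p ^ d - (1 + Polynomial.X) := by
  induction k with
  | zero =>
    refine ⟨1, Polynomial.coeff_one_zero, ?_⟩
    rw [one_pow, zero_add, pow_one]
    exact ⟨-1, by ring⟩
  | succ k ih =>
    obtain ⟨p, hp0, r, hr⟩ := ih
    have hd0 : (d : ℂ) ≠ 0 := by
      exact_mod_cast (show d ≠ 0 by omega)
    refine ⟨p - Polynomial.C (r.coeff 0 / d) * Polynomial.X ^ (k + 1), ?_, ?_⟩
    · rw [Polynomial.coeff_sub, hp0, Polynomial.coeff_C_mul, Polynomial.coeff_X_pow,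
        if_neg (by omega), mul_zero, sub_zero]
    · obtain ⟨e, he⟩ : ∃ e, e = Polynomial.C (r.coeff 0 / d) * Polynomial.X ^ (k + 1) := ⟨_, rfl⟩
      have h1 : e ^ 2 ∣ (p - e) ^ d - p ^ d + (d : Polynomial ℂ) * p ^ (d - 1) * e := by
        have h2 := Polynomial.evalSubFactor (Polynomial.X ^ d : Polynomial (Polynomial ℂ))
        have h3 := (Polynomial.X ^ d : Polynomial (Polynomial ℂ)).binomExpansion p (-e)
        obtain ⟨q, hq⟩ := h3
        rw [Polynomial.eval_pow, Polynomial.eval_X, Polynomial.eval_pow, Polynomial.eval_X,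
          Polynomial.derivative_X_pow, Polynomial.eval_mul, Polynomial.eval_pow,
          Polynomial.eval_X, Polynomial.eval_C] at hq
        refine ⟨q, ?_⟩
        rw [sub_eq_add_neg p e, hq]
        ring
      have h2 : Polynomial.X ^ (k + 1 + 1) ∣ e ^ 2 := by
        rw [he, mul_pow, ← pow_mul]
        exact dvd_mul_of_dvd_right (pow_dvd_pow _ (by omega)) _
      have h3 : Polynomial.X ∣ r - (d : Polynomial ℂ) * p ^ (d - 1) * Polynomial.C (r.coeff 0 / d) := by
        rw [Polynomial.X_dvd_iff, Polynomial.coeff_sub, Polynomial.mul_coeff_zero,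
          Polynomial.mul_coeff_zero, Polynomial.coeff_zero_eq_eval_zero (p ^ (d - 1)),
          Polynomial.eval_pow, ← Polynomial.coeff_zero_eq_eval_zero, hp0, one_pow,
          Polynomial.coeff_C_zero, ← Polynomial.C_eq_natCast, Polynomial.coeff_C_zero]
        field_simp
        ring
      have h4 : (p - e) ^ d - (1 + Polynomial.X) =
          ((p - e) ^ d - p ^ d + (d : Polynomial ℂ) * p ^ (d - 1) * e) +
            Polynomial.X ^ (k + 1) *
              (r - (d : Polynomial ℂ) * p ^ (d - 1) * Polynomial.C (r.coeff 0 / d)) := by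
        have h5 : p ^ d = 1 + Polynomial.X + Polynomial.X ^ (k + 1) * r := by
          rw [← hr]
          ring
        rw [h5, he]
        ring
      rw [← he, h4]
      refine dvd_add (h2.trans h1) ?_
      rw [pow_succ]
      exact mul_dvd_mul_left _ h3

open Classical in
/-- The root. -/
noncomputable def rt (d k : ℕ) : Polynomial ℂ :=
  if h : 1 ≤ d then (exists_root d k h).choose else 1

theorem rt_zero (d k : ℕ) : (rt d k).coeff 0 = 1 := by
  unfold rt
  split_ifs with h
  · exact (exists_root d k h).choose_spec.1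
  · exact Polynomial.coeff_one_zero

theorem rt_dvd {d : ℕ} (k : ℕ) (hd : 1 ≤ d) :
    Polynomial.X ^ (k + 1) ∣ rt d k ^ d - (1 + Polynomial.X) := by
  unfold rt
  rw [dif_pos hd]
  exact (exists_root d k hd).choose_spec.2

/-! ### The coefficients `u_0 ^ l β_l` -/

section NbT

variable {T : Type*} [CommRing T] [Algebra ℂ T]

/-- `∑_{j ≤ l} c_j U_0 ^ (l - j) [t ^ l] (U - U_0) ^ j`. -/
noncomputable def NbT (c : Polynomial ℂ) (U : Polynomial T) (l : ℕ) : T :=
  ∑ j ∈ Finset.range (l + 1), algebraMap ℂ T (c.coeff j) * U.coeff 0 ^ (l - j) *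
    ((U - Polynomial.C (U.coeff 0)) ^ j).coeff l

end NbT

/-! ### The exponents -/

section Exp

variable {n k : ℕ}

/-- The degree in `w`. -/
def wd (μ : JV (n + 1) k →₀ ℕ) : ℕ := ∑ l : Fin (k + 1), μ (Fin.last n, l)

/-- The weight of the part in `w`. -/
def ww (μ : JV (n + 1) k →₀ ℕ) : ℕ := ∑ l : Fin (k + 1), (l : ℕ) * μ (Fin.last n, l)

/-- The variables different from `w`. -/
def jin (p : JV n k) : JV (n + 1) k := (p.1.castSucc, p.2)

/-- The part of the exponent in `x`. -/
noncomputable def xpt (μ : JV (n + 1) k →₀ ℕ) : JV n k →₀ ℕ :=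
  Finsupp.equivFunOnFinite.symm fun p => μ (jin p)

theorem xpt_apply (μ : JV (n + 1) k →₀ ℕ) (p : JV n k) : xpt μ p = μ (jin p) := rfl

/-- The weights modulo `d`: `w` has weight `1`. -/
def wv (n k d : ℕ) (p : JV (n + 1) k) : ZMod d := if p.1 = Fin.last n then 1 else 0

end Exp

/-! ### Elimination of `w` -/

section Lam

variable {n d k : ℕ} {B : Type*} [CommRing B]

/-- `u (t)`. -/
noncomputable def uP (k : ℕ) (a : Idx n d → B) : Polynomial (MvPolynomial (JV n k) B) :=
  Fx (fun α => C (a α)) fun p => X p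

theorem uP_coeff (a : Idx n d → B) (i : ℕ) : (uP k a).coeff i = uR a i := rfl

/-- The factor of a monomial which comes from `w`, times `U_0 ^ m`. -/
noncomputable def lamM {T : Type*} [CommRing T] [Algebra ℂ T] (d k : ℕ) (U : Polynomial T) (m : ℕ)
    (μ : JV (n + 1) k →₀ ℕ) : T :=
  (- U.coeff 0) ^ (wd μ / d) * U.coeff 0 ^ (m - ww μ) *
    ∏ l : Fin (k + 1), NbT (rt d k) U (l : ℕ) ^ μ (Fin.last n, l)

/-- `u_0 ^ m` times the substitution `w (t) = w β (t)`, `w ^ d = - u_0`, `β (t) = (u (t) / u_0) ^ (1 / d)`, for polynomials of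
`w`-degree divisible by `d` and of weight `m`. -/
noncomputable def Lam [Algebra ℂ B] (a : Idx n d → B) (m : ℕ) :
    MvPolynomial (JV (n + 1) k) B →ₗ[B] MvPolynomial (JV n k) B :=
  (basisMonomials (JV (n + 1) k) B).constr B fun μ =>
    monomial (xpt μ) 1 * lamM d k (uP k a) m μ

theorem Lam_monomial [Algebra ℂ B] (a : Idx n d → B) (m : ℕ) (μ : JV (n + 1) k →₀ ℕ) (c : B) :
    Lam a m (monomial μ c) = monomial (xpt μ) c * lamM d k (uP k a) m μ := by
  have h1 : (monomial μ c : MvPolynomial (JV (n + 1) k) B) =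
      c • (basisMonomials (JV (n + 1) k) B) μ := by
    rw [coe_basisMonomials, smul_monomial, smul_eq_mul, mul_one]
  rw [h1, map_smul]
  unfold Lam
  rw [Module.Basis.constr_basis, ← smul_mul_assoc, smul_monomial, smul_eq_mul, mul_one]

end Lam

/-! ### Restriction to the fibre -/

section Fib

variable {n k : ℕ}

/-- The restriction of a polynomial in the jets to the jets over `x`. -/
noncomputable def piQ (x : Fin n → ℂ) : MvPolynomial (JV n k) ℂ →ₐ[ℂ] MvPolynomial (Fin n × Fin k) ℂ :=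
  aeval fun p : JV n k =>
    Fin.cases (motive := fun _ => MvPolynomial (Fin n × Fin k) ℂ) (C (x p.1)) (fun l => X (p.1, l)) p.2

theorem isFr_castSucc (b : Fin n) : IsFr n (Finset.univ : Finset (Fin 1)) (b.castSucc : Fin (n + 1)) := by
  intro j _ h
  have h1 := congrArg Fin.val h
  rw [Fin.val_castSucc, Fin.val_natAdd] at h1
  have h2 := b.2
  omega

/-- The rescaling of the variables. -/
noncomputable def psi (n k : ℕ) (Δ : ℂ) :
    MvPolynomial (Fin n × Fin k) ℂ →ₐ[ℂ] MvPolynomial (FZ n k (Finset.univ : Finset (Fin 1))) ℂ :=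
  aeval fun p : Fin n × Fin k => C (Δ ^ (2 * ((p.2 : ℕ) + 1))) * X (⟨p.1.castSucc, isFr_castSucc p.1⟩, p.2)

end Fib

/-! ### Homogeneous polynomials in `U` -/

section HN

variable {T : Type*} [CommRing T] [Algebra ℂ T]

/-- The span of the `U_0 ^ (l - p) U_(l_1) ⋯ U_(l_p)`, `l_1 + ⋯ + l_p = l`. -/
def HN (k : ℕ) (U : Polynomial T) (l : ℕ) (g : T) : Prop :=
  g ∈ Submodule.span ℂ {g : T | ∃ lam : Fin k → ℕ, lw lam = l ∧
    g = U.coeff 0 ^ (l - ld lam) * ∏ i : Fin k, U.coeff ((i : ℕ) + 1) ^ lam i}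

end HN

end Pool.Agent.H53L
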