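import Pool.Agent.Lib.H53L.A312

set_option autoImplicit false

/-!
H53L, module A3: elimination of `w`.
-/

open MvPolynomial

namespace Pool.Agent.H53L

open Pool.Agent.H89T Pool.Agent.H67T Pool.Agent.H53U Pool.Agent.H53V Pool.Agent.H44K

/-- MODULE A3. -/
theorem propLog_of_propC {n k q δ d : ℕ} (hd : 1 ≤ d) (h : PropC n k q (2 + δ) d) :
    PropLog n k q δ d := by
  exact propLog_of_propC' hd h

end Pool.Agent.H53L
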