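import Pool.Agent.Lib.H53L.A1Main
import Pool.Agent.Lib.H53L.A2Main

set_option autoImplicit false

/-!
H53L: from the numerical condition to `PropC`.
-/

open MvPolynomial

namespace Pool.Agent.H53L

open Pool.Agent.H89T Pool.Agent.H67T Pool.Agent.H53U Pool.Agent.H53V Pool.Agent.H44K

theorem propC_of_countL {n k q D d : ℕ} (hn : 1 ≤ n) (hk : n ≤ k) (hd : 2 ≤ d)
    (h : CountL n k q D d) : PropC n k q D d := by
  obtain ⟨A₁, hA₁⟩ := dimC_n2 hn hk hd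
  obtain ⟨B₁, hB₁⟩ := propC_of_dimC (k := k) (q := q) (D := D) hn hd
  obtain ⟨m, s, t, t', μ, hm, h1, h2, h3, h4⟩ := h (A₁ + B₁ + d)
  obtain ⟨ta, hta⟩ : ∃ ta, ta = tau (FrI n (Finset.univ : Finset (Fin 1))) k m μ := ⟨_, rfl⟩
  have e1 : ta * (d * (A₁ + B₁ + 2 * m * (d - 1) + n).choose n) ≤
      ta * (d * (A₁ + B₁ + d + 2 * m * (d - 1) + n).choose n) :=
    Nat.mul_le_mul_left _ (Nat.mul_le_mul_left _ (Nat.choose_le_choose n (by omega)))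
  have e2 : (n + 2) ^ 2 * (nbad n k m t * (d * (A₁ + B₁ + s + (d - 1) * m + n).choose n)) ≤
      (n + 2) ^ 2 * (nbad n k m t * (d * (A₁ + B₁ + d + s + (d - 1) * m + n).choose n)) :=
    Nat.mul_le_mul_left _ (Nat.mul_le_mul_left _ (Nat.mul_le_mul_left _
      (Nat.choose_le_choose n (by omega))))
  rw [← hta] at h4
  have hs : 1 ≤ s := by
    by_contra hs
    have h5 : s = 0 := by omega
    subst h5
    omega
  obtain ⟨a, ha⟩ : ∃ a, a = ta * (d * (A₁ + B₁ + 2 * m * (d - 1) + n).choose n) := ⟨_, rfl⟩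
  obtain ⟨b, hb⟩ : ∃ b, b = (n + 2) ^ 2 * (nbad n k m t * (d * (A₁ + B₁ + s + (d - 1) * m + n).choose n)) :=
    ⟨_, rfl⟩
  obtain ⟨c, hc⟩ : ∃ c, c = d * (d - 1) ^ n * ngoodS n k m t' := ⟨_, rfl⟩
  rw [← ha] at e1
  rw [← hb] at e2
  rw [← hc] at h4
  refine hB₁ (A₁ + B₁) (by omega) m s μ (c - b) ?_ hm h3 fun l =>
    hA₁ (A₁ + B₁) (by omega) m s t t' (c - b) hs h1 h2 ?_ l
  · rw [← hta, ← ha]
    omega
  · rw [← hb, ← hc]
    omega

end Pool.Agent.H53L
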