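import Pool.Agent.Lib.H53L.BD

set_option autoImplicit false

/-!
CHUNK B01 (M), H53L.  Division modulo a power of the ideal of a point; the reduction.
-/

open MvPolynomial

namespace Pool.Agent.H53L

open Pool.Agent.H89T Pool.Agent.H67T Pool.Agent.H53U Pool.Agent.H53V Pool.Agent.H44K


variable {n d k : ℕ}

theorem b01_du (x : Fin n → ℂ) (P : MvPolynomial (Fin n) ℂ) :
    aeval (fun b => X b - C (x b)) (aeval (fun b => X b + C (x b) : Fin n → MvPolynomial (Fin n) ℂ) P) = P := by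
  induction P using MvPolynomial.induction_on with
  | C c => rw [aeval_C, MvPolynomial.algebraMap_eq, aeval_C, MvPolynomial.algebraMap_eq]
  | add p q hp hq => rw [map_add, map_add, hp, hq]
  | mul_X p b hp =>
    rw [map_mul, map_mul, hp, aeval_X, map_add, aeval_X, aeval_C, MvPolynomial.algebraMap_eq, sub_add_cancel]

theorem b01_cc (x : Fin n → ℂ) (P : MvPolynomial (Fin n) ℂ) :
    constantCoeff (aeval (fun b => X b + C (x b) : Fin n → MvPolynomial (Fin n) ℂ) P) = eval x P := by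
  induction P using MvPolynomial.induction_on with
  | C c => rw [aeval_C, MvPolynomial.algebraMap_eq, constantCoeff_C, eval_C]
  | add p q hp hq => rw [map_add, map_add, map_add, hp, hq]
  | mul_X p b hp =>
    rw [map_mul, map_mul, map_mul, hp, aeval_X, map_add, constantCoeff_X, constantCoeff_C, zero_add, eval_X]

theorem b01_down (x : Fin n → ℂ) {s : ℕ} {P : MvPolynomial (Fin n) ℂ} (hP : P ∈ H78M.mX n ℂ ^ s) :
    aeval (fun b => X b - C (x b)) P ∈ H78M.mJ x ^ s :=
  H78M.aeval_mem_pow (H78M.mJ x) (fun b => Ideal.subset_span ⟨b, rfl⟩) hP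

theorem b01_up (x : Fin n → ℂ) {s : ℕ} {P : MvPolynomial (Fin n) ℂ} (hP : P ∈ H78M.mJ x ^ s) :
    aeval (fun b => X b + C (x b) : Fin n → MvPolynomial (Fin n) ℂ) P ∈ H78M.mX n ℂ ^ s := by
  have h1 : (H78M.mJ x).map (aeval (fun b => X b + C (x b) : Fin n → MvPolynomial (Fin n) ℂ) :
      MvPolynomial (Fin n) ℂ →ₐ[ℂ] MvPolynomial (Fin n) ℂ) ≤ H78M.mX n ℂ := by
    unfold H78M.mJ
    rw [Ideal.map_span, Ideal.span_le]
    rintro _ ⟨_, ⟨b, rfl⟩, rfl⟩
    have h2 : (aeval (fun b => X b + C (x b) : Fin n → MvPolynomial (Fin n) ℂ) :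
        MvPolynomial (Fin n) ℂ →ₐ[ℂ] MvPolynomial (Fin n) ℂ) (X b - C (x b)) = X b := by
      rw [map_sub, aeval_X, aeval_C, MvPolynomial.algebraMap_eq, add_sub_cancel_right]
    rw [SetLike.mem_coe]
    have h3 : (X b : MvPolynomial (Fin n) ℂ) ∈ H78M.mX n ℂ := H78M.mem_mX (constantCoeff_X ℂ b)
    rw [← h2] at h3
    exact h3
  have h2 : aeval (fun b => X b + C (x b) : Fin n → MvPolynomial (Fin n) ℂ) P ∈ (H78M.mJ x ^ s).map
      (aeval (fun b => X b + C (x b) : Fin n → MvPolynomial (Fin n) ℂ) :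
        MvPolynomial (Fin n) ℂ →ₐ[ℂ] MvPolynomial (Fin n) ℂ) := Ideal.mem_map_of_mem _ hP
  rw [Ideal.map_pow] at h2
  exact Ideal.pow_right_mono h1 s h2

theorem b01_J (x : Fin n → ℂ) {P : MvPolynomial (Fin n) ℂ} (hP : eval x P = 0) : P ∈ H78M.mJ x := by
  have h1 := b01_cc x P
  rw [hP] at h1
  have h2 := b01_down x (s := 1) (by rw [pow_one]; exact H78M.mem_mX h1)
  rwa [b01_du, pow_one] at h2

theorem b01_eval (a : Idx n d → ℂ) (x : Fin n → ℂ) : eval x (pol a) = ev a x := by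
  have h := ev_map (eval x : MvPolynomial (Fin n) ℂ →+* ℂ) (fun α => C (a α)) X
  unfold pol
  rw [h]
  simp only [eval_C, eval_X]

theorem b01_tdX (b : Fin n) (y : ℂ) : (X b + C y : MvPolynomial (Fin n) ℂ).totalDegree ≤ 1 := by
  refine (totalDegree_add _ _).trans (max_le (H78M.g15_totalDegree_X b) ?_)
  rw [totalDegree_C]
  exact Nat.zero_le 1

theorem b01_td (x : Fin n → ℂ) {P : MvPolynomial (Fin n) ℂ} (hd : P.totalDegree ≤ d) :
    (aeval (fun b => X b + C (x b) : Fin n → MvPolynomial (Fin n) ℂ) P).totalDegree ≤ d := by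
  rw [aeval_def, eval₂_eq']
  refine totalDegree_finsetSum_le fun δ hδ => ?_
  refine (totalDegree_mul _ _).trans ?_
  have h1 : (algebraMap ℂ (MvPolynomial (Fin n) ℂ) (coeff δ P)).totalDegree = 0 := by
    rw [MvPolynomial.algebraMap_eq, totalDegree_C]
  rw [h1, zero_add]
  refine (totalDegree_finsetProd _ _).trans ?_
  have h2 := le_totalDegree hδ
  rw [Finsupp.sum_fintype δ (fun _ e => e) fun _ => rfl] at h2
  refine (Finset.sum_le_sum fun b _ => ?_).trans (h2.trans hd)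
  refine (totalDegree_pow _ _).trans ?_
  exact (Nat.mul_le_mul_left _ (b01_tdX b (x b))).trans (mul_one _).le

/-- PROOF.  Let `F = pol a`, `c = eval x F = ev a x ≠ 0` (`pol_eq`, `eval_monomial`).  `F = C c * (1 - N)` with `N ∈ H78M.mJ x` (`F - C c` vanishes at `x`: a polynomial vanishing at `x` is in
`mJ x`: shift `aeval (fun b => X b + C (x b))` and `mem_idealOfVars`, or Taylor / `MvPolynomial.induction_on`: `P - C (eval x P) ∈ mJ x` for all `P`).  `q = C c⁻¹ * ∑ i ∈ range (k + 1), N ^ i`: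
`q * F = 1 - N ^ (k + 1)`, so `(P * q) * F - P ∈ mJ x ^ (k + 1)`.  Let `R = aeval (fun b => X b + C (x b)) (P * q)` (so that `aeval (fun b => X b - C (x b)) R = P * q`) and `ρ` the part of
`R` of degree at most `k` (sum of the homogeneous components `homogeneousComponent i R`, `i ≤ k`, or filter of the support); `R - ρ` is in `mX ^ (k + 1)`, i.e. its image under
`X b ↦ X b - C (x b)` is in `mJ x ^ (k + 1)`: every monomial of degree `≥ k + 1` is mapped into `mJ x ^ (k + 1)` (`Ideal.prod_mem_prod`, as in `sqx_mem`, H78M/G15). -/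
theorem exists_rho (a : Idx n d → ℂ) (x : Fin n → ℂ) (ha : ev a x ≠ 0) (P : MvPolynomial (Fin n) ℂ) :
    ∃ ρ : MvPolynomial (Fin n) ℂ, ρ.totalDegree ≤ k ∧
      aeval (fun b => X b - C (x b)) ρ * pol a - P ∈ H78M.mJ x ^ (k + 1) := by
  classical
  obtain ⟨N, hN⟩ : ∃ N, N = 1 - C (ev a x)⁻¹ * pol a := ⟨_, rfl⟩
  have hN1 : N ∈ H78M.mJ x := by
    apply b01_J
    rw [hN, map_sub, map_one, map_mul, eval_C, b01_eval, inv_mul_cancel₀ ha, sub_self]
  obtain ⟨q, hq⟩ : ∃ q, q = C (ev a x)⁻¹ * ∑ i ∈ Finset.range (k + 1), N ^ i := ⟨_, rfl⟩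
  have hq1 : q * pol a = 1 - N ^ (k + 1) := by
    have h1 : C (ev a x)⁻¹ * pol a = 1 - N := by
      rw [hN]
      ring
    rw [hq, mul_assoc, mul_comm _ (pol a), ← mul_assoc, h1, mul_neg_geom_sum]
  obtain ⟨R, hR⟩ : ∃ R, R = aeval (fun b => X b + C (x b) : Fin n → MvPolynomial (Fin n) ℂ) (P * q) := ⟨_, rfl⟩
  obtain ⟨ρ, hρ⟩ : ∃ ρ, ρ = ∑ i ∈ Finset.range (k + 1), homogeneousComponent i R := ⟨_, rfl⟩
  have h1 : ρ - R ∈ H78M.mX n ℂ ^ (k + 1) := by
    rw [H78M.mem_mX_pow]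
    intro α hα
    rw [coeff_sub, hρ, coeff_sum, Finset.sum_eq_single α.degree]
    · rw [coeff_homogeneousComponent, if_pos rfl, sub_self]
    · intro i _ hi
      rw [coeff_homogeneousComponent, if_neg (Ne.symm hi)]
    · intro h
      exact absurd (Finset.mem_range.2 hα) h
  refine ⟨ρ, ?_, ?_⟩
  · rw [hρ]
    refine totalDegree_finsetSum_le fun i hi => ?_
    rw [Finset.mem_range] at hi
    exact ((homogeneousComponent_isHomogeneous i R).totalDegree_le).trans (by omega)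
  · have h2 := b01_down x h1
    rw [map_sub, hR, b01_du] at h2
    have h3 : aeval (fun b => X b - C (x b)) ρ * pol a - P =
        (aeval (fun b => X b - C (x b)) ρ - P * q) * pol a - P * N ^ (k + 1) := by
      have h4 : P * q * pol a = P - P * N ^ (k + 1) := by
        rw [mul_assoc, hq1]
        ring
      rw [sub_mul, h4]
      ring
    rw [h3]
    exact Ideal.sub_mem _ (Ideal.mul_mem_right _ _ h2) (Ideal.mul_mem_left _ _ (Ideal.pow_mem_pow hN1 _))

/-- PROOF.  `ρ = ∑ monomials`, `aeval (X b - C (X b)) ρ = ∑ C (C (coeff κ ρ)) * sqx (X) 0 κ`, times `monomial γ 1 = sqx X γ 0`: a combination over `ℂ` of the `sqx (fun b => X b) γ κ` (`H78M.sqx`);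
`redM_red (hrd := hkd) k γ κ`, `γ.degree + k ≤ d + k`, gives `RedM n ℂ d (k + k) (k + 1)`; `RedM.add`, `RedM.smul` (zero: `E = 0`). -/
theorem redM_mono (hkd : k ≤ d) (ρ : MvPolynomial (Fin n) ℂ) {γ : Fin n →₀ ℕ} (hγ : γ.degree ≤ d) :
    H78M.RedM n ℂ d (2 * k) (k + 1) (aeval (fun b => X b - C (X b)) ρ * monomial γ 1) := by
  induction ρ using MvPolynomial.induction_on' with
  | monomial κ c =>
    have h1 : aeval (fun b => X b - C (X b) : Fin n → MvPolynomial (Fin n) (MvPolynomial (Fin n) ℂ)) (monomial κ c) * monomial γ 1 =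
        C (C c) * H78M.sqx (fun b => (X b : MvPolynomial (Fin n) ℂ)) γ κ := by
      unfold H78M.sqx
      rw [aeval_monomial, Finsupp.prod_fintype _ _ fun i => pow_zero _, monomial_eq, C_1, one_mul,
        Finsupp.prod_fintype _ _ fun i => pow_zero _]
      have h2 : algebraMap ℂ (MvPolynomial (Fin n) (MvPolynomial (Fin n) ℂ)) c = C (C c) := rfl
      rw [h2]
      ring
    rw [h1]
    refine H78M.RedM.smul ?_ c
    have h3 := H78M.redM_red (A := ℂ) hkd k γ κ (by omega)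
    rwa [← two_mul] at h3
  | add p q hp hq =>
    rw [map_add, add_mul]
    exact H78M.RedM.add hp hq

theorem b01_dec {ρ : Fin n →₀ ℕ} {r : ℕ} (h : r ≤ ρ.degree) :
    ∃ γ δ : Fin n →₀ ℕ, γ + δ = ρ ∧ δ.degree = r := by
  induction r with
  | zero => exact ⟨ρ, 0, add_zero _, by rw [map_zero]⟩
  | succ r ih =>
    obtain ⟨γ, δ, h1, h2⟩ := ih (by omega)
    have h3 : γ.degree ≠ 0 := by
      intro h4
      have h5 := congrArg Finsupp.degree h1
      rw [map_add, h4, h2] at h5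
      omega
    have h6 : ∃ i, γ i ≠ 0 := by
      by_contra hcon
      push Not at hcon
      have h7 : γ = 0 := Finsupp.ext hcon
      exact h3 (by rw [h7, map_zero])
    obtain ⟨i, hi⟩ := h6
    have h8 : Finsupp.single i 1 ≤ γ := by
      rw [Finsupp.single_le_iff]
      omega
    refine ⟨γ - Finsupp.single i 1, δ + Finsupp.single i 1, ?_, ?_⟩
    · rw [add_comm δ, ← add_assoc, tsub_add_cancel_of_le h8, h1]
    · rw [map_add, h2, Finsupp.degree_single]

theorem b01_cd (b : Fin n) (y : ℂ) :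
    H78M.g15_cd (X b - C (C y) : MvPolynomial (Fin n) (MvPolynomial (Fin n) ℂ)) 0 := by
  classical
  intro α
  rw [coeff_sub, coeff_C]
  refine (totalDegree_sub _ _).trans (max_le (H78M.g15_cd_X b α) ?_)
  split_ifs
  · rw [totalDegree_C]
  · simp

theorem b01_td1 (b : Fin n) (y : MvPolynomial (Fin n) ℂ) :
    (X b - C y : MvPolynomial (Fin n) (MvPolynomial (Fin n) ℂ)).totalDegree ≤ 1 := by
  refine (totalDegree_sub _ _).trans (max_le (H78M.g15_totalDegree_X b) ?_)
  rw [totalDegree_C]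
  exact Nat.zero_le 1

theorem b01_tdp (y : Fin n → MvPolynomial (Fin n) ℂ) (γ : Fin n →₀ ℕ) :
    (∏ b, (X b - C (y b) : MvPolynomial (Fin n) (MvPolynomial (Fin n) ℂ)) ^ γ b).totalDegree ≤ γ.degree := by
  refine (totalDegree_finsetProd _ _).trans ?_
  rw [Finsupp.degree_eq_sum]
  refine Finset.sum_le_sum fun b _ => (totalDegree_pow _ _).trans ?_
  exact (Nat.mul_le_mul_left _ (b01_td1 b (y b))).trans (mul_one _).le

/-- A lift of an element of `mJ x ^ (k + 1)`.
PROOF.  `P = ∑ δ, C (p_δ) * ∏ b, (X b - C (x b)) ^ δ b` over the support of `P' = aeval (fun b => X b + C (x b)) P` (`p_δ = coeff δ P'`; `P = aeval (fun b => X b - C (x b)) P'`, `P'.as_sum`), with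
`δ.degree ≤ d` (`totalDegree` of the shift: `aeval` by polynomials of degree 1; or use the inverse shift) and `k + 1 ≤ δ.degree` (`P' ∈ mX ^ (k + 1)`: `mem_pow_idealOfVars_iff'`;
the image of `mJ x` under the shift is `mX`).  Decompose `δ = γ + κ`, `κ.degree = k + 1` (`H78M.g18_dec` in H78M/G18) and put `K = ∑ δ, C (C p_δ) * (∏ b, (X b - C (C (x b))) ^ γ b) *
∏ b, (X b - C (X b)) ^ κ b`: outer degree `≤ |γ| + |κ| ≤ d`, inner degree `≤ k + 1 ≤ 2 k`, `K ∈ mJ ^ (k + 1)` (`Ideal.mul_mem_left`, `sqx_mem` with `γ = 0`), `map (eval x) K = P`. -/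
theorem lift_mJ (hk : 1 ≤ k) (x : Fin n → ℂ) {P : MvPolynomial (Fin n) ℂ} (hP : P ∈ H78M.mJ x ^ (k + 1))
    (hd : P.totalDegree ≤ d) :
    ∃ K : MvPolynomial (Fin n) (MvPolynomial (Fin n) ℂ), K.totalDegree ≤ d ∧
      (∀ α, (coeff α K).totalDegree ≤ 2 * k) ∧
      K ∈ H78M.mJ (fun b => (X b : MvPolynomial (Fin n) ℂ)) ^ (k + 1) ∧ map (eval x) K = P := by
  classical
  obtain ⟨P', hP'⟩ : ∃ P', P' = aeval (fun b => X b + C (x b) : Fin n → MvPolynomial (Fin n) ℂ) P := ⟨_, rfl⟩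
  have h1 : P' ∈ H78M.mX n ℂ ^ (k + 1) := by rw [hP']; exact b01_up x hP
  have h2 : P'.totalDegree ≤ d := by rw [hP']; exact b01_td x hd
  have h3 : aeval (fun b => X b - C (x b)) P' = P := by rw [hP', b01_du]
  have h4 : ∀ δ : Fin n →₀ ℕ, ∃ γ κ : Fin n →₀ ℕ, δ ∈ P'.support → (γ + κ = δ ∧ κ.degree = k + 1) := by
    intro δ
    by_cases hδ : δ ∈ P'.support
    · have h5 : k + 1 ≤ δ.degree := by
        by_contra hcon
        rw [H78M.mem_mX_pow] at h1
        exact (mem_support_iff.1 hδ) (h1 δ (by omega))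
      obtain ⟨γ, κ, h6, h7⟩ := b01_dec h5
      exact ⟨γ, κ, fun _ => ⟨h6, h7⟩⟩
    · exact ⟨0, 0, fun h => absurd h hδ⟩
  choose γ κ h5 using h4
  have hdeg : ∀ δ ∈ P'.support, (γ δ).degree + (κ δ).degree ≤ d := by
    intro δ hδ
    rw [← map_add, (h5 δ hδ).1]
    refine le_trans ?_ h2
    have h6 := le_totalDegree hδ
    rwa [Finsupp.sum_fintype δ (fun _ e => e) fun _ => rfl, ← Finsupp.degree_eq_sum] at h6
  refine ⟨∑ δ ∈ P'.support, C (C (coeff δ P')) * ((∏ b, (X b - C (C (x b))) ^ γ δ b) * ∏ b, (X b - C (X b)) ^ κ δ b), ?_, ?_, ?_, ?_⟩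
  · refine totalDegree_finsetSum_le fun δ hδ => ?_
    refine (H78M.g15_totalDegree_C _ _).trans ((totalDegree_mul _ _).trans ?_)
    exact (add_le_add (b01_tdp (fun b => C (x b)) (γ δ)) (b01_tdp (fun b => X b) (κ δ))).trans (hdeg δ hδ)
  · intro α
    rw [coeff_sum]
    refine totalDegree_finsetSum_le fun δ hδ => ?_
    rw [coeff_C_mul]
    refine (H78M.g15_totalDegree_C _ _).trans ?_
    have h6 : H78M.g15_cd (∏ b, (X b - C (C (x b)) : MvPolynomial (Fin n) (MvPolynomial (Fin n) ℂ)) ^ γ δ b) 0 := by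
      have h7 := H78M.g15_cd_prod (Finset.univ : Finset (Fin n))
        (fun b => (X b - C (C (x b)) : MvPolynomial (Fin n) (MvPolynomial (Fin n) ℂ)) ^ γ δ b) (fun _ => 0)
        fun b _ => by
          have h8 := H78M.g15_cd_pow (b01_cd b (x b)) (γ δ b)
          rwa [mul_zero] at h8
      rwa [Finset.sum_const_zero] at h7
    have h7 : H78M.g15_cd (∏ b, (X b - C (X b) : MvPolynomial (Fin n) (MvPolynomial (Fin n) ℂ)) ^ κ δ b) (κ δ).degree := by
      rw [Finsupp.degree_eq_sum]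
      refine H78M.g15_cd_prod (Finset.univ : Finset (Fin n)) _ (fun b => κ δ b) fun b _ => ?_
      have h8 := H78M.g15_cd_pow (H78M.g15_cd_sub (A := ℂ) b) (κ δ b)
      rwa [mul_one] at h8
    have h8 := H78M.g15_cd_mul h6 h7 α
    have h9 := (h5 δ hδ).2
    omega
  · refine Ideal.sum_mem _ fun δ hδ => ?_
    refine Ideal.mul_mem_left _ _ (Ideal.mul_mem_left _ _ ?_)
    have h6 := H78M.sqx_mem (γ := 0) (κ := κ δ) (fun b => (X b : MvPolynomial (Fin n) ℂ))
    unfold H78M.sqx at h6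
    simp only [Finsupp.coe_zero, Pi.zero_apply, pow_zero, Finset.prod_const_one, one_mul] at h6
    rwa [(h5 δ hδ).2] at h6
  · rw [map_sum]
    have h6 : aeval (fun b => X b - C (x b)) P' = ∑ δ ∈ P'.support, C (coeff δ P') * ∏ b, (X b - C (x b)) ^ δ b := by
      rw [aeval_def, eval₂_eq']
      rfl
    rw [← h3, h6]
    refine Finset.sum_congr rfl fun δ hδ => ?_
    rw [map_mul, map_mul, map_C, eval_C, map_prod, map_prod]
    congr 1
    rw [← Finset.prod_mul_distrib]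
    refine Finset.prod_congr rfl fun b _ => ?_
    rw [map_pow, map_pow, map_sub, map_sub, map_X, map_C, map_C, eval_C, eval_X, ← pow_add]
    congr 1
    conv_rhs => rw [← (h5 δ hδ).1]
    rfl

end Pool.Agent.H53L
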