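import Pool.Agent.Lib.H53L.B01
import Pool.Agent.Lib.H78M.G18

set_option autoImplicit false

/-!
CHUNK B02 (M), H53L.  Existence of the reduced polynomials.
-/

open MvPolynomial

namespace Pool.Agent.H53L

open Pool.Agent.H89T Pool.Agent.H67T Pool.Agent.H53U Pool.Agent.H53V Pool.Agent.H44K


variable {n d k : ℕ}

/-- `h (X_(b0) - x_(b0))` in `ℂ[x][X]`. -/
noncomputable def hS (b0 : Fin n) (h : Polynomial ℂ) : MvPolynomial (Fin n) (MvPolynomial (Fin n) ℂ) :=
  Polynomial.aeval (X b0 - C (X b0)) h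

/-- `∑_b h_b (X_(b0) - x_(b0)) ∂_b X ^ γ - ρ (X - x) X ^ γ`. -/
noncomputable def QS (b0 : Fin n) (h : Fin n → Polynomial ℂ) (ρ : MvPolynomial (Fin n) ℂ) (γ : Fin n →₀ ℕ) :
    MvPolynomial (Fin n) (MvPolynomial (Fin n) ℂ) :=
  ∑ b, hS b0 (h b) * pderiv b (monomial γ 1) - aeval (fun b => X b - C (X b)) ρ * monomial γ 1

theorem b02_zero {r s : ℕ} : H78M.RedM n ℂ d r s 0 := by
  refine ⟨0, ?_, fun α => ?_, ?_⟩
  · rw [totalDegree_zero]
    exact Nat.zero_le _
  · rw [coeff_zero, totalDegree_zero]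
    exact Nat.zero_le _
  · rw [sub_zero]
    exact Ideal.zero_mem _

theorem b02_sum {ι : Type*} {r s : ℕ} (t : Finset ι)
    (f : ι → MvPolynomial (Fin n) (MvPolynomial (Fin n) ℂ)) (hf : ∀ i ∈ t, H78M.RedM n ℂ d r s (f i)) :
    H78M.RedM n ℂ d r s (∑ i ∈ t, f i) := by
  classical
  induction t using Finset.induction_on with
  | empty =>
    rw [Finset.sum_empty]
    exact b02_zero
  | insert i t hi ih =>
    rw [Finset.sum_insert hi]
    exact H78M.RedM.add (hf i (Finset.mem_insert_self i t))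
      (ih fun j hj => hf j (Finset.mem_insert_of_mem hj))

theorem b02_hS (b0 : Fin n) (h : Polynomial ℂ) :
    hS b0 h = aeval (fun b => X b - C (X b) : Fin n → MvPolynomial (Fin n) (MvPolynomial (Fin n) ℂ))
      (Polynomial.aeval (X b0 : MvPolynomial (Fin n) ℂ) h) := by
  unfold hS
  rw [← Polynomial.aeval_algHom_apply, aeval_X]

theorem b02_mapaeval (x : Fin n → ℂ) (ρ : MvPolynomial (Fin n) ℂ) :
    map (eval x) (aeval (fun b => X b - C (X b) : Fin n → MvPolynomial (Fin n) (MvPolynomial (Fin n) ℂ)) ρ) =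
      aeval (fun b => X b - C (x b)) ρ := by
  induction ρ using MvPolynomial.induction_on with
  | C t =>
    rw [aeval_C, aeval_C]
    show map (eval x) (C (C t)) = C t
    rw [map_C, eval_C]
  | add p q hp hq => rw [map_add, map_add, map_add, hp, hq]
  | mul_X p b hp => rw [map_mul, map_mul, map_mul, hp, aeval_X, aeval_X, map_sub, map_X, map_C, eval_X]

theorem b02_maphS (x : Fin n → ℂ) (b0 : Fin n) (h : Polynomial ℂ) :
    map (eval x) (hS b0 h) = Polynomial.aeval (X b0 - C (x b0)) h := by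
  rw [b02_hS, b02_mapaeval, ← Polynomial.aeval_algHom_apply, aeval_X]

theorem b02_mapQS (x : Fin n → ℂ) (b0 : Fin n) (h : Fin n → Polynomial ℂ) (ρ : MvPolynomial (Fin n) ℂ)
    (γ : Fin n →₀ ℕ) : map (eval x) (QS b0 h ρ γ) =
      ∑ b, Polynomial.aeval (X b0 - C (x b0)) (h b) * pderiv b (monomial γ 1) -
        aeval (fun b => X b - C (x b)) ρ * monomial γ 1 := by
  unfold QS
  rw [map_sub, map_sum, map_mul, b02_mapaeval, map_monomial, map_one (eval x)]
  congr 1
  refine Finset.sum_congr rfl fun b _ => ?_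
  rw [map_mul, b02_maphS, ← pderiv_map, map_monomial, map_one (eval x)]

/-- PROOF.  `hS b0 (h b) = aeval (fun b => X b - C (X b)) ρ_b` with `ρ_b = Polynomial.aeval (X b0) (h b)` (`Polynomial.aeval_algHom_apply`), `pderiv b (monomial γ 1) =
monomial (γ - single b 1) (γ b)` (`pderiv_monomial`), of degree at most `d`; `redM_mono` for each term; sums, multiples, negatives (`RedM.add`, `RedM.smul`). -/
theorem redM_QS (hkd : k ≤ d) (b0 : Fin n) (h : Fin n → Polynomial ℂ) (ρ : MvPolynomial (Fin n) ℂ)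
    {γ : Fin n →₀ ℕ} (hγ : γ.degree ≤ d) : H78M.RedM n ℂ d (2 * k) (k + 1) (QS b0 h ρ γ) := by
  classical
  unfold QS
  have h1 : ∀ b, H78M.RedM n ℂ d (2 * k) (k + 1) (hS b0 (h b) * pderiv b (monomial γ 1)) := by
    intro b
    have h2 : hS b0 (h b) * pderiv b (monomial γ (1 : MvPolynomial (Fin n) ℂ)) = C (C ((γ b : ℕ) : ℂ)) *
        (aeval (fun b => X b - C (X b)) (Polynomial.aeval (X b0 : MvPolynomial (Fin n) ℂ) (h b)) *
          monomial (γ - Finsupp.single b 1) 1) := by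
      rw [b02_hS, pderiv_monomial, one_mul]
      have h3 : (monomial (γ - Finsupp.single b 1) ((γ b : ℕ) : MvPolynomial (Fin n) ℂ)) =
          C (C ((γ b : ℕ) : ℂ)) * monomial (γ - Finsupp.single b 1) 1 := by
        rw [C_mul_monomial, mul_one, map_natCast (C : ℂ →+* MvPolynomial (Fin n) ℂ)]
      rw [h3]
      ring
    rw [h2]
    refine H78M.RedM.smul (redM_mono hkd _ ?_) _
    refine le_trans ?_ hγ
    rw [Finsupp.degree_eq_sum, Finsupp.degree_eq_sum]
    refine Finset.sum_le_sum fun i _ => ?_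
    rw [Finsupp.tsub_apply]
    exact Nat.sub_le _ _
  have h4 := H78M.RedM.smul (redM_mono hkd ρ hγ) (-1)
  have h5 : C (C (-1 : ℂ)) * (aeval (fun b => X b - C (X b)) ρ *
      (monomial γ 1 : MvPolynomial (Fin n) (MvPolynomial (Fin n) ℂ))) =
      -(aeval (fun b => X b - C (X b)) ρ * monomial γ 1) := by
    rw [map_neg, map_neg, C_1, C_1]
    ring
  rw [h5] at h4
  rw [sub_eq_add_neg]
  exact H78M.RedM.add (b02_sum _ _ fun b _ => h1 b) h4

/-- The reduced polynomials `E α` and the correction `K`, at the point `(a, x)`.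
PROOF.  `ρ` from `exists_rho` for `P = ∑ b, Polynomial.aeval (X b0 - C (x b0)) (h b) * pderiv b (pol a)`; `E α` from `redM_QS` with `γ = expo α` (`choose`).
`P* = ∑ α, C (a α) * map (eval x) (E α)` has degree at most `d` (`totalDegree` of `map`), and it is congruent modulo `mJ x ^ (k + 1)` to `∑ α, C (a α) * map (eval x) (QS b0 h ρ (expo α))`
(`H78M.g18_mJ` or `map_mJ` in H78M/G18: the image of `mJ X ^ s` is in `mJ x ^ s`), which is `P - aeval (X b - C (x b)) ρ * pol a ∈ mJ x ^ (k + 1)`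
(`pol_eq : pol a = ∑ α, monomial (expo α) (a α)`, `pderiv` linear, `map_pderiv`-type lemma or `pderiv_monomial`).  So `P* ∈ mJ x ^ (k + 1)`; `K` from `lift_mJ` for `P*`. -/
theorem exists_EK (hk : 1 ≤ k) (hkd : k ≤ d) (a : Idx n d → ℂ) (x : Fin n → ℂ) (ha : ev a x ≠ 0) (b0 : Fin n)
    (h : Fin n → Polynomial ℂ) :
    ∃ (ρ : MvPolynomial (Fin n) ℂ) (E : Idx n d → MvPolynomial (Fin n) (MvPolynomial (Fin n) ℂ))
      (K : MvPolynomial (Fin n) (MvPolynomial (Fin n) ℂ)), ρ.totalDegree ≤ k ∧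
      (∀ α, (E α).totalDegree ≤ d ∧ (∀ β, (coeff β (E α)).totalDegree ≤ 2 * k) ∧
        QS b0 h ρ (expo α) - E α ∈ H78M.mJ (fun b => (X b : MvPolynomial (Fin n) ℂ)) ^ (k + 1)) ∧
      K.totalDegree ≤ d ∧ (∀ β, (coeff β K).totalDegree ≤ 2 * k) ∧
      K ∈ H78M.mJ (fun b => (X b : MvPolynomial (Fin n) ℂ)) ^ (k + 1) ∧
      map (eval x) K = ∑ α, C (a α) * map (eval x) (E α) := by
  classical
  obtain ⟨ρ, hρ, hρ2⟩ := exists_rho (k := k) a x ha (∑ b, Polynomial.aeval (X b0 - C (x b0)) (h b) * pderiv b (pol a))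
  have hE := fun α : Idx n d => redM_QS (d := d) hkd b0 h ρ (expo_degree α)
  choose E hE1 hE2 hE3 using hE
  have hdeg : (∑ α, C (a α) * map (eval x) (E α)).totalDegree ≤ d := by
    refine totalDegree_finsetSum_le fun α _ => ?_
    exact (H78M.g18_Cmul _ _).trans ((H78M.g18_map _ _).trans (hE1 α))
  have hsum : ∑ α, C (a α) * map (eval x) (QS b0 h ρ (expo α)) =
      -(aeval (fun b => X b - C (x b)) ρ * pol a -
        ∑ b, Polynomial.aeval (X b0 - C (x b0)) (h b) * pderiv b (pol a)) := by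
    have hpol : pol a = ∑ α, C (a α) * monomial (expo α) (1 : ℂ) := by
      rw [pol_eq]
      refine Finset.sum_congr rfl fun α _ => ?_
      rw [C_mul_monomial, mul_one]
    have h1 : ∀ α : Idx n d, C (a α) * map (eval x) (QS b0 h ρ (expo α)) =
        ∑ b, Polynomial.aeval (X b0 - C (x b0)) (h b) * pderiv b (C (a α) * monomial (expo α) (1 : ℂ)) -
          aeval (fun b => X b - C (x b)) ρ * (C (a α) * monomial (expo α) 1) := by
      intro α
      rw [b02_mapQS, mul_sub, Finset.mul_sum]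
      congr 1
      · refine Finset.sum_congr rfl fun b _ => ?_
        rw [pderiv_C_mul]
        ring
      · ring
    rw [Finset.sum_congr rfl fun α _ => h1 α, Finset.sum_sub_distrib, ← Finset.mul_sum, ← hpol,
      Finset.sum_comm, neg_sub]
    congr 1
    refine Finset.sum_congr rfl fun b _ => ?_
    rw [← Finset.mul_sum, hpol, map_sum]
  have hmem : ∑ α, C (a α) * map (eval x) (E α) ∈ H78M.mJ x ^ (k + 1) := by
    have h2 : ∑ α, C (a α) * map (eval x) (E α) = ∑ α, C (a α) * map (eval x) (QS b0 h ρ (expo α)) -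
        ∑ α, C (a α) * map (eval x) (QS b0 h ρ (expo α) - E α) := by
      rw [← Finset.sum_sub_distrib]
      refine Finset.sum_congr rfl fun α _ => ?_
      rw [map_sub]
      ring
    rw [h2, hsum]
    refine Ideal.sub_mem _ (neg_mem hρ2) (Ideal.sum_mem _ fun α _ => Ideal.mul_mem_left _ _ ?_)
    exact H78M.g18_mJ (eval x) (fun b => X b) x (fun b => eval_X b) (hE3 α)
  obtain ⟨K, hK1, hK2, hK3, hK4⟩ := lift_mJ (d := d) hk x hmem hdeg
  exact ⟨ρ, E, K, hρ, fun α => ⟨hE1 α, hE2 α, hE3 α⟩, hK1, hK2, hK3, hK4⟩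

end Pool.Agent.H53L
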