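import Pool.Agent.Lib.H53L.B02

set_option autoImplicit false

/-!
CHUNK B03 (M), H53L.  Existence of the moves.
-/

open MvPolynomial

namespace Pool.Agent.H53L

open Pool.Agent.H89T Pool.Agent.H67T Pool.Agent.H53U Pool.Agent.H53V Pool.Agent.H44K


variable {n d k : ℕ}

/-- The coordinates `x` in the universal ring. -/
noncomputable def jx (n d k : ℕ) : MvPolynomial (Fin n) ℂ →ₐ[ℂ] AA n d k := aeval fun b => xA (b, 0)

/-- The polynomial `- ∑ a_α E α + K`, with coefficients in the universal ring. -/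
noncomputable def GG (k : ℕ) (E : Idx n d → MvPolynomial (Fin n) (MvPolynomial (Fin n) ℂ))
    (K : MvPolynomial (Fin n) (MvPolynomial (Fin n) ℂ)) : MvPolynomial (Fin n) (AA n d k) :=
  map (jx n d k : MvPolynomial (Fin n) ℂ →+* AA n d k) K -
    ∑ α, C (aA α) * map (jx n d k : MvPolynomial (Fin n) ℂ →+* AA n d k) (E α)

theorem b03_Cmul {B : Type*} [CommRing B] (t : B) (P : MvPolynomial (Fin n) B) :
    (C t * P).totalDegree ≤ P.totalDegree := by
  refine (totalDegree_mul _ _).trans ?_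
  rw [totalDegree_C, zero_add]

theorem b03_map {B B' : Type*} [CommRing B] [CommRing B'] (φ : B →+* B') (P : MvPolynomial (Fin n) B) :
    (map φ P).totalDegree ≤ P.totalDegree := by
  unfold totalDegree
  exact Finset.sup_mono (support_map_subset φ P)

theorem b03_deg {E : Idx n d → MvPolynomial (Fin n) (MvPolynomial (Fin n) ℂ)}
    {K : MvPolynomial (Fin n) (MvPolynomial (Fin n) ℂ)} (hE : ∀ α, (E α).totalDegree ≤ d) (hK : K.totalDegree ≤ d) :
    (GG k E K).totalDegree ≤ d := by
  unfold GG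
  refine (totalDegree_sub _ _).trans (max_le ((b03_map _ _).trans hK) ?_)
  refine totalDegree_finsetSum_le fun α _ => ?_
  exact (b03_Cmul _ _).trans ((b03_map _ _).trans (hE α))

theorem b03_Fx (g : Idx n d → AA n d k) :
    Fx g (xA : JV n k → AA n d k) = aeval (arc xA : Fin n → Polynomial (AA n d k)) (pol g) := by
  have h1 := ev_map ((aeval (arc xA : Fin n → Polynomial (AA n d k))) :
    MvPolynomial (Fin n) (AA n d k) →ₐ[AA n d k] Polynomial (AA n d k)).toRingHom
    (fun α => C (g α)) (X : Fin n → MvPolynomial (Fin n) (AA n d k))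
  have h2 : ∀ P, ((aeval (arc xA : Fin n → Polynomial (AA n d k))) :
    MvPolynomial (Fin n) (AA n d k) →ₐ[AA n d k] Polynomial (AA n d k)).toRingHom P =
    aeval (arc xA : Fin n → Polynomial (AA n d k)) P := fun P => rfl
  simp only [h2, aeval_X] at h1
  unfold pol
  rw [h1]
  unfold Fx
  congr 1
  funext α
  rw [aeval_C]
  rfl

/-- PROOF.  `(cofs d G α) = coeff (expo α) G`, `Fx g xA = ev (Polynomial.C ∘ g) (arc xA) = aeval (arc xA) (pol g)` (`pol_eq`), `pol (cofs d G) = G` (`pol_cofs`, `G.totalDegree ≤ d`: `totalDegree` of `map`, sums,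
`C * `). -/
theorem Fx_GG {E : Idx n d → MvPolynomial (Fin n) (MvPolynomial (Fin n) ℂ)}
    {K : MvPolynomial (Fin n) (MvPolynomial (Fin n) ℂ)} (hE : ∀ α, (E α).totalDegree ≤ d) (hK : K.totalDegree ≤ d) :
    Fx (fun α => cofs d (GG k E K) α) (xA : JV n k → AA n d k) =
      aeval (arc xA : Fin n → Polynomial (AA n d k)) (GG k E K) := by
  rw [b03_Fx]
  congr 1
  exact pol_cofs (b03_deg hE hK)

/-- The substitution. -/
noncomputable def b03_Psi (n d k : ℕ) :
    MvPolynomial (Fin n) (MvPolynomial (Fin n) ℂ) →+* Polynomial (AA n d k) :=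
  ((aeval (arc xA : Fin n → Polynomial (AA n d k))) :
    MvPolynomial (Fin n) (AA n d k) →ₐ[AA n d k] Polynomial (AA n d k)).toRingHom.comp
    (map (jx n d k : MvPolynomial (Fin n) ℂ →+* AA n d k))

theorem b03_Psi_apply (P : MvPolynomial (Fin n) (MvPolynomial (Fin n) ℂ)) :
    aeval (arc xA : Fin n → Polynomial (AA n d k))
        (map (jx n d k : MvPolynomial (Fin n) ℂ →+* AA n d k) P) = b03_Psi n d k P := rfl

theorem b03_Psi_X (b : Fin n) : b03_Psi n d k (X b) = arc xA b := by
  rw [← b03_Psi_apply, map_X, aeval_X]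

theorem b03_Psi_C (q : MvPolynomial (Fin n) ℂ) : b03_Psi n d k (C q) = Polynomial.C (jx n d k q) := by
  rw [← b03_Psi_apply, map_C, aeval_C]
  rfl

theorem b03_jx_X (b : Fin n) : jx n d k (X b) = xA (b, 0) := by
  unfold jx
  rw [aeval_X]

theorem b03_Psi_sub (b : Fin n) : b03_Psi n d k (X b - C (X b)) = vA b := by
  rw [map_sub, b03_Psi_X, b03_Psi_C, b03_jx_X]
  rfl

theorem b03_dvd_vA (b : Fin n) : (Polynomial.X : Polynomial (AA n d k)) ∣ vA b := by
  rw [Polynomial.X_dvd_iff]
  unfold vA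
  rw [Polynomial.coeff_sub, coeff_arc, dif_pos (by omega : 0 < k + 1), Polynomial.coeff_C_zero]
  exact sub_self _

/-- PROOF.  The images of the generators `X b - C (X b)` are `vA b = arc xA b - C (xA (b, 0))`, divisible by `X` (`coeff_arc` at `0`); so the image of `mJ X` under the ring homomorphism
`P ↦ aeval (arc xA) (map jx P)` is in `Ideal.span {X}`, of the power in `Ideal.span {X ^ (k + 1)}` (`Ideal.map_le_iff_le_comap`, `Ideal.map_pow`, `Ideal.span_singleton_pow`). -/
theorem dvd_of_mJ {P : MvPolynomial (Fin n) (MvPolynomial (Fin n) ℂ)}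
    (hP : P ∈ H78M.mJ (fun b => (X b : MvPolynomial (Fin n) ℂ)) ^ (k + 1)) :
    (Polynomial.X : Polynomial (AA n d k)) ^ (k + 1) ∣
      aeval (arc xA : Fin n → Polynomial (AA n d k))
        (map (jx n d k : MvPolynomial (Fin n) ℂ →+* AA n d k) P) := by
  rw [b03_Psi_apply]
  have h1 : Ideal.map (b03_Psi n d k) (H78M.mJ (fun b => (X b : MvPolynomial (Fin n) ℂ))) ≤
      Ideal.span {(Polynomial.X : Polynomial (AA n d k))} := by
    unfold H78M.mJ
    rw [Ideal.map_span, Ideal.span_le]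
    rintro _ ⟨_, ⟨b, rfl⟩, rfl⟩
    rw [SetLike.mem_coe, Ideal.mem_span_singleton]
    show Polynomial.X ∣ b03_Psi n d k (X b - C (X b))
    rw [b03_Psi_sub]
    exact b03_dvd_vA b
  have h2 := Ideal.mem_map_of_mem (b03_Psi n d k) hP
  rw [Ideal.map_pow] at h2
  have h3 := Ideal.pow_right_mono h1 (k + 1) h2
  rw [Ideal.span_singleton_pow, Ideal.mem_span_singleton] at h3
  exact h3

/-! ### The degrees in the coordinates -/

theorem b03_X0D_zero (e : ℕ) : X0D e (0 : AA n d k) := by
  intro ν hν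
  simp at hν

theorem b03_X0D_add {e : ℕ} {g g' : AA n d k} (h : X0D e g) (h' : X0D e g') : X0D e (g + g') := by
  classical
  intro ν hν
  rcases Finset.mem_union.1 (support_add hν) with h1 | h1
  · exact h ν h1
  · exact h' ν h1

theorem b03_X0D_neg {e : ℕ} {g : AA n d k} (h : X0D e g) : X0D e (-g) := by
  intro ν hν
  rw [support_neg] at hν
  exact h ν hν

theorem b03_X0D_sub {e : ℕ} {g g' : AA n d k} (h : X0D e g) (h' : X0D e g') : X0D e (g - g') := by
  rw [sub_eq_add_neg]
  exact b03_X0D_add h (b03_X0D_neg h')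

theorem b03_X0D_sum {ι : Type*} (s : Finset ι) {e : ℕ} {g : ι → AA n d k} (h : ∀ i ∈ s, X0D e (g i)) :
    X0D e (∑ i ∈ s, g i) := by
  classical
  induction s using Finset.induction_on with
  | empty => rw [Finset.sum_empty]; exact b03_X0D_zero e
  | insert i s hi ih =>
    rw [Finset.sum_insert hi]
    exact b03_X0D_add (h i (Finset.mem_insert_self i s)) (ih fun j hj => h j (Finset.mem_insert_of_mem hj))

theorem b03_X0D_aA_mul {e : ℕ} (β : Idx n d) {g : AA n d k} (h : X0D e g) : X0D e (aA β * g) := by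
  classical
  intro ν hν
  have h1 := support_mul _ _ hν
  rw [Finset.mem_add] at h1
  obtain ⟨ν1, hν1, ν2, hν2, rfl⟩ := h1
  unfold aA at hν1
  rw [support_X, Finset.mem_singleton] at hν1
  subst hν1
  have h2 := h ν2 hν2
  refine ⟨fun p hp => ?_, ?_⟩
  · rw [Finsupp.add_apply, h2.1 p hp, Finsupp.single_apply, if_neg (by simp)]
  · refine le_trans (le_of_eq ?_) h2.2
    refine Finset.sum_congr rfl fun b _ => ?_
    rw [Finsupp.add_apply, Finsupp.single_apply, if_neg (by simp), zero_add]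

theorem b03_X0D_jx {e : ℕ} {q : MvPolynomial (Fin n) ℂ} (hq : q.totalDegree ≤ e) :
    X0D e (jx n d k q) := by
  classical
  have hinj : Function.Injective (fun b : Fin n => (Sum.inl (b, 0) : JV n k ⊕ Idx n d)) := by
    intro b b' h
    exact (Prod.mk.inj (Sum.inl.inj h)).1
  have h0 : jx n d k q = rename (fun b : Fin n => (Sum.inl (b, 0) : JV n k ⊕ Idx n d)) q := by
    rw [rename_eq_aeval]
    rfl
  intro ν hν
  rw [h0, support_rename_of_injective hinj, Finset.mem_image] at hν
  obtain ⟨μ, hμ, rfl⟩ := hν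
  refine ⟨fun p hp => ?_, ?_⟩
  · refine Finsupp.mapDomain_of_notMem_range _ _ ?_
    rintro ⟨b, hb⟩
    apply hp
    have := Sum.inl.inj hb
    rw [← this]
  · have h1 : ∑ b : Fin n, (Finsupp.mapDomain (fun b : Fin n => (Sum.inl (b, 0) : JV n k ⊕ Idx n d)) μ)
        (Sum.inl (b, 0)) = ∑ b : Fin n, μ b := by
      refine Finset.sum_congr rfl fun b _ => ?_
      exact Finsupp.mapDomain_apply hinj μ b
    rw [h1]
    have h2 := le_totalDegree hμ
    rw [Finsupp.sum_fintype _ _ (fun _ => rfl)] at h2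
    exact h2.trans hq

/-! ### The value at the point -/

theorem b03_piA_jx (a : Idx n d → ℂ) (x : Fin n → ℂ) (q : MvPolynomial (Fin n) ℂ) :
    piA a x (jx n d k q) = C (eval x q) := by
  have h1 : (piA a x : AA n d k →ₐ[ℂ] MvPolynomial (Fin n × Fin k) ℂ).comp (jx n d k) =
      (Algebra.ofId ℂ (MvPolynomial (Fin n × Fin k) ℂ)).comp (aeval x) := by
    apply algHom_ext
    intro b
    rw [AlgHom.comp_apply, AlgHom.comp_apply, b03_jx_X, aeval_X]
    unfold piA xA
    rw [aeval_X, Sum.elim_inl]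
    rfl
  exact DFunLike.congr_fun h1 q

theorem b03_piA_aA (a : Idx n d → ℂ) (x : Fin n → ℂ) (α : Idx n d) :
    piA (k := k) a x (aA α) = C (a α) := by
  unfold piA aA
  rw [aeval_X, Sum.elim_inr]

/-! ### The field -/

theorem b03_trk {A : Type*} [CommRing A] (k : ℕ) (p : Polynomial A) :
    (Polynomial.X : Polynomial A) ^ (k + 1) ∣ trk k p - p := by
  rw [Polynomial.X_pow_dvd_iff]
  intro i hi
  rw [Polynomial.coeff_sub, trk, Polynomial.finsetSum_coeff, Finset.sum_eq_single (⟨i, hi⟩ : Fin (k + 1))]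
  · rw [Polynomial.coeff_C_mul, Polynomial.coeff_X_pow, if_pos rfl, mul_one, sub_self]
  · intro j _ hj
    rw [Polynomial.coeff_C_mul, Polynomial.coeff_X_pow, if_neg, mul_zero]
    intro h
    exact hj (Fin.ext h.symm)
  · intro h
    exact absurd (Finset.mem_univ _) h

theorem b03_Psi_hS (b0 : Fin n) (p : Polynomial ℂ) : b03_Psi n d k (hS b0 p) = hA b0 p := by
  unfold hS hA
  induction p using Polynomial.induction_on' with
  | add p q hp hq => rw [map_add, map_add, hp, hq, map_add]
  | monomial m c =>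
    rw [Polynomial.aeval_monomial, Polynomial.aeval_monomial, map_mul, map_pow, b03_Psi_sub]
    congr 1
    rw [IsScalarTower.algebraMap_apply ℂ (MvPolynomial (Fin n) ℂ) (MvPolynomial (Fin n) (MvPolynomial (Fin n) ℂ)),
      algebraMap_eq, b03_Psi_C, algebraMap_eq]
    have h1 : jx n d k (C c) = C c := by
      have := (jx n d k).commutes c
      exact this
    rw [h1]
    rfl

theorem b03_Psi_rho (ρ : MvPolynomial (Fin n) ℂ) :
    b03_Psi n d k (aeval (fun b => X b - C (X b)) ρ) = rhA ρ := by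
  unfold rhA
  induction ρ using MvPolynomial.induction_on with
  | C c =>
    rw [aeval_C, aeval_C, IsScalarTower.algebraMap_apply ℂ (MvPolynomial (Fin n) ℂ) (MvPolynomial (Fin n) (MvPolynomial (Fin n) ℂ)),
      algebraMap_eq, b03_Psi_C, algebraMap_eq]
    have h1 : jx n d k (C c) = C c := by
      have := (jx n d k).commutes c
      exact this
    rw [h1]
    rfl
  | add p q hp hq => rw [map_add, map_add, hp, hq, map_add]
  | mul_X p b hp => rw [map_mul, map_mul, hp, aeval_X, b03_Psi_sub, map_mul, aeval_X]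

theorem b03_Psi_monomial (γ : Fin n →₀ ℕ) (q : MvPolynomial (Fin n) ℂ) :
    b03_Psi n d k (monomial γ q) = Polynomial.C (jx n d k q) * ∏ b, (arc xA b) ^ (γ b) := by
  rw [monomial_eq, map_mul, b03_Psi_C, Finsupp.prod_fintype _ _ (by simp), map_prod]
  congr 1
  exact Finset.prod_congr rfl fun b _ => by rw [map_pow, b03_Psi_X]

theorem b03_sum_Fx :
    ∑ α : Idx n d, Polynomial.C (aA α) * b03_Psi n d k (monomial (expo α) 1) = Fx aA xA := by
  unfold Fx ev
  refine Finset.sum_congr rfl fun α _ => ?_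
  rw [b03_Psi_monomial, map_one, map_one, one_mul]
  rfl

theorem b03_sum_Fdx (b : Fin n) :
    ∑ α : Idx n d, Polynomial.C (aA α) * b03_Psi n d k (pderiv b (monomial (expo α) 1)) = Fdx b aA xA := by
  classical
  unfold Fdx evd
  refine Finset.sum_congr rfl fun α _ => ?_
  rw [pderiv_monomial, b03_Psi_monomial, one_mul, map_natCast, map_natCast]
  congr 2
  refine Finset.prod_congr rfl fun i _ => ?_
  rw [Finsupp.tsub_apply, expo_apply, Finsupp.single_apply]
  simp only [eq_comm]

theorem b03_alg1 {R ι κ : Type*} [CommRing R] [Fintype ι] [Fintype κ] (A M : ι → R) (P : κ → ι → R)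
    (H : κ → R) (r : R) :
    ∑ α, A α * (∑ b, H b * P b α - r * M α) = ∑ b, (∑ α, A α * P b α) * H b - r * ∑ α, A α * M α := by
  simp only [mul_sub, Finset.mul_sum, Finset.sum_sub_distrib, Finset.sum_mul]
  rw [Finset.sum_comm]
  refine congrArg₂ (fun x y => x - y) ?_ ?_
  · exact Finset.sum_congr rfl fun b _ => Finset.sum_congr rfl fun α _ => by ring
  · exact Finset.sum_congr rfl fun α _ => by ring

theorem b03_alg2 {R : Type*} [CommRing R] (a b c d e : R) :
    (a - b) + c - d = a + ((e - d) - b) + (c - e) := by ring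

/-- PROOF.  `exists_EK`; `g α = cofs d (GG k E K) α`.
`g1`: `coeff (expo α) (GG ..) = jx (coeff .. K) - ∑ β, aA β * jx (coeff .. (E β))`; `jx q` for `q.totalDegree ≤ e` is `X0D e` (`rename` form: `jx = rename (fun b => Sum.inl (b, 0))`;
`support_rename_of_injective` / `mem_support` with `Finsupp.mapDomain`), `aA β * g` is `X0D e` if `g` is, sums.
`g2`: `piA a x (aA β) = C (a β)`, `piA a x (jx q) = C (eval x q)`; so `piA a x (g α) = C (coeff α (map (eval x) K - ∑ β, C (a β) * map (eval x) (E β))) = 0`.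
`g3`: `EV g lam = Fx g xA + ∑ b, Fdx b aA xA * lam b`; `trk k p` is congruent to `p` modulo `X ^ (k + 1)` (`Polynomial.X_pow_dvd_iff`), so `lamB b0 h b` can be replaced by `hA b0 (h b)`.
`Fx_GG` and `dvd_of_mJ` for `K` and for `QS .. - E α`: `aeval (arc xA) (GG ..)` is congruent to `- ∑ α, C (aA α) * aeval (arc xA) (map jx (QS b0 h ρ (expo α)))`, and
`aeval (arc xA) (map jx (hS b0 p)) = hA b0 p`, `aeval (arc xA) (map jx (aeval (X b - C (X b)) ρ)) = rhA ρ`, `∑ α, C (aA α) * aeval (arc xA) (pderiv b (monomial (expo α) 1)) = Fdx b aA xA`,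
`∑ α, C (aA α) * aeval (arc xA) (monomial (expo α) 1) = Fx aA xA` (unfold `Fdx`, `evd`, `Fx`, `ev`, `pderiv_monomial`, `aeval_monomial`). -/
theorem exists_moveL (hk : 1 ≤ k) (hkd : k ≤ d) (a : Idx n d → ℂ) (x : Fin n → ℂ) (ha : ev a x ≠ 0) (b0 : Fin n)
    (h : Fin n → Polynomial ℂ) (h0 : ∀ b, (h b).coeff 0 = 0) :
    ∃ (ρ : MvPolynomial (Fin n) ℂ) (g : Idx n d → AA n d k), MoveL a x b0 h ρ g := by
  obtain ⟨ρ, E, K, -, hE, hK1, hK2, hK3, hK4⟩ := exists_EK hk hkd a x ha b0 h
  have hcoef : ∀ μ : Fin n →₀ ℕ, coeff μ (GG k E K) =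
      jx n d k (coeff μ K) - ∑ β, aA β * jx n d k (coeff μ (E β)) := by
    intro μ
    unfold GG
    rw [coeff_sub, coeff_map, coeff_sum]
    congr 1
    refine Finset.sum_congr rfl fun β _ => ?_
    rw [coeff_C_mul, coeff_map]
    rfl
  refine ⟨ρ, fun α => cofs d (GG k E K) α, h0, fun α => ?_, fun α => ?_, ?_⟩
  · show X0D (2 * k) (coeff (expo α) (GG k E K))
    rw [hcoef]
    refine b03_X0D_sub (b03_X0D_jx (hK2 _)) (b03_X0D_sum _ fun β _ => ?_)
    exact b03_X0D_aA_mul β (b03_X0D_jx ((hE β).2.1 _))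
  · show piA a x (coeff (expo α) (GG k E K)) = 0
    rw [hcoef, map_sub, b03_piA_jx, map_sum]
    have h1 := congrArg (coeff (expo α)) hK4
    rw [coeff_map, coeff_sum] at h1
    rw [h1, map_sum, sub_eq_zero]
    refine Finset.sum_congr rfl fun β _ => ?_
    rw [map_mul, b03_piA_jx, b03_piA_aA, coeff_C_mul, coeff_map, map_mul]
  · have e1 : Fx (fun α => cofs d (GG k E K) α) (xA : JV n k → AA n d k) =
        b03_Psi n d k K - ∑ α, Polynomial.C (aA α) * b03_Psi n d k (E α) := by
      rw [Fx_GG (fun α => (hE α).1) hK1]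
      unfold GG
      rw [map_sub, map_sum]
      congr 1
      refine Finset.sum_congr rfl fun α _ => ?_
      rw [map_mul, aeval_C]
      rfl
    have e2 : ∀ α : Idx n d, b03_Psi n d k (QS b0 h ρ (expo α)) =
        ∑ b, hA b0 (h b) * b03_Psi n d k (pderiv b (monomial (expo α) 1)) -
          rhA ρ * b03_Psi n d k (monomial (expo α) 1) := by
      intro α
      unfold QS
      rw [map_sub, map_sum, map_mul, b03_Psi_rho]
      congr 1
      exact Finset.sum_congr rfl fun b _ => by rw [map_mul, b03_Psi_hS]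
    have e3 : ∑ α, Polynomial.C (aA α) * b03_Psi n d k (QS b0 h ρ (expo α)) =
        ∑ b, Fdx b aA xA * hA b0 (h b) - rhA ρ * Fx aA xA := by
      have e7 : ∀ α : Idx n d, Polynomial.C (aA α) * b03_Psi n d k (QS b0 h ρ (expo α)) =
          Polynomial.C (aA α) * (∑ b, hA b0 (h b) * b03_Psi n d k (pderiv b (monomial (expo α) 1)) -
          rhA ρ * b03_Psi n d k (monomial (expo α) 1)) := fun α => by rw [e2]
      rw [Finset.sum_congr rfl fun α _ => e7 α, b03_alg1 (fun α : Idx n d => Polynomial.C (aA α))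
        (fun α : Idx n d => b03_Psi n d k (monomial (expo α) 1))
        (fun b (α : Idx n d) => b03_Psi n d k (pderiv b (monomial (expo α) 1))) (fun b => hA b0 (h b)) (rhA ρ),
        b03_sum_Fx]
      exact congrArg (fun z => z - rhA ρ * Fx aA xA) (Finset.sum_congr rfl fun b _ => by rw [b03_sum_Fdx])
    have e4 : EV (fun α => cofs d (GG k E K) α) (lamB b0 h) - rhA ρ * Fx aA (xA : JV n k → AA n d k) =
        b03_Psi n d k K + ∑ α, Polynomial.C (aA α) * b03_Psi n d k (QS b0 h ρ (expo α) - E α) +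
          ∑ b, Fdx b aA xA * (lamB b0 h b - hA b0 (h b)) := by
      have e5 : ∑ α, Polynomial.C (aA α) * b03_Psi n d k (QS b0 h ρ (expo α) - E α) =
          (∑ b, Fdx b aA xA * hA b0 (h b) - rhA ρ * Fx aA xA) -
            ∑ α, Polynomial.C (aA α) * b03_Psi n d k (E α) := by
        rw [← e3, ← Finset.sum_sub_distrib]
        refine Finset.sum_congr rfl fun α _ => ?_
        rw [map_sub, mul_sub]
      have e6 : ∑ b, Fdx b aA (xA : JV n k → AA n d k) * (lamB b0 h b - hA b0 (h b)) =
          ∑ b, Fdx b aA xA * lamB b0 h b - ∑ b, Fdx b aA xA * hA b0 (h b) := by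
        rw [← Finset.sum_sub_distrib]
        exact Finset.sum_congr rfl fun b _ => mul_sub _ _ _
      rw [e5, e6]
      unfold EV
      rw [e1]
      exact b03_alg2 _ _ _ _ _
    rw [e4]
    refine dvd_add (dvd_add ?_ (Finset.dvd_sum fun α _ => ?_)) (Finset.dvd_sum fun b _ => ?_)
    · rw [← b03_Psi_apply]
      exact dvd_of_mJ hK3
    · refine Dvd.dvd.mul_left ?_ _
      rw [← b03_Psi_apply]
      exact dvd_of_mJ (hE α).2.2
    · exact Dvd.dvd.mul_left (b03_trk k _) _

end Pool.Agent.H53L
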