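import Pool.Agent.Lib.H53L.BD

set_option autoImplicit false

/-!
CHUNK B04 (M), H53L.  The calculus of the spans `HL`.
-/

open MvPolynomial

namespace Pool.Agent.H53L

open Pool.Agent.H89T Pool.Agent.H67T Pool.Agent.H53U Pool.Agent.H53V Pool.Agent.H44K


variable {n d k : ℕ}

/-- PROOF.  `Submodule.span_mono`. -/
theorem HL.mono {w W W' D : ℕ} {g : AA n d k} (h : HL w W D g) (hW : W ≤ W') : HL w W' D g := by
  unfold HL at h ⊢
  refine Submodule.span_mono ?_ h
  rintro g ⟨c, μ, i, lam, h1, h2, h3, h4, rfl⟩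
  exact ⟨c, μ, i, lam, h1, h2, h3.trans hW, h4, rfl⟩

/-- PROOF.  `Submodule.add_mem`. -/
theorem HL.add {w W D : ℕ} {g g' : AA n d k} (h : HL w W D g) (h' : HL w W D g') : HL w W D (g + g') := by
  exact Submodule.add_mem _ h h'

theorem HL.smul {w W D : ℕ} {g : AA n d k} (c : ℂ) (h : HL w W D g) : HL w W D (c • g) := by
  exact Submodule.smul_mem _ c h

theorem HL_zero (w W D : ℕ) : HL w W D (0 : AA n d k) := by
  exact Submodule.zero_mem _

theorem HL.sum {ι : Type*} (s : Finset ι) {w W D : ℕ} {g : ι → AA n d k} (h : ∀ i ∈ s, HL w W D (g i)) :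
    HL w W D (∑ i ∈ s, g i) := by
  exact Submodule.sum_mem _ h

theorem b04_lw_add {k : ℕ} (lam lam' : Fin k → ℕ) : lw (lam + lam') = lw lam + lw lam' := by
  unfold lw
  rw [← Finset.sum_add_distrib]
  exact Finset.sum_congr rfl fun i _ => by rw [Pi.add_apply, mul_add]

theorem b04_ld_add {k : ℕ} (lam lam' : Fin k → ℕ) : ld (lam + lam') = ld lam + ld lam' := by
  unfold ld
  rw [← Finset.sum_add_distrib]
  exact Finset.sum_congr rfl fun i _ => by rw [Pi.add_apply]

theorem b04_lw_zero (k : ℕ) : lw (0 : Fin k → ℕ) = 0 := by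
  unfold lw
  exact Finset.sum_eq_zero fun i _ => by rw [Pi.zero_apply, mul_zero]

theorem b04_ld_zero (k : ℕ) : ld (0 : Fin k → ℕ) = 0 := by
  unfold ld
  exact Finset.sum_eq_zero fun i _ => by rw [Pi.zero_apply]

theorem b04_ld_le_lw {k : ℕ} (lam : Fin k → ℕ) : ld lam ≤ lw lam := by
  unfold ld lw
  exact Finset.sum_le_sum fun i _ => Nat.le_mul_of_pos_left _ (Nat.succ_pos _)

theorem b04_jw_add (μ μ' : JV n k →₀ ℕ) : H53V.jw (μ + μ') = H53V.jw μ + H53V.jw μ' := by
  unfold H53V.jw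
  rw [← Finset.sum_add_distrib]
  exact Finset.sum_congr rfl fun i _ => by rw [Finsupp.add_apply, mul_add]

theorem b04_jw_zero : H53V.jw (0 : JV n k →₀ ℕ) = 0 := by
  unfold H53V.jw
  exact Finset.sum_eq_zero fun i _ => by rw [Finsupp.zero_apply, mul_zero]

theorem b04_wt_zero : wt (0 : JV n k →₀ ℕ) = 0 := by
  unfold wt
  exact Finset.sum_eq_zero fun i _ => by rw [Finsupp.zero_apply, mul_zero]

theorem b04_mon_add (μ μ' : JV n k →₀ ℕ) : (monomial (jm (μ + μ')) 1 : AA n d k) =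
    monomial (jm μ) 1 * monomial (jm μ') 1 := by
  unfold jm
  rw [monomial_mul, one_mul, Finsupp.mapDomain_add]

theorem b04_mon_zero : (monomial (jm (0 : JV n k →₀ ℕ)) 1 : AA n d k) = 1 := by
  unfold jm
  rw [Finsupp.mapDomain_zero]
  rfl

theorem b04_one : ∀ ν ∈ (1 : AA n d k).support, ∀ p : JV n k, ν (Sum.inl p) = 0 := by
  classical
  intro ν hν p
  rw [mem_support_iff, coeff_one] at hν
  split_ifs at hν with h
  · rw [← h, Finsupp.zero_apply]
  · exact absurd rfl hν

/-- PROOF.  `Submodule.span_induction` twice (or `Submodule.mul_mem_mul` and `Submodule.span_mul_span`): the product of two generators is a generator with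
`c c'`, `μ + μ'` (`jm (μ + μ') = jm μ + jm μ'`: `Finsupp.mapDomain_add`, `monomial_mul`), `i + i'`, `lam + lam'`; `jw`, `wt` (`wt_add` in H89T/N2), `lw`, `ld` are additive; the support of `c * c'`
(`support_mul`). -/
theorem HL.mul {w W D w' W' D' : ℕ} {g g' : AA n d k} (h : HL w W D g) (h' : HL w' W' D' g') :
    HL (w + w') (W + W') (D + D') (g * g') := by
  classical
  unfold HL at h h' ⊢
  have h1 := Submodule.mul_mem_mul h h'
  rw [Submodule.span_mul_span] at h1
  refine Submodule.span_mono ?_ h1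
  rintro _ ⟨x, ⟨c, μ, i, lam, a1, a2, a3, a4, rfl⟩, y, ⟨c', μ', i', lam', b1, b2, b3, b4, rfl⟩, rfl⟩
  refine ⟨c * c', μ + μ', i + i', lam + lam', ?_, ?_, ?_, ?_, ?_⟩
  · intro ν hν p
    obtain ⟨u, hu, v, hv, rfl⟩ := Finset.mem_add.mp (support_mul _ _ hν)
    rw [Finsupp.add_apply, a1 u hu p, b1 v hv p]
  · rw [b04_jw_add, b04_lw_add]
    omega
  · rw [Pool.Agent.H89T.wt_add, b04_lw_add]
    omega
  · rw [b04_ld_add]
    omega
  · dsimp only
    rw [b04_mon_add]
    simp only [Pi.add_apply, pow_add, Finset.prod_mul_distrib]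
    ring

/-- PROOF.  `c = g`, `μ = 0`, `i = 0`, `lam = 0`. -/
theorem HL_coef {g : AA n d k} (h : ∀ ν ∈ g.support, ∀ p : JV n k, ν (Sum.inl p) = 0) : HL 0 0 0 g := by
  refine Submodule.subset_span ⟨g, 0, 0, 0, h, ?_, ?_, ?_, ?_⟩
  · rw [b04_jw_zero, b04_lw_zero]
  · rw [b04_wt_zero, b04_lw_zero]
  · rw [b04_ld_zero]
  · rw [b04_mon_zero, mul_one, pow_zero, mul_one, Finset.prod_eq_one (fun i _ => by rw [Pi.zero_apply, pow_zero]),
      mul_one]

/-- PROOF.  `μ = single p 1`: `wt = p.2 + 1`, `jw = p.2`; `monomial (jm (single p 1)) 1 = X (Sum.inl p) = xA p`. -/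
theorem HL_xA (p : JV n k) : HL (p.2 : ℕ) ((p.2 : ℕ) + 1) 0 (xA p : AA n d k) := by
  classical
  refine Submodule.subset_span ⟨1, Finsupp.single p 1, 0, 0, b04_one, ?_, ?_, ?_, ?_⟩
  · rw [b04_lw_zero, add_zero]
    unfold H53V.jw
    rw [Finset.sum_eq_single p]
    · rw [Finsupp.single_eq_same, mul_one]
    · intro q _ hq
      rw [Finsupp.single_eq_of_ne hq, mul_zero]
    · intro h
      exact absurd (Finset.mem_univ _) h
  · rw [b04_lw_zero, add_zero]
    unfold wt
    rw [Finset.sum_eq_single p]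
    · rw [Finsupp.single_eq_same, mul_one]
    · intro q _ hq
      rw [Finsupp.single_eq_of_ne hq, mul_zero]
    · intro h
      exact absurd (Finset.mem_univ _) h
  · rw [b04_ld_zero]
  · unfold jm
    rw [Finsupp.mapDomain_single, one_mul, pow_zero, mul_one,
      Finset.prod_eq_one (fun i _ => by rw [Pi.zero_apply, pow_zero]), mul_one]
    rfl

/-- PROOF.  `i = 1`, `lam = 0` for `l = 0`; `lam = Pi.single ⟨l - 1, _⟩ 1` for `1 ≤ l ≤ k`. -/
theorem HL_uA {l : ℕ} (hl : l ≤ k) : HL l l 1 (uA l : AA n d k) := by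
  classical
  rcases Nat.eq_zero_or_pos l with h0 | h0
  · subst h0
    refine Submodule.subset_span ⟨1, 0, 1, 0, b04_one, ?_, ?_, ?_, ?_⟩
    · rw [b04_jw_zero, b04_lw_zero]
    · rw [b04_wt_zero, b04_lw_zero]
    · rw [b04_ld_zero]
    · rw [b04_mon_zero, mul_one, pow_one, one_mul,
        Finset.prod_eq_one (fun i _ => by rw [Pi.zero_apply, pow_zero]), mul_one]
  · have h2 : l - 1 < k := by omega
    have h3 : ld (Pi.single (⟨l - 1, h2⟩ : Fin k) 1) = 1 := by
      unfold ld
      rw [Finset.sum_eq_single ⟨l - 1, h2⟩]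
      · rw [Pi.single_eq_same]
      · intro i _ hi
        rw [Pi.single_eq_of_ne hi]
      · intro h
        exact absurd (Finset.mem_univ _) h
    have h4 : lw (Pi.single (⟨l - 1, h2⟩ : Fin k) 1) = l := by
      unfold lw
      rw [Finset.sum_eq_single ⟨l - 1, h2⟩]
      · rw [Pi.single_eq_same, mul_one]
        exact Nat.sub_add_cancel h0
      · intro i _ hi
        rw [Pi.single_eq_of_ne hi, mul_zero]
      · intro h
        exact absurd (Finset.mem_univ _) h
    refine Submodule.subset_span ⟨1, 0, 0, Pi.single ⟨l - 1, h2⟩ 1, b04_one, ?_, ?_, ?_, ?_⟩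
    · rw [b04_jw_zero, h4, zero_add]
    · rw [b04_wt_zero, h4, zero_add]
    · rw [h3]
    · rw [b04_mon_zero, mul_one, pow_zero, one_mul, one_mul, Finset.prod_eq_single ⟨l - 1, h2⟩]
      · rw [Pi.single_eq_same, pow_one]
        congr 1
        exact (Nat.sub_add_cancel h0).symm
      · intro i _ hi
        rw [Pi.single_eq_of_ne hi, pow_zero]
      · intro h
        exact absurd (Finset.mem_univ _) h

/-- PROOF.  Induction on `e`, `HL.mul`, `HL_coef` for `1`. -/
theorem HL.pow {w W D : ℕ} {g : AA n d k} (h : HL w W D g) (e : ℕ) : HL (e * w) (e * W) (e * D) (g ^ e) := by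
  induction e with
  | zero =>
    rw [zero_mul, zero_mul, zero_mul, pow_zero]
    exact HL_coef b04_one
  | succ e ih =>
    rw [pow_succ, Nat.succ_mul, Nat.succ_mul, Nat.succ_mul]
    exact ih.mul h

/-- PROOF.  Every monomial is `C * (a-part) * ∏ b, xA (b, 0) ^ ν (inl (b, 0))`, the other jet variables do not occur: it is a generator with `μ` = the part on the `(b, 0)`: `jw μ = 0`,
`wt μ = ∑ b, ν (inl (b, 0)) ≤ e` and `c` = the monomial of the `a`-part (`monomial_eq`/`monomial_mul`: `ν = jm μ + ν'`). -/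
theorem HL_X0D {e : ℕ} {g : AA n d k} (h : X0D e g) : HL 0 e 0 g := by
  classical
  rw [g.as_sum]
  refine HL.sum _ fun ν hν => ?_
  obtain ⟨h1, h2⟩ := h ν hν
  obtain ⟨μ, hμ⟩ : ∃ μ : JV n k →₀ ℕ, μ = Finsupp.equivFunOnFinite.symm fun p => ν (Sum.inl p) := ⟨_, rfl⟩
  obtain ⟨κ, hκ⟩ : ∃ κ : Idx n d →₀ ℕ, κ = Finsupp.equivFunOnFinite.symm fun p => ν (Sum.inr p) := ⟨_, rfl⟩
  have hμ1 : ∀ p, μ p = ν (Sum.inl p) := by
    intro p
    rw [hμ]
    rfl
  have hκ1 : ∀ p, κ p = ν (Sum.inr p) := by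
    intro p
    rw [hκ]
    rfl
  have h3 : ν = κ.mapDomain Sum.inr + jm μ := by
    unfold jm
    ext s
    rcases s with p | α
    · rw [Finsupp.add_apply, Finsupp.mapDomain_apply Sum.inl_injective,
        Finsupp.mapDomain_of_notMem_range _ _ (by simp), zero_add, hμ1]
    · rw [Finsupp.add_apply, Finsupp.mapDomain_apply Sum.inr_injective,
        Finsupp.mapDomain_of_notMem_range μ _ (by simp), add_zero, hκ1]
  refine Submodule.subset_span ⟨monomial (κ.mapDomain Sum.inr) (g.coeff ν), μ, 0, 0, ?_, ?_, ?_, ?_, ?_⟩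
  · intro ν' hν' p
    have h4 := Finset.mem_singleton.mp (support_monomial_subset hν')
    rw [h4]
    exact Finsupp.mapDomain_of_notMem_range _ _ (by simp)
  · rw [b04_lw_zero, add_zero]
    unfold H53V.jw
    refine Finset.sum_eq_zero fun p _ => ?_
    by_cases hp : p.2 = 0
    · rw [hp, Fin.val_zero, zero_mul]
    · rw [hμ1, h1 p hp, mul_zero]
  · rw [b04_lw_zero, add_zero]
    refine le_trans (le_of_eq ?_) h2
    unfold wt
    rw [Fintype.sum_prod_type]
    refine Finset.sum_congr rfl fun b _ => ?_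
    rw [Finset.sum_eq_single 0]
    · dsimp only
      rw [Fin.val_zero, zero_add, one_mul, hμ1]
    · intro l _ hl
      rw [hμ1, h1 (b, l) hl, mul_zero]
    · intro h
      exact absurd (Finset.mem_univ _) h
  · rw [b04_ld_zero]
  · rw [pow_zero, mul_one, Finset.prod_eq_one (fun i _ => by rw [Pi.zero_apply, pow_zero]), mul_one,
      monomial_mul, mul_one, ← h3]

end Pool.Agent.H53L
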