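import Pool.Agent.Lib.H53L.B04

set_option autoImplicit false

/-!
CHUNK B05 (M), H53L.  The weights of the coefficients of `h (v (t))`, `ρ (v (t))`.
-/

open MvPolynomial

namespace Pool.Agent.H53L

open Pool.Agent.H89T Pool.Agent.H67T Pool.Agent.H53U Pool.Agent.H53V Pool.Agent.H44K


variable {n d k : ℕ}

/-- All coefficients up to the order `k` are of weight `l` and total weight at most `2 l`. -/
def HLP (p : Polynomial (AA n d k)) : Prop := ∀ l ≤ k, HL l (2 * l) 0 (p.coeff l)

/-- PROOF.  `Polynomial.coeff_mul`, `HL.sum`, `HL.mul`: `l1 + l2 = l` (`l1, l2 ≤ k`). -/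
theorem HLP.mul {p q : Polynomial (AA n d k)} (hp : HLP p) (hq : HLP q) : HLP (p * q) := by
  intro l hl
  rw [Polynomial.coeff_mul]
  refine HL.sum _ fun r hr => ?_
  rw [Finset.HasAntidiagonal.mem_antidiagonal] at hr
  have h1 := (hp r.1 (by omega)).mul (hq r.2 (by omega))
  rw [show r.1 + r.2 = l from hr, show 2 * r.1 + 2 * r.2 = 2 * l by omega, zero_add] at h1
  exact h1

theorem HLP.add {p q : Polynomial (AA n d k)} (hp : HLP p) (hq : HLP q) : HLP (p + q) := by
  intro l hl
  rw [Polynomial.coeff_add]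
  exact (hp l hl).add (hq l hl)

theorem b05_supp_C (c : ℂ) : ∀ ν ∈ (C c : AA n d k).support, ∀ p : JV n k, ν (Sum.inl p) = 0 := by
  classical
  intro ν hν p
  rw [mem_support_iff, coeff_C] at hν
  split_ifs at hν with h
  · rw [← h, Finsupp.zero_apply]
  · exact absurd rfl hν

/-- PROOF.  The coefficient at `l = 0` is `algebraMap c` (`HL_coef`), the others are `0`. -/
theorem HLP_C (c : ℂ) : HLP (Polynomial.C (C c) : Polynomial (AA n d k)) := by
  intro l hl
  rcases Nat.eq_zero_or_pos l with h0 | h0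
  · subst h0
    rw [Polynomial.coeff_C_zero, mul_zero]
    exact HL_coef (b05_supp_C c)
  · rw [Polynomial.coeff_C_of_ne_zero (by omega)]
    exact HL_zero _ _ _

/-- PROOF.  `vA b` has the coefficients `0` at `l = 0` and `xA (b, l)` for `1 ≤ l ≤ k` (`coeff_arc`): `HL_xA`, `l + 1 ≤ 2 l`. -/
theorem HLP_vA (b : Fin n) : HLP (vA b : Polynomial (AA n d k)) := by
  intro l hl
  unfold vA
  rw [Polynomial.coeff_sub, coeff_arc, dif_pos (by omega : l < k + 1)]
  rcases Nat.eq_zero_or_pos l with h0 | h0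
  · subst h0
    have h1 : (xA (b, ⟨0, by omega⟩) : AA n d k) - (Polynomial.C (xA (b, 0)) : Polynomial (AA n d k)).coeff 0 = 0 := by
      rw [Polynomial.coeff_C_zero]
      exact sub_self _
    rw [h1]
    exact HL_zero _ _ _
  · rw [Polynomial.coeff_C_of_ne_zero (by omega), sub_zero]
    have h2 : HL l (l + 1) 0 (xA (b, ⟨l, by omega⟩) : AA n d k) := HL_xA (b, (⟨l, by omega⟩ : Fin (k + 1)))
    exact h2.mono (by omega)

theorem b05_pow {p : Polynomial (AA n d k)} (hp : HLP p) (e : ℕ) : HLP (p ^ e) := by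
  induction e with
  | zero =>
    rw [pow_zero]
    have h1 : (1 : Polynomial (AA n d k)) = Polynomial.C (C 1) := by
      rw [C_1, Polynomial.C_1]
    rw [h1]
    exact HLP_C 1
  | succ e ih =>
    rw [pow_succ]
    exact ih.mul hp

/-- PROOF.  `Polynomial.induction_on'` (or `aeval_eq_sum_range`): sums of `C (C c) * (vA b) ^ i`. -/
theorem HLP_hA (b : Fin n) (h : Polynomial ℂ) : HLP (hA b h : Polynomial (AA n d k)) := by
  unfold hA
  induction h using Polynomial.induction_on' with
  | add p q hp hq =>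
    rw [map_add]
    exact hp.add hq
  | monomial i c =>
    rw [Polynomial.aeval_monomial, Polynomial.algebraMap_apply, algebraMap_eq]
    exact (HLP_C c).mul (b05_pow (HLP_vA b) i)

/-- PROOF.  `MvPolynomial.induction_on`. -/
theorem HLP_rhA (ρ : MvPolynomial (Fin n) ℂ) : HLP (rhA ρ : Polynomial (AA n d k)) := by
  unfold rhA
  induction ρ using MvPolynomial.induction_on with
  | C c =>
    rw [aeval_C, Polynomial.algebraMap_apply, algebraMap_eq]
    exact HLP_C c
  | add p q hp hq =>
    rw [map_add]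
    exact hp.add hq
  | mul_X p b hp =>
    rw [map_mul, aeval_X]
    exact hp.mul (HLP_vA b)

/-- `HL` and `LT`: a generator of `LT M m` is in `HL m (M - d j) (m + j)`.
PROOF.  Take `i = j + (m - ld lam)`; `i + ld lam = j + m` because `ld lam ≤ lw lam ≤ m`. -/
theorem HL_of_LTg {M m : ℕ} {g : AA n d k} (h : g ∈ LTg n d k M m) :
    ∃ j W, W + d * j ≤ M ∧ HL m W (m + j) g := by
  obtain ⟨c, μ, j, lam, h1, h2, h3, rfl⟩ := h
  have h4 := b04_ld_le_lw lam
  refine ⟨j, wt μ + lw lam, by omega, Submodule.subset_span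
    ⟨c, μ, j + (m - ld lam), lam, h1, h3, le_rfl, by omega, rfl⟩⟩

/-- PROOF.  `Submodule.span_induction`: a generator with `jw μ + lw lam = m`, `wt μ + lw lam ≤ W`, `i + ld lam = m + j` is the generator of `LTg` with `c, μ, j, lam`:
`i = j + (m - ld lam)` because `ld lam ≤ lw lam ≤ m`. -/
theorem LT_of_HL {M m j W : ℕ} (hW : W + d * j ≤ M) {g : AA n d k} (h : HL m W (m + j) g) : LT M m g := by
  unfold HL at h
  unfold LT
  refine Submodule.span_mono ?_ h
  rintro g ⟨c, μ, i, lam, h1, h2, h3, h4, rfl⟩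
  have h5 := b04_ld_le_lw lam
  refine ⟨c, μ, j, lam, h1, by omega, h2, ?_⟩
  rw [show i = j + (m - ld lam) by omega]

end Pool.Agent.H53L
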