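import Pool.Agent.Lib.H53L.B05
import Pool.Agent.Lib.H89T.C1

set_option autoImplicit false

/-!
CHUNK B06 (M), H53L.  The field of a move preserves logarithmic jet differentials.
-/

open MvPolynomial

namespace Pool.Agent.H53L

open Pool.Agent.H89T Pool.Agent.H67T Pool.Agent.H53U Pool.Agent.H53V Pool.Agent.H44K


variable {n d k : ℕ}

/-- PROOF.  Unfold; the `natDegree` of a sum of `C * X ^ l`, `l ≤ k` (`Polynomial.natDegree_sum_le_of_forall_le`). -/
theorem natDegree_lamB (b0 : Fin n) (h : Fin n → Polynomial ℂ) (b : Fin n) :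
    (lamB b0 h b : Polynomial (AA n d k)).natDegree ≤ k := by
  unfold lamB trk
  refine Polynomial.natDegree_sum_le_of_forall_le _ _ fun l _ => ?_
  exact (Polynomial.natDegree_C_mul_X_pow_le _ _).trans (Nat.lt_succ_iff.1 l.2)

/-- PROOF.  `(trk k p).coeff l = p.coeff l` for `l ≤ k`. -/
theorem lamB_coeff (b0 : Fin n) (h : Fin n → Polynomial ℂ) (b : Fin n) (l : Fin (k + 1)) :
    (lamB b0 h b : Polynomial (AA n d k)).coeff (l : ℕ) = (hA b0 (h b)).coeff (l : ℕ) := by
  unfold lamB trk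
  rw [Polynomial.finsetSum_coeff, Finset.sum_eq_single l]
  · rw [Polynomial.coeff_C_mul, Polynomial.coeff_X_pow, if_pos rfl, mul_one]
  · intro i _ hi
    rw [Polynomial.coeff_C_mul, Polynomial.coeff_X_pow, if_neg, mul_zero]
    intro h1
    exact hi (Fin.ext h1).symm
  · intro h
    exact absurd (Finset.mem_univ _) h

/-- `f` and its derivative. -/
def HK (V : Derivation ℂ (AA n d k) (AA n d k)) (w W D : ℕ) (f : AA n d k) : Prop :=
  HL w W D f ∧ HL w (W + 2 * k) D (V f)

theorem b06_cast {w W D w' W' D' : ℕ} {f : AA n d k} (h : HL w W D f) (hw : w = w') (hW : W ≤ W') (hD : D = D') :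
    HL w' W' D' f := by
  subst hw
  subst hD
  exact h.mono hW

theorem b06_castK {V : Derivation ℂ (AA n d k) (AA n d k)} {w W D w' W' D' : ℕ} {f : AA n d k} (h : HK V w W D f)
    (hw : w = w') (hW : W = W') (hD : D = D') : HK V w' W' D' f := by
  subst hw
  subst hD
  subst hW
  exact h

/-- PROOF.  `Derivation.leibniz`, `HL.mul`, `HL.add`, `HL.mono`. -/
theorem HK.mul {V : Derivation ℂ (AA n d k) (AA n d k)} {w W D w' W' D' : ℕ} {f f' : AA n d k}
    (h : HK V w W D f) (h' : HK V w' W' D' f') : HK V (w + w') (W + W') (D + D') (f * f') := by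
  refine ⟨h.1.mul h'.1, ?_⟩
  rw [Derivation.leibniz, smul_eq_mul, smul_eq_mul]
  refine HL.add ?_ ?_
  · exact b06_cast (h.1.mul h'.2) rfl (by omega) rfl
  · exact b06_cast (h'.1.mul h.2) (add_comm _ _) (by omega) (add_comm _ _)

variable {a : Idx n d → ℂ} {x : Fin n → ℂ} {b0 : Fin n} {h : Fin n → Polynomial ℂ} {ρ : MvPolynomial (Fin n) ℂ}
  {g : Idx n d → AA n d k}

/-- PROOF.  `VV_uA` (H89T/C1) with `natDegree_lamB`: `VV (uA l) = (EV g lam).coeff l = (rhA ρ * Fx aA xA).coeff l` for `l ≤ k` (`MoveL.g3`, `Polynomial.X_pow_dvd_iff`), `Polynomial.coeff_mul`,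
`(Fx aA xA).coeff i = uA i`.  Each term: `HLP_rhA` at `j`, `HL_uA` at `l - j`: `HL l (2 j + (l - j)) 1`, `2 j + (l - j) ≤ l + 2 k`. -/
theorem HK_uA (hM : MoveL a x b0 h ρ g) {l : ℕ} (hl : l ≤ k) : HK (VV g (lamB b0 h)) l l 1 (uA l) := by
  refine ⟨HL_uA hl, ?_⟩
  have h1 := Polynomial.X_pow_dvd_iff.1 hM.g3 l (by omega)
  rw [Polynomial.coeff_sub, sub_eq_zero] at h1
  rw [VV_uA g _ (natDegree_lamB b0 h) l, h1, Polynomial.coeff_mul]
  refine HL.sum _ fun r hr => ?_
  rw [Finset.HasAntidiagonal.mem_antidiagonal] at hr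
  exact b06_cast ((HLP_rhA ρ r.1 (by omega)).mul (HL_uA (l := r.2) (by omega))) hr (by omega) (zero_add _)

/-- PROOF.  `VV_xA`, `lamB_coeff`: for `p.2 = 0` the coefficient is `(h b).coeff 0`-th: `(hA b0 (h b)).coeff 0 = C ((h b).coeff 0) = 0` (`vA` has constant coefficient `0`); otherwise `HLP_hA`:
`2 l ≤ l + 1 + 2 k`. -/
theorem HK_xA (hM : MoveL a x b0 h ρ g) (p : JV n k) :
    HK (VV g (lamB b0 h)) (p.2 : ℕ) ((p.2 : ℕ) + 1) 0 (xA p) := by
  refine ⟨HL_xA p, ?_⟩
  have h1 := p.2.2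
  rw [VV_xA, lamB_coeff]
  exact (HLP_hA b0 (h p.1) (p.2 : ℕ) (by omega)).mono (by omega)

theorem b06_aA (hM : MoveL a x b0 h ρ g) (α : Idx n d) : HK (VV g (lamB b0 h)) 0 0 0 (X (Sum.inr α)) := by
  classical
  refine ⟨HL_coef ?_, ?_⟩
  · intro ν hν p
    rw [support_X] at hν
    rw [Finset.mem_singleton.1 hν]
    exact Finsupp.single_eq_of_ne (by simp)
  · have h1 : VV g (lamB b0 h) (X (Sum.inr α)) = g α := VV_aA g _ α
    rw [h1, zero_add]
    exact HL_X0D (hM.g1 α)

theorem b06_one (V : Derivation ℂ (AA n d k) (AA n d k)) : HK V 0 0 0 1 := by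
  refine ⟨HL_coef b04_one, ?_⟩
  rw [Derivation.map_one_eq_zero]
  exact HL_zero _ _ _

/-- PROOF.  `c = rename Sum.inr c'` (all variables are `Sum.inr`: `mem_supported`/`exists_rename_eq_of_vars_subset_range`); induction on `c'`: `C`: derivative `0`; `aA α`: `VV_aA`, `HL_X0D` with
`MoveL.g1`; products: `HK.mul`; sums. -/
theorem HK_coef (hM : MoveL a x b0 h ρ g) {c : AA n d k} (hc : ∀ ν ∈ c.support, ∀ p : JV n k, ν (Sum.inl p) = 0) :
    HK (VV g (lamB b0 h)) 0 0 0 c := by
  classical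
  have h1 : (↑c.vars : Set (JV n k ⊕ Idx n d)) ⊆ Set.range Sum.inr := by
    intro s hs
    rw [Finset.mem_coe, mem_vars] at hs
    obtain ⟨ν, hν, h2⟩ := hs
    rcases s with p | α
    · exact absurd (hc ν hν p) (Finsupp.mem_support_iff.1 h2)
    · exact ⟨α, rfl⟩
  obtain ⟨c', rfl⟩ := exists_rename_eq_of_vars_subset_range c Sum.inr Sum.inr_injective h1
  clear hc h1
  induction c' using MvPolynomial.induction_on with
  | C t =>
    rw [rename_C]
    refine ⟨HL_coef (b05_supp_C t), ?_⟩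
    rw [← algebraMap_eq, Derivation.map_algebraMap]
    exact HL_zero _ _ _
  | add p q hp hq =>
    rw [map_add]
    exact ⟨hp.1.add hq.1, by rw [map_add]; exact hp.2.add hq.2⟩
  | mul_X p α hp =>
    rw [map_mul, rename_X]
    have h5 := HK.mul hp (b06_aA hM α)
    exact b06_castK h5 rfl rfl rfl

/-- PROOF.  Induction on `e` (for a single `f`), and over finite products. -/
theorem HK.pow {V : Derivation ℂ (AA n d k) (AA n d k)} {w W D : ℕ} {f : AA n d k} (hf : HK V w W D f) (e : ℕ) :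
    HK V (e * w) (e * W) (e * D) (f ^ e) := by
  induction e with
  | zero =>
    rw [zero_mul, zero_mul, zero_mul, pow_zero]
    exact b06_one V
  | succ e ih =>
    rw [pow_succ, Nat.succ_mul, Nat.succ_mul, Nat.succ_mul]
    exact ih.mul hf

theorem HK.prod {V : Derivation ℂ (AA n d k) (AA n d k)} {ι : Type*} (s : Finset ι) {w W D : ι → ℕ} {f : ι → AA n d k}
    (hf : ∀ i ∈ s, HK V (w i) (W i) (D i) (f i)) :
    HK V (∑ i ∈ s, w i) (∑ i ∈ s, W i) (∑ i ∈ s, D i) (∏ i ∈ s, f i) := by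
  classical
  induction s using Finset.induction_on with
  | empty =>
    rw [Finset.sum_empty, Finset.sum_empty, Finset.sum_empty, Finset.prod_empty]
    exact b06_one V
  | insert i s hi ih =>
    rw [Finset.sum_insert hi, Finset.sum_insert hi, Finset.sum_insert hi, Finset.prod_insert hi]
    exact (hf i (Finset.mem_insert_self i s)).mul (ih fun j hj => hf j (Finset.mem_insert_of_mem hj))

theorem b06_mon (μ : JV n k →₀ ℕ) : (monomial (jm μ) 1 : AA n d k) = ∏ p : JV n k, xA p ^ (μ p) := by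
  unfold jm
  rw [monomial_eq, map_one, one_mul, Finsupp.prod_mapDomain_index_inj Sum.inl_injective,
    Finsupp.prod_fintype _ _ (fun _ => pow_zero _)]
  rfl

/-- PROOF.  `LT` is a span; for a generator `c * monomial (jm μ) 1 * uA 0 ^ i * ∏ uA (l + 1) ^ lam l` with `monomial (jm μ) 1 = ∏ p, xA p ^ μ p`: `HK.mul`, `HK_coef`, `HK.prod`, `HK.pow`, `HK_xA`, `HK_uA`
give `HK V m W (m + j)` with `W = wt μ + lw lam`, `W + d j ≤ M` (`∑ p, μ p * (p.2 + 1) = wt μ`, `∑ p, μ p * p.2 = jw μ`); so `HL m (W + 2 k) (m + j) (V g)` and `LT_of_HL`. -/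
theorem LT_VV (hM : MoveL a x b0 h ρ g) {M m : ℕ} {G : AA n d k} (hG : LT M m G) :
    LT (M + 2 * k) m (VV g (lamB b0 h) G) := by
  classical
  unfold LT at hG ⊢
  induction hG using Submodule.span_induction with
  | mem f hf =>
    obtain ⟨c, μ, j, lam, h1, h2, h3, rfl⟩ := hf
    have h4 := b04_ld_le_lw lam
    have hx : HK (VV g (lamB b0 h)) (H53V.jw μ) (wt μ) 0 (monomial (jm μ) 1) := by
      have h5 := HK.prod (V := VV g (lamB b0 h)) Finset.univ (f := fun p : JV n k => (xA p : AA n d k) ^ μ p)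
        fun p _ => (HK_xA hM p).pow (μ p)
      rw [b06_mon]
      refine b06_castK h5 ?_ ?_ ?_
      · unfold H53V.jw
        exact Finset.sum_congr rfl fun p _ => mul_comm _ _
      · unfold wt
        exact Finset.sum_congr rfl fun p _ => mul_comm _ _
      · exact Finset.sum_eq_zero fun p _ => mul_zero _
    have hu : HK (VV g (lamB b0 h)) (lw lam) (lw lam) (ld lam) (∏ i : Fin k, uA ((i : ℕ) + 1) ^ lam i) := by
      have h5 := HK.prod (V := VV g (lamB b0 h)) Finset.univ
        (f := fun i : Fin k => (uA ((i : ℕ) + 1) : AA n d k) ^ lam i)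
        fun i _ => (HK_uA hM (l := (i : ℕ) + 1) i.2).pow (lam i)
      refine b06_castK h5 ?_ ?_ ?_
      · unfold lw
        exact Finset.sum_congr rfl fun p _ => mul_comm _ _
      · unfold lw
        exact Finset.sum_congr rfl fun p _ => mul_comm _ _
      · unfold ld
        exact Finset.sum_congr rfl fun p _ => mul_one _
    have h6 := (((HK_coef hM h1).mul hx).mul ((HK_uA hM (l := 0) (Nat.zero_le _)).pow (j + (m - ld lam)))).mul hu
    refine LT_of_HL (j := j) (W := wt μ + lw lam + 2 * k) (by omega) ?_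
    refine b06_cast h6.2 ?_ ?_ ?_
    · rw [mul_zero]
      omega
    · rw [mul_zero]
      omega
    · rw [mul_one]
      omega
  | zero =>
    rw [map_zero]
    exact Submodule.zero_mem _
  | add f f' _ _ hf hf' =>
    rw [map_add]
    exact Submodule.add_mem _ hf hf'
  | smul t f _ hf =>
    rw [Derivation.map_smul]
    exact Submodule.smul_mem _ _ hf

/-- PROOF.  Induction on `r`, `LT_VV`. -/
theorem LT_iter (hM : MoveL a x b0 h ρ g) {M m : ℕ} {G : AA n d k} (hG : LT M m G) (r : ℕ) :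
    LT (M + 2 * k * r) m ((VV g (lamB b0 h))^[r] G) := by
  induction r with
  | zero =>
    rw [mul_zero, add_zero]
    exact hG
  | succ r ih =>
    rw [Function.iterate_succ_apply', Nat.mul_succ, ← add_assoc]
    exact LT_VV hM ih

theorem b06_hA0 (b : Fin n) (p : Polynomial ℂ) (hp : p.coeff 0 = 0) :
    (hA b p : Polynomial (AA n d k)).coeff 0 = 0 := by
  obtain ⟨q, rfl⟩ := Polynomial.X_dvd_iff.2 hp
  unfold hA
  have h1 : (vA b : Polynomial (AA n d k)).coeff 0 = 0 := by
    unfold vA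
    rw [Polynomial.coeff_sub, coeff_arc, dif_pos (by omega : 0 < k + 1), Polynomial.coeff_C_zero]
    exact sub_self _
  rw [map_mul, Polynomial.aeval_X, Polynomial.mul_coeff_zero, h1, zero_mul]

theorem b06_lin (hM : MoveL a x b0 h ρ g) (l : Fin n → ℂ) : VV g (lamB b0 h) (linA n d k l) = 0 := by
  unfold linA
  rw [map_sum]
  refine Finset.sum_eq_zero fun b _ => ?_
  have h1 : VV g (lamB b0 h) (xA (b, 0)) = 0 := by
    rw [VV_xA]
    have h2 := lamB_coeff (d := d) b0 h b (0 : Fin (k + 1))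
    exact h2.trans (b06_hA0 b0 (h b) (hM.h0 b))
  rw [← smul_eq_C_mul, Derivation.map_smul, h1, smul_zero]

/-- PROOF.  `VV (xA (b, 0)) = 0` (see `HK_xA`), so `VV (linA n d k l) = 0` and `VV (linA ^ s * G) = linA ^ s * VV G` (`Derivation.leibniz`, `Derivation.leibniz_pow`); induction on `r`. -/
theorem lin_iter (hM : MoveL a x b0 h ρ g) (l : Fin n → ℂ) (s : ℕ) {G H : AA n d k}
    (hGH : linA n d k l ^ s * G = H) (r : ℕ) :
    linA n d k l ^ s * (VV g (lamB b0 h))^[r] G = (VV g (lamB b0 h))^[r] H := by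
  have h1 := b06_lin hM l
  induction r with
  | zero => exact hGH
  | succ r ih =>
    rw [Function.iterate_succ_apply', Function.iterate_succ_apply', ← ih, Derivation.leibniz, Derivation.leibniz_pow,
      h1, smul_zero, smul_zero, smul_zero, add_zero, smul_eq_mul]

end Pool.Agent.H53L
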