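import Pool.Agent.Lib.H53L.BD
import Pool.Agent.Lib.H89T.C1

set_option autoImplicit false

/-!
CHUNK B07 (M), H53L.  The restriction to the fibre.
-/

open MvPolynomial

namespace Pool.Agent.H53L

open Pool.Agent.H89T Pool.Agent.H67T Pool.Agent.H53U Pool.Agent.H53V Pool.Agent.H44K


variable {n d k : ℕ} {a : Idx n d → ℂ} {x : Fin n → ℂ} {b0 : Fin n} {h : Fin n → Polynomial ℂ}
  {ρ : MvPolynomial (Fin n) ℂ} {g : Idx n d → AA n d k}

theorem b07_xA0 (b : Fin n) : piA (k := k) a x (xA (b, 0)) = C (x b) := by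
  unfold piA xA
  rw [aeval_X, Sum.elim_inl]
  rfl

theorem b07_xAs (b : Fin n) (l : Fin k) : piA a x (xA (b, l.succ)) = X (b, l) := by
  unfold piA xA
  rw [aeval_X, Sum.elim_inl]
  rfl

theorem b07_aA (α : Idx n d) : piA (k := k) a x (aA α) = C (a α) := by
  unfold piA aA
  rw [aeval_X, Sum.elim_inr]

theorem b07_map_vA (b : Fin n) :
    Polynomial.mapAlgHom (piA a x) (vA b : Polynomial (AA n d k)) = vF b := by
  ext1 l
  rw [Polynomial.coe_mapAlgHom, Polynomial.coeff_map]
  change piA a x ((vA b : Polynomial (AA n d k)).coeff l) = _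
  unfold vA vF
  rw [Polynomial.coeff_sub, coeff_arc, Polynomial.finsetSum_coeff]
  simp only [Polynomial.coeff_C_mul, Polynomial.coeff_X_pow, mul_ite, mul_one, mul_zero,
    Polynomial.coeff_C]
  rcases Nat.eq_zero_or_pos l with rfl | hl
  · rw [dif_pos (Nat.succ_pos k), if_pos rfl]
    have h1 : (⟨0, Nat.succ_pos k⟩ : Fin (k + 1)) = 0 := rfl
    rw [h1, sub_self, map_zero]
    symm
    apply Finset.sum_eq_zero
    intro i _
    rw [if_neg (by omega)]
  · obtain ⟨l, rfl⟩ : ∃ l', l = l' + 1 := ⟨l - 1, by omega⟩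
    rw [if_neg (by omega), sub_zero]
    split_ifs with h1
    · have hl' : l < k := by omega
      have h2 : (⟨l + 1, h1⟩ : Fin (k + 1)) = (⟨l, hl'⟩ : Fin k).succ := rfl
      rw [h2]
      rw [b07_xAs, Finset.sum_eq_single (⟨l, hl'⟩ : Fin k)]
      · rw [if_pos rfl]
      · intro c _ hc
        rw [if_neg]
        intro e
        exact hc (Fin.ext (by simp at e; exact e.symm))
      · intro h'
        exact absurd (Finset.mem_univ _) h'
    · rw [map_zero]
      symm
      apply Finset.sum_eq_zero
      intro i _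
      have := i.2
      rw [if_neg (by omega)]

theorem map_hA (b0 : Fin n) (h : Polynomial ℂ) (l : ℕ) :
    piA a x ((hA b0 h : Polynomial (AA n d k)).coeff l) = (Polynomial.aeval (vF b0) h).coeff l := by
  have h1 : Polynomial.mapAlgHom (piA a x) (hA b0 h : Polynomial (AA n d k)) =
      Polynomial.aeval (vF b0) h := by
    unfold hA
    rw [← Polynomial.aeval_algHom_apply, b07_map_vA]
  rw [← h1, Polynomial.coe_mapAlgHom, Polynomial.coeff_map]
  rfl

theorem b07_trk {A : Type*} [CommRing A] (k : ℕ) (p : Polynomial A) (l : ℕ) (hl : l < k + 1) :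
    (trk k p).coeff l = p.coeff l := by
  unfold trk
  rw [Polynomial.finsetSum_coeff]
  simp only [Polynomial.coeff_C_mul, Polynomial.coeff_X_pow, mul_ite, mul_one, mul_zero]
  rw [Finset.sum_eq_single (⟨l, hl⟩ : Fin (k + 1))]
  · simp
  · intro c _ hc
    rw [if_neg]
    intro e
    exact hc (Fin.ext e.symm)
  · intro h'
    exact absurd (Finset.mem_univ _) h'

theorem b07_vF0 (b : Fin n) : (vF b : Polynomial (MvPolynomial (Fin n × Fin k) ℂ)).coeff 0 = 0 := by
  unfold vF
  rw [Polynomial.finsetSum_coeff]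
  apply Finset.sum_eq_zero
  intro i _
  simp [Polynomial.coeff_X_pow]

theorem b07_aeval0 (b : Fin n) (h : Polynomial ℂ) (h0 : h.coeff 0 = 0) :
    (Polynomial.aeval (vF b : Polynomial (MvPolynomial (Fin n × Fin k) ℂ)) h).coeff 0 = 0 := by
  obtain ⟨q, rfl⟩ := Polynomial.X_dvd_iff.2 h0
  rw [map_mul, Polynomial.aeval_X, Polynomial.mul_coeff_zero, b07_vF0, zero_mul]

theorem piA_VV (hM : MoveL a x b0 h ρ g) (G : AA n d k) :
    piA a x (VV g (lamB b0 h) G) = VF b0 h (piA a x G) := by
  induction G using MvPolynomial.induction_on with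
  | C c =>
    have h1 : VV g (lamB b0 h) (C c : AA n d k) = 0 := Derivation.map_algebraMap _ c
    have h2 : piA a x (C c : AA n d k) = C c := (piA a x).commutes c
    rw [h1, h2, map_zero]
    exact (Derivation.map_algebraMap (VF b0 h) c).symm
  | add p q hp hq => rw [map_add, map_add, hp, hq, map_add, map_add]
  | mul_X p s hp =>
    have hs : piA a x (VV g (lamB b0 h) (X s : AA n d k)) = VF b0 h (piA a x (X s)) := by
      rcases s with ⟨b, l⟩ | α
      · have e1 : (X (Sum.inl (b, l)) : AA n d k) = xA (b, l) := rfl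
        rw [e1, VV_xA]
        unfold lamB
        rw [b07_trk k _ _ l.2, map_hA]
        refine Fin.cases ?_ (fun l => ?_) l
        · rw [b07_xA0]
          have h1 : VF b0 h (C (x b) : MvPolynomial (Fin n × Fin k) ℂ) = 0 :=
            Derivation.map_algebraMap _ _
          rw [h1]
          exact b07_aeval0 b0 _ (hM.h0 b)
        · rw [b07_xAs]
          unfold VF
          rw [mkDerivation_X]
          rfl
      · have e1 : (X (Sum.inr α) : AA n d k) = aA α := rfl
        rw [e1, VV_aA, hM.g2, b07_aA]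
        exact (Derivation.map_algebraMap (VF b0 h) _).symm
    rw [Derivation.leibniz, map_add, smul_eq_mul, smul_eq_mul, map_mul, map_mul, hs, hp, map_mul,
      Derivation.leibniz, smul_eq_mul, smul_eq_mul]

theorem piA_iter (hM : MoveL a x b0 h ρ g) (G : AA n d k) (r : ℕ) :
    piA a x ((VV g (lamB b0 h))^[r] G) = (VF b0 h)^[r] (piA a x G) := by
  induction r with
  | zero => rfl
  | succ r ih => rw [Function.iterate_succ_apply', Function.iterate_succ_apply', piA_VV hM, ih]

theorem spec_linA (l : Fin n → ℂ) : spec a (linA n d k l) = linK k l := by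
  unfold linA linK
  rw [map_sum]
  refine Finset.sum_congr rfl fun b _ => ?_
  rw [map_mul, C10_spec_xA]
  congr 1
  exact (spec a).commutes _

theorem eval_spec (ξ : JV n k → ℂ) (G : AA n d k) :
    eval ξ (spec a G) = eval (fun p : Fin n × Fin k => ξ (p.1, p.2.succ)) (piA a (fun b => ξ (b, 0)) G) := by
  induction G using MvPolynomial.induction_on with
  | C c =>
    have h2 : piA a (fun b => ξ (b, 0)) (C c : AA n d k) = C c := (piA a _).commutes c
    have h3 : spec a (C c : AA n d k) = C c := (spec a).commutes c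
    rw [h2, h3, eval_C, eval_C]
  | add p q hp hq => simp only [map_add, hp, hq]
  | mul_X p s hp =>
    rw [map_mul, map_mul, map_mul, map_mul, hp]
    congr 1
    rcases s with ⟨b, l⟩ | α
    · have e1 : (X (Sum.inl (b, l)) : AA n d k) = xA (b, l) := rfl
      rw [e1, C10_spec_xA, eval_X]
      refine Fin.cases ?_ (fun l => ?_) l
      · rw [b07_xA0, eval_C]
      · rw [b07_xAs, eval_X]
    · have e1 : (X (Sum.inr α) : AA n d k) = aA α := rfl
      rw [e1, C10_spec_aA, b07_aA, eval_C, eval_C]

theorem LTy_spec {M m : ℕ} {G : AA n d k} (hG : LT M m G) : LTy a M m (spec a G) := by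
  unfold LT at hG
  unfold LTy
  induction hG using Submodule.span_induction with
  | zero => rw [map_zero]; exact Submodule.zero_mem _
  | add p q _ _ hp hq => rw [map_add]; exact Submodule.add_mem _ hp hq
  | smul c p _ hp => rw [map_smul]; exact Submodule.smul_mem _ _ hp
  | mem p hp =>
    obtain ⟨c, μ, j, lam, hc, hw, hj, rfl⟩ := hp
    -- the value of c
    obtain ⟨c', hc'⟩ : ∃ c' : ℂ, spec a c = C c' := by
      rw [c.as_sum, map_sum]
      have h1 : ∀ ν ∈ c.support, ∃ z : ℂ, spec (n := n) (r := k) a (monomial ν (coeff ν c)) = C z := by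
        intro ν hν
        refine ⟨coeff ν c * ∏ s ∈ ν.support, (Sum.elim (fun _ => 1) a s) ^ ν s, ?_⟩
        unfold spec
        rw [aeval_monomial, map_mul, map_prod]
        congr 1
        refine Finset.prod_congr rfl fun s hs => ?_
        rcases s with p | α
        · have := hc ν hν p
          rw [this]
          simp
        · simp
      choose! z hz using h1
      refine ⟨∑ ν ∈ c.support, z ν, ?_⟩
      rw [map_sum]
      exact Finset.sum_congr rfl hz
    have hmon : spec a (monomial (jm μ) (1 : ℂ) : AA n d k) = monomial μ 1 := by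
      unfold spec jm
      rw [aeval_monomial, map_one, one_mul, Finsupp.prod_mapDomain_index (fun _ => pow_zero _) (fun _ _ _ => pow_add _ _ _)]
      simp only [Sum.elim_inl]
      rw [monomial_eq, C_1, one_mul]
    have h1 : spec a (c * monomial (jm μ) 1 * uA 0 ^ (j + (m - ld lam)) *
        ∏ i : Fin k, uA ((i : ℕ) + 1) ^ lam i) = c' • (monomial μ 1 *
        uR a 0 ^ (j + (m - ld lam)) * ∏ i : Fin k, uR a ((i : ℕ) + 1) ^ lam i) := by
      rw [map_mul, map_mul, map_mul, map_pow, map_prod, hc', hmon, spec_uA]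
      simp only [map_pow, spec_uA]
      rw [smul_eq_C_mul]
      ring
    rw [h1]
    refine Submodule.smul_mem _ _ (Submodule.subset_span ⟨μ, j, lam, hw, ?_, rfl⟩)
    omega

end Pool.Agent.H53L
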