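import Pool.Agent.Lib.H53L.BD
import Pool.Agent.Lib.H89T.C11

set_option autoImplicit false

/-!
CHUNK B08 (M), H53L.  Iterated derivations and the leading form.
-/

open MvPolynomial

namespace Pool.Agent.H53L

open Pool.Agent.H89T Pool.Agent.H67T Pool.Agent.H53U Pool.Agent.H53V Pool.Agent.H44K


variable {σ : Type} [Fintype σ]

theorem b08_coeff (τ : σ → ℂ) (i : ℕ) (Q : MvPolynomial σ ℂ) :
    (eval₂ Polynomial.C (fun p => Polynomial.C (τ p) * Polynomial.X) Q).coeff i =
      eval τ (homogeneousComponent i Q) := by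
  classical
  induction Q using MvPolynomial.induction_on' with
  | monomial m c =>
    have h1 : eval₂ Polynomial.C (fun p => Polynomial.C (τ p) * Polynomial.X) (monomial m c) =
        Polynomial.C (c * m.prod fun p e => τ p ^ e) * Polynomial.X ^ m.degree := by
      rw [eval₂_monomial, map_mul, mul_assoc]
      congr 1
      rw [Finsupp.prod, Finsupp.prod, map_prod, Finsupp.degree_apply, ← Finset.prod_pow_eq_pow_sum,
        ← Finset.prod_mul_distrib]
      refine Finset.prod_congr rfl fun p _ => ?_
      rw [mul_pow, map_pow]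
    rw [h1, Polynomial.coeff_C_mul_X_pow]
    by_cases h : i = m.degree
    · rw [if_pos h, homogeneousComponent_of_mem (isHomogeneous_monomial c rfl), if_pos h,
        eval_monomial]
    · rw [if_neg h, homogeneousComponent_of_mem (isHomogeneous_monomial c rfl), if_neg h, map_zero]
  | add p q hp hq =>
    rw [eval₂_add, Polynomial.coeff_add, map_add, map_add, hp, hq]

theorem b08_shift (y τ : σ → ℂ) (P : MvPolynomial σ ℂ) :
    eval₂ Polynomial.C (fun p => Polynomial.C (τ p) * Polynomial.X)
        (aeval (fun i => X i + C (y i) : σ → MvPolynomial σ ℂ) P) =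
      eval₂ Polynomial.C (fun p => Polynomial.C (y p) + Polynomial.C (τ p) * Polynomial.X) P := by
  induction P using MvPolynomial.induction_on with
  | C c => simp
  | add p q hp hq => rw [map_add, eval₂_add, eval₂_add, hp, hq]
  | mul_X p i hp =>
    rw [map_mul, eval₂_mul, eval₂_mul, hp, aeval_X, eval₂_X, eval₂_add, eval₂_X, eval₂_C, add_comm]

/-- If all the coefficients of order less than `r` of `P` along all the lines through `y` vanish then `P ∈ mI y ^ r`.
PROOF.  (Lib/H89T/Slant.lean: `Slant.mI y = RingHom.ker (eval y)`.)  Shift to `y = 0`: `P' = aeval (fun i => X i + C (y i)) P`; the coefficient of order `i` of the line through `τ` is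
`eval τ (homogeneousComponent i P')`; so the homogeneous components of degree less than `r` vanish (`MvPolynomial.funext`), every monomial of `P'` has degree at least `r`, and `P` is a combination of
products of at least `r` factors `X i - C (y i) ∈ mI y`. -/
theorem mem_mI_pow {y : σ → ℂ} {P : MvPolynomial σ ℂ} {r : ℕ}
    (h : ∀ τ : σ → ℂ, ∀ i < r,
      (eval₂ Polynomial.C (fun p => Polynomial.C (y p) + Polynomial.C (τ p) * Polynomial.X) P).coeff i = 0) :
    P ∈ Slant.mI y ^ r := by
  classical
  obtain ⟨P', hP'⟩ : ∃ P', P' = aeval (fun i => X i + C (y i) : σ → MvPolynomial σ ℂ) P := ⟨_, rfl⟩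
  have h1 : ∀ i < r, homogeneousComponent i P' = 0 := by
    intro i hi
    refine MvPolynomial.funext fun τ => ?_
    rw [← b08_coeff, hP', b08_shift, h τ i hi, map_zero]
  have h2 : ∀ m : σ →₀ ℕ, m.degree < r → coeff m P' = 0 := by
    intro m hm
    have h3 := congrArg (coeff m) (h1 m.degree hm)
    rw [coeff_homogeneousComponent, if_pos rfl, coeff_zero] at h3
    exact h3
  have h3 : P = aeval (fun i => X i - C (y i) : σ → MvPolynomial σ ℂ) P' := by
    rw [hP']
    have h4 : (aeval (fun i => X i - C (y i) : σ → MvPolynomial σ ℂ)).comp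
        (aeval (fun i => X i + C (y i) : σ → MvPolynomial σ ℂ)) = AlgHom.id ℂ _ := by
      refine MvPolynomial.algHom_ext fun i => ?_
      simp [AlgHom.comp_apply, aeval_X, ← MvPolynomial.algebraMap_eq]
    exact (DFunLike.congr_fun h4 P).symm
  rw [h3, MvPolynomial.aeval_def, MvPolynomial.eval₂_eq]
  refine Ideal.sum_mem _ fun m hm => Ideal.mul_mem_left _ _ ?_
  have h5 : r ≤ m.degree := by
    by_contra hlt
    exact (mem_support_iff.1 hm) (h2 m (not_le.1 hlt))
  have h6 : (∏ i ∈ m.support, (X i - C (y i) : MvPolynomial σ ℂ) ^ m i) ∈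
      Slant.mI y ^ m.degree := by
    rw [Finsupp.degree_apply, ← Finset.prod_pow_eq_pow_sum]
    exact Ideal.prod_mem_prod fun i _ => Ideal.pow_mem_pow (Slant.X_sub_mem y i) _
  exact Ideal.pow_le_pow_right h5 h6

/-- PROOF.  `Slant.deriv_mem_pow`, iterated: `V^[r] (mI ^ (r + 1)) ⊆ mI`. -/
theorem iter_mem (V : Derivation ℂ (MvPolynomial σ ℂ) (MvPolynomial σ ℂ)) {y : σ → ℂ} {P : MvPolynomial σ ℂ} {r s : ℕ}
    (h : P ∈ Slant.mI y ^ (r + s)) : V^[r] P ∈ Slant.mI y ^ s := by
  induction r generalizing P with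
  | zero => simpa using h
  | succ r ih =>
    rw [Function.iterate_succ_apply]
    refine ih (Slant.deriv_mem_pow V y (r + s) ?_)
    rw [show r + s + 1 = r + 1 + s by ring]
    exact h

/-- PROOF.  Induction on `r`, all `P`.  For `P ∈ mI ^ (r + 1)`: `V P - V' P = ∑ i, (V (X i) - V' (X i)) * pderiv i P` (`Slant.deriv_eq_sum` or `mkDerivation`-type formula), `V (X i) - V' (X i) ∈ mI`,
`pderiv i P ∈ mI ^ r` (`Slant.deriv_mem_pow`), so the difference is in `mI ^ (r + 1)` and `iter_mem` gives that `V^[r]` of it has value `0`; `V^[r] (V' P)` and `V'^[r] (V' P)` have the same value by induction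
(`V' P ∈ mI ^ r`). -/
theorem iter_congr (V V' : Derivation ℂ (MvPolynomial σ ℂ) (MvPolynomial σ ℂ)) {y : σ → ℂ}
    (hV : ∀ i, eval y (V (X i)) = eval y (V' (X i))) (r : ℕ) {P : MvPolynomial σ ℂ}
    (hP : P ∈ Slant.mI y ^ r) : eval y (V^[r] P) = eval y (V'^[r] P) := by
  induction r generalizing P with
  | zero => rfl
  | succ r ih =>
    rw [Function.iterate_succ_apply, Function.iterate_succ_apply]
    have h1 : V P - V' P ∈ Slant.mI y ^ (r + 1) := by
      rw [Slant.deriv_eq_sum V P, Slant.deriv_eq_sum V' P, ← Finset.sum_sub_distrib]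
      refine Ideal.sum_mem _ fun i _ => ?_
      rw [← mul_sub, pow_succ]
      refine Ideal.mul_mem_mul (Slant.deriv_mem_pow _ y r hP) ?_
      rw [Slant.mem_mI, map_sub, hV, sub_self]
    have h2 := iter_mem V (r := r) (s := 1) h1
    rw [pow_one, Slant.mem_mI, iterate_map_sub, map_sub, sub_eq_zero] at h2
    rw [h2]
    exact ih (Slant.deriv_mem_pow V' y r hP)

/-- PROOF.  For the constant field `V' = mkDerivation (fun i => C (τ i))`: `derivative (P (y + τ X)) = (V' P) (y + τ X)` (`induction_on P`), so `(derivative^[r] (P (y + τ X))).coeff 0 =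
eval y (V'^[r] P)`, and `(derivative^[r] p).coeff 0 = r! * p.coeff r` (`Polynomial.coeff_iterate_derivative`, `Nat.descFactorial_self`). -/
theorem iter_const (τ y : σ → ℂ) (r : ℕ) (P : MvPolynomial σ ℂ) :
    eval y ((mkDerivation ℂ fun i => C (τ i) : Derivation ℂ (MvPolynomial σ ℂ) (MvPolynomial σ ℂ))^[r] P) =
      (r.factorial : ℂ) *
        (eval₂ Polynomial.C (fun p => Polynomial.C (y p) + Polynomial.C (τ p) * Polynomial.X) P).coeff r := by
  have h1 : ∀ Q : MvPolynomial σ ℂ,
      eval₂ Polynomial.C (fun p => Polynomial.C (y p) + Polynomial.C (τ p) * Polynomial.X)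
        ((mkDerivation ℂ fun i => C (τ i) : Derivation ℂ (MvPolynomial σ ℂ) (MvPolynomial σ ℂ)) Q) =
      Polynomial.derivative
        (eval₂ Polynomial.C (fun p => Polynomial.C (y p) + Polynomial.C (τ p) * Polynomial.X) Q) := by
    intro Q
    induction Q using MvPolynomial.induction_on with
    | C c => simp
    | add p q hp hq => rw [map_add, eval₂_add, eval₂_add, hp, hq, map_add]
    | mul_X p i hp =>
      rw [Derivation.leibniz, smul_eq_mul, smul_eq_mul, eval₂_add, eval₂_mul, eval₂_mul, hp,
        mkDerivation_X, eval₂_C, eval₂_X, eval₂_mul, eval₂_X, Polynomial.derivative_mul]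
      simp only [Polynomial.derivative_add, Polynomial.derivative_C, Polynomial.derivative_mul,
        Polynomial.derivative_X, zero_mul, zero_add, mul_one]
      ring
  have h2 : ∀ (s : ℕ) (Q : MvPolynomial σ ℂ),
      eval₂ Polynomial.C (fun p => Polynomial.C (y p) + Polynomial.C (τ p) * Polynomial.X)
        ((mkDerivation ℂ fun i => C (τ i) : Derivation ℂ (MvPolynomial σ ℂ) (MvPolynomial σ ℂ))^[s] Q) =
      Polynomial.derivative^[s]
        (eval₂ Polynomial.C (fun p => Polynomial.C (y p) + Polynomial.C (τ p) * Polynomial.X) Q) := by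
    intro s
    induction s with
    | zero => intro Q; rfl
    | succ s ih =>
      intro Q
      rw [Function.iterate_succ_apply, Function.iterate_succ_apply, ih, h1]
  have h3 : ∀ Q : MvPolynomial σ ℂ, eval y Q =
      (eval₂ Polynomial.C (fun p => Polynomial.C (y p) + Polynomial.C (τ p) * Polynomial.X) Q).coeff 0 := by
    intro Q
    induction Q using MvPolynomial.induction_on with
    | C c => simp
    | add p q hp hq => rw [map_add, eval₂_add, Polynomial.coeff_add, hp, hq]
    | mul_X p i hp =>
      rw [map_mul, eval₂_mul, Polynomial.mul_coeff_zero, hp, eval_X, eval₂_X]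
      simp
  rw [h3, h2, Polynomial.coeff_iterate_derivative, zero_add, Nat.descFactorial_self, nsmul_eq_mul]

/-- PROOF.  `mem_mI_pow`, `iter_congr` with `V' = mkDerivation (C ∘ τ)`, `iter_const`. -/
theorem iter_value (V : Derivation ℂ (MvPolynomial σ ℂ) (MvPolynomial σ ℂ)) {y τ : σ → ℂ}
    (hV : ∀ i, eval y (V (X i)) = τ i) {r : ℕ} {P : MvPolynomial σ ℂ}
    (h : ∀ τ : σ → ℂ, ∀ i < r,
      (eval₂ Polynomial.C (fun p => Polynomial.C (y p) + Polynomial.C (τ p) * Polynomial.X) P).coeff i = 0) :
    eval y (V^[r] P) = (r.factorial : ℂ) *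
      (eval₂ Polynomial.C (fun p => Polynomial.C (y p) + Polynomial.C (τ p) * Polynomial.X) P).coeff r := by
  rw [← iter_const]
  refine iter_congr V _ (fun i => ?_) r (mem_mI_pow h)
  rw [hV, mkDerivation_X, eval_C]

end Pool.Agent.H53L
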