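import Pool.Agent.Lib.H53L.BD
import Pool.Agent.Lib.H78M.G10
import Pool.Agent.Lib.H78M.G11

set_option autoImplicit false

/-!
CHUNK B09 (M), H53L.  The choice of the combination, of the order and of the direction.
-/

open MvPolynomial

namespace Pool.Agent.H53L

open Pool.Agent.H89T Pool.Agent.H67T Pool.Agent.H53U Pool.Agent.H53V Pool.Agent.H44K


variable {n d k : ℕ}

/-- PROOF.  As `tau_eq` in H78M/G31: `tau (Fin n) k m μ = Nat.card {ν : Fin n × Fin k → ℕ // ..}`; bijection `Finsupp.equivFunOnFinite`, `Finsupp.weight_apply`, `Finsupp.degree_eq_sum`. -/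
theorem tau_ncard (n k m μ : ℕ) :
    Set.ncard {α : Fin n × Fin k →₀ ℕ | Finsupp.weight (fun p : Fin n × Fin k => (p.2 : ℕ) + 1) α = m ∧ μ ≤ α.degree} =
      tau (Fin n) k m μ := by
  rw [← Nat.card_coe_set_eq]
  unfold tau
  refine Nat.card_congr (Equiv.subtypeEquiv Finsupp.equivFunOnFinite fun α => ?_)
  rw [Set.mem_setOf_eq, Finsupp.weight_eq_sum, Finsupp.degree_eq_sum]
  simp only [Finsupp.equivFunOnFinite_apply, smul_eq_mul, mul_comm]

/-- the weight on the fibre -/
def b09w {n k : ℕ} (p : Fin n × Fin k) : ℕ := (p.2 : ℕ) + 1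

/-- the images of the jet variables -/
theorem b09_var (a : Idx n d → ℂ) (x : Fin n → ℂ) (p : JV n k) :
    IsWeightedHomogeneous (b09w (n := n) (k := k)) (piA a x (X (Sum.inl p) : AA n d k))
      (p.2 : ℕ) := by
  obtain ⟨b, l⟩ := p
  unfold piA
  rw [aeval_X]
  induction l using Fin.cases with
  | zero => exact isWeightedHomogeneous_C _ _
  | succ l =>
    have h1 := isWeightedHomogeneous_X ℂ (b09w (n := n) (k := k)) (b, l)
    have h2 : ((l.succ : Fin (k + 1)) : ℕ) = b09w (b, l) := by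
      rw [Fin.val_succ]
      rfl
    show IsWeightedHomogeneous (b09w (n := n) (k := k)) (X (b, l)) ((l.succ : Fin (k + 1)) : ℕ)
    rw [h2]
    exact h1

theorem b09_mono (a : Idx n d → ℂ) (x : Fin n → ℂ) (ν : JV n k ⊕ Idx n d →₀ ℕ) (r : ℂ) :
    IsWeightedHomogeneous (b09w (n := n) (k := k)) (piA a x (monomial ν r : AA n d k))
      (∑ p : JV n k, (p.2 : ℕ) * ν (Sum.inl p)) := by
  have h1 : (monomial ν r : AA n d k) = C r * ((∏ p : JV n k, X (Sum.inl p) ^ ν (Sum.inl p)) *
      ∏ α : Idx n d, X (Sum.inr α) ^ ν (Sum.inr α)) := by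
    rw [monomial_eq, Finsupp.prod_fintype _ _ (fun i => by rw [pow_zero]), Fintype.prod_sum_type]
  have h2 : ∀ c : ℂ, piA a x (C c : AA n d k) = C c := fun c => by
    rw [← algebraMap_eq, AlgHom.commutes, algebraMap_eq]
  have h3 : ∀ α : Idx n d, piA a x (X (Sum.inr α) : AA n d k) = C (a α) := fun α => by
    unfold piA
    rw [aeval_X, Sum.elim_inr]
  rw [h1, map_mul, map_mul, map_prod, map_prod, h2]
  have h4 : IsWeightedHomogeneous (b09w (n := n) (k := k))
      (∏ p : JV n k, piA a x ((X (Sum.inl p) : AA n d k) ^ ν (Sum.inl p)))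
      (∑ p : JV n k, (p.2 : ℕ) * ν (Sum.inl p)) := by
    refine IsWeightedHomogeneous.prod _ _ _ fun p _ => ?_
    rw [map_pow, mul_comm]
    exact (b09_var a x p).pow _
  have h5 : IsWeightedHomogeneous (b09w (n := n) (k := k))
      (∏ α : Idx n d, piA a x ((X (Sum.inr α) : AA n d k) ^ ν (Sum.inr α))) 0 := by
    have h6 := IsWeightedHomogeneous.prod (w := b09w (n := n) (k := k)) (Finset.univ)
      (fun α : Idx n d => piA a x ((X (Sum.inr α) : AA n d k) ^ ν (Sum.inr α))) (fun _ => 0)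
      (fun α _ => by
        show IsWeightedHomogeneous _ (piA a x ((X (Sum.inr α) : AA n d k) ^ ν (Sum.inr α))) 0
        rw [map_pow, h3, ← C_pow]
        exact isWeightedHomogeneous_C _ _)
    rw [Finset.sum_const_zero] at h6
    exact h6
  have h7 := (isWeightedHomogeneous_C (b09w (n := n) (k := k)) r).mul (h4.mul h5)
  rw [zero_add, add_zero] at h7
  exact h7

theorem b09_arc (a : Idx n d → ℂ) (x : Fin n → ℂ) (b : Fin n) :
    r4G (b09w (n := n) (k := k)) (arc (fun p : JV n k => piA a x (xA p : AA n d k)) b) := by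
  intro l
  rw [coeff_arc]
  split_ifs with h
  · exact b09_var a x (b, ⟨l, h⟩)
  · exact isWeightedHomogeneous_zero _ _ _

theorem b09_uA (a : Idx n d → ℂ) (x : Fin n → ℂ) (i : ℕ) :
    IsWeightedHomogeneous (b09w (n := n) (k := k)) (piA a x (uA i : AA n d k)) i := by
  have h1 := uu_map ((piA a x : AA n d k →ₐ[ℂ] MvPolynomial (Fin n × Fin k) ℂ) :
    AA n d k →+* MvPolynomial (Fin n × Fin k) ℂ) (aA : Idx n d → AA n d k) xA i
  have h2 : piA a x (uA i : AA n d k) = uu (fun α => C (a α))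
      (fun p : JV n k => piA a x (xA p : AA n d k)) i := by
    have h3 : (fun α : Idx n d => piA a x (aA α : AA n d k)) = fun α => C (a α) := by
      funext α
      unfold piA aA
      rw [aeval_X, Sum.elim_inr]
    rw [← h3]
    exact h1
  rw [h2]
  unfold uu
  have h4 : r4G (b09w (n := n) (k := k)) (Fx (fun α => C (a α))
      (fun p : JV n k => piA a x (xA p : AA n d k))) := by
    unfold Fx ev
    refine r4_sum _ _ fun α _ => ?_
    refine r4_mul (r4_C _ _) (r4_prod _ _ fun b _ => r4_pow (b09_arc a x b) _)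
  exact h4 i

/-- PROOF.  `piA` of a generator of `LTg M m`: `c ↦ constant`, `monomial (jm μ) 1 ↦` a constant times a monomial of weight `jw μ`, `uA 0 ↦` a constant, `uA (i + 1) ↦` a polynomial of weight `i + 1`: for the last,
`uA i = (Fx aA xA).coeff i`, `piA` of it is the coefficient of `Fx (C ∘ a) (arc of the images)`, and the images of the arcs have coefficients of weight `l` at `t ^ l` (a predicate on
polynomials closed under products and sums, as `r4G` in H53V/R4: `r4_mul`, `r4_pow`, `r4_prod`, `r4_sum`, `r4_C` can be used).  Sums: `IsWeightedHomogeneous` is a submodule. -/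
theorem piA_wh {M m : ℕ} (a : Idx n d → ℂ) (x : Fin n → ℂ) {G : AA n d k} (hG : LT M m G) :
    IsWeightedHomogeneous (fun p : Fin n × Fin k => (p.2 : ℕ) + 1) (piA a x G) m := by
  show IsWeightedHomogeneous (b09w (n := n) (k := k)) (piA a x G) m
  unfold LT at hG
  induction hG using Submodule.span_induction with
  | mem g hg =>
    obtain ⟨c, μ, j, lam, h1, h2, h3, rfl⟩ := hg
    have hc : IsWeightedHomogeneous (b09w (n := n) (k := k)) (piA a x c) 0 := by
      rw [c.as_sum, map_sum]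
      refine IsWeightedHomogeneous.sum _ _ _ fun ν hν => ?_
      have h4 := b09_mono a x ν (coeff ν c)
      have h5 : ∑ p : JV n k, (p.2 : ℕ) * ν (Sum.inl p) = 0 :=
        Finset.sum_eq_zero fun p _ => by rw [h1 ν hν p, mul_zero]
      rw [h5] at h4
      exact h4
    have hμ : IsWeightedHomogeneous (b09w (n := n) (k := k))
        (piA a x (monomial (jm μ) 1 : AA n d k)) (H53V.jw μ) := by
      have h4 := b09_mono a x (jm μ : JV n k ⊕ Idx n d →₀ ℕ) 1
      have h5 : ∑ p : JV n k, (p.2 : ℕ) * (jm μ : JV n k ⊕ Idx n d →₀ ℕ) (Sum.inl p) =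
          H53V.jw μ := by
        unfold H53V.jw
        refine Finset.sum_congr rfl fun p _ => ?_
        unfold jm
        rw [Finsupp.mapDomain_apply Sum.inl_injective]
      rw [h5] at h4
      exact h4
    have hl : IsWeightedHomogeneous (b09w (n := n) (k := k))
        (piA a x (∏ i : Fin k, (uA ((i : ℕ) + 1) : AA n d k) ^ lam i)) (lw lam) := by
      rw [map_prod]
      unfold lw
      refine IsWeightedHomogeneous.prod _ _ _ fun i _ => ?_
      rw [map_pow, mul_comm]
      exact (b09_uA a x _).pow _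
    have h0 := (b09_uA (k := k) a x 0).pow (j + (m - ld lam))
    have h6 := ((hc.mul hμ).mul h0).mul hl
    rw [smul_zero, add_zero, zero_add, h3] at h6
    rw [map_mul, map_mul, map_mul, map_pow]
    exact h6
  | zero => rw [map_zero]; exact isWeightedHomogeneous_zero _ _ _
  | add x y _ _ hx hy => rw [map_add]; exact hx.add hy
  | smul c x _ hx =>
    rw [map_smul, smul_eq_C_mul]
    exact hx.C_mul c

theorem b09_coeff {B : Type*} [CommRing B] (f : Fin k → B) (l : Fin k) :
    (∑ i : Fin k, Polynomial.C (f i) * Polynomial.X ^ ((i : ℕ) + 1)).coeff ((l : ℕ) + 1) = f l := by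
  rw [Polynomial.finsetSum_coeff, Finset.sum_eq_single l]
  · rw [Polynomial.coeff_C_mul, Polynomial.coeff_X_pow, if_pos rfl, mul_one]
  · intro i _ hi
    rw [Polynomial.coeff_C_mul, Polynomial.coeff_X_pow, if_neg, mul_zero]
    intro h
    exact hi (Fin.ext (by omega))
  · intro h
    exact absurd (Finset.mem_univ _) h

theorem b09_coeff0 {B : Type*} [CommRing B] (f : Fin k → B) :
    (∑ i : Fin k, Polynomial.C (f i) * Polynomial.X ^ ((i : ℕ) + 1)).coeff 0 = 0 := by
  rw [Polynomial.finsetSum_coeff]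
  refine Finset.sum_eq_zero fun i _ => ?_
  rw [Polynomial.coeff_C_mul, Polynomial.coeff_X_pow, if_neg (by omega), mul_zero]

/-- PROOF.  `exists_comp` (H78M/G11) with `r = 1`, `z = ∑ l : Fin k, C (y (b0, l)) X ^ (l + 1)` and `τ_b (t) = ∑ l, C (τ (b, l)) X ^ (l + 1)`; the value of `VF` on `X (b, l)` at `y` is the coefficient of `t ^ (l + 1)` of
`h b (z (t))` (`map` of `Polynomial.aeval (vF b0) (h b)` under `eval y`: `vF b0 ↦ z`; `Polynomial.comp`), `l + 1 ≤ k`. -/
theorem exists_hb (b0 : Fin n) (y τ : Fin n × Fin k → ℂ) (i0 : Fin k) (hi0 : (i0 : ℕ) = 0) (hy : y (b0, i0) ≠ 0) :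
    ∃ h : Fin n → Polynomial ℂ, (∀ b, (h b).coeff 0 = 0) ∧ ∀ p, eval y (VF b0 h (X p)) = τ p := by
  set z : Polynomial ℂ := ∑ l : Fin k, Polynomial.C (y (b0, l)) * Polynomial.X ^ ((l : ℕ) + 1)
    with hz
  have hz0 : z.coeff 0 = 0 := b09_coeff0 _
  have hz1 : z.coeff 1 ≠ 0 := by
    have h1 := b09_coeff (fun l : Fin k => y (b0, l)) i0
    rw [hi0, zero_add] at h1
    rw [hz, h1]
    exact hy
  have hτ : ∀ b : Fin n, (Polynomial.X : Polynomial ℂ) ^ 1 ∣
      ∑ l : Fin k, Polynomial.C (τ (b, l)) * Polynomial.X ^ ((l : ℕ) + 1) := by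
    intro b
    rw [pow_one, Polynomial.X_dvd_iff]
    exact b09_coeff0 _
  choose h hh1 hh2 using fun b : Fin n => H78M.exists_comp k 1 z _ hz0 hz1 (hτ b)
  refine ⟨h, fun b => ?_, fun p => ?_⟩
  · have h1 := hh1 b
    rwa [pow_one, Polynomial.X_dvd_iff] at h1
  · unfold VF
    rw [mkDerivation_X]
    let φ : Polynomial (MvPolynomial (Fin n × Fin k) ℂ) →ₐ[ℂ] Polynomial ℂ :=
      Polynomial.mapAlgHom (aeval y)
    have h1 : φ (vF b0) = z := by
      unfold vF
      rw [map_sum, hz]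
      refine Finset.sum_congr rfl fun l _ => ?_
      simp only [φ, Polynomial.coe_mapAlgHom, Polynomial.map_mul, Polynomial.map_C,
        Polynomial.map_pow, Polynomial.map_X]
      congr 2
      exact aeval_X y (b0, l)
    have h2 : φ (Polynomial.aeval (vF b0) (h p.1)) = (h p.1).comp z := by
      rw [← Polynomial.aeval_algHom_apply, h1]
      rfl
    have h3 : eval y ((Polynomial.aeval (vF b0) (h p.1)).coeff ((p.2 : ℕ) + 1)) =
        (φ (Polynomial.aeval (vF b0) (h p.1))).coeff ((p.2 : ℕ) + 1) := by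
      simp only [φ, Polynomial.coe_mapAlgHom, Polynomial.coeff_map]
      rfl
    rw [h3, h2]
    have h4 := (Polynomial.X_pow_dvd_iff.1 (hh2 p.1)) ((p.2 : ℕ) + 1)
      (by have := p.2.2; omega)
    rw [Polynomial.coeff_sub, b09_coeff, sub_eq_zero] at h4
    exact h4

/-- PROOF.  `exists_low_mult` (H78M/G10) for `Q t = piA a x (G t)` (`piA_wh`), `w p = p.2 + 1`, `p0 = (b0, i0)`, `tau_ncard`: `c, τ, i < μ` with a non-zero coefficient of order `i`.  Let `r` be the smallest `i` for which there is a `τ`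
with a non-zero coefficient (`Nat.find`), and `τ` this direction. -/
theorem exists_dir {M m μ r0 : ℕ} (a : Idx n d → ℂ) (x : Fin n → ℂ) (G : Fin r0 → AA n d k) (hG : ∀ i, LT M m (G i))
    (hlin : LinearIndependent ℂ fun i => piA a x (G i)) (hr : tau (Fin n) k m μ < r0)
    (b0 : Fin n) (y : Fin n × Fin k → ℂ) (i0 : Fin k) (hi0 : (i0 : ℕ) = 0) (hy : y (b0, i0) ≠ 0) :
    ∃ (c : Fin r0 → ℂ) (τ : Fin n × Fin k → ℂ) (r : ℕ), r < μ ∧
      (∀ τ' : Fin n × Fin k → ℂ, ∀ i < r,
        (eval₂ Polynomial.C (fun p => Polynomial.C (y p) + Polynomial.C (τ' p) * Polynomial.X)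
          (piA a x (∑ t, c t • G t))).coeff i = 0) ∧
      (eval₂ Polynomial.C (fun p => Polynomial.C (y p) + Polynomial.C (τ p) * Polynomial.X)
        (piA a x (∑ t, c t • G t))).coeff r ≠ 0 := by
  classical
  obtain ⟨c, τ, _, i, hi, hne⟩ := H78M.exists_low_mult (fun p : Fin n × Fin k => (p.2 : ℕ) + 1)
    (fun p => Nat.succ_le_succ (Nat.zero_le _)) (b0, i0) (by show (i0 : ℕ) + 1 = 1; rw [hi0])
    (fun t => piA a x (G t)) (fun t => piA_wh a x (hG t)) hlin (by rw [tau_ncard]; exact hr) y hy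
  have hsum : ∑ t, c t • piA a x (G t) = piA a x (∑ t, c t • G t) := by
    rw [map_sum]
    exact Finset.sum_congr rfl fun t _ => (map_smul _ _ _).symm
  rw [hsum] at hne
  have hex : ∃ i, ∃ τ : Fin n × Fin k → ℂ,
      (eval₂ Polynomial.C (fun p => Polynomial.C (y p) + Polynomial.C (τ p) * Polynomial.X)
        (piA a x (∑ t, c t • G t))).coeff i ≠ 0 := ⟨i, τ, hne⟩
  obtain ⟨τ1, hτ1⟩ := Nat.find_spec hex
  refine ⟨c, τ1, Nat.find hex, lt_of_le_of_lt (Nat.find_min' hex ⟨τ, hne⟩) hi, ?_, hτ1⟩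
  intro τ' i' hi'
  by_contra h
  exact Nat.find_min hex hi' ⟨τ', h⟩

end Pool.Agent.H53L
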