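import Pool.Agent.Lib.H53L.BD

set_option autoImplicit false

/-!
CHUNK B10 (M), H53L.  The maximal minor.
-/

open MvPolynomial

namespace Pool.Agent.H53L

open Pool.Agent.H89T Pool.Agent.H67T Pool.Agent.H53U Pool.Agent.H53V Pool.Agent.H44K


/-- PROOF.  The rows `i`, the columns `ν` in the union of the supports: the matrix of the coefficients has independent rows (`hv`), so it has an invertible `r × r` minor: e.g. the linear map `ℂ^r → (S → ℂ)` is injective, the
column space has dimension `r` (`Matrix.rank`), choose `r` independent columns (`exists_linearIndependent`...).  Conversely, if the determinant is not zero, a relation `∑ c_i v_i = 0` gives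
`vecMul c M = 0` (coefficients at the `ν j`), so `c = 0`. -/
theorem exists_minor {σ : Type*} {r : ℕ} (v : Fin r → MvPolynomial σ ℂ) (hv : LinearIndependent ℂ v) :
    ∃ ν : Fin r → σ →₀ ℕ, (Matrix.of fun i j => coeff (ν j) (v i)).det ≠ 0 := by
  classical
  have hspan : Submodule.span ℂ (Set.range fun (ν : σ →₀ ℕ) (i : Fin r) => coeff ν (v i)) = ⊤ := by
    by_contra hne
    obtain ⟨f, hf0, hf⟩ := Submodule.exists_le_ker_of_lt_top _ (lt_top_iff_ne_top.2 hne)
    apply hf0
    have h1 : ∀ ν : σ →₀ ℕ, f (fun i => coeff ν (v i)) = 0 := by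
      intro ν
      have h2 := hf (Submodule.subset_span ⟨ν, rfl⟩)
      exact h2
    have h2 : ∑ i, (f (Pi.single i 1)) • v i = 0 := by
      ext ν
      rw [coeff_sum, coeff_zero]
      have h3 := h1 ν
      have h4 : (fun i => coeff ν (v i)) = ∑ i : Fin r, (coeff ν (v i)) • (Pi.single i (1 : ℂ) : Fin r → ℂ) := by
        funext j
        rw [Finset.sum_apply, Finset.sum_eq_single j]
        · simp
        · intro b _ hb
          simp [Pi.single_eq_of_ne (Ne.symm hb)]
        · intro h; exact absurd (Finset.mem_univ _) h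
      rw [h4, map_sum] at h3
      rw [← h3]
      refine Finset.sum_congr rfl fun i _ => ?_
      rw [map_smul, coeff_smul, smul_eq_mul, smul_eq_mul, mul_comm]
    have h3 := Fintype.linearIndependent_iff.1 hv _ h2
    refine LinearMap.pi_ext' fun i => ?_
    refine LinearMap.ext_ring ?_
    simpa using h3 i
  obtain ⟨κ, a, ha, hsp, hli⟩ := exists_linearIndependent' ℂ
    (fun (ν : σ →₀ ℕ) (i : Fin r) => coeff ν (v i))
  rw [hspan] at hsp
  have hfin : Finite κ := hli.finite
  have := Fintype.ofFinite κ
  let b := Module.Basis.mk hli hsp.ge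
  have hcard : Fintype.card κ = r := by
    have h1 := Module.finrank_eq_card_basis b
    rw [Module.finrank_fin_fun] at h1
    exact h1.symm
  let e : Fin r ≃ κ := (Fintype.equivFinOfCardEq hcard).symm
  refine ⟨fun j => a (e j), ?_⟩
  have h2 : LinearIndependent ℂ (fun j : Fin r => (fun i : Fin r => coeff (a (e j)) (v i))) :=
    hli.comp e e.injective
  have h3 : LinearIndependent ℂ (Matrix.of fun i j => coeff (a (e j)) (v i)).col := h2
  rw [Matrix.linearIndependent_cols_iff_isUnit] at h3
  rw [Matrix.isUnit_iff_isUnit_det] at h3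
  exact h3.ne_zero

theorem indep_of_minor {σ : Type*} {r : ℕ} (v : Fin r → MvPolynomial σ ℂ) (ν : Fin r → σ →₀ ℕ)
    (h : (Matrix.of fun i j => coeff (ν j) (v i)).det ≠ 0) : LinearIndependent ℂ v := by
  classical
  rw [Fintype.linearIndependent_iff]
  intro c hc
  have h1 : Matrix.vecMul c (Matrix.of fun i j => coeff (ν j) (v i)) = 0 := by
    funext j
    have h2 := congrArg (coeff (ν j)) hc
    rw [coeff_sum, coeff_zero] at h2
    rw [Pi.zero_apply, ← h2, Matrix.vecMul, dotProduct]
    refine Finset.sum_congr rfl fun i _ => ?_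
    rw [coeff_smul, smul_eq_mul, Matrix.of_apply]
  have h2 := Matrix.eq_zero_of_vecMul_eq_zero h h1
  intro i
  rw [h2, Pi.zero_apply]

variable {n d k : ℕ}

/-- PROOF.  Algebra homomorphisms over `ℂ`; on the variables: `Fin.cases`, `map_C`, `eval_X`, `map_X`. -/
theorem map_piU (a : Idx n d → ℂ) (x : Fin n → ℂ) (G : AA n d k) :
    map (eval (Sum.elim x a)) (piU n d k G) = piA a x G := by
  induction G using MvPolynomial.induction_on with
  | C c =>
    rw [← MvPolynomial.algebraMap_eq, AlgHom.commutes, AlgHom.commutes,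
      MvPolynomial.algebraMap_apply, MvPolynomial.algebraMap_apply, map_C,
      MvPolynomial.algebraMap_eq, eval_C]
    simp [MvPolynomial.algebraMap_eq]
  | add p q hp hq => rw [map_add, map_add, map_add, hp, hq]
  | mul_X p i hp =>
    rw [map_mul, map_mul, map_mul, hp]
    refine congrArg (fun q => piA a x p * q) ?_
    rcases i with ⟨b, l⟩ | α
    · refine Fin.cases ?_ (fun l => ?_) l
      · simp [piU, piA]
      · simp [piU, piA]
    · simp [piU, piA]

/-- PROOF.  `exists_minor` at the given point, `W = det (coeff (ν j) (piU (G i)))`; `eval (Sum.elim x a) W = det (coeff (ν j) (piA a x (G i)))` (`RingHom.map_det`, `coeff_map`, `map_piU`); `indep_of_minor`. -/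
theorem exists_W {r : ℕ} (G : Fin r → AA n d k) (a0 : Idx n d → ℂ) (x0 : Fin n → ℂ)
    (h : LinearIndependent ℂ fun i => piA a0 x0 (G i)) :
    ∃ W : MvPolynomial (Fin n ⊕ Idx n d) ℂ, W ≠ 0 ∧ ∀ (a : Idx n d → ℂ) (x : Fin n → ℂ),
      eval (Sum.elim x a) W ≠ 0 → LinearIndependent ℂ fun i => piA a x (G i) := by
  obtain ⟨ν, hν⟩ := exists_minor _ h
  have key : ∀ (a : Idx n d → ℂ) (x : Fin n → ℂ),
      eval (Sum.elim x a) (Matrix.of fun i j => coeff (ν j) (piU n d k (G i))).det =
        (Matrix.of fun i j => coeff (ν j) (piA a x (G i))).det := by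
    intro a x
    rw [RingHom.map_det]
    refine congrArg Matrix.det ?_
    ext i j
    rw [RingHom.mapMatrix_apply, Matrix.map_apply, Matrix.of_apply, Matrix.of_apply, ← map_piU,
      coeff_map]
  refine ⟨(Matrix.of fun i j => coeff (ν j) (piU n d k (G i))).det, ?_, ?_⟩
  · intro h0
    apply hν
    rw [← key, h0, map_zero]
  · intro a x hW
    rw [key] at hW
    exact indep_of_minor _ ν hW

end Pool.Agent.H53L
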