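import Pool.Agent.Lib.H53L.B03
import Pool.Agent.Lib.H53L.B06
import Pool.Agent.Lib.H53L.B07
import Pool.Agent.Lib.H53L.B08
import Pool.Agent.Lib.H53L.B09
import Pool.Agent.Lib.H53L.B10

set_option autoImplicit false

/-!
CHUNK B11 (M), H53L.  Module B: assembly.
-/

open MvPolynomial

namespace Pool.Agent.H53L

open Pool.Agent.H89T Pool.Agent.H67T Pool.Agent.H53U Pool.Agent.H53V Pool.Agent.H44K


variable {n d k : ℕ}

/-- PROOF.  `(m, M, s, μ)` from `PropLog`; `AlgLog` with `M' = M + 2 k μ`, `m`, `s`.  Fix `l`; `G, H` from `PropLog`, `W` from `exists_W`.  Let `W (ξ_0, a) ≠ 0`, `ev a ξ_0 ≠ 0`, `ξ (b0, i) ≠ 0`, `(i : ℕ) = 1`.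
`y p = ξ (p.1, p.2.succ)`, `i0 = ⟨0, _⟩` (`1 ≤ k`), `y (b0, i0) = ξ (b0, 1) ≠ 0`.  `exists_dir` gives `c, τ, r < μ`; `Gc = ∑ c t • G t`, `Hc = ∑ c t • H t`: `LT M m` (spans), `linA ^ s * Gc = Hc`.  `exists_hb` gives `h`,
`exists_moveL` gives `ρ, g`.  `G' = spec a (V^[r] Gc)`, `H' = spec a (V^[r] Hc)`, `V = VV g (lamB b0 h)`: `LT_iter` (`M + 2 k r ≤ M + 2 k μ`: `LTy` is monotone in `M`: `Submodule.span_mono`), `LTy_spec`, `lin_iter`,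
`spec_linA`.  `eval ξ G' = eval y (piA a ξ_0 (V^[r] Gc)) = eval y ((VF b0 h)^[r] (piA a ξ_0 Gc))` (`eval_spec`, `piA_iter`) `= r! * coefficient ≠ 0` by `iter_value`. -/
theorem algLog_of_propLog' {q δ : ℕ} (hk : 1 ≤ k) (hkd : k ≤ d) (h : PropLog n k q δ d) : AlgLog n k q δ d := by
  classical
  obtain ⟨m, M, s, μ, hm, hq, hl⟩ := h
  refine ⟨M + 2 * k * μ, m, s, hm, ?_, fun l => ?_⟩
  · have h1 : M + 2 * k * μ + δ * m = M + δ * m + 2 * k * μ := by ring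
    rw [h1]
    exact hq
  obtain ⟨r0, G, H, hr, hG, hH, hGH, a0, x0, ha0, hlin⟩ := hl l
  obtain ⟨W, hW0, hW⟩ := exists_W G a0 x0 hlin
  refine ⟨W, hW0, fun a ξ hWξ hev hb => ?_⟩
  obtain ⟨b0, i, hi1, hξ⟩ := hb
  have hlin' := hW a (fun b => ξ (b, 0)) hWξ
  have hy0 : (fun p : Fin n × Fin k => ξ (p.1, p.2.succ)) (b0, ⟨0, hk⟩) ≠ 0 := by
    have h1 : i = (⟨0, hk⟩ : Fin k).succ := Fin.ext (by rw [hi1]; rfl)
    show ξ (b0, (⟨0, hk⟩ : Fin k).succ) ≠ 0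
    rw [← h1]
    exact hξ
  obtain ⟨c, τ, r, hrμ, hlow, hr1⟩ :=
    exists_dir a (fun b => ξ (b, 0)) G hG hlin' hr b0 (fun p => ξ (p.1, p.2.succ)) ⟨0, hk⟩ rfl hy0
  obtain ⟨h, h0, hh⟩ := exists_hb b0 (fun p => ξ (p.1, p.2.succ)) τ ⟨0, hk⟩ rfl hy0
  obtain ⟨ρ, g, hM⟩ := exists_moveL hk hkd a (fun b => ξ (b, 0)) hev b0 h h0
  have hGc : LT M m (∑ t, c t • G t) :=
    Submodule.sum_mem _ fun t _ => Submodule.smul_mem _ _ (hG t)
  have hHc : LT M m (∑ t, c t • H t) :=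
    Submodule.sum_mem _ fun t _ => Submodule.smul_mem _ _ (hH t)
  have hGHc : linA n d k l ^ s * (∑ t, c t • G t) = ∑ t, c t • H t := by
    rw [Finset.mul_sum]
    refine Finset.sum_congr rfl fun t _ => ?_
    rw [mul_smul_comm, hGH]
  have hmono : ∀ G' : AA n d k, LT (M + 2 * k * r) m G' → LT (M + 2 * k * μ) m G' := by
    intro G' hG'
    refine Submodule.span_mono ?_ hG'
    rintro _ ⟨c', μ', j, lam, h1, h2, h3, h4⟩
    refine ⟨c', μ', j, lam, h1, h2.trans ?_, h3, h4⟩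
    exact Nat.add_le_add_left (Nat.mul_le_mul_left _ hrμ.le) _
  refine ⟨spec a ((VV g (lamB b0 h))^[r] (∑ t, c t • G t)),
    spec a ((VV g (lamB b0 h))^[r] (∑ t, c t • H t)), ?_, ?_, ?_, ?_⟩
  · exact LTy_spec (hmono _ (LT_iter hM hGc r))
  · exact LTy_spec (hmono _ (LT_iter hM hHc r))
  · rw [← spec_linA (a := a) l, ← map_pow, ← map_mul, lin_iter hM l s hGHc r]
  · rw [eval_spec, piA_iter hM, iter_value (VF b0 h) hh hlow]
    exact mul_ne_zero (Nat.cast_ne_zero.2 (Nat.factorial_ne_zero r)) hr1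

end Pool.Agent.H53L
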