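import Pool.Agent.Lib.H53L.D0
import Pool.Agent.Lib.H89T.C10
import Pool.Agent.Lib.H78M.G16
import Pool.Agent.Lib.H53V.R6

set_option autoImplicit false

/-!
Module B of PROOF.md: definitions.
-/

open MvPolynomial

namespace Pool.Agent.H53L

open Pool.Agent.H89T Pool.Agent.H67T Pool.Agent.H53U Pool.Agent.H53V Pool.Agent.H44K


section Flat

variable {n d k : ℕ}

/-- `v_b (t) = x_b (t) - x_b`. -/
noncomputable def vA (b : Fin n) : Polynomial (AA n d k) := arc xA b - Polynomial.C (xA (b, 0))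

/-- `h (v_b (t))`. -/
noncomputable def hA (b : Fin n) (h : Polynomial ℂ) : Polynomial (AA n d k) := Polynomial.aeval (vA b) h

/-- `ρ (v (t))`. -/
noncomputable def rhA (ρ : MvPolynomial (Fin n) ℂ) : Polynomial (AA n d k) := aeval vA ρ

/-- The part of degree at most `k` in `t`. -/
noncomputable def trk {A : Type*} [CommRing A] (k : ℕ) (p : Polynomial A) : Polynomial A :=
  ∑ l : Fin (k + 1), Polynomial.C (p.coeff (l : ℕ)) * Polynomial.X ^ (l : ℕ)

/-- The arcs of the field of a move. -/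
noncomputable def lamB (b0 : Fin n) (h : Fin n → Polynomial ℂ) (b : Fin n) : Polynomial (AA n d k) :=
  trk k (hA b0 (h b))

/-- Polynomials in `a` and in the coordinates `x (b, 0)`, of degree at most `e` in `x`. -/
def X0D (e : ℕ) (g : AA n d k) : Prop :=
  ∀ ν ∈ g.support, (∀ p : JV n k, p.2 ≠ 0 → ν (Sum.inl p) = 0) ∧ ∑ b : Fin n, ν (Sum.inl (b, 0)) ≤ e

/-- The data of a move at the point `(a, x)`: `a_α ↦ g α`, `v_b (t) ↦ h_b (v_(b0) (t))`, `u (t) ↦ ρ (v (t)) u (t)`. -/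
structure MoveL (a : Idx n d → ℂ) (x : Fin n → ℂ) (b0 : Fin n) (h : Fin n → Polynomial ℂ)
    (ρ : MvPolynomial (Fin n) ℂ) (g : Idx n d → AA n d k) : Prop where
  h0 : ∀ b, (h b).coeff 0 = 0
  g1 : ∀ α, X0D (2 * k) (g α)
  g2 : ∀ α, piA a x (g α) = 0
  g3 : (Polynomial.X : Polynomial (AA n d k)) ^ (k + 1) ∣ EV g (lamB b0 h) - rhA ρ * Fx aA xA

/-- `jw + lw = w`, `wt + lw ≤ W`, `D` factors `u`. -/
def HLg (n d k w W D : ℕ) : Set (AA n d k) :=
  {g | ∃ (c : AA n d k) (μ : JV n k →₀ ℕ) (i : ℕ) (lam : Fin k → ℕ),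
    (∀ ν ∈ c.support, ∀ p : JV n k, ν (Sum.inl p) = 0) ∧
    H53V.jw μ + lw lam = w ∧ wt μ + lw lam ≤ W ∧ i + ld lam = D ∧
    g = c * monomial (jm μ) 1 * uA 0 ^ i * ∏ i : Fin k, uA ((i : ℕ) + 1) ^ lam i}

/-- The span of these elements. -/
def HL (w W D : ℕ) (g : AA n d k) : Prop := g ∈ Submodule.span ℂ (HLg n d k w W D)

end Flat

section Fib

variable {n k : ℕ}

/-- `v_b (t)` on the fibre. -/
noncomputable def vF (b : Fin n) : Polynomial (MvPolynomial (Fin n × Fin k) ℂ) :=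
  ∑ l : Fin k, Polynomial.C (X (b, l)) * Polynomial.X ^ ((l : ℕ) + 1)

/-- The field on the fibre. -/
noncomputable def VF (b0 : Fin n) (h : Fin n → Polynomial ℂ) :
    Derivation ℂ (MvPolynomial (Fin n × Fin k) ℂ) (MvPolynomial (Fin n × Fin k) ℂ) :=
  mkDerivation ℂ fun p : Fin n × Fin k => (Polynomial.aeval (vF b0) (h p.1)).coeff ((p.2 : ℕ) + 1)

/-- The restriction to the fibres, over the ring of the base points. -/
noncomputable def piU (n d k : ℕ) :
    AA n d k →ₐ[ℂ] MvPolynomial (Fin n × Fin k) (MvPolynomial (Fin n ⊕ Idx n d) ℂ) :=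
  aeval (Sum.elim (fun p : JV n k =>
    Fin.cases (motive := fun _ => MvPolynomial (Fin n × Fin k) (MvPolynomial (Fin n ⊕ Idx n d) ℂ))
      (C (X (Sum.inl p.1))) (fun l => X (p.1, l)) p.2)
    fun α => C (X (Sum.inr α)))

end Fib

end Pool.Agent.H53L
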