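import Pool.Agent.Lib.H53L.B11

set_option autoImplicit false

/-!
H53L, module B: moves.
-/

open MvPolynomial

namespace Pool.Agent.H53L

open Pool.Agent.H89T Pool.Agent.H67T Pool.Agent.H53U Pool.Agent.H53V Pool.Agent.H44K

/-- MODULE B. -/
theorem algLog_of_propLog {n k q δ d : ℕ} (hk : 1 ≤ k) (hkd : k ≤ d) (h : PropLog n k q δ d) :
    AlgLog n k q δ d := by
  exact algLog_of_propLog' hk hkd h

end Pool.Agent.H53L
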