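import Pool.Agent.Lib.H53L.CD

set_option autoImplicit false

/-!
H53L, chunk C1 (M): the functions `Ul`.
-/

open MvPolynomial Filter Topology

namespace Pool.Agent.H53L

open Pool.Agent.H89T Pool.Agent.H67T Pool.Agent.H53U

variable {y0 h : ℂ → ℂ} {d : ℕ}

/-- Chunk C1a (S).  Induction on `l` (as `eta_diff` in Lib/H89T/DC.lean, `diff_deriv`). -/
theorem Ul_diff (hy : Differentiable ℂ y0) (hh : Differentiable ℂ h) (l : ℕ) :
    Differentiable ℂ (Ul y0 h d l) := by
  induction l with
  | zero => exact hh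
  | succ l ih =>
    have h1 := diff_deriv ih
    have h2 := diff_deriv hy
    unfold Ul
    exact ((h1.mul hy).sub ((ih.const_mul _).mul h2)).div_const _

/-- Chunk C1b (M).  Copy of `iteratedDeriv_ch` in Lib/H89T/DC.lean, with `y0 ^ (d + l)` in the place of `y_c ^ (l + 1)`:
`(U / y0 ^ (d + l))' = (U' * y0 - (d + l) * U * y0') / y0 ^ (d + l + 1)`. -/
theorem Ul_eq (hy : Differentiable ℂ y0) (hh : Differentiable ℂ h) (l : ℕ) {z : ℂ}
    (hz : y0 z ≠ 0) :
    iteratedDeriv l (fun w => h w / y0 w ^ d) z / (l.factorial : ℂ) =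
      Ul y0 h d l z / y0 z ^ (d + l) := by
  induction l generalizing z with
  | zero =>
    simp [Ul]
  | succ l ih =>
    have hev : ∀ᶠ w in 𝓝 z, y0 w ≠ 0 := hy.continuous.continuousAt.eventually_ne hz
    have h1 : iteratedDeriv l (fun w => h w / y0 w ^ d) =ᶠ[𝓝 z]
        fun w => (l.factorial : ℂ) * (Ul y0 h d l w / y0 w ^ (d + l)) := by
      filter_upwards [hev] with w hw
      rw [← ih hw]
      have : (l.factorial : ℂ) ≠ 0 := by exact_mod_cast l.factorial_ne_zero
      field_simp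
    have hd1 : HasDerivAt (Ul y0 h d l) (deriv (Ul y0 h d l) z) z :=
      (Ul_diff hy hh l z).hasDerivAt
    have hd2 : HasDerivAt y0 (deriv y0 z) z := (hy z).hasDerivAt
    have hd3 := (hd2.pow (d + l))
    have hpow : y0 z ^ (d + l) ≠ 0 := pow_ne_zero _ hz
    have hd4 := (hd1.div hd3 hpow).const_mul (l.factorial : ℂ)
    rw [iteratedDeriv_succ, h1.deriv_eq]
    have hd5 : deriv (fun w => (l.factorial : ℂ) * (Ul y0 h d l w / y0 w ^ (d + l))) z = _ :=
      hd4.deriv
    simp only [Pi.pow_apply] at hd5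
    rw [hd5]
    have hf : (l.factorial : ℂ) ≠ 0 := by exact_mod_cast l.factorial_ne_zero
    have hl : ((l : ℂ) + 1) ≠ 0 := by exact_mod_cast Nat.succ_ne_zero l
    have hfs : ((l + 1).factorial : ℂ) = ((l : ℂ) + 1) * (l.factorial : ℂ) := by
      rw [Nat.factorial_succ]; push_cast; ring
    rw [hfs]
    simp only [Ul]
    have hP : ((d + l : ℕ) : ℂ) * y0 z ^ (d + l - 1) * y0 z = ((d : ℂ) + l) * y0 z ^ (d + l) := by
      rcases Nat.eq_zero_or_pos (d + l) with h0 | h0
      · have hd : d = 0 := by omega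
        have hl' : l = 0 := by omega
        subst hd; subst hl'
        simp
      · obtain ⟨m, hm⟩ : ∃ m, d + l = m + 1 := ⟨d + l - 1, by omega⟩
        rw [hm, Nat.add_sub_cancel, mul_assoc, ← pow_succ, ← hm]
        push_cast
        ring
    have hA : y0 z ^ (d + (l + 1)) = y0 z ^ (d + l) * y0 z := by rw [← add_assoc, pow_succ]
    rw [hA]
    generalize y0 z ^ (d + l) = A at hP hpow ⊢
    generalize ((d + l : ℕ) : ℂ) * y0 z ^ (d + l - 1) = P at hP ⊢
    rw [div_div, div_eq_div_iff (by positivity) (by positivity)]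
    have key : (deriv (Ul y0 h d l) z * A - Ul y0 h d l z * (P * deriv y0 z)) / A ^ 2 * (A * y0 z) =
        deriv (Ul y0 h d l) z * y0 z - ((d : ℂ) + l) * Ul y0 h d l z * deriv y0 z := by
      rw [div_mul_eq_mul_div, div_eq_iff (pow_ne_zero 2 hpow)]
      linear_combination (-Ul y0 h d l z * deriv y0 z * A) * hP
    rw [← key]
    ring

end Pool.Agent.H53L
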