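import Pool.Agent.Lib.H53L.CD

set_option autoImplicit false

/-!
H53L, chunk C10 (M): Jensen's formula and the lemma on the logarithmic derivative.
-/

open MvPolynomial Real MeasureTheory

namespace Pool.Agent.H53L

open Pool.Agent.H89T Pool.Agent.H67T Pool.Agent.H53U

variable {n d : ℕ}

/-- Chunk C10a (M).  Copy of the proof of `H89T.core` (Lib/H89T/DG.lean) with `Z` instead of `scriptQ O`, `b` instead of `k * rA`, `a` instead of `rA`, `c` instead of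
`(n + 1) * (n * dA + rA * dB)`, `L` instead of `max rA n`. -/
theorem coreL (D : CurveData n d) {a b c L e : ℕ} (ha : 1 ≤ a) {Z : ℂ → ℂ}
    (hZ : Differentiable ℂ Z) (hZ0 : ∃ z, Z z ≠ 0)
    (hord : ∀ (z : ℂ) (ν : ℕ), (ν : ℕ∞) ≤ analyticOrderAt D.Fy z →
      ((a * (ν - 1) : ℕ) : ℕ∞) ≤ analyticOrderAt Z z)
    {C₀ : ℝ} (hC₀ : 0 ≤ C₀)
    (hB : ∀ z, (∀ j, D.y z j ≠ 0) → D.Fy z ≠ 0 →
      ‖Z z‖ * ‖D.y z‖ ^ b ≤ C₀ * ‖D.Fy z‖ ^ a * ‖D.y z‖ ^ c * Lam D.y D.Fy d L z ^ e) :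
    ∃ C : ℝ, 0 ≤ C ∧ ∀ r R : ℝ, 1 ≤ r → r < R →
      (b : ℝ) * chi D.y r ≤ a * N1 D.Fy r + c * chi D.y r + C * err D.y r R := by
  classical
  obtain ⟨K₁, hK₁, hLam⟩ := DG_log_Lam D.y D.Fy d (L)
  have hQd := hZ
  have hQ0 := hZ0
  have hy := D.hy
  have hyd := hy.diff
  obtain ⟨A', hA'⟩ := D.hFle
  set A : ℝ := max 1 A' with hA
  have hA1 : 1 ≤ A := le_max_left _ _
  have hFA : ∀ z, ‖D.Fy z‖ ≤ A * ‖D.y z‖ ^ d := fun z =>
    (hA' z).trans (mul_le_mul_of_nonneg_right (le_max_right _ _) (by positivity))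
  have hyA : ∀ j z, ‖D.y z j‖ ≤ A * ‖D.y z‖ ^ 1 := by
    intro j z
    rw [pow_one]
    exact (norm_le_pi_norm (D.y z) j).trans (le_mul_of_one_le_left (norm_nonneg _) hA1)
  have hykA : ∀ j z, ‖D.y z j ^ d‖ ≤ A * ‖D.y z‖ ^ d := by
    intro j z
    rw [norm_pow]
    exact (pow_le_pow_left₀ (norm_nonneg _) (norm_le_pi_norm (D.y z) j) d).trans
      (le_mul_of_one_le_left (by positivity) hA1)
  have hykd : ∀ j, Differentiable ℂ fun z => D.y z j ^ d := fun j => (hyd j).fun_pow d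
  have hyk0 : ∀ j, ∃ z, D.y z j ^ d ≠ 0 := by
    intro j
    obtain ⟨z, hz⟩ := D.hy0 j
    exact ⟨z, pow_ne_zero _ hz⟩
  have hL1 := fun p : Fin (n + 1) × Fin n × Fin (L + 1) =>
    quo_avg hy (hyd (p.1.succAbove p.2.1)) (hyd p.1) (D.hy0 _) (D.hy0 _) hA1
      (hyA (p.1.succAbove p.2.1)) (hyA p.1) (p.2.2 : ℕ)
  have hL2 := fun p : Fin (n + 1) × Fin (L + 1) =>
    quo_avg hy D.hF (hykd p.1) D.hF0 (hyk0 p.1) hA1 hFA (hykA p.1) (p.2 : ℕ)
  choose C1 hC1 hC1' using hL1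
  choose C2 hC2 hC2' using hL2
  obtain ⟨K, hK⟩ := jensen_compare (k := a) (g := fun _ => D.Fy) (fun _ => D.hF)
    (fun _ => D.hF0) hQd hQ0 (by
      intro z m hm
      have : Nonempty (Fin a) := ⟨⟨0, ha⟩⟩
      obtain ⟨i, hi⟩ := Finite.exists_max m
      refine le_trans ?_ (hord z (m i) (hm i))
      have h1 : ∑ j, (m j - 1) ≤ a * (m i - 1) := by
        calc ∑ j, (m j - 1) ≤ ∑ _j : Fin a, (m i - 1) :=
              Finset.sum_le_sum fun j _ => Nat.sub_le_sub_right (hi j) 1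
          _ = a * (m i - 1) := by simp
      exact_mod_cast h1)
  set S : ℝ := (∑ p, C1 p) + ∑ p, C2 p with hS
  have hS0 : 0 ≤ S := add_nonneg (Finset.sum_nonneg fun p _ => hC1 p)
    (Finset.sum_nonneg fun p _ => hC2 p)
  have hlC : 0 ≤ log⁺ C₀ := posLog_nonneg
  have he0 : (0 : ℝ) ≤ e := Nat.cast_nonneg e
  refine ⟨|K| + log⁺ C₀ + e * (K₁ + S), by positivity, fun r R hr hrR => ?_⟩
  have hr0 : r ≠ 0 := by linarith
  have herr := NS2_err_ge D.y r R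
  -- the exceptional points
  set F : ℂ → ℂ := fun z => Z z * D.Fy z * ∏ j, D.y z j with hF
  have hFd : Differentiable ℂ F :=
    (hQd.mul D.hF).mul (Differentiable.fun_finsetProd fun j _ => hyd j)
  have hF0 : ∃ z, F z ≠ 0 := by
    by_contra hcon
    push Not at hcon
    have hne : ∀ {f : ℂ → ℂ}, Differentiable ℂ f → (∃ z, f z ≠ 0) →
        ∀ᶠ z in nhdsWithin (0 : ℂ) {0}ᶜ, f z ≠ 0 := by
      rintro f hf ⟨z₀, hz₀⟩
      have h1 := AnalyticOnNhd.preimage_zero_mem_codiscrete (fun z _ => hf.analyticAt z) hz₀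
      have h2 := mem_codiscrete.mp h1 0
      rw [Filter.disjoint_principal_right, compl_compl] at h2
      exact h2
    have h1 := hne hQd hQ0
    have h2 := hne D.hF D.hF0
    have h3 : ∀ᶠ z in nhdsWithin (0 : ℂ) {0}ᶜ, ∀ j, D.y z j ≠ 0 :=
      Filter.eventually_all.mpr fun j => hne (hyd j) (D.hy0 j)
    obtain ⟨z, hz1, hz2, hz3⟩ := (h1.and (h2.and h3)).exists
    have h4 := hcon z
    simp only [hF, mul_eq_zero, Finset.prod_eq_zero_iff, Finset.mem_univ, true_and] at h4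
    rcases h4 with (h4 | h4) | ⟨j, h4⟩
    · exact hz1 h4
    · exact hz2 h4
    · exact hz3 j h4
  -- averages
  have hAQ : NS2_Avg r (fun z => log ‖Z z‖)
      (circleAverage (fun z => log ‖Z z‖) 0 r) := ⟨NS2_int_log hQd r, rfl⟩
  have hAF : NS2_Avg r (fun z => log ‖D.Fy z‖)
      (circleAverage (fun z => log ‖D.Fy z‖) 0 r) := ⟨NS2_int_log D.hF r, rfl⟩
  have hAy : NS2_Avg r (fun z => log ‖D.y z‖) (chi D.y r) := ⟨NS2_int_log_y hy r, rfl⟩
  have hA1' : ∀ p : Fin (n + 1) × Fin n × Fin (L + 1), NS2_Avg r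
      (fun z => log⁺ ‖iteratedDeriv (p.2.2 : ℕ)
        (fun w => D.y w (p.1.succAbove p.2.1) / D.y w p.1) z /
          (D.y z (p.1.succAbove p.2.1) / D.y z p.1)‖)
      (circleAverage (fun z => log⁺ ‖iteratedDeriv (p.2.2 : ℕ)
        (fun w => D.y w (p.1.succAbove p.2.1) / D.y w p.1) z /
          (D.y z (p.1.succAbove p.2.1) / D.y z p.1)‖) 0 r) := fun p =>
    ⟨circleIntegrable_quo (hyd (p.1.succAbove p.2.1)) (hyd p.1) (D.hy0 _) _ r, rfl⟩
  have hA2' : ∀ p : Fin (n + 1) × Fin (L + 1), NS2_Avg r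
      (fun z => log⁺ ‖iteratedDeriv (p.2 : ℕ) (fun w => D.Fy w / D.y w p.1 ^ d) z /
        (D.Fy z / D.y z p.1 ^ d)‖)
      (circleAverage (fun z => log⁺ ‖iteratedDeriv (p.2 : ℕ)
        (fun w => D.Fy w / D.y w p.1 ^ d) z / (D.Fy z / D.y z p.1 ^ d)‖) 0 r) := fun p =>
    ⟨circleIntegrable_quo D.hF (hykd p.1) (hyk0 p.1) _ r, rfl⟩
  have hmain := NS2_mono hr0 (NS2_add hAQ (NS2_mul ((b : ℕ) : ℝ) hAy))
    (NS2_add (NS2_add (NS2_add (NS2_const r (log⁺ C₀)) (NS2_mul (a : ℝ) hAF))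
      (NS2_mul ((c : ℕ) : ℝ) hAy)) (NS2_mul (e : ℝ)
      (NS2_add (NS2_const r K₁) (NS2_add (NS2_sum Finset.univ fun p _ => hA1' p)
        (NS2_sum Finset.univ fun p _ => hA2' p))))) hFd hF0 (by
      intro z hz
      have hz' : Z z ≠ 0 ∧ D.Fy z ≠ 0 ∧ ∀ j, D.y z j ≠ 0 := by
        simp only [hF, ne_eq, mul_eq_zero, Finset.prod_eq_zero_iff, Finset.mem_univ, true_and,
          not_or, not_exists] at hz
        exact ⟨hz.1.1, hz.1.2, hz.2⟩
      obtain ⟨hzQ, hzF, hzy⟩ := hz'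
      have hy0 : 0 < ‖D.y z‖ := norm_pos_iff.2 (hy.ne_zero z)
      have hQ0' : 0 < ‖Z z‖ := norm_pos_iff.2 hzQ
      have hF0' : 0 < ‖D.Fy z‖ := norm_pos_iff.2 hzF
      have hLam1 : 1 ≤ Lam D.y D.Fy d (L) z := one_le_Lam _ _ _ _ _
      have hLam0 : 0 < Lam D.y D.Fy d (L) z := by linarith
      have h1 := hB z hzy hzF
      have hC1 : (0 : ℝ) < max 1 C₀ := lt_of_lt_of_le one_pos (le_max_left _ _)
      have h2 : ‖Z z‖ * ‖D.y z‖ ^ (b) ≤ max 1 C₀ * ‖D.Fy z‖ ^ a *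
          ‖D.y z‖ ^ (c) * Lam D.y D.Fy d (L) z ^ e := by
        refine h1.trans ?_
        have h3 : C₀ ≤ max 1 C₀ := le_max_right _ _
        have h4 : 0 ≤ ‖D.Fy z‖ ^ a * (‖D.y z‖ ^ (c) *
          Lam D.y D.Fy d (L) z ^ e) := by positivity
        have h5 := mul_le_mul_of_nonneg_right h3 h4
        calc C₀ * ‖D.Fy z‖ ^ a * ‖D.y z‖ ^ (c) *
              Lam D.y D.Fy d (L) z ^ e = C₀ * (‖D.Fy z‖ ^ a *
              (‖D.y z‖ ^ (c) *
              Lam D.y D.Fy d (L) z ^ e)) := by ring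
          _ ≤ _ := h5
          _ = _ := by ring
      have h3 := Real.log_le_log (by positivity) h2
      rw [Real.log_mul hQ0'.ne' (by positivity), Real.log_pow,
        Real.log_mul (by positivity) (by positivity), Real.log_mul (by positivity) (by positivity),
        Real.log_mul (by positivity) (by positivity), Real.log_pow, Real.log_pow, Real.log_pow,
        ← posLog_eq_log_max_one hC₀] at h3
      have h4 := mul_le_mul_of_nonneg_left (hLam z) he0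
      linarith)
  have hJ := hK r hr
  simp only [Finset.sum_const, Finset.card_univ, Fintype.card_fin, nsmul_eq_mul] at hJ
  have hsum1 : (∑ p : Fin (n + 1) × Fin n × Fin (L + 1),
      circleAverage (fun z => log⁺ ‖iteratedDeriv (p.2.2 : ℕ)
        (fun w => D.y w (p.1.succAbove p.2.1) / D.y w p.1) z /
          (D.y z (p.1.succAbove p.2.1) / D.y z p.1)‖) 0 r) ≤ (∑ p, C1 p) * err D.y r R := by
    rw [Finset.sum_mul]
    exact Finset.sum_le_sum fun p _ => hC1' p r R hr hrR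
  have hsum2 : (∑ p : Fin (n + 1) × Fin (L + 1),
      circleAverage (fun z => log⁺ ‖iteratedDeriv (p.2 : ℕ)
        (fun w => D.Fy w / D.y w p.1 ^ d) z / (D.Fy z / D.y z p.1 ^ d)‖) 0 r) ≤
      (∑ p, C2 p) * err D.y r R := by
    rw [Finset.sum_mul]
    exact Finset.sum_le_sum fun p _ => hC2' p r R hr hrR
  have e1 : (e : ℝ) * (K₁ + ((∑ p : Fin (n + 1) × Fin n × Fin (L + 1),
      circleAverage (fun z => log⁺ ‖iteratedDeriv (p.2.2 : ℕ)
        (fun w => D.y w (p.1.succAbove p.2.1) / D.y w p.1) z /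
          (D.y z (p.1.succAbove p.2.1) / D.y z p.1)‖) 0 r) +
      ∑ p : Fin (n + 1) × Fin (L + 1),
      circleAverage (fun z => log⁺ ‖iteratedDeriv (p.2 : ℕ)
        (fun w => D.Fy w / D.y w p.1 ^ d) z / (D.Fy z / D.y z p.1 ^ d)‖) 0 r)) ≤
      e * (K₁ * err D.y r R + S * err D.y r R) := by
    refine mul_le_mul_of_nonneg_left ?_ he0
    have h1 : K₁ ≤ K₁ * err D.y r R := le_mul_of_one_le_right hK₁ herr
    rw [hS]
    linarith
  have e2 : |K| ≤ |K| * err D.y r R := le_mul_of_one_le_right (abs_nonneg _) herr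
  have e3 : log⁺ C₀ ≤ log⁺ C₀ * err D.y r R := le_mul_of_one_le_right hlC herr
  have e4 := le_abs_self K
  push_cast at hmain
  nlinarith [hmain, hJ, e1, e2, e3, e4]

/-- Chunk C10b (S/M).  As `core_smt` in Lib/H89T/DG.lean: `absorb` (Lib/H89T/DH.lean) with `a := b - c`, `b := a * δ + 1 / 2`, `N r := a * N1 ..`; divide by `a`. -/
theorem smtL (D : CurveData n d) {a b c δ : ℕ} (ha : 1 ≤ a) (hab : a * δ + c + 1 ≤ b)
    (h : ∃ C : ℝ, 0 ≤ C ∧ ∀ r R : ℝ, 1 ≤ r → r < R →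
      (b : ℝ) * chi D.y r ≤ a * N1 D.Fy r + c * chi D.y r + C * err D.y r R) :
    ∃ (C : ℝ) (E : Set ℝ), volume E < ⊤ ∧ ∀ r : ℝ, 2 ≤ r → r ∉ E →
      ((δ : ℝ) + 1 / (2 * a)) * chi D.y r ≤ N1 D.Fy r + C * log r := by
  obtain ⟨C, hC, hcore⟩ := h
  have ha' : (1 : ℝ) ≤ a := by exact_mod_cast ha
  have hab' : (a : ℝ) * δ + c + 1 ≤ b := by exact_mod_cast hab
  have ha0 : (0 : ℝ) < a := by linarith
  obtain ⟨C', E, hE, hmain⟩ := absorb (a := (b : ℝ) - c) (b := (a : ℝ) * δ + 1 / 2)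
    (N := fun r => (a : ℝ) * N1 D.Fy r) D.hy (by linarith) hC
    (fun r R hr hrR => by
      have := hcore r R hr hrR
      linarith)
  refine ⟨C' / a, E, hE, fun r hr hrE => ?_⟩
  have h1 := hmain r hr hrE
  have h2 : (a : ℝ) * (((δ : ℝ) + 1 / (2 * a)) * chi D.y r) ≤ a * (N1 D.Fy r + C' / a * log r) := by
    have e1 : (a : ℝ) * (((δ : ℝ) + 1 / (2 * a)) * chi D.y r) = ((a : ℝ) * δ + 1 / 2) * chi D.y r := by
      field_simp
    have e2 : (a : ℝ) * (N1 D.Fy r + C' / a * log r) = a * N1 D.Fy r + C' * log r := by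
      field_simp
    rw [e1, e2]
    exact h1
  exact le_of_mul_le_mul_left h2 ha0

end Pool.Agent.H53L
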