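import Pool.Agent.Lib.H53L.CD
import Pool.Agent.Lib.H53L.C1

set_option autoImplicit false

/-!
H53L, chunk C2 (M): the orders of the functions `Ul`.
-/

open MvPolynomial Filter Topology

namespace Pool.Agent.H53L

open Pool.Agent.H89T Pool.Agent.H67T Pool.Agent.H53U

variable {y0 h : ℂ → ℂ} {d : ℕ}

/-- Chunk C2a (S/M).  The order drops by at most one under differentiation (`q = 0` is trivial; for `q + 1`: `f z = 0`,
`analyticOrderAt_deriv_ge_iff`, used in `taylor_order` in Lib/H89T/DA2.lean). -/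
theorem le_order_deriv {f : ℂ → ℂ} (hf : Differentiable ℂ f) {z : ℂ} {q : ℕ}
    (hq : (q : ℕ∞) ≤ analyticOrderAt f z) : ((q - 1 : ℕ) : ℕ∞) ≤ analyticOrderAt (deriv f) z := by
  have h := le_order_iteratedDeriv (hf.analyticAt z) hq 1
  rwa [iteratedDeriv_one] at h

/-- The order of the next numerator. -/
theorem c2_comb {z : ℂ} {m : ℕ∞} (l : ℕ) (hU : Differentiable ℂ (Ul y0 h d l)) (hy : Differentiable ℂ y0)
    (h1 : m ≤ analyticOrderAt (fun w => deriv (Ul y0 h d l) w * y0 w) z)
    (h3 : m ≤ analyticOrderAt (fun w => Ul y0 h d l w * (-(((d : ℂ) + l) * deriv y0 w))) z) :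
    m ≤ analyticOrderAt (Ul y0 h d (l + 1)) z := by
  have h7 : m ≤ analyticOrderAt ((fun w => deriv (Ul y0 h d l) w * y0 w) +
      fun w => Ul y0 h d l w * (-(((d : ℂ) + l) * deriv y0 w))) z :=
    (le_min h1 h3).trans le_analyticOrderAt_add
  have ha : AnalyticAt ℂ ((fun w => deriv (Ul y0 h d l) w * y0 w) +
      fun w => Ul y0 h d l w * (-(((d : ℂ) + l) * deriv y0 w))) z :=
    (((diff_deriv hU).mul hy).add (hU.mul (((diff_deriv hy).const_mul _).neg))).analyticAt z
  have h8 := le_order_mul h7 ha (analyticAt_const (v := ((l : ℂ) + 1)⁻¹))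
  have e : (fun w => ((fun w => deriv (Ul y0 h d l) w * y0 w) +
      fun w => Ul y0 h d l w * (-(((d : ℂ) + l) * deriv y0 w))) w * ((l : ℂ) + 1)⁻¹) = Ul y0 h d (l + 1) := by
    funext w
    simp only [Pi.add_apply, Ul]
    rw [div_eq_mul_inv]
    ring
  rw [e] at h8
  exact h8

/-- Chunk C2b (S/M).  Induction on `l`: both terms of the numerator of `Ul (l + 1)` have order at least `(ν - l) - 1`
(`le_order_deriv`, `le_order_mul` of Lib/H89T/DA2.lean, `le_analyticOrderAt_add`/`sub`; division by a constant: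
`le_order_mul` with the constant function). -/
theorem Ul_ord1 (hy : Differentiable ℂ y0) (hh : Differentiable ℂ h) {z : ℂ} {ν : ℕ}
    (hν : (ν : ℕ∞) ≤ analyticOrderAt h z) (l : ℕ) :
    ((ν - l : ℕ) : ℕ∞) ≤ analyticOrderAt (Ul y0 h d l) z := by
  have hUd : ∀ l, Differentiable ℂ (Ul y0 h d l) := Ul_diff hy hh
  induction l with
  | zero => exact hν
  | succ l ih =>
    have h1 : ((ν - (l + 1) : ℕ) : ℕ∞) ≤ analyticOrderAt (fun w => deriv (Ul y0 h d l) w * y0 w) z := by
      have h2 := le_order_deriv (hUd l) ih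
      rw [Nat.sub_sub] at h2
      exact le_order_mul h2 ((diff_deriv (hUd l)).analyticAt z) (hy.analyticAt z)
    have h3 : ((ν - (l + 1) : ℕ) : ℕ∞) ≤
        analyticOrderAt (fun w => Ul y0 h d l w * (-(((d : ℂ) + l) * deriv y0 w))) z := by
      refine le_order_mul (le_trans ?_ ih) ((hUd l).analyticAt z)
        (((diff_deriv hy).const_mul _).neg.analyticAt z)
      exact_mod_cast (by omega : ν - (l + 1) ≤ ν - l)
    exact c2_comb l (hUd l) hy h1 h3

/-- Chunk C2c (M).  Induction on `l`.  Let `e` be the order of `y0` at `z`, `e ≥ 1`.  `U' * y0` has order at least `(ν - 1) + e ≥ ν`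
(`le_order_deriv`, `analyticOrderAt_mul`); `U * y0'` has order at least `ν`. -/
theorem Ul_ord2 (hy : Differentiable ℂ y0) (hh : Differentiable ℂ h) {z : ℂ} {ν : ℕ}
    (hν : (ν : ℕ∞) ≤ analyticOrderAt h z) (hz : y0 z = 0) (l : ℕ) :
    (ν : ℕ∞) ≤ analyticOrderAt (Ul y0 h d l) z := by
  have hUd : ∀ l, Differentiable ℂ (Ul y0 h d l) := Ul_diff hy hh
  induction l with
  | zero => exact hν
  | succ l ih =>
    have h1 : (ν : ℕ∞) ≤ analyticOrderAt (fun w => deriv (Ul y0 h d l) w * y0 w) z := by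
      have h2 := le_order_deriv (hUd l) ih
      have h4 : (1 : ℕ∞) ≤ analyticOrderAt y0 z := by
        rw [Order.one_le_iff_ne_zero]
        exact (hy.analyticAt z).analyticOrderAt_ne_zero.2 hz
      have h5 : analyticOrderAt (fun w => deriv (Ul y0 h d l) w * y0 w) z =
          analyticOrderAt (deriv (Ul y0 h d l)) z + analyticOrderAt y0 z :=
        analyticOrderAt_mul ((diff_deriv (hUd l)).analyticAt z) (hy.analyticAt z)
      rw [h5]
      have h6 : (ν : ℕ∞) ≤ ((ν - 1 : ℕ) : ℕ∞) + 1 := by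
        exact_mod_cast (by omega : ν ≤ ν - 1 + 1)
      exact h6.trans (add_le_add h2 h4)
    have h3 : (ν : ℕ∞) ≤
        analyticOrderAt (fun w => Ul y0 h d l w * (-(((d : ℂ) + l) * deriv y0 w))) z :=
      le_order_mul ih ((hUd l).analyticAt z) (((diff_deriv hy).const_mul _).neg.analyticAt z)
    exact c2_comb l (hUd l) hy h1 h3

end Pool.Agent.H53L
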