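import Pool.Agent.Lib.H53L.CD
import Pool.Agent.Lib.H53L.C1

set_option autoImplicit false

/-!
H53L, chunk C4 (M): the entire function of a generator.
-/

open MvPolynomial Filter Topology

namespace Pool.Agent.H53L

open Pool.Agent.H89T Pool.Agent.H67T Pool.Agent.H53U

variable {n d k : ℕ}

/-- Chunk C4a (S/M).  `uu_jet` (Lib/H89T/DB.lean; `analyticAt_ch`), `ev (D.a 0) (ch 0 D.y w) = Fc .. w = D.Fy w / D.y w 0 ^ d` near `z`
(`D.hFc`; `Filter.EventuallyEq.iteratedDeriv_eq`, as in `norm_uR_le` in Lib/H89T/DE.lean), `Ul_eq`. -/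
theorem uR_Ul (D : CurveData n d) {z : ℂ} (hz : D.y z 0 ≠ 0) {l : ℕ} (hl : l ≤ k) :
    eval (jetf k (ch 0 D.y) z) (uR (D.a 0) l) =
      Ul (fun w => D.y w 0) D.Fy d l z / D.y z 0 ^ (d + l) := by
  rw [uu_jet (D.a 0) (fun b => analyticAt_ch D.hy.diff 0 hz b) hl]
  have hev : ∀ᶠ w in 𝓝 z, D.y w 0 ≠ 0 :=
    (D.hy.diff 0).continuous.continuousAt.eventually_ne hz
  have heq : (fun w => ev (D.a 0) (ch 0 D.y w)) =ᶠ[𝓝 z] Fc D.y D.Fy d 0 := by
    filter_upwards [hev] with w hw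
    exact D.hFc 0 w hw
  rw [heq.iteratedDeriv_eq l]
  exact Ul_eq (D.hy.diff 0) D.hF l hz

/-- Chunk C4b (S).  `eta_diff`, `Ul_diff`, `Differentiable.fun_finsetProd`. -/
theorem genf_diff (D : CurveData n d) (M m : ℕ) (μ : JV n k →₀ ℕ) (j : ℕ) (lam : Fin k → ℕ) :
    Differentiable ℂ (genf D M m μ j lam) := by
  have hy := D.hy.diff
  unfold genf
  refine (((hy 0).fun_pow _).fun_mul ?_).fun_mul ((D.hF.fun_pow _).fun_mul ?_)
  · exact Differentiable.fun_finsetProd fun p _ => (eta_diff hy 0 p.1 p.2).pow _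
  · exact Differentiable.fun_finsetProd fun i _ => (Ul_diff (hy 0) D.hF _).pow _

/-- Chunk C4c (M).  Put `w = y 0`.  `eval (monomial μ 1) = ∏ p, jetf p ^ μ p = (∏ eta ^ μ p) / w ^ wt μ` (as in `QQ_eq` in Lib/H89T/DC.lean,
`iteratedDeriv_ch`), `uR 0 = Fy / w ^ d` (`uR_Ul`, `Ul .. 0 = Fy`), `uR (i + 1) = Ul (i + 1) / w ^ (d + (i + 1))`; the product of the latter
powers is `w ^ (d * ld lam + lw lam)` (`Finset.prod_pow_eq_pow_sum`), and
`M + d m = (M - (wt μ + d j + lw lam)) + wt μ + d (j + (m - ld lam)) + (d ld lam + lw lam)` because `ld lam ≤ lw lam ≤ m`. -/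
theorem genf_eq (D : CurveData n d) {M m : ℕ} {μ : JV n k →₀ ℕ} {j : ℕ} {lam : Fin k → ℕ}
    (h1 : wt μ + d * j + lw lam ≤ M) (h2 : lw lam ≤ m) {z : ℂ} (hz : D.y z 0 ≠ 0) :
    genf D M m μ j lam z = D.y z 0 ^ (M + d * m) * eval (jetf k (ch 0 D.y) z)
      (monomial μ 1 * uR (D.a 0) 0 ^ (j + (m - ld lam)) *
        ∏ i : Fin k, uR (D.a 0) ((i : ℕ) + 1) ^ lam i) := by
  have hy := D.hy.diff
  have e1 : eval (jetf k (ch 0 D.y) z) (monomial μ 1) =
      (∏ p : JV n k, eta D.y 0 p.1 (p.2 : ℕ) z ^ μ p) / D.y z 0 ^ wt μ := by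
    rw [eval_monomial, one_mul, Finsupp.prod_fintype _ _ fun i => pow_zero _]
    unfold wt
    rw [← Finset.prod_pow_eq_pow_sum, ← Finset.prod_div_distrib]
    refine Finset.prod_congr rfl fun p _ => ?_
    unfold jetf
    rw [iteratedDeriv_ch hy 0 p.1 p.2 hz, div_pow, ← pow_mul]
  have e2 : eval (jetf k (ch 0 D.y) z) (uR (D.a 0) 0) = D.Fy z / D.y z 0 ^ d :=
    uR_Ul D hz (Nat.zero_le k)
  have e3 : ∏ i : Fin k, eval (jetf k (ch 0 D.y) z) (uR (D.a 0) ((i : ℕ) + 1)) ^ lam i =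
      (∏ i : Fin k, Ul (fun w => D.y w 0) D.Fy d ((i : ℕ) + 1) z ^ lam i) /
        D.y z 0 ^ (d * ld lam + lw lam) := by
    have h3 : d * ld lam + lw lam = ∑ i : Fin k, (d + ((i : ℕ) + 1)) * lam i := by
      unfold ld lw
      rw [Finset.mul_sum, ← Finset.sum_add_distrib]
      exact Finset.sum_congr rfl fun i _ => by ring
    rw [h3, ← Finset.prod_pow_eq_pow_sum, ← Finset.prod_div_distrib]
    refine Finset.prod_congr rfl fun i _ => ?_
    rw [uR_Ul D hz i.2, div_pow, ← pow_mul]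
  have hle : ld lam ≤ lw lam := by
    unfold ld lw
    exact Finset.sum_le_sum fun i _ => Nat.le_mul_of_pos_left _ (Nat.succ_pos _)
  have hexp : M + d * m = (M - (wt μ + d * j + lw lam)) + (wt μ + (d * (j + (m - ld lam)) + (d * ld lam + lw lam))) := by
    obtain ⟨a, ha⟩ : ∃ a, M = wt μ + d * j + lw lam + a := ⟨M - (wt μ + d * j + lw lam), by omega⟩
    obtain ⟨b, hb⟩ : ∃ b, m = ld lam + b := ⟨m - ld lam, by omega⟩
    rw [ha, hb, Nat.add_sub_cancel_left, Nat.add_sub_cancel_left]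
    ring
  rw [map_mul, map_mul, map_pow, map_prod]
  simp only [map_pow]
  rw [e1, e2, e3, hexp, pow_add, pow_add (D.y z 0) (wt μ), pow_add (D.y z 0) (d * (j + (m - ld lam)))]
  unfold genf
  rw [div_pow, ← pow_mul]
  have hw : ∀ e : ℕ, D.y z 0 ^ e ≠ 0 := fun e => pow_ne_zero _ hz
  have h4 := hw (wt μ)
  have h5 := hw (d * (j + (m - ld lam)))
  have h6 := hw (d * ld lam + lw lam)
  field_simp

end Pool.Agent.H53L
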