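import Pool.Agent.Lib.H53L.C2
import Pool.Agent.Lib.H53L.C4

set_option autoImplicit false

/-!
H53L, chunk C5 (M): the orders of the entire function of a generator.
-/

open MvPolynomial Filter Topology

namespace Pool.Agent.H53L

open Pool.Agent.H89T Pool.Agent.H67T Pool.Agent.H53U

variable {n d k : ℕ}

/-- Chunk C5a (S/M).  The order of a product of powers. -/
theorem le_order_prod_pow {ι : Type} (s : Finset ι) {f : ι → ℂ → ℂ} (hf : ∀ i ∈ s, Differentiable ℂ (f i))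
    {z : ℂ} {q : ι → ℕ} (hq : ∀ i ∈ s, (q i : ℕ∞) ≤ analyticOrderAt (f i) z) (e : ι → ℕ) :
    ((∑ i ∈ s, e i * q i : ℕ) : ℕ∞) ≤ analyticOrderAt (fun w => ∏ i ∈ s, f i w ^ e i) z := by
  classical
  induction s using Finset.induction_on with
  | empty =>
    rw [Finset.sum_empty, Nat.cast_zero]
    exact bot_le
  | insert i s hi ih =>
    have hfi : AnalyticAt ℂ (f i) z := (hf i (Finset.mem_insert_self i s)).analyticAt z
    have h1 : AnalyticAt ℂ (f i ^ e i) z := hfi.pow _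
    have h2 : AnalyticAt ℂ (fun w => ∏ j ∈ s, f j w ^ e j) z := by
      refine Differentiable.analyticAt ?_ z
      exact Differentiable.fun_finsetProd fun j hj =>
        (hf j (Finset.mem_insert_of_mem hj)).pow _
    have h3 : (fun w => ∏ j ∈ insert i s, f j w ^ e j) = (f i ^ e i) * fun w => ∏ j ∈ s, f j w ^ e j := by
      funext w
      rw [Finset.prod_insert hi]
      rfl
    rw [h3, analyticOrderAt_mul h1 h2, analyticOrderAt_pow hfi, Finset.sum_insert hi, Nat.cast_add,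
      Nat.cast_mul]
    refine add_le_add ?_ (ih (fun j hj => hf j (Finset.mem_insert_of_mem hj))
      fun j hj => hq j (Finset.mem_insert_of_mem hj))
    rw [nsmul_eq_mul]
    exact mul_le_mul_right (hq i (Finset.mem_insert_self i s)) _

/-- The order of the function of a generator is at least that of the second factor. -/
theorem c5_genf (D : CurveData n d) {M m : ℕ} (μ : JV n k →₀ ℕ) (j : ℕ) {lam : Fin k → ℕ}
    {z : ℂ} {ν : ℕ} (hν : (ν : ℕ∞) ≤ analyticOrderAt D.Fy z) {q : Fin k → ℕ}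
    (hq : ∀ i : Fin k, (q i : ℕ∞) ≤ analyticOrderAt (Ul (fun w => D.y w 0) D.Fy d ((i : ℕ) + 1)) z) :
    (((j + (m - ld lam)) * ν + ∑ i : Fin k, lam i * q i : ℕ) : ℕ∞) ≤
      analyticOrderAt (genf D M m μ j lam) z := by
  have hU : ∀ i : Fin k, Differentiable ℂ (Ul (fun w => D.y w 0) D.Fy d ((i : ℕ) + 1)) :=
    fun i => Ul_diff (D.hy.diff 0) D.hF _
  have h1 : ((∑ i : Fin k, lam i * q i : ℕ) : ℕ∞) ≤ analyticOrderAt
      (fun w => ∏ i : Fin k, Ul (fun w => D.y w 0) D.Fy d ((i : ℕ) + 1) w ^ lam i) z :=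
    le_order_prod_pow Finset.univ (fun i _ => hU i) (fun i _ => hq i) lam
  have h2 : (((j + (m - ld lam)) * ν : ℕ) : ℕ∞) ≤
      analyticOrderAt (D.Fy ^ (j + (m - ld lam))) z := by
    rw [analyticOrderAt_pow (D.hF.analyticAt z), nsmul_eq_mul, Nat.cast_mul]
    exact mul_le_mul_right hν _
  have ha2 : AnalyticAt ℂ (D.Fy ^ (j + (m - ld lam))) z := (D.hF.analyticAt z).pow _
  have ha1 : AnalyticAt ℂ
      (fun w => ∏ i : Fin k, Ul (fun w => D.y w 0) D.Fy d ((i : ℕ) + 1) w ^ lam i) z :=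
    (Differentiable.fun_finsetProd fun i _ => (hU i).pow _).analyticAt z
  have h3 : (((j + (m - ld lam)) * ν + ∑ i : Fin k, lam i * q i : ℕ) : ℕ∞) ≤ analyticOrderAt
      ((D.Fy ^ (j + (m - ld lam))) *
        fun w => ∏ i : Fin k, Ul (fun w => D.y w 0) D.Fy d ((i : ℕ) + 1) w ^ lam i) z := by
    rw [analyticOrderAt_mul ha2 ha1, Nat.cast_add]
    exact add_le_add h2 h1
  have ha3 : AnalyticAt ℂ (fun w => D.y w 0 ^ (M - (wt μ + d * j + lw lam)) *
      (∏ p : JV n k, eta D.y 0 p.1 (p.2 : ℕ) w ^ μ p)) z := by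
    refine Differentiable.analyticAt (Differentiable.mul ?_ ?_) z
    · exact (D.hy.diff 0).pow _
    · exact Differentiable.fun_finsetProd fun p _ => (eta_diff D.hy.diff 0 p.1 _).pow _
  have h4 := le_order_mul h3 (ha2.mul ha1) ha3
  have h5 : genf D M m μ j lam = fun w => ((D.Fy ^ (j + (m - ld lam))) *
        fun w => ∏ i : Fin k, Ul (fun w => D.y w 0) D.Fy d ((i : ℕ) + 1) w ^ lam i) w *
      (D.y w 0 ^ (M - (wt μ + d * j + lw lam)) *
        (∏ p : JV n k, eta D.y 0 p.1 (p.2 : ℕ) w ^ μ p)) := by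
    funext w
    unfold genf
    simp only [Pi.mul_apply, Pi.pow_apply]
    ring
  rw [h5]
  exact h4

/-- Chunk C5b (M).  The factor `Fy ^ (j + (m - ld lam)) * ∏ Ul (i + 1) ^ lam i` has order at least
`(j + (m - ld lam)) ν + ∑ lam i * (ν - (i + 1))` (natural subtraction; `Ul_ord1`, `le_order_prod_pow`), and this is at least `m (ν - 1)`:
trivial for `ν = 0`; in general `lam i * ν ≤ lam i * (ν - (i + 1)) + lam i * (i + 1)`, so the sum is at least
`(m - ld lam) ν + ld lam * ν - lw lam ≥ m ν - m`. -/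
theorem genf_ord1 (D : CurveData n d) {M m : ℕ} (μ : JV n k →₀ ℕ) (j : ℕ) {lam : Fin k → ℕ}
    (h2 : lw lam ≤ m) {z : ℂ} {ν : ℕ} (hν : (ν : ℕ∞) ≤ analyticOrderAt D.Fy z) :
    ((m * (ν - 1) : ℕ) : ℕ∞) ≤ analyticOrderAt (genf D M m μ j lam) z := by
  refine le_trans ?_ (c5_genf D μ j hν (q := fun i => ν - ((i : ℕ) + 1))
    fun i => Ul_ord1 (D.hy.diff 0) D.hF hν _)
  refine Nat.cast_le.2 ?_
  rcases Nat.eq_zero_or_pos ν with h0 | h0
  · rw [h0, Nat.zero_sub, mul_zero]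
    exact Nat.zero_le _
  · obtain ⟨ν', rfl⟩ : ∃ ν', ν = ν' + 1 := ⟨ν - 1, by omega⟩
    have hld : ld lam ≤ lw lam := by
      unfold ld lw
      refine Finset.sum_le_sum fun i _ => ?_
      exact Nat.le_mul_of_pos_left _ (Nat.succ_pos _)
    have h3 : ld lam * (ν' + 1) ≤
        (∑ i : Fin k, lam i * (ν' + 1 - ((i : ℕ) + 1))) + lw lam := by
      unfold ld lw
      rw [Finset.sum_mul, ← Finset.sum_add_distrib]
      refine Finset.sum_le_sum fun i _ => ?_
      calc lam i * (ν' + 1) ≤ lam i * ((ν' + 1 - ((i : ℕ) + 1)) + ((i : ℕ) + 1)) :=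
            Nat.mul_le_mul_left _ (by omega)
        _ = _ := by ring
    have h4 : (m - ld lam) * (ν' + 1) + ld lam * (ν' + 1) = m * (ν' + 1) := by
      rw [← add_mul, Nat.sub_add_cancel (hld.trans h2)]
    have h5 : (j + (m - ld lam)) * (ν' + 1) = j * (ν' + 1) + (m - ld lam) * (ν' + 1) := add_mul _ _ _
    have h6 : m * (ν' + 1) = m * ν' + m := by ring
    rw [Nat.add_sub_cancel, h5]
    omega

/-- Chunk C5c (S/M).  The same with `Ul_ord2`: order at least `(j + (m - ld lam)) ν + ld lam * ν ≥ m ν`. -/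
theorem genf_ord2 (D : CurveData n d) {M m : ℕ} (μ : JV n k →₀ ℕ) (j : ℕ) {lam : Fin k → ℕ}
    (h2 : lw lam ≤ m) {z : ℂ} {ν : ℕ} (hν : (ν : ℕ∞) ≤ analyticOrderAt D.Fy z)
    (hz : D.y z 0 = 0) : ((m * ν : ℕ) : ℕ∞) ≤ analyticOrderAt (genf D M m μ j lam) z := by
  refine le_trans ?_ (c5_genf D μ j hν (q := fun _ => ν)
    fun i => Ul_ord2 (D.hy.diff 0) D.hF hν hz _)
  refine Nat.cast_le.2 ?_
  have hld : ld lam ≤ lw lam := by
    unfold ld lw
    refine Finset.sum_le_sum fun i _ => ?_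
    exact Nat.le_mul_of_pos_left _ (Nat.succ_pos _)
  have h4 : (m - ld lam) * ν + ld lam * ν = m * ν := by
    rw [← add_mul, Nat.sub_add_cancel (hld.trans h2)]
  have h5 : (j + (m - ld lam)) * ν = j * ν + (m - ld lam) * ν := add_mul _ _ _
  have h6 : ∑ i : Fin k, lam i * ν = ld lam * ν := by
    unfold ld
    rw [Finset.sum_mul]
  rw [h5, h6]
  omega

end Pool.Agent.H53L
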