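import Pool.Agent.Lib.H53L.C4

set_option autoImplicit false

/-!
H53L, chunk C6 (M): the bound for the entire function of a generator.
-/

open MvPolynomial Filter Topology

namespace Pool.Agent.H53L

open Pool.Agent.H89T Pool.Agent.H67T Pool.Agent.H53U

variable {n d k : ℕ}

/-- The elementary inequality. -/
theorem c6_num {w Y F T A : ℝ} {M m μ j d W : ℕ} (hw : 0 < w) (hY : w ≤ Y) (hF : 0 ≤ F) (hT : 1 ≤ T)
    (hA : 1 ≤ A) (hFA : F ≤ A * Y ^ d) (hd : 1 ≤ d) (hM : W + d * j ≤ M) (hμ : μ ≤ W) :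
    w ^ (M + d * m) * ((T * (Y / w)) ^ μ * (T * (F / w ^ d)) ^ (j + m)) ≤
      A ^ j * F ^ m * Y ^ M * T ^ (2 * M + m) := by
  have hS : 1 ≤ Y / w := by
    rw [one_le_div hw]
    exact hY
  have hwd : 0 < w ^ d := pow_pos hw d
  have hTS : 1 ≤ T * (Y / w) := one_le_mul_of_one_le_of_one_le hT hS
  have hφ : F / w ^ d ≤ A * (Y / w) ^ d := by
    rw [div_pow, ← mul_div_assoc]
    exact div_le_div_of_nonneg_right hFA hwd.le
  have hφ0 : 0 ≤ F / w ^ d := div_nonneg hF hwd.le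
  have h1 : (T * (Y / w)) ^ μ ≤ (T * (Y / w)) ^ W := pow_le_pow_right₀ hTS hμ
  have h2 : (F / w ^ d) ^ j ≤ (A * (Y / w) ^ d) ^ j := pow_le_pow_left₀ hφ0 hφ j
  have hY0 : 0 ≤ Y := hw.le.trans hY
  have hT0 : 0 ≤ T := by linarith
  have hA0 : 0 ≤ A := by linarith
  have hS0 : 0 ≤ Y / w := by linarith
  have hj : j ≤ M := by
    have : j ≤ d * j := Nat.le_mul_of_pos_left j hd
    omega
  calc w ^ (M + d * m) * ((T * (Y / w)) ^ μ * (T * (F / w ^ d)) ^ (j + m))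
      = w ^ (M + d * m) * ((T * (Y / w)) ^ μ * (T ^ (j + m) * ((F / w ^ d) ^ j * (F / w ^ d) ^ m))) := by
        rw [mul_pow T (F / w ^ d), pow_add (F / w ^ d)]
    _ ≤ w ^ (M + d * m) * ((T * (Y / w)) ^ W * (T ^ (j + m) * ((A * (Y / w) ^ d) ^ j *
        (F / w ^ d) ^ m))) := by
        gcongr
    _ = A ^ j * (w ^ (d * m) * (F / w ^ d) ^ m) * (w ^ M * (Y / w) ^ (W + d * j)) * T ^ (W + (j + m)) := by
        ring
    _ = A ^ j * F ^ m * (w ^ M * (Y / w) ^ (W + d * j)) * T ^ (W + (j + m)) := by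
        congr 3
        rw [div_pow, ← pow_mul, mul_div_assoc', mul_comm (w ^ (d * m)), mul_div_assoc,
          div_self (pow_pos hw _).ne', mul_one]
    _ ≤ A ^ j * F ^ m * (w ^ M * (Y / w) ^ M) * T ^ (2 * M + m) := by
        have h3 : (Y / w) ^ (W + d * j) ≤ (Y / w) ^ M := pow_le_pow_right₀ hS hM
        have h4 : T ^ (W + (j + m)) ≤ T ^ (2 * M + m) := pow_le_pow_right₀ hT (by omega)
        gcongr
    _ = A ^ j * F ^ m * Y ^ M * T ^ (2 * M + m) := by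
        congr 2
        rw [← mul_pow, mul_div_cancel₀ _ hw.ne']

/-- Chunk C6 (M).  PROOF.  `D.hFle`: `‖Fy‖ ≤ A ‖y‖ ^ d`, `A ≥ 1` may be assumed (`A := max 1 A'`).  Put `Λ = Lam ..≥ 1` (`one_le_Lam`), `w = ‖y 0‖`, `S = ‖y‖ / w ≥ 1`
(`norm_coord_pos`).  By `genf_eq` and `‖jetf p‖ ≤ Λ S` (`norm_jetf_le`, `L := k`), `‖uR l‖ ≤ Λ ‖Fy‖ / w ^ d` for `l ≤ k` (`norm_uR_le`, `L := k`):
`‖genf‖ ≤ w ^ (M + d m) (Λ S) ^ (∑ μ p) (Λ ‖Fy‖ / w ^ d) ^ (j + (m - ld lam) + ld lam)`; here `∑ μ p ≤ wt μ`, the last exponent is `j + m`, and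
`(‖Fy‖ / w ^ d) ^ (j + m) ≤ (A S ^ d) ^ j (‖Fy‖ / w ^ d) ^ m`.  So `‖genf‖ ≤ A ^ j w ^ M ‖Fy‖ ^ m S ^ (wt μ + d j) Λ ^ (wt μ + j + m)`, and
`wt μ + d j ≤ M`, `j ≤ d j ≤ M`, `w ^ M S ^ M = ‖y‖ ^ M`; `C := A ^ j`. -/
theorem genf_bd (hd : 1 ≤ d) (D : CurveData n d) {M m : ℕ} {μ : JV n k →₀ ℕ} {j : ℕ}
    {lam : Fin k → ℕ} (h1 : wt μ + d * j + lw lam ≤ M) (h2 : lw lam ≤ m) :
    ∃ C : ℝ, 0 ≤ C ∧ ∀ z, (∀ j, D.y z j ≠ 0) → D.Fy z ≠ 0 →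
      ‖genf D M m μ j lam z‖ ≤
        C * ‖D.Fy z‖ ^ m * ‖D.y z‖ ^ M * Lam D.y D.Fy d k z ^ (2 * M + m) := by
  obtain ⟨A', hA'⟩ := D.hFle
  refine ⟨(max 1 A') ^ j, by positivity, fun z hz hF => ?_⟩
  have hT := one_le_Lam D.y D.Fy d k z
  have hw : 0 < ‖D.y z 0‖ := norm_pos_iff.2 (hz 0)
  have hY : ‖D.y z 0‖ ≤ ‖D.y z‖ := norm_le_pi_norm (D.y z) 0
  have hFA : ‖D.Fy z‖ ≤ max 1 A' * ‖D.y z‖ ^ d :=
    (hA' z).trans (mul_le_mul_of_nonneg_right (le_max_right _ _) (by positivity))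
  have hld : ld lam ≤ lw lam := by
    unfold ld lw
    refine Finset.sum_le_sum fun i _ => ?_
    exact Nat.le_mul_of_pos_left _ (Nat.succ_pos _)
  have hμ : ∑ p : JV n k, μ p ≤ wt μ := by
    unfold wt
    refine Finset.sum_le_sum fun p _ => ?_
    exact Nat.le_mul_of_pos_left _ (Nat.succ_pos _)
  refine le_trans ?_ (c6_num (μ := ∑ p : JV n k, μ p) (W := wt μ) (m := m) (j := j) (M := M)
    hw hY (norm_nonneg (D.Fy z)) hT (le_max_left _ _) hFA hd (by omega) hμ)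
  rw [genf_eq D h1 h2 (hz 0), norm_mul, norm_pow]
  refine mul_le_mul_of_nonneg_left ?_ (by positivity)
  rw [map_mul, map_mul, norm_mul, norm_mul, mul_assoc]
  have e1 : ‖eval (jetf k (ch 0 D.y) z) (monomial μ 1)‖ ≤
      (Lam D.y D.Fy d k z * (‖D.y z‖ / ‖D.y z 0‖)) ^ (∑ p : JV n k, μ p) := by
    rw [eval_monomial, one_mul, Finsupp.prod_fintype _ _ (fun _ => pow_zero _), norm_prod,
      ← Finset.prod_pow_eq_pow_sum]
    refine Finset.prod_le_prod (fun _ _ => norm_nonneg _) fun p _ => ?_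
    rw [norm_pow]
    exact pow_le_pow_left₀ (norm_nonneg _) (norm_jetf_le D.y D.Fy d le_rfl 0 z hz p) _
  have e2 : ‖eval (jetf k (ch 0 D.y) z) (uR (D.a 0) 0 ^ (j + (m - ld lam)))‖ ≤
      (Lam D.y D.Fy d k z * (‖D.Fy z‖ / ‖D.y z 0‖ ^ d)) ^ (j + (m - ld lam)) := by
    rw [map_pow, norm_pow]
    exact pow_le_pow_left₀ (norm_nonneg _)
      (norm_uR_le D 0 (le_refl k) hz hF (⟨0, Nat.succ_pos k⟩ : Fin (k + 1))) _
  have e3 : ‖eval (jetf k (ch 0 D.y) z) (∏ i : Fin k, uR (D.a 0) ((i : ℕ) + 1) ^ lam i)‖ ≤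
      (Lam D.y D.Fy d k z * (‖D.Fy z‖ / ‖D.y z 0‖ ^ d)) ^ (ld lam) := by
    rw [map_prod, norm_prod]
    unfold ld
    rw [← Finset.prod_pow_eq_pow_sum]
    refine Finset.prod_le_prod (fun _ _ => norm_nonneg _) fun i _ => ?_
    rw [map_pow, norm_pow]
    exact pow_le_pow_left₀ (norm_nonneg _)
      (norm_uR_le D 0 (le_refl k) hz hF (⟨(i : ℕ) + 1, Nat.succ_lt_succ i.2⟩ : Fin (k + 1))) _
  have e4 : (Lam D.y D.Fy d k z * (‖D.Fy z‖ / ‖D.y z 0‖ ^ d)) ^ (j + m) =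
      (Lam D.y D.Fy d k z * (‖D.Fy z‖ / ‖D.y z 0‖ ^ d)) ^ (j + (m - ld lam)) *
        (Lam D.y D.Fy d k z * (‖D.Fy z‖ / ‖D.y z 0‖ ^ d)) ^ (ld lam) := by
    rw [← pow_add]
    congr 1
    omega
  rw [e4]
  refine mul_le_mul e1 (mul_le_mul e2 e3 (norm_nonneg _) ?_) (by positivity) ?_
  · exact (norm_nonneg _).trans e2
  · exact (norm_nonneg _).trans e1

end Pool.Agent.H53L
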