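import Pool.Agent.Lib.H53L.C5
import Pool.Agent.Lib.H53L.C6

set_option autoImplicit false

/-!
H53L, chunk C7 (M): the entire function of a logarithmic jet differential.
-/

open MvPolynomial Filter Topology

namespace Pool.Agent.H53L

open Pool.Agent.H89T Pool.Agent.H67T Pool.Agent.H53U

variable {n d k : ℕ}

/-- Chunk C7a (S/M).  `le_analyticOrderAt_add`; constants `C + C'`. -/
theorem HatF.add {D : CurveData n d} {M m : ℕ} {g g' : ℂ → ℂ} (hg : HatF D k M m g)
    (hg' : HatF D k M m g') : HatF D k M m fun z => g z + g' z where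
  diff := hg.diff.add hg'.diff
  ord1 := fun z ν hν hz => (le_min (hg.ord1 z ν hν hz) (hg'.ord1 z ν hν hz)).trans le_analyticOrderAt_add
  ord2 := fun z ν hν hz => (le_min (hg.ord2 z ν hν hz) (hg'.ord2 z ν hν hz)).trans le_analyticOrderAt_add
  bd := by
    obtain ⟨C, hC, h⟩ := hg.bd
    obtain ⟨C', hC', h'⟩ := hg'.bd
    refine ⟨C + C', add_nonneg hC hC', fun z h1 h2 => ?_⟩
    refine (norm_add_le _ _).trans ((add_le_add (h z h1 h2) (h' z h1 h2)).trans (le_of_eq ?_))
    ring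

/-- Chunk C7b (S).  `le_order_mul` (Lib/H89T/DA2.lean) with a constant. -/
theorem HatF.smul {D : CurveData n d} {M m : ℕ} {g : ℂ → ℂ} (c : ℂ) (hg : HatF D k M m g) :
    HatF D k M m fun z => c * g z where
  diff := hg.diff.const_mul c
  ord1 := fun z ν hν hz => by
    have h1 := le_order_mul (hg.ord1 z ν hν hz) (hg.diff.analyticAt z) (analyticAt_const (v := c) (x := z))
    have e : (fun z => c * g z) = fun z => g z * c := funext fun z => mul_comm _ _
    rw [e]
    exact h1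
  ord2 := fun z ν hν hz => by
    have h1 := le_order_mul (hg.ord2 z ν hν hz) (hg.diff.analyticAt z) (analyticAt_const (v := c) (x := z))
    have e : (fun z => c * g z) = fun z => g z * c := funext fun z => mul_comm _ _
    rw [e]
    exact h1
  bd := by
    obtain ⟨C, hC, h⟩ := hg.bd
    refine ⟨‖c‖ * C, mul_nonneg (norm_nonneg _) hC, fun z h1 h2 => ?_⟩
    rw [norm_mul]
    refine (mul_le_mul_of_nonneg_left (h z h1 h2) (norm_nonneg c)).trans (le_of_eq ?_)
    ring

/-- Chunk C7c (S). -/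
theorem HatF.zero (D : CurveData n d) (M m : ℕ) : HatF D k M m fun _ => (0 : ℂ) where
  diff := differentiable_const 0
  ord1 := fun z ν _ _ => by
    rw [analyticOrderAt_eq_top.2 (Filter.Eventually.of_forall fun _ => rfl)]
    exact le_top
  ord2 := fun z ν _ _ => by
    rw [analyticOrderAt_eq_top.2 (Filter.Eventually.of_forall fun _ => rfl)]
    exact le_top
  bd := ⟨0, le_rfl, fun z _ _ => by simp⟩

/-- Chunk C7 (M).  `Submodule.span_induction` on `hG`; the generators: `genf` with `genf_diff`, `genf_ord1`, `genf_ord2`, `genf_bd`, `genf_eq`. -/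
theorem exists_hat (hd : 1 ≤ d) (D : CurveData n d) {M m : ℕ} {G : MvPolynomial (JV n k) ℂ}
    (hG : LTy (D.a 0) M m G) :
    ∃ g : ℂ → ℂ, HatF D k M m g ∧ ∀ z, D.y z 0 ≠ 0 →
      g z = D.y z 0 ^ (M + d * m) * eval (jetf k (ch 0 D.y) z) G := by
  refine Submodule.span_induction (p := fun G _ => ∃ g : ℂ → ℂ, HatF D k M m g ∧ ∀ z, D.y z 0 ≠ 0 →
      g z = D.y z 0 ^ (M + d * m) * eval (jetf k (ch 0 D.y) z) G) ?_ ?_ ?_ ?_ hG
  · rintro _ ⟨μ, j, lam, h1, h2, rfl⟩
    refine ⟨genf D M m μ j lam, ⟨genf_diff D M m μ j lam, fun z ν hν _ => genf_ord1 D μ j h2 hν, fun z ν hν hz => genf_ord2 D μ j h2 hν hz, ?_⟩, fun z hz => genf_eq D h1 h2 hz⟩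
    exact genf_bd hd D h1 h2
  · exact ⟨fun _ => 0, HatF.zero D M m, fun z _ => by rw [map_zero, mul_zero]⟩
  · rintro G G' _ _ ⟨g, h1, h2⟩ ⟨g', h1', h2'⟩
    refine ⟨fun z => g z + g' z, h1.add h1', fun z hz => ?_⟩
    show g z + g' z = _
    rw [h2 z hz, h2' z hz, map_add, mul_add]
  · rintro c G _ ⟨g, h1, h2⟩
    refine ⟨fun z => c * g z, h1.smul c, fun z hz => ?_⟩
    show c * g z = _
    rw [h2 z hz, smul_eval]
    ring

end Pool.Agent.H53L
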