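import Pool.Agent.Lib.H53L.CD

set_option autoImplicit false

/-!
H53L, chunk C8 (M): the quotient of the product by a power of `y 0`.
-/

open MvPolynomial Filter Topology

namespace Pool.Agent.H53L

open Pool.Agent.H89T Pool.Agent.H67T Pool.Agent.H53U

variable {n d k : ℕ}

/-- Chunk C8a (M).  Copy of the first part of the proof of `propKD` in Lib/H53V/N3.lean (`q4_quot` of Lib/H53U/Q4.lean with `p = y 0 ^ (s κ)`,
`q = ∏ g i`, `l' I = ∏_(i ∈ I) l i ^ s`, `r' I = ∏_(i ∈ I) g' i * ∏_(i ∉ I) g i`; here no further factor `y 0 ^ e`).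
`Z` is not identically `0` because the product of the `g i` is not (`eventually_ne_of_entire`). -/
theorem exists_quot {M m s R κ : ℕ} (D : CurveData n d)
    {l : Fin R → ℂ → ℂ} (hl : ∀ i, Differentiable ℂ (l i)) {A : ℝ}
    (hA : ∀ z, ‖D.y z‖ ≤ A * ‖D.y z 0‖ ∨ ∃ I : Finset (Fin R), I.card = κ ∧
      ∀ i ∈ I, ‖D.y z‖ ≤ A * ‖l i z‖)
    {g g' : Fin R → ℂ → ℂ} (hg : ∀ i, HatF D k M m (g i)) (hg' : ∀ i, HatF D k M m (g' i))
    (hrel : ∀ i z, D.y z 0 ≠ 0 → l i z ^ s * g i z = D.y z 0 ^ s * g' i z)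
    (hne : ∀ i, ∃ z, g i z ≠ 0) :
    ∃ Z : ℂ → ℂ, Differentiable ℂ Z ∧ (∃ z, Z z ≠ 0) ∧
      (∀ z, ∏ i, g i z = D.y z 0 ^ (s * κ) * Z z) ∧
      ∀ I : Finset (Fin R), I.card = κ → ∀ z,
        (∏ i ∈ I, g' i z) * ∏ i ∈ Iᶜ, g i z = (∏ i ∈ I, l i z ^ s) * Z z := by
  classical
  have hy := D.hy
  have hd := hy.diff
  set q : ℂ → ℂ := fun z => ∏ i, g i z with hq
  set p : ℂ → ℂ := fun z => D.y z 0 ^ (s * κ) with hp
  set l' : {I : Finset (Fin R) // I.card = κ} → ℂ → ℂ := fun I z => ∏ i ∈ I.1, l i z ^ s with hl'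
  set r' : {I : Finset (Fin R) // I.card = κ} → ℂ → ℂ := fun I z =>
    (∏ i ∈ I.1, g' i z) * ∏ i ∈ I.1ᶜ, g i z with hr'
  have hqd : Differentiable ℂ q := by
    rw [hq]
    exact Differentiable.fun_finsetProd fun i _ => (hg i).diff
  have hpd : Differentiable ℂ p := (hd 0).pow _
  have hl'd : ∀ I, Differentiable ℂ (l' I) := fun I =>
    Differentiable.fun_finsetProd fun i _ => (hl i).pow s
  have hr'd : ∀ I, Differentiable ℂ (r' I) := fun I =>
    (Differentiable.fun_finsetProd fun i _ => (hg' i).diff).mul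
      (Differentiable.fun_finsetProd fun i _ => (hg i).diff)
  have hp0 : ∃ z, p z ≠ 0 := by
    obtain ⟨z, hz⟩ := D.hy0 0
    exact ⟨z, pow_ne_zero _ hz⟩
  have h0 : ∀ z, p z = 0 → ∃ I, l' I z ≠ 0 := by
    intro z hz
    have hz0 : D.y z 0 = 0 := eq_zero_of_pow_eq_zero hz
    have hne : 0 < ‖D.y z‖ := norm_pos_iff.2 (hy.ne_zero z)
    rcases hA z with h | ⟨I, hI, h⟩
    · rw [hz0, norm_zero, mul_zero] at h
      exact absurd h (not_le.2 hne)
    · refine ⟨⟨I, hI⟩, Finset.prod_ne_zero_iff.2 fun i hi => pow_ne_zero _ fun h1 => ?_⟩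
      have h2 := h i hi
      rw [h1, norm_zero, mul_zero] at h2
      exact absurd h2 (not_le.2 hne)
  have hrel' : ∀ I z, p z ≠ 0 → l' I z * q z = p z * r' I z := by
    intro I z hz
    have h1 : ∀ i, l i z ^ s * g i z = D.y z 0 ^ s * g' i z := by
      intro i
      by_cases hs : s = 0
      · -- then `p = 1`; use the identity theorem
        have hid := q4_ident (p := fun w => D.y w 0) (f := fun w => l i w ^ s * g i w)
          (g := fun w => D.y w 0 ^ s * g' i w) (hd 0)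
          (((hl i).pow s).mul (hg i).diff) (((hd 0).pow s).mul (hg' i).diff) (D.hy0 0)
          (fun w hw => hrel i w hw) z
        exact hid
      · by_cases hκ : κ = 0
        · have hid := q4_ident (p := fun w => D.y w 0) (f := fun w => l i w ^ s * g i w)
            (g := fun w => D.y w 0 ^ s * g' i w) (hd 0)
            (((hl i).pow s).mul (hg i).diff) (((hd 0).pow s).mul (hg' i).diff) (D.hy0 0)
            (fun w hw => hrel i w hw) z
          exact hid
        · have hz0 : D.y z 0 ≠ 0 := fun h => hz (by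
            rw [hp]
            simp [h, hs, hκ])
          exact hrel i z hz0
    have h2 : q z = (∏ i ∈ I.1, g i z) * ∏ i ∈ I.1ᶜ, g i z := by
      rw [hq]
      exact (Finset.prod_mul_prod_compl I.1 _).symm
    have h3 : (∏ i ∈ I.1, l i z ^ s) * ∏ i ∈ I.1, g i z =
        D.y z 0 ^ (s * κ) * ∏ i ∈ I.1, g' i z := by
      rw [← Finset.prod_mul_distrib, Finset.prod_congr rfl fun i _ => h1 i,
        Finset.prod_mul_distrib, Finset.prod_const, I.2, ← pow_mul]
    rw [h2, hl', hp, hr']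
    simp only
    rw [← mul_assoc, h3]
    ring
  obtain ⟨Z, hZd, hZ1, hZ2⟩ := q4_quot hpd hqd hl'd hr'd hp0 h0 hrel'
  refine ⟨Z, hZd, ?_, hZ1, fun I hI z => hZ2 ⟨I, hI⟩ z⟩
  by_contra hcon
  push Not at hcon
  have hev : ∀ᶠ z in 𝓝[≠] (0 : ℂ), ∀ i, g i z ≠ 0 :=
    Filter.eventually_all.2 fun i => eventually_ne_of_entire (hg i).diff (hne i)
  obtain ⟨z, hz⟩ := hev.exists
  have h1 := hZ1 z
  rw [hcon z, mul_zero] at h1
  exact (Finset.prod_ne_zero_iff.2 fun i _ => hz i) h1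

end Pool.Agent.H53L
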