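import Pool.Agent.Lib.H53L.CD

set_option autoImplicit false

/-!
H53L, chunk C9 (M): the order and the bound of the quotient.
-/

open MvPolynomial Filter Topology

namespace Pool.Agent.H53L

open Pool.Agent.H89T Pool.Agent.H67T Pool.Agent.H53U

variable {n d k : ℕ}

theorem c9_prod {ι : Type} (s : Finset ι) {f : ι → ℂ → ℂ} (hf : ∀ i ∈ s, Differentiable ℂ (f i))
    {z : ℂ} {q : ℕ} (hq : ∀ i ∈ s, (q : ℕ∞) ≤ analyticOrderAt (f i) z) :
    ((s.card * q : ℕ) : ℕ∞) ≤ analyticOrderAt (fun w => ∏ i ∈ s, f i w) z := by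
  classical
  induction s using Finset.induction_on with
  | empty =>
    rw [Finset.card_empty, zero_mul, Nat.cast_zero]
    exact bot_le
  | insert i s hi ih =>
    have h1 : AnalyticAt ℂ (f i) z := (hf i (Finset.mem_insert_self i s)).analyticAt z
    have h2 : AnalyticAt ℂ (fun w => ∏ j ∈ s, f j w) z := by
      refine Differentiable.analyticAt ?_ z
      exact Differentiable.fun_finsetProd fun j hj => hf j (Finset.mem_insert_of_mem hj)
    have h3 : (fun w => ∏ j ∈ insert i s, f j w) = f i * fun w => ∏ j ∈ s, f j w := by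
      funext w
      rw [Finset.prod_insert hi]
      rfl
    have h4 : (insert i s).card * q = q + s.card * q := by
      rw [Finset.card_insert_of_notMem hi]
      ring
    rw [h3, analyticOrderAt_mul h1 h2, h4, Nat.cast_add]
    exact add_le_add (hq i (Finset.mem_insert_self i s))
      (ih (fun j hj => hf j (Finset.mem_insert_of_mem hj))
        fun j hj => hq j (Finset.mem_insert_of_mem hj))

theorem c9_unit {u Z : ℂ → ℂ} {z : ℂ} (hu : Differentiable ℂ u) (hZ : Differentiable ℂ Z)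
    (h0 : u z ≠ 0) : analyticOrderAt (fun w => u w * Z w) z = analyticOrderAt Z z := by
  have h1 := analyticOrderAt_mul (hu.analyticAt z) (hZ.analyticAt z)
  have h2 : analyticOrderAt (fun w => u w * Z w) z = analyticOrderAt (u * Z) z := rfl
  rw [h2, h1, (hu.analyticAt z).analyticOrderAt_eq_zero.2 h0, zero_add]

/-- Chunk C9a (M).  PROOF.  If `y 0` does not vanish at `z`: `Z = (∏ g i) / y 0 ^ (s κ)`, so the orders of `Z` and of `∏ g i` at `z` are equal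
(`analyticOrderAt_mul`, the order of a function with nonzero value is `0`), and the latter is at least `R m (ν - 1)` (`ord1`; order of a product: a sum, induction over
`Finset`; e.g. `analyticOrderAt_mul`).  If `y 0` vanishes at `z`: by `hA` and `y z ≠ 0` there is `I` with `l i z ≠ 0` for `i ∈ I`; the order of `Z` is that
of `(∏_I g') (∏_(not I) g)`, at least `R m ν` (`ord2`). -/
theorem quot_ord {M m s R κ : ℕ} (D : CurveData n d)
    {l : Fin R → ℂ → ℂ} (hl : ∀ i, Differentiable ℂ (l i)) {A : ℝ}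
    (hA : ∀ z, ‖D.y z‖ ≤ A * ‖D.y z 0‖ ∨ ∃ I : Finset (Fin R), I.card = κ ∧
      ∀ i ∈ I, ‖D.y z‖ ≤ A * ‖l i z‖)
    {g g' : Fin R → ℂ → ℂ} (hg : ∀ i, HatF D k M m (g i)) (hg' : ∀ i, HatF D k M m (g' i))
    {Z : ℂ → ℂ} (hZ : Differentiable ℂ Z) (h1 : ∀ z, ∏ i, g i z = D.y z 0 ^ (s * κ) * Z z)
    (h2 : ∀ I : Finset (Fin R), I.card = κ → ∀ z,
      (∏ i ∈ I, g' i z) * ∏ i ∈ Iᶜ, g i z = (∏ i ∈ I, l i z ^ s) * Z z)
    {z : ℂ} {ν : ℕ} (hν : (ν : ℕ∞) ≤ analyticOrderAt D.Fy z) :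
    ((R * m * (ν - 1) : ℕ) : ℕ∞) ≤ analyticOrderAt Z z := by
  classical
  by_cases hz : D.y z 0 = 0
  · have hne : 0 < ‖D.y z‖ := norm_pos_iff.2 (D.hy.ne_zero z)
    rcases hA z with h | ⟨I, hI, h⟩
    · rw [hz, norm_zero, mul_zero] at h
      exact absurd h (not_le.2 hne)
    · have hu0 : (∏ i ∈ I, l i z ^ s) ≠ 0 := by
        refine Finset.prod_ne_zero_iff.2 fun i hi => pow_ne_zero _ fun h3 => ?_
        have h4 := h i hi
        rw [h3, norm_zero, mul_zero] at h4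
        exact absurd h4 (not_le.2 hne)
      have hud : Differentiable ℂ (fun w => ∏ i ∈ I, l i w ^ s) :=
        Differentiable.fun_finsetProd fun i _ => (hl i).pow s
      rw [← c9_unit hud hZ hu0]
      have h3 : (fun w => (∏ i ∈ I, l i w ^ s) * Z w) =
          (fun w => ∏ i ∈ I, g' i w) * fun w => ∏ i ∈ Iᶜ, g i w := by
        funext w
        rw [← h2 I hI w]
        rfl
      have ha1 : AnalyticAt ℂ (fun w => ∏ i ∈ I, g' i w) z :=
        (Differentiable.fun_finsetProd fun i _ => (hg' i).diff).analyticAt z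
      have ha2 : AnalyticAt ℂ (fun w => ∏ i ∈ Iᶜ, g i w) z :=
        (Differentiable.fun_finsetProd fun i _ => (hg i).diff).analyticAt z
      rw [h3, analyticOrderAt_mul ha1 ha2]
      have h4 := c9_prod I (f := g') (z := z) (q := m * ν) (fun i _ => (hg' i).diff)
        fun i _ => (hg' i).ord2 z ν hν hz
      have h5 := c9_prod Iᶜ (f := g) (z := z) (q := m * ν) (fun i _ => (hg i).diff)
        fun i _ => (hg i).ord2 z ν hν hz
      refine le_trans ?_ (add_le_add h4 h5)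
      rw [← Nat.cast_add]
      refine Nat.cast_le.2 ?_
      rw [← add_mul, Finset.card_add_card_compl, Fintype.card_fin, ← mul_assoc]
      exact Nat.mul_le_mul_left _ (Nat.sub_le ν 1)
  · have hud : Differentiable ℂ (fun w => D.y w 0 ^ (s * κ)) := (D.hy.diff 0).pow _
    rw [← c9_unit hud hZ (pow_ne_zero _ hz)]
    have h3 : (fun w => D.y w 0 ^ (s * κ) * Z w) = fun w => ∏ i, g i w := by
      funext w
      rw [h1 w]
    rw [h3]
    have h4 := c9_prod Finset.univ (f := g) (z := z) (q := m * (ν - 1)) (fun i _ => (hg i).diff)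
      fun i _ => (hg i).ord1 z ν hν hz
    rw [Finset.card_univ, Fintype.card_fin, ← mul_assoc] at h4
    exact h4

/-- Chunk C9b (M).  Copy of the bound in the proof of `propKD` in Lib/H53V/N3.lean: let `C0 ≥ 0` be the sum of the constants of all `g i`, `g' i` and `B = C0 ‖Fy‖ ^ m ‖y‖ ^ M Λ ^ (2 M + m)`:
`‖∏ g i‖ ≤ B ^ R`, `‖(∏_I g') (∏_(not I) g)‖ ≤ B ^ R`.  If `‖y‖ ≤ A ‖y 0‖`: `‖Z‖ ‖y‖ ^ (s κ) ≤ A ^ (s κ) ‖Z‖ ‖y 0‖ ^ (s κ) = A ^ (s κ) ‖∏ g i‖`; otherwise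
`‖y‖ ^ (s κ) ≤ A ^ (s κ) ‖∏_I l i ^ s‖`.  `C := A ^ (s κ) * C0 ^ R`. -/
theorem quot_bd {M m s R κ : ℕ} (D : CurveData n d)
    {l : Fin R → ℂ → ℂ} {A : ℝ} (hA0 : 0 < A)
    (hA : ∀ z, ‖D.y z‖ ≤ A * ‖D.y z 0‖ ∨ ∃ I : Finset (Fin R), I.card = κ ∧
      ∀ i ∈ I, ‖D.y z‖ ≤ A * ‖l i z‖)
    {g g' : Fin R → ℂ → ℂ} (hg : ∀ i, HatF D k M m (g i)) (hg' : ∀ i, HatF D k M m (g' i))
    {Z : ℂ → ℂ} (h1 : ∀ z, ∏ i, g i z = D.y z 0 ^ (s * κ) * Z z)
    (h2 : ∀ I : Finset (Fin R), I.card = κ → ∀ z,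
      (∏ i ∈ I, g' i z) * ∏ i ∈ Iᶜ, g i z = (∏ i ∈ I, l i z ^ s) * Z z) :
    ∃ C : ℝ, 0 ≤ C ∧ ∀ z, (∀ j, D.y z j ≠ 0) → D.Fy z ≠ 0 →
      ‖Z z‖ * ‖D.y z‖ ^ (s * κ) ≤ C * ‖D.Fy z‖ ^ (R * m) * ‖D.y z‖ ^ (R * M) *
        Lam D.y D.Fy d k z ^ (R * (2 * M + m)) := by
  classical
  choose CP hCP hbP using fun i => (hg i).bd
  choose CQ hCQ hbQ using fun i => (hg' i).bd
  have hSP : 0 ≤ ∑ i, CP i := Finset.sum_nonneg fun i _ => hCP i
  have hSQ : 0 ≤ ∑ i, CQ i := Finset.sum_nonneg fun i _ => hCQ i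
  set CC : ℝ := ∑ i, CP i + ∑ i, CQ i with hCC
  have hCC0 : 0 ≤ CC := add_nonneg hSP hSQ
  refine ⟨A ^ (s * κ) * CC ^ R, by positivity, fun z hz hF => ?_⟩
  have hL := one_le_Lam D.y D.Fy d k z
  have hL0 : 0 ≤ Lam D.y D.Fy d k z := by linarith
  set B : ℝ := CC * ‖D.Fy z‖ ^ m * ‖D.y z‖ ^ M * Lam D.y D.Fy d k z ^ (2 * M + m) with hB
  have hB0 : 0 ≤ B := by positivity
  have bP : ∀ i, ‖g i z‖ ≤ B := by
    intro i
    refine (hbP i z hz hF).trans ?_
    have h3 : CP i ≤ CC := by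
      have := Finset.single_le_sum (f := CP) (fun i _ => hCP i) (Finset.mem_univ i)
      linarith
    rw [hB]
    gcongr
  have bQ : ∀ i, ‖g' i z‖ ≤ B := by
    intro i
    refine (hbQ i z hz hF).trans ?_
    have h3 : CQ i ≤ CC := by
      have := Finset.single_le_sum (f := CQ) (fun i _ => hCQ i) (Finset.mem_univ i)
      linarith
    rw [hB]
    gcongr
  have hBR : B ^ R = CC ^ R * ‖D.Fy z‖ ^ (R * m) * ‖D.y z‖ ^ (R * M) *
      Lam D.y D.Fy d k z ^ (R * (2 * M + m)) := by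
    rw [hB, mul_pow, mul_pow, mul_pow, ← pow_mul, ← pow_mul, ← pow_mul, mul_comm m R, mul_comm M R,
      mul_comm (2 * M + m) R]
  have concl : ∀ (lv rv : ℂ), ‖D.y z‖ ^ (s * κ) ≤ A ^ (s * κ) * ‖lv‖ → rv = lv * Z z →
      ‖rv‖ ≤ B ^ R → ‖Z z‖ * ‖D.y z‖ ^ (s * κ) ≤
        A ^ (s * κ) * CC ^ R * ‖D.Fy z‖ ^ (R * m) * ‖D.y z‖ ^ (R * M) *
        Lam D.y D.Fy d k z ^ (R * (2 * M + m)) := by
    intro lv rv e1 e2 e3
    calc ‖Z z‖ * ‖D.y z‖ ^ (s * κ) ≤ ‖Z z‖ * (A ^ (s * κ) * ‖lv‖) :=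
          mul_le_mul_of_nonneg_left e1 (norm_nonneg _)
      _ = A ^ (s * κ) * ‖rv‖ := by rw [e2, norm_mul]; ring
      _ ≤ A ^ (s * κ) * B ^ R := mul_le_mul_of_nonneg_left e3 (by positivity)
      _ = _ := by
          rw [hBR]
          ring
  rcases hA z with h | ⟨I, hI, h⟩
  · refine concl (D.y z 0 ^ (s * κ)) (∏ i, g i z) ?_ (h1 z) ?_
    · rw [norm_pow, ← mul_pow]
      exact pow_le_pow_left₀ (norm_nonneg _) h _
    · rw [norm_prod]
      calc ∏ i, ‖g i z‖ ≤ ∏ _i : Fin R, B :=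
            Finset.prod_le_prod (fun _ _ => norm_nonneg _) fun i _ => bP i
        _ = B ^ R := by rw [Finset.prod_const, Finset.card_univ, Fintype.card_fin]
  · refine concl (∏ i ∈ I, l i z ^ s) ((∏ i ∈ I, g' i z) * ∏ i ∈ Iᶜ, g i z) ?_ (h2 I hI z) ?_
    · rw [norm_prod]
      have h3 : ‖D.y z‖ ^ (s * κ) = ∏ _i ∈ I, ‖D.y z‖ ^ s := by
        rw [Finset.prod_const, hI, ← pow_mul]
      have h4 : A ^ (s * κ) * ∏ i ∈ I, ‖l i z ^ s‖ = ∏ i ∈ I, (A * ‖l i z‖) ^ s := by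
        have h5 : A ^ (s * κ) = ∏ _i ∈ I, A ^ s := by
          rw [Finset.prod_const, hI, ← pow_mul]
        rw [h5, ← Finset.prod_mul_distrib]
        refine Finset.prod_congr rfl fun i _ => ?_
        rw [norm_pow, mul_pow]
      rw [h3, h4]
      refine Finset.prod_le_prod (fun _ _ => by positivity) fun i hi => ?_
      exact pow_le_pow_left₀ (norm_nonneg _) (h i hi) _
    · rw [norm_mul, norm_prod, norm_prod]
      have h3 : ∏ i ∈ I, ‖g' i z‖ ≤ ∏ _i ∈ I, B :=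
        Finset.prod_le_prod (fun _ _ => norm_nonneg _) fun i _ => bQ i
      have h4 : ∏ i ∈ Iᶜ, ‖g i z‖ ≤ ∏ _i ∈ Iᶜ, B :=
        Finset.prod_le_prod (fun _ _ => norm_nonneg _) fun i _ => bP i
      have h5 : (∏ _i ∈ I, B) * ∏ _i ∈ Iᶜ, B = B ^ R := by
        rw [Finset.prod_mul_prod_compl, Finset.prod_const, Finset.card_univ, Fintype.card_fin]
      rw [← h5]
      exact mul_le_mul h3 h4 (Finset.prod_nonneg fun _ _ => norm_nonneg _)
        (Finset.prod_nonneg fun _ _ => hB0)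

end Pool.Agent.H53L
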