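import Pool.Agent.Lib.H53L.D0
import Pool.Agent.Lib.H89T.DG
import Pool.Agent.Lib.H89T.DP3
import Pool.Agent.Lib.H53U.Q3
import Pool.Agent.Lib.H53U.Q4

set_option autoImplicit false

/-!
H53L, module C (analysis): definitions.  `y` is a reduced representation of an entire curve in the projective
space (`CurveData`, `Lib/H89T/DDefs.lean`), `Fy = F (y)`, `ch 0 y` its affine coordinates, `eta y 0 b l / y 0 ^ (l + 1)` their
Taylor coefficients, `Lam` the sum of the logarithmic derivatives.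
-/

open MvPolynomial Filter Topology

namespace Pool.Agent.H53L

open Pool.Agent.H89T Pool.Agent.H67T Pool.Agent.H53U

/-- The numerators of the Taylor coefficients of `h / y0 ^ d`: the `l`-th one is
`Ul y0 h d l / y0 ^ (d + l)`. -/
noncomputable def Ul (y0 h : ℂ → ℂ) (d : ℕ) : ℕ → ℂ → ℂ
  | 0 => h
  | l + 1 => fun z => (deriv (Ul y0 h d l) z * y0 z -
      ((d : ℂ) + l) * Ul y0 h d l z * deriv y0 z) / ((l : ℂ) + 1)

/-- The entire function `y 0 ^ (M + d * m) * (generator)`, for the generator of `LTyg` with the exponents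
`μ, j, lam`. -/
noncomputable def genf {n d k : ℕ} (D : CurveData n d) (M m : ℕ) (μ : JV n k →₀ ℕ) (j : ℕ)
    (lam : Fin k → ℕ) (z : ℂ) : ℂ :=
  D.y z 0 ^ (M - (wt μ + d * j + lw lam)) * (∏ p : JV n k, eta D.y 0 p.1 (p.2 : ℕ) z ^ μ p) *
    (D.Fy z ^ (j + (m - ld lam)) *
      ∏ i : Fin k, Ul (fun w => D.y w 0) D.Fy d ((i : ℕ) + 1) z ^ lam i)

/-- The analytic properties of the entire function `y 0 ^ (M + d * m) * G (jet)`, `G` a logarithmic jet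
differential. -/
structure HatF {n d : ℕ} (D : CurveData n d) (k M m : ℕ) (g : ℂ → ℂ) : Prop where
  diff : Differentiable ℂ g
  ord1 : ∀ (z : ℂ) (ν : ℕ), (ν : ℕ∞) ≤ analyticOrderAt D.Fy z → D.y z 0 ≠ 0 →
    ((m * (ν - 1) : ℕ) : ℕ∞) ≤ analyticOrderAt g z
  ord2 : ∀ (z : ℂ) (ν : ℕ), (ν : ℕ∞) ≤ analyticOrderAt D.Fy z → D.y z 0 = 0 →
    ((m * ν : ℕ) : ℕ∞) ≤ analyticOrderAt g z
  bd : ∃ C : ℝ, 0 ≤ C ∧ ∀ z, (∀ j, D.y z j ≠ 0) → D.Fy z ≠ 0 →
    ‖g z‖ ≤ C * ‖D.Fy z‖ ^ m * ‖D.y z‖ ^ M * Lam D.y D.Fy d k z ^ (2 * M + m)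

end Pool.Agent.H53L
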