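import Pool.Agent.Lib.H53L.C7
import Pool.Agent.Lib.H53L.C8
import Pool.Agent.Lib.H53L.C9
import Pool.Agent.Lib.H53L.C10

set_option autoImplicit false

/-!
H53L, module C: analysis.
-/

open MvPolynomial Real MeasureTheory

namespace Pool.Agent.H53L

open Pool.Agent.H89T Pool.Agent.H67T Pool.Agent.H53U Pool.Agent.H53V Pool.Agent.H44K

/-- The numbers. -/
theorem cm_num {q ν M m s δ : ℕ} (h : (q + 1) * (M + δ * m) + 1 ≤ q * s) :
    (q * ν + 1 + ν) * m * δ + (q * ν + 1 + ν) * M + 1 ≤ s * (q * ν + 1) := by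
  have hsM : M + δ * m + 1 ≤ s := by
    by_contra hcon
    have h1 : s ≤ M + δ * m := by omega
    have h2 : q * s ≤ q * (M + δ * m) := Nat.mul_le_mul_left _ h1
    have h3 : (q + 1) * (M + δ * m) = q * (M + δ * m) + (M + δ * m) := by ring
    omega
  have h1 : ν * ((q + 1) * (M + δ * m) + 1) ≤ ν * (q * s) := Nat.mul_le_mul_left _ h
  have h2 : s * (q * ν + 1) = ν * (q * s) + s := by ring
  have h3 : (q * ν + 1 + ν) * m * δ + (q * ν + 1 + ν) * M + 1 + ν =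
      ν * ((q + 1) * (M + δ * m) + 1) + (M + δ * m + 1) := by ring
  omega

/-- One curve. -/
theorem cm_curve {ν k d M m s q δ R κ : ℕ} (hκ : κ = q * ν + 1) (hR : R = q * ν + 1 + ν)
    (hd : 1 ≤ d) (hm : 1 ≤ m)
    (hs : (q + 1) * (M + δ * m) + 1 ≤ q * s) (D : CurveData (ν + 1) d)
    {τ : Fin R → ℂ} (hτ : Function.Injective τ)
    {G H : Fin R → MvPolynomial (JV (ν + 1) k) ℂ}
    (hG : ∀ i, LTy (D.a 0) M m (G i)) (hH : ∀ i, LTy (D.a 0) M m (H i))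
    (hrel : ∀ i, linK k (fun g : Fin (ν + 1) => τ i ^ (g : ℕ)) ^ s * G i = H i)
    {z₁ : ℂ} (hz₁ : D.y z₁ 0 ≠ 0) (hne : ∀ i, eval (jetf k (ch 0 D.y) z₁) (G i) ≠ 0) :
    ∃ (C : ℝ) (E : Set ℝ), volume E < ⊤ ∧ ∀ r : ℝ, 2 ≤ r → r ∉ E →
      ((δ : ℝ) + 1 / (2 * ((R * m : ℕ) : ℝ))) * chi D.y r ≤
        N1 D.Fy r + C * log r := by
  have hR' : R + 1 = κ + (ν + 1) := by omega
  choose g hg hgG using fun i => exists_hat hd D (hG i)
  choose g' hg' hgH using fun i => exists_hat hd D (hH i)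
  -- the multipliers
  obtain ⟨A, hA0, hA⟩ := genpos hR' (fun g : Fin (ν + 1) => g) hτ (fun _ => 0) zero_le_one
  set l : Fin R → ℂ → ℂ := fun i z => ∑ g : Fin (ν + 1), τ i ^ (g : ℕ) * D.y z g.succ with hl
  have hA' : ∀ z, ‖D.y z‖ ≤ A * ‖D.y z 0‖ ∨ ∃ I : Finset (Fin R), I.card = κ ∧
      ∀ i ∈ I, ‖D.y z‖ ≤ A * ‖l i z‖ := by
    intro z
    have h1 := hA (D.y z) (by
      obtain ⟨j, hj⟩ := Finite.exists_max fun j => ‖D.y z j‖
      have h2 : ‖D.y z‖ ≤ ‖D.y z j‖ := (pi_norm_le_iff_of_nonneg (norm_nonneg _)).2 hj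
      rcases Fin.eq_zero_or_eq_succ j with h | ⟨i, h⟩
      · left
        rw [one_mul, ← h]
        exact h2
      · right
        refine ⟨i, ?_⟩
        rw [one_mul, ← h]
        exact h2)
    simpa only [zero_mul, add_zero] using h1
  have hld : ∀ i, Differentiable ℂ (l i) := fun i =>
    Differentiable.fun_sum fun g _ => (D.hy.diff _).const_mul _
  have hrel' : ∀ i z, D.y z 0 ≠ 0 → l i z ^ s * g i z = D.y z 0 ^ s * g' i z := by
    intro i z hz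
    rw [hgG i z hz, hgH i z hz, ← hrel i, map_mul, map_pow]
    have h1 : l i z = D.y z 0 * eval (jetf k (ch 0 D.y) z)
        (linK k fun g : Fin (ν + 1) => τ i ^ (g : ℕ)) := by
      unfold linK
      rw [hl, map_sum, Finset.mul_sum]
      refine Finset.sum_congr rfl fun b _ => ?_
      rw [map_mul, eval_C, eval_X]
      have h2 : jetf k (ch 0 D.y) z (b, 0) = D.y z b.succ / D.y z 0 := by
        simp [jetf, ch, Fin.zero_succAbove]
      rw [h2]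
      field_simp
    rw [h1, mul_pow]
    ring
  have hne' : ∀ i, ∃ z, g i z ≠ 0 := by
    intro i
    refine ⟨z₁, ?_⟩
    rw [hgG i z₁ hz₁]
    exact mul_ne_zero (pow_ne_zero _ hz₁) (hne i)
  obtain ⟨Z, hZ, hZ0, h1, h2⟩ := exists_quot D hld hA' hg hg' hrel' hne'
  obtain ⟨C₀, hC₀, hB⟩ := quot_bd D hA0 hA' hg hg' h1 h2
  have hRm : 1 ≤ R * m := Nat.one_le_iff_ne_zero.2 (by
    have : R ≠ 0 := by omega
    positivity)
  have hcore := coreL D hRm hZ hZ0 (fun z ν hν => quot_ord D hld hA' hg hg' hZ h1 h2 hν) hC₀ hB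
  refine smtL D hRm ?_ hcore
  have h3 := cm_num (ν := ν) hs
  rw [← hR, ← hκ] at h3
  exact h3

/-- MODULE C. -/
theorem smtPt_of_algLog {n k q δ d : ℕ} (hn : 1 ≤ n) (hk : 1 ≤ k) (hd : 1 ≤ d)
    (h : AlgLog n k q δ d) : ∃ c : ℝ, 0 < c ∧ SmtPt n d δ c := by
  obtain ⟨ν, rfl⟩ : ∃ ν, n = ν + 1 := ⟨n - 1, by omega⟩
  obtain ⟨M, m, s, hm, hs, hmain⟩ := h
  set τ : Fin (q * ν + 1 + ν) → ℂ := fun i => ((i : ℕ) : ℂ) with hτ
  have hτi : Function.Injective τ := by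
    intro i j hij
    have h1 : ((i : ℕ) : ℂ) = ((j : ℕ) : ℂ) := hij
    exact Fin.ext (by exact_mod_cast h1)
  choose W hW hWm using fun i : Fin (q * ν + 1 + ν) =>
    hmain fun g : Fin (ν + 1) => τ i ^ (g : ℕ)
  have hRm : (0 : ℝ) < (((q * ν + 1 + ν) * m : ℕ) : ℝ) := by
    have : 0 < (q * ν + 1 + ν) * m := by positivity
    exact_mod_cast this
  refine ⟨1 / (2 * (((q * ν + 1 + ν) * m : ℕ) : ℝ)), by positivity, ?_⟩
  obtain ⟨q₀, Θ, hq₀, hΘ, hΘ'⟩ := exists_point (k := d) (Finset.prod_ne_zero_iff.2 fun i _ => hW i)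
  have hd0 : (d : ℝ) ≠ 0 := by positivity
  refine all_points hq₀ hΘ (fun F hF hF0 => ?_) (q := Pi.single 0 1) (by
    intro h0
    have := congrFun h0 0
    simp at this)
  obtain ⟨G, hqG, hG⟩ := hΘ' F hF hF0
  refine ⟨G, hqG, ?_⟩
  rintro y hy hnc ⟨z₀, hz₀⟩
  refine ⟨⟨z₀, (hG _ hz₀).1⟩, ?_⟩
  have hc0 : ∀ c, ∃ z, y z c ≠ 0 := fun c => ⟨z₀, ((hG _ hz₀).2 c).1⟩
  set D := mkData hF hy ⟨z₀, (hG _ hz₀).1⟩ hc0 with hD
  have hGc : Continuous fun z => eval (y z) G := (differentiable_eval hy.diff G).continuous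
  obtain ⟨z₁, hz₁, b, hb⟩ := dp3_point hy hnc 0 hGc (fun z hz => ((hG _ hz).2 0).1) hz₀
  have hy1 := ((hG _ hz₁).2 0).1
  have hjet0 : (fun b => jetf k (ch 0 y) z₁ (b, 0)) = ch 0 y z₁ := by
    funext b
    simp [jetf]
  have hW1 : ∀ i, eval (Sum.elim (fun b => jetf k (ch 0 y) z₁ (b, 0)) (cfF d 0 F)) (W i) ≠ 0 := by
    intro i
    have h1 := ((hG _ hz₁).2 0).2
    rw [map_prod, Finset.prod_ne_zero_iff] at h1
    rw [hjet0]
    exact h1 i (Finset.mem_univ i)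
  have hev : ev (cfF d 0 F) (fun b => jetf k (ch 0 y) z₁ (b, 0)) ≠ 0 := by
    rw [hjet0]
    have h1 := ev_cf 0 hF hy1
    change ev (cfF d 0 F) (fun b => y z₁ ((0 : Fin (ν + 1 + 1)).succAbove b) / y z₁ 0) ≠ 0
    rw [h1]
    exact div_ne_zero (hG _ hz₁).1 (pow_ne_zero _ hy1)
  have hj1 : ∃ b, ∃ i : Fin (k + 1), (i : ℕ) = 1 ∧ jetf k (ch 0 y) z₁ (b, i) ≠ 0 := by
    refine ⟨b, ⟨1, by omega⟩, rfl, ?_⟩
    simp only [jetf, iteratedDeriv_one, Nat.factorial_one, Nat.cast_one, div_one]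
    exact hb
  choose GG HH hGG hHH hrel hne using fun i => hWm i (cfF d 0 F) (jetf k (ch 0 y) z₁) (hW1 i) hev hj1
  have hfin := cm_curve rfl rfl hd hm hs D hτi (G := GG) (H := HH) hGG hHH hrel hy1 hne
  obtain ⟨C, E, hE, hr⟩ := hfin
  refine ⟨C, E, hE, fun r h2 hrE => ?_⟩
  have h3 := hr r h2 hrE
  have h4 : (1 - (1 - ((δ : ℝ) + 1 / (2 * (((q * ν + 1 + ν) * m : ℕ) : ℝ))) / d)) * d =
      (δ : ℝ) + 1 / (2 * (((q * ν + 1 + ν) * m : ℕ) : ℝ)) := by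
    field_simp
    ring
  rw [h4]
  exact h3

end Pool.Agent.H53L
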