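import Pool.Agent.Lib.H53L.Final
import Pool.Agent.Lib.H89T.DP5
import Pool.Agent.Lib.H89T.T3
import Pool.Agent.Lib.H49B.Gen
import Pool.Agent.Lib.H78N.Final

set_option autoImplicit false

/-!
H53L: entire curves in covers (port of H89T/DP5, T3 with explicit constants).
-/

open MvPolynomial Real MeasureTheory Pool.Agent.H67T Pool.Agent.H89T

namespace Pool.Agent.H53L

variable {m n : ℕ}

/-- Curves in covers. -/
theorem cov_R_eq_zero {D d e k : ℕ} (hD : 1 ≤ D) (he : 1 ≤ e) {ε κ : ℝ}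
    (hκ : κ < (1 - ε) * k) {F : MvPolynomial (Fin (n + 1)) ℂ}
    (hF : ∀ y : ℂ → Fin (n + 1) → ℂ, IsHol y → (∃ z w, ∀ c : ℂ, y w ≠ c • y z) →
      (∃ z, eval (y z) F ≠ 0) → Smt ε k F y)
    {w : Fin m → ℕ} (hw : ∀ i, 1 ≤ w i) {J : Ideal (MvPolynomial (Fin m) ℂ)}
    (hJ : Stable w J)
    {f : Fin (n + 1) → MvPolynomial (Fin m) ℂ} (hf : ∀ j, (f j).IsWeightedHomogeneous w D)
    (hf0 : ∀ x : Fin m → ℂ, x ≠ 0 → (∀ F ∈ J, eval x F = 0) → ∃ j, eval x (f j) ≠ 0)
    {R : MvPolynomial (Fin m) ℂ} (hR : R.IsWeightedHomogeneous w d)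
    (hd : (d : ℝ) ≤ e * (κ * D))
    {u : ℂ → Fin m → ℂ} (hu : IsHol u) (huJ : ∀ z, ∀ F ∈ J, eval (u z) F = 0)
    (hord' : ∀ z, eval (fun j => eval (u z) (f j)) F = 0 →
      (e : ℕ∞) ≤ analyticOrderAt (fun z => eval (u z) R) z)
    (hnc : ∃ z z', ∀ t : ℂ, u z' ≠ act w t (u z)) (z₁ : ℂ) : eval (u z₁) R = 0 := by
  classical
  have hord : ∀ z, eval (fun j => eval (u (Complex.exp z)) (f j)) F = 0 →
      (e : ℕ∞) ≤ analyticOrderAt (fun z => eval (u (Complex.exp z)) R) z := by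
    intro z hz
    have h1 := analyticOrderAt_comp_of_deriv_ne_zero (f := fun z => eval (u z) R)
      (Complex.differentiable_exp.analyticAt z) (by rw [Complex.deriv_exp]; exact Complex.exp_ne_zero z)
    have h2 : (fun z => eval (u z) R) ∘ Complex.exp = fun z => eval (u (Complex.exp z)) R := rfl
    rw [← h2, h1]
    exact hord' _ hz
  by_contra hz₁
  have hφ : Differentiable ℂ fun z => eval (u z) R := differentiable_eval hu.diff _
  obtain ⟨w₀, hw0, hw₀⟩ : ∃ w₀ : ℂ, w₀ ≠ 0 ∧ eval (u w₀) R ≠ 0 := by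
    by_contra hcon
    push Not at hcon
    apply hz₁
    have h1 : (fun z => eval (u z) R) = fun _ => 0 := by
      apply hφ.continuous.ext_on (dense_compl_singleton (0 : ℂ)) continuous_const
      intro z hz
      exact hcon z hz
    exact congrFun h1 z₁
  -- the curve in projective space
  set y₀ : ℂ → Fin (n + 1) → ℂ := fun z j => eval (u z) (f j) with hy₀
  have hy₀h : IsHol y₀ := by
    refine ⟨fun j => differentiable_eval hu.diff (f j), fun z h => ?_⟩
    obtain ⟨j, hj⟩ := hf0 (u z) (hu.ne_zero z) (huJ z)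
    exact hj (congrFun h j)
  have hy₀nc : ∃ z w, ∀ c : ℂ, y₀ w ≠ c • y₀ z := nonconstant_comp hw hJ hD hf hf0 hu huJ hnc
  set v : ℂ → Fin m → ℂ := fun z => u (Complex.exp z) with hv
  have hvh : IsHol v := ⟨fun j => (hu.diff j).comp Complex.differentiable_exp,
    fun z => hu.ne_zero _⟩
  have hvJ : ∀ z, ∀ F ∈ J, eval (v z) F = 0 := fun z => huJ _
  set y : ℂ → Fin (n + 1) → ℂ := fun z => y₀ (Complex.exp z) with hy
  have hyh : IsHol y := ⟨fun j => (hy₀h.diff j).comp Complex.differentiable_exp,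
    fun z => hy₀h.ne_zero _⟩
  have hync : ∃ z w, ∀ c : ℂ, y w ≠ c • y z := nonconstant_exp hy₀h hy₀nc
  have hvw : v (Complex.log w₀) = u w₀ := by
    rw [hv]
    simp only
    rw [Complex.exp_log hw0]
  have hR0 : ∃ z, eval (v z) R ≠ 0 := ⟨Complex.log w₀, by rw [hvw]; exact hw₀⟩
  have hyF : ∃ z, eval (y z) F ≠ 0 := by
    refine ⟨Complex.log w₀, fun h0 => ?_⟩
    have h1 := hord (Complex.log w₀) h0
    have h2 : analyticOrderAt (fun z => eval (v z) R) (Complex.log w₀) = 0 := by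
      rw [((differentiable_eval hvh.diff R).analyticAt _).analyticOrderAt_eq_zero, hvw]
      exact hw₀
    rw [h2] at h1
    have h3 : e = 0 := by
      have h4 : (e : ℕ∞) = 0 := le_antisymm h1 zero_le
      exact_mod_cast h4
    omega
  obtain ⟨C, E, hE, hsmt⟩ := hF y hyh hync hyF
  -- counting
  obtain ⟨K₁, hK₁⟩ := counting_le (ι := Unit) (g := fun _ z => eval (y z) F) (e := e)
    (fun _ => differentiable_eval hyh.diff F) (fun _ => hyF) (differentiable_eval hvh.diff R) hR0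
    (fun z U hU => by
      rcases U.eq_empty_or_nonempty with h0 | ⟨i, hi⟩
      · rw [h0]
        simp
      · have h1 : U.card = 1 := by
          refine le_antisymm ?_ (Finset.card_pos.2 ⟨i, hi⟩)
          have := Finset.card_le_univ U
          simpa using this
        rw [h1, mul_one]
        exact hord z (hU i hi))
  -- the average
  obtain ⟨A, hA1, hA⟩ := form_le hw hJ hf hf0 hR
  have havg : ∀ r : ℝ, 1 ≤ r → D * circleAverage (fun z => log ‖eval (v z) R‖) 0 r ≤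
      d * chi y r + log A := by
    intro r hr
    have hdv := differentiable_eval hvh.diff R
    have hi : CircleIntegrable (fun z => log ‖y z‖) 0 r :=
      (GH4_continuous_log hyh).continuousOn.circleIntegrable'
    have h2 : CircleIntegrable (fun z => (d : ℝ) * log ‖y z‖) 0 r :=
      hi.const_smul (a := (d : ℝ))
    have hi' : CircleIntegrable (fun z => log ‖eval (v z) R‖) 0 r :=
      MeromorphicOn.circleIntegrable_log_norm fun z _ => (hdv.analyticAt z).meromorphicAt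
    have e1 : (d : ℝ) * chi y r + log A =
        circleAverage (fun z => (d : ℝ) * log ‖y z‖ + log A) 0 r := by
      have h3 : circleAverage (fun z => (d : ℝ) * log ‖y z‖) 0 r = (d : ℝ) * chi y r :=
        circleAverage_smul (a := (d : ℝ)) (f := fun z => log ‖y z‖) (c := 0) (R := r)
      rw [circleAverage_fun_add h2 (circleIntegrable_const _ _ _), h3, circleAverage_const]
    have e2 : (D : ℝ) * circleAverage (fun z => log ‖eval (v z) R‖) 0 r =
        circleAverage (fun z => (D : ℝ) * log ‖eval (v z) R‖) 0 r :=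
      (circleAverage_smul (a := (D : ℝ)) (f := fun z => log ‖eval (v z) R‖) (c := 0)
        (R := r)).symm
    rw [e1, e2]
    refine GH4_average_mono hdv hR0 (by linarith) (hi'.const_smul (a := (D : ℝ)))
      (h2.add (circleIntegrable_const _ _ _)) ?_
    intro z hz
    have h5 : 0 < ‖y z‖ := norm_pos_iff.mpr (hyh.ne_zero z)
    have h6 : 0 < ‖eval (v z) R‖ := norm_pos_iff.mpr hz
    have h4 := log_le_log (by positivity) (hA (v z) (hvh.ne_zero z) (hvJ z))
    rw [log_mul (by linarith) (by exact (pow_pos h5 d).ne'), log_pow, log_pow] at h4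
    have h7 : (fun j => eval (v z) (f j)) = y z := rfl
    rw [h7] at h4
    linarith
  obtain ⟨c₀, K₃, hc₀, hK₃⟩ := chi_exp_ge hy₀h hy₀nc
  -- numbers
  have hD0 : (1 : ℝ) ≤ D := by exact_mod_cast hD
  have he0 : (1 : ℝ) ≤ e := by exact_mod_cast he
  obtain ⟨η, hη⟩ : ∃ η, η = (1 - ε) * k - κ := ⟨_, rfl⟩
  have hη0 : 0 < η := by rw [hη]; linarith
  obtain ⟨r, hr2, hr0, hrE, hbig⟩ := gg1_large hE (K₃ / c₀) (η * c₀) C
    (η * K₃ + (D * K₁ + log A) / (D * e)) (by positivity)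
  have b1 := hsmt r hr2 hrE
  have b2 := hK₁ r (by linarith)
  have b3 := havg r (by linarith)
  have b5 : c₀ * r - K₃ ≤ chi y r := hK₃ r (by linarith)
  have b6 : 0 ≤ chi y r := by
    rw [div_le_iff₀ hc₀] at hr0
    linarith
  simp only [Finset.univ_unique, Finset.sum_const, Finset.card_singleton, one_smul] at b2
  set NN := N1 (fun z => eval (y z) F) r with hNN
  have b7 : NN ≤ κ * chi y r + (D * K₁ + log A) / (D * e) := by
    have h1 : (D * e : ℝ) * NN ≤ (D * e) *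
        (κ * chi y r + (D * K₁ + log A) / (D * e)) := by
      have h2 : (d : ℝ) * chi y r ≤ e * (κ * D) * chi y r :=
        mul_le_mul_of_nonneg_right hd b6
      have h3 : (D * e : ℝ) * ((D * K₁ + log A) / (D * e)) = D * K₁ + log A := by
        have : (D : ℝ) ≠ 0 := by positivity
        have : (e : ℝ) ≠ 0 := by positivity
        field_simp
      have h4 : (D : ℝ) * (e * NN) ≤
          D * (circleAverage (fun z => log ‖eval (v z) R‖) 0 r + K₁) :=
        mul_le_mul_of_nonneg_left b2 (by linarith)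
      rw [mul_add, h3]
      linarith
    exact le_of_mul_le_mul_left h1 (by positivity)
  have b9 : η * (c₀ * r - K₃) ≤ η * chi y r :=
    mul_le_mul_of_nonneg_left b5 hη0.le
  have b11 : (1 - ε) * k * chi y r = κ * chi y r + η * chi y r := by
    rw [hη]
    ring
  linarith



/-- Generic hypersurfaces `F = 0` in `ℙ ^ n` of degree `d ≥ 1 + 1000 n ^ 2 (6 + log n) ^ 2` are Brody hyperbolic. -/
theorem hyp_explicit {n d : ℕ} (hn : 1 ≤ n) (hd : 1 + 1000 * (n : ℝ) ^ 2 * (6 + Real.log n) ^ 2 ≤ d) :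
    ∃ Θ : MvPolynomial (Fin (n + 1) →₀ ℕ) ℂ, H49B.NonTriv d Θ ∧
      ∀ F : MvPolynomial (Fin (n + 1)) ℂ, F.IsHomogeneous d → eval (fun d => coeff d F) Θ ≠ 0 →
        ∀ y : ℂ → Fin (n + 1) → ℂ, IsHol y → (∀ z, eval (y z) F = 0) →
          ∀ z w, ∃ t : ℂ, y w = t • y z := by
  obtain rfl | hn2 : n = 1 ∨ 2 ≤ n := by omega
  · refine H49B.hyp_one d ?_
    have h1 : (1 : ℝ) ≤ d := by
      refine le_trans ?_ hd
      have : (0 : ℝ) ≤ 1000 * ((1 : ℕ) : ℝ) ^ 2 * (6 + Real.log (1 : ℕ)) ^ 2 := by positivity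
      linarith
    exact_mod_cast h1
  · obtain ⟨m, rfl⟩ : ∃ m, n = m + 1 := ⟨n - 1, by omega⟩
    have hm : 1 ≤ m := by omega
    have hm0 : (1 : ℝ) ≤ m := by exact_mod_cast hm
    have hlog : Real.log m ≤ Real.log ((m + 1 : ℕ) : ℝ) :=
      Real.log_le_log (by linarith) (by push_cast; linarith)
    have hlog0 : 0 ≤ Real.log m := Real.log_nonneg hm0
    have hmono : 1 + 1000 * (m : ℝ) ^ 2 * (6 + Real.log m) ^ 2 ≤ d := by
      refine le_trans ?_ hd
      have h1 : (m : ℝ) ^ 2 ≤ ((m + 1 : ℕ) : ℝ) ^ 2 := by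
        push_cast
        nlinarith
      have h2 : (6 + Real.log m) ^ 2 ≤ (6 + Real.log ((m + 1 : ℕ) : ℝ)) ^ 2 := by
        apply pow_le_pow_left₀ <;> linarith
      have h3 : (m : ℝ) ^ 2 * (6 + Real.log m) ^ 2 ≤
          ((m + 1 : ℕ) : ℝ) ^ 2 * (6 + Real.log ((m + 1 : ℕ) : ℝ)) ^ 2 :=
        mul_le_mul h1 h2 (by positivity) (by positivity)
      linarith
    obtain ⟨Θ, ⟨F, hF, hΘ⟩, h⟩ := H78N.hypU_n2 hm hmono
    have hev : ∀ G : MvPolynomial (Fin (m + 1 + 1)) ℂ, eval (fun d => coeff d G)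
        (rename (fun p : Fin 1 × (Fin (m + 1 + 1) →₀ ℕ) => p.2) Θ) =
        Pool.Agent.H53U.cvs Θ (fun _ : Fin 1 => G) := by
      intro G
      rw [eval_rename]
      rfl
    refine ⟨rename (fun p : Fin 1 × (Fin (m + 1 + 1) →₀ ℕ) => p.2) Θ, ⟨F 0, hF 0, ?_⟩, ?_⟩
    · rw [hev]
      have h1 : (fun _ : Fin 1 => F 0) = F := by
        funext i
        rw [Subsingleton.elim i 0]
      rw [h1]
      exact hΘ
    · intro G hG hG0 y hy hyG
      rw [hev] at hG0
      exact h (fun _ => G) (fun _ => hG) hG0 y hy fun z _ => hyG z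

/-- A curve with the second main theorem meets `F = 0`. -/
theorem meets {k : ℕ} {ε : ℝ} (hε : 0 < (1 - ε) * k) {F : MvPolynomial (Fin (n + 1)) ℂ}
    (hF : ∀ y : ℂ → Fin (n + 1) → ℂ, IsHol y → (∃ z w, ∀ c : ℂ, y w ≠ c • y z) →
      (∃ z, eval (y z) F ≠ 0) → Smt ε k F y)
    {y : ℂ → Fin (n + 1) → ℂ} (hy : IsHol y) (hnc : ∃ z w, ∀ c : ℂ, y w ≠ c • y z) :
    ∃ z, eval (y z) F = 0 := by
  by_contra hcon
  push Not at hcon
  set v : ℂ → Fin (n + 1) → ℂ := fun z => y (Complex.exp z) with hv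
  have hvh : IsHol v := ⟨fun j => (hy.diff j).comp Complex.differentiable_exp,
    fun z => hy.ne_zero _⟩
  have hvnc : ∃ z w, ∀ c : ℂ, v w ≠ c • v z := nonconstant_exp hy hnc
  obtain ⟨C, E, hE, hsmt⟩ := hF v hvh hvnc ⟨0, hcon _⟩
  obtain ⟨c₀, K₃, hc₀, hK₃⟩ := chi_exp_ge hy hnc
  obtain ⟨r, hr2, -, hrE, hbig⟩ := gg1_large hE 0 ((1 - ε) * k * c₀) C ((1 - ε) * k * K₃)
    (by positivity)
  have b1 := hsmt r hr2 hrE
  have b5 : c₀ * r - K₃ ≤ chi v r := hK₃ r (by linarith)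
  have hN : N1 (fun z => eval (v z) F) r = 0 := by
    have h1 : ∀ z, eval (v z) F ≠ 0 := fun z => hcon _
    simp [N1, h1]
  have b6 : (1 - ε) * k * (c₀ * r - K₃) ≤ (1 - ε) * k * chi v r :=
    mul_le_mul_of_nonneg_left b5 hε.le
  rw [hN] at b1
  linarith

end Pool.Agent.H53L
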