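import Pool.Agent.Lib.H53L.Cov
import Pool.Agent.Lib.H89X.XMain

set_option autoImplicit false

/-!
H53L + H89X: the two explicit second main theorems in one form.
-/

open MvPolynomial Real MeasureTheory

namespace Pool.Agent.H53L

open Pool.Agent.H89T Pool.Agent.H67T

/-- The number `ε` with `ε d = 90 n d ^ (2 / 3) (1 + log d)`. -/
theorem exists_eps {n d : ℕ} {κ : ℝ} (hn : 1 ≤ n) (hκ : 0 ≤ κ)
    (hd : κ < d - 90 * n * (d : ℝ) ^ (2 / 3 : ℝ) * (1 + log d)) :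
    1 ≤ d ∧ ∃ ε : ℝ, 0 < ε ∧ ε ≤ 1 ∧ (90 * (n : ℝ) * (1 + log d)) ^ 3 ≤ ε ^ 3 * d ∧
      κ < (1 - ε) * d := by
  have hd1 : 1 ≤ d := by
    rcases Nat.eq_zero_or_pos d with rfl | h
    · have h1 : ((0 : ℕ) : ℝ) ^ (2 / 3 : ℝ) = 0 := by
        rw [Nat.cast_zero]
        exact zero_rpow (by norm_num)
      rw [h1, Nat.cast_zero] at hd
      linarith
    · exact h
  have hD : (1 : ℝ) ≤ d := by exact_mod_cast hd1
  have hD0 : (0 : ℝ) < d := by linarith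
  have hn1 : (1 : ℝ) ≤ n := by exact_mod_cast hn
  have hlog : 0 ≤ log (d : ℝ) := log_nonneg hD
  obtain ⟨q, hq⟩ : ∃ q, q = (d : ℝ) ^ (1 / 3 : ℝ) := ⟨_, rfl⟩
  have hq0 : 0 < q := by rw [hq]; positivity
  have hq3 : q ^ 3 = d := by
    rw [hq, ← rpow_natCast, ← rpow_mul hD0.le]
    norm_num
  have hq2 : (d : ℝ) ^ (2 / 3 : ℝ) = q ^ 2 := by
    rw [hq, ← rpow_natCast, ← rpow_mul hD0.le]
    norm_num
  rw [hq2] at hd
  have hε : 90 * (n : ℝ) * (1 + log d) / q * d = 90 * n * q ^ 2 * (1 + log d) := by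
    rw [← hq3]
    field_simp
  refine ⟨hd1, 90 * n * (1 + log d) / q, by positivity, ?_, ?_, ?_⟩
  · have h1 : 90 * (n : ℝ) * (1 + log d) / q * d < 1 * d := by
      rw [hε]
      linarith
    exact (lt_of_mul_lt_mul_right h1 hD0.le).le
  · rw [div_pow, hq3]
    have : (d : ℝ) ≠ 0 := hD0.ne'
    field_simp
    exact le_refl _
  · rw [sub_mul, one_mul, hε]
    exact hd

/-- The first condition implies that the degree is large. -/
theorem deg_large {n d : ℕ} {ε : ℝ} (hn : 1 ≤ n) (hd : 1 ≤ d) (hε : 0 < ε) (hε1 : ε ≤ 1)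
    (h : (90 * (n : ℝ) * (1 + log d)) ^ 3 ≤ ε ^ 3 * d) :
    1 + 1000 * (n : ℝ) ^ 2 * (6 + log n) ^ 2 ≤ d := by
  have hn1 : (1 : ℝ) ≤ n := by exact_mod_cast hn
  have hD : (1 : ℝ) ≤ d := by exact_mod_cast hd
  have hlogd : 0 ≤ log (d : ℝ) := log_nonneg hD
  have hlogn : 0 ≤ log (n : ℝ) := log_nonneg hn1
  have h1 : ε ^ 3 * d ≤ d := by
    have h2 : ε ^ 3 ≤ 1 := pow_le_one₀ hε.le hε1
    have h3 := mul_le_mul_of_nonneg_right h2 (show (0 : ℝ) ≤ d by linarith)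
    linarith
  have h2 : (90 * (n : ℝ) * (1 + log d)) ^ 3 ≤ d := h.trans h1
  have h3 : (90 * (n : ℝ)) ^ 3 ≤ d := by
    refine le_trans ?_ h2
    apply pow_le_pow_left₀ (by positivity)
    nlinarith
  have h4 : 3 * (2 + log n) ≤ log d := by
    have h5 : log ((90 * (n : ℝ)) ^ 3) ≤ log d := log_le_log (by positivity) h3
    rw [log_pow, log_mul (by norm_num) (by positivity)] at h5
    have h6 : (2 : ℝ) ≤ log 90 := by
      rw [le_log_iff_exp_le (by norm_num)]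
      have h7 : exp (2 : ℝ) = exp 1 * exp 1 := by rw [← exp_add]; norm_num
      have h8 := exp_one_lt_d9
      have h9 := exp_pos (1 : ℝ)
      rw [h7]
      nlinarith
    push_cast at h5
    linarith
  have h5 : 6 + log n ≤ 1 + log (d : ℝ) := by linarith
  obtain ⟨L, hL⟩ : ∃ L, L = 6 + log (n : ℝ) := ⟨_, rfl⟩
  have hL6 : 6 ≤ L := by rw [hL]; linarith
  rw [← hL] at h5 ⊢
  have h6 : (90 * (n : ℝ) * L) ^ 3 ≤ d := by
    refine le_trans ?_ h2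
    apply pow_le_pow_left₀ (by positivity)
    exact mul_le_mul_of_nonneg_left h5 (by positivity)
  refine le_trans ?_ h6
  have h7 : (1 : ℝ) ≤ (n : ℝ) ^ 2 * L ^ 2 := by
    have h8 : (1 : ℝ) ≤ (n : ℝ) * L := by nlinarith
    have h9 : (n : ℝ) ^ 2 * L ^ 2 = (n * L) ^ 2 := by ring
    rw [h9]
    exact one_le_pow₀ h8
  have h8 : (6 : ℝ) ≤ n * L := by nlinarith
  have h9 : (90 * (n : ℝ) * L) ^ 3 = 729000 * (n * L) * (n ^ 2 * L ^ 2) := by ring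
  rw [h9]
  nlinarith

/-- Both second main theorems. -/
theorem smt_both {n d : ℕ} {κ : ℝ} (hn : 1 ≤ n) (hκ : 0 ≤ κ)
    (hd : κ < d - 90 * n * (d : ℝ) ^ (2 / 3 : ℝ) * (1 + log d) ∨
      1 + 1000 * (n : ℝ) ^ 2 * (6 + log n) ^ 2 + 101 * (n : ℝ) ^ 2 * (6 + log n) * ⌈κ⌉₊ ≤ d) :
    1 + 1000 * (n : ℝ) ^ 2 * (6 + log n) ^ 2 ≤ d ∧
    ∃ ε : ℝ, κ < (1 - ε) * d ∧ ∃ Θ' : MvPolynomial (Fin (n + 1) →₀ ℕ) ℂ,
      (∃ F : MvPolynomial (Fin (n + 1)) ℂ, F.IsHomogeneous d ∧ cval Θ' F ≠ 0) ∧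
      ∀ F : MvPolynomial (Fin (n + 1)) ℂ, F.IsHomogeneous d → cval Θ' F ≠ 0 →
        ∀ y : ℂ → Fin (n + 1) → ℂ, IsHol y → (∃ z w, ∀ c : ℂ, y w ≠ c • y z) →
          (∃ z, eval (y z) F ≠ 0) → Smt ε d F y := by
  rcases hd with hd | hd
  · obtain ⟨hd1, ε, hε, hε1, h, hk⟩ := exists_eps hn hκ hd
    exact ⟨deg_large hn hd1 hε hε1 h, ε, hk, Pool.Agent.H89X.theoremX hn hε hε1 h⟩
  · have hn1 : (1 : ℝ) ≤ n := by exact_mod_cast hn
    have hlogn : 0 ≤ log (n : ℝ) := log_nonneg hn1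
    obtain ⟨hd1, c, hc, Θ, hΘ, hΘ'⟩ := smt_explicit hn hd
    refine ⟨?_, 1 - ((⌈κ⌉₊ : ℝ) + c) / d, ?_, Θ, hΘ, hΘ'⟩
    · have : 0 ≤ 101 * (n : ℝ) ^ 2 * (6 + log n) * ⌈κ⌉₊ := by positivity
      linarith
    · have hdR : (0 : ℝ) < d := by exact_mod_cast hd1
      have hcoef : (1 - (1 - ((⌈κ⌉₊ : ℝ) + c) / d)) * d = ⌈κ⌉₊ + c := by
        field_simp
        ring
      rw [hcoef]
      have := Nat.le_ceil κ
      linarith

end Pool.Agent.H53L
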