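import Pool.Agent.Lib.H53L.D0
import Pool.Agent.Lib.H78N.C18

set_option autoImplicit false

/-!
H53L, module K: the count (port of C11, C16, C17, C18 and Final of H78N with `D = 2 + δ` instead of `2`).
-/

open Filter Topology

namespace Pool.Agent.H53L

open Pool.Agent.H53V Pool.Agent.H44K Pool.Agent.H78N

/-- The conclusion of the count, with `D m` instead of `2 m`. -/
def CountND (n k e q D : ℕ) : Prop :=
  ∀ A0 : ℕ, ∃ m s t μ : ℕ, 1 ≤ m ∧ s + (n + 2) * e ≤ e * t ∧ (q + 1) * (A0 + D * m + 2 * k * μ) + 1 ≤ q * s ∧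
    tau (Fin n) k m μ * (A0 + 2 * m * e + n).choose n +
      (n + 2) ^ 2 * badN n k m t * (A0 + s + e * m + n).choose n < e ^ n * goodN n k m t

/-- The limit theorem. -/
theorem countND_of_lim {n k e q D : ℕ} (hn : 2 ≤ n) (hk : n ≤ k) (p0 : Fin n × Fin k) {σ τ zm : ℝ}
    (hσ : 0 < σ) (hτ : 0 < τ) (hzm : 0 < zm) (hστ : σ < τ * e)
    (hσ1 : ((q : ℝ) + 1) * (D + 2 * k * (4 / 3 * zm)) < q * σ)
    (hmain : T0 p0 ((n : ℝ) * k) zm * ((2 * (e : ℝ)) ^ n / n.factorial) +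
      (n + 2) ^ 2 * (k.choose (n - 1) * (τ ^ (k - n + 1) * (k : ℝ) ^ (k - n + 1)) /
        ((n * k - (k - n + 1) - 1).factorial * FF (Fin n) k * (k - n + 1).factorial) *
        ((σ + e) ^ n / n.factorial)) <
      (e : ℝ) ^ n * ((1 / (n * k + n - 1).factorial -
        k.choose (n - 1) * (τ ^ (k - n + 1) * (k : ℝ) ^ (k - n + 1)) /
          ((n * k + n - 1 - (k - n + 1)).factorial * (k - n + 1).factorial)) /
        (FF (Fin n) k * PiN n k))) :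
    CountND n k e q D := by
  intro A0
  have hz : 0 < 4 / 3 * zm := by positivity
  have L1 := f1_lim e A0 p0 zm
  have L2 := f2_lim n k e A0 hσ.le hτ.le
  have L3 := f3_lim n k hτ.le
  simp only [one_pow, mul_one] at L2 L3
  have L4 := (L1.add (L2.const_mul (((n : ℝ) + 2) ^ 2))).eventually_lt (L3.const_mul ((e : ℝ) ^ n)) hmain
  -- the first two inequalities
  have A1 : ∀ᶠ m : ℕ in atTop, ((⌈σ * m⌉₊ : ℝ) + ((n : ℝ) + 2) * e) / m < e * (((⌈τ * m⌉₊ : ℝ) + 0) / m) :=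
    (ceil_lim hσ.le (((n : ℝ) + 2) * e)).eventually_lt ((ceil_lim hτ.le 0).const_mul (e : ℝ)) (by rw [mul_comm]; exact hστ)
  have A2 : ∀ᶠ m : ℕ in atTop, ((q : ℝ) + 1) * (((A0 : ℝ) + 1 + D * m) / m + 2 * k * (((⌈4 / 3 * zm * m⌉₊ : ℝ) + 0) / m)) <
      q * (((⌈σ * m⌉₊ : ℝ) + 0) / m) :=
    (((lin_lim ((A0 : ℝ) + 1) D).add ((ceil_lim hz.le 0).const_mul (2 * (k : ℝ)))).const_mul ((q : ℝ) + 1)).eventually_lt
      ((ceil_lim hσ.le 0).const_mul (q : ℝ)) hσ1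
  obtain ⟨m, hm1, h1, h2, h3⟩ := ((eventually_ge_atTop 1).and (A1.and (A2.and L4))).exists
  have hm0 : (0 : ℝ) < m := by exact_mod_cast hm1
  refine ⟨m, ⌈σ * m⌉₊, ⌈τ * m⌉₊, ⌈4 / 3 * zm * m⌉₊, hm1, ?_, ?_, ?_⟩
  · rw [← mul_div_assoc, div_lt_div_iff_of_pos_right hm0, add_zero] at h1
    have h4 : ((⌈σ * m⌉₊ + (n + 2) * e : ℕ) : ℝ) ≤ ((e * ⌈τ * m⌉₊ : ℕ) : ℝ) := by
      push_cast
      exact h1.le
    exact_mod_cast h4
  · have h5 : ((q : ℝ) + 1) * (((A0 : ℝ) + 1 + D * m) + 2 * k * (⌈4 / 3 * zm * m⌉₊ : ℝ)) < q * (⌈σ * m⌉₊ : ℝ) := by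
      have h6 := mul_lt_mul_of_pos_right h2 hm0
      calc ((q : ℝ) + 1) * (((A0 : ℝ) + 1 + D * m) + 2 * k * (⌈4 / 3 * zm * m⌉₊ : ℝ))
          = ((q : ℝ) + 1) * (((A0 : ℝ) + 1 + D * m) / m + 2 * k * (((⌈4 / 3 * zm * m⌉₊ : ℝ) + 0) / m)) * m := by
            field_simp
            ring
        _ < q * (((⌈σ * m⌉₊ : ℝ) + 0) / m) * m := h6
        _ = q * (⌈σ * m⌉₊ : ℝ) := by
            field_simp
            ring
    have h7 : (q + 1) * (A0 + 1 + D * m + 2 * k * ⌈4 / 3 * zm * m⌉₊) < q * ⌈σ * m⌉₊ := by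
      exact_mod_cast h5
    nlinarith [h7]
  · have h8 := mul_lt_mul_of_pos_right h3 (pow_pos hm0 (n * k + n - 1))
    have g1 := f1_le (by omega) (by omega) e A0 p0 zm hm1
    have g2 := f2_le hn hk e A0 σ τ hm1
    have g3 := f3_ge hn hk τ hm1
    have h9 : (tau (Fin n) k m ⌈4 / 3 * zm * m⌉₊ : ℝ) * ((A0 + 2 * m * e + n).choose n : ℝ) +
        ((n : ℝ) + 2) ^ 2 * ((badN n k m ⌈τ * m⌉₊ : ℝ) * ((A0 + ⌈σ * m⌉₊ + e * m + n).choose n : ℝ)) <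
        (e : ℝ) ^ n * (goodN n k m ⌈τ * m⌉₊ : ℝ) := by
      calc (tau (Fin n) k m ⌈4 / 3 * zm * m⌉₊ : ℝ) * ((A0 + 2 * m * e + n).choose n : ℝ) +
        ((n : ℝ) + 2) ^ 2 * ((badN n k m ⌈τ * m⌉₊ : ℝ) * ((A0 + ⌈σ * m⌉₊ + e * m + n).choose n : ℝ))
          ≤ f1 e A0 p0 zm m * (m : ℝ) ^ (n * k + n - 1) +
            ((n : ℝ) + 2) ^ 2 * (f2 n k e A0 σ τ m * (m : ℝ) ^ (n * k + n - 1)) :=
            add_le_add g1 (mul_le_mul_of_nonneg_left g2 (by positivity))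
        _ = (f1 e A0 p0 zm m + ((n : ℝ) + 2) ^ 2 * f2 n k e A0 σ τ m) * (m : ℝ) ^ (n * k + n - 1) := by ring
        _ < (e : ℝ) ^ n * f3 n k τ m * (m : ℝ) ^ (n * k + n - 1) := h8
        _ = (e : ℝ) ^ n * (f3 n k τ m * (m : ℝ) ^ (n * k + n - 1)) := by ring
        _ ≤ _ := mul_le_mul_of_nonneg_left g3 (by positivity)
    have h10 : tau (Fin n) k m ⌈4 / 3 * zm * m⌉₊ * (A0 + 2 * m * e + n).choose n +
        (n + 2) ^ 2 * (badN n k m ⌈τ * m⌉₊ * (A0 + ⌈σ * m⌉₊ + e * m + n).choose n) <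
        e ^ n * goodN n k m ⌈τ * m⌉₊ := by
      exact_mod_cast h9
    rw [← mul_assoc] at h10
    exact h10

/-- The numerics of the term with `δ`. -/
theorem kmain_delta {n₀ K : ℕ} (hn : 1 ≤ n₀) (hK : (K : ℝ) ≤ 15 + 3 * Real.log ((2 * n₀ : ℕ) : ℝ)) :
    101 / 100 * (((2 * n₀ : ℕ) : ℝ) * ((2 * n₀ * K : ℕ) + 1) * (9 * Real.exp 1 ^ 2 / 8)) ≤
      101 * (n₀ : ℝ) ^ 2 * (6 + Real.log n₀) := by
  have hN : (1 : ℝ) ≤ n₀ := by exact_mod_cast hn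
  push_cast at hK ⊢
  obtain ⟨N, hNd⟩ : ∃ N : ℝ, N = n₀ := ⟨_, rfl⟩
  rw [← hNd] at hN hK ⊢
  have hN0 : 0 < N := by linarith
  have he1 := Real.exp_one_lt_d9
  have he0 : 0 < Real.exp 1 := Real.exp_pos 1
  have hl2 := Real.log_two_lt_d9
  have hx0 : 0 ≤ Real.log N := Real.log_nonneg hN
  rw [Real.log_mul (by norm_num) hN0.ne'] at hK
  obtain ⟨x, hx⟩ : ∃ x : ℝ, x = Real.log N := ⟨_, rfl⟩
  rw [← hx] at hK hx0 ⊢
  have hK' : (K : ℝ) ≤ 1708 / 100 + 3 * x := by linarith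
  have hk1 : 2 * N * K + 1 ≤ 2 * N * (1758 / 100 + 3 * x) := by
    have h1 : 2 * N * K ≤ 2 * N * (1708 / 100 + 3 * x) := mul_le_mul_of_nonneg_left hK' (by linarith)
    have h2 : 2 * N * (1758 / 100 + 3 * x) = 2 * N * (1708 / 100 + 3 * x) + N := by ring
    rw [h2]
    linarith
  have hE : 9 * Real.exp 1 ^ 2 / 8 ≤ 83128 / 10000 := by
    have h1 : Real.exp 1 ^ 2 ≤ (27182818286 / 10000000000) ^ 2 :=
      pow_le_pow_left₀ he0.le (by linarith) 2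
    have h2 : ((27182818286 : ℝ) / 10000000000) ^ 2 ≤ 73891 / 10000 := by norm_num
    linarith
  have hK0 : (0 : ℝ) ≤ K := Nat.cast_nonneg _
  have hv : 2 * N * (2 * N * K + 1) * (9 * Real.exp 1 ^ 2 / 8) ≤
      2 * N * (2 * N * (1758 / 100 + 3 * x)) * (83128 / 10000) := by
    refine mul_le_mul (mul_le_mul_of_nonneg_left hk1 (by linarith)) hE (by positivity) ?_
    have : 0 ≤ 1758 / 100 + 3 * x := by linarith
    positivity
  calc 101 / 100 * (2 * N * (2 * N * K + 1) * (9 * Real.exp 1 ^ 2 / 8))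
      ≤ 101 / 100 * (2 * N * (2 * N * (1758 / 100 + 3 * x)) * (83128 / 10000)) :=
        mul_le_mul_of_nonneg_left hv (by norm_num)
    _ = N ^ 2 * (101 / 100 * 4 * (1758 / 100 + 3 * x) * (83128 / 10000)) := by ring
    _ ≤ N ^ 2 * (101 * (6 + x)) := by
        refine mul_le_mul_of_nonneg_left ?_ (by positivity)
        linarith
    _ = 101 * N ^ 2 * (6 + x) := by ring

/-- The main theorem of the count. -/
theorem kmain_main {n₀ e δ : ℕ} (hn : 1 ≤ n₀) (he : 1000 * (n₀ : ℝ) ^ 2 * (6 + Real.log n₀) ^ 2 +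
      101 * (n₀ : ℝ) ^ 2 * (6 + Real.log n₀) * δ ≤ e) :
    ∃ k : ℕ, 2 * n₀ ≤ k ∧ k ≤ e ∧ CountND (2 * n₀) k e 100 (2 + δ) := by
  have hfin := fun K h1 h2 => fin_num (n₀ := n₀) (K := K) hn h1 h2
  have hdel := fun K h1 => kmain_delta (n₀ := n₀) (K := K) hn h1
  obtain ⟨n, hn'⟩ : ∃ n, n = 2 * n₀ := ⟨_, rfl⟩
  rw [← hn'] at hfin hdel ⊢
  have hn2 : 2 ≤ n := by omega
  have hnR : (2 : ℝ) ≤ n := by exact_mod_cast hn2
  have hlogn : 0 ≤ Real.log n := Real.log_nonneg (by linarith)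
  obtain ⟨K, hKdef⟩ : ∃ K : ℕ, K = ⌈14 + 3 * Real.log n⌉₊ := ⟨_, rfl⟩
  have hKl : 14 + 3 * Real.log n ≤ K := by
    rw [hKdef]
    exact Nat.le_ceil _
  have hKu : (K : ℝ) ≤ 15 + 3 * Real.log n := by
    have h1 := Nat.ceil_lt_add_one (a := 14 + 3 * Real.log n) (by linarith)
    rw [← hKdef] at h1
    linarith
  have hK14 : 14 ≤ K := by
    have h1 : (14 : ℝ) ≤ K := by linarith
    exact_mod_cast h1
  have hF := hfin K hKu (by omega)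
  have hFd := hdel K hKu
  have hKn := hK_num (n := n) (K := K) hn2 hKl
  obtain ⟨k, hk⟩ : ∃ k, k = n * K := ⟨_, rfl⟩
  rw [← hk] at hF hKn hFd
  have hk9 : 9 * n ≤ k := by
    rw [hk, mul_comm 9 n]
    exact Nat.mul_le_mul_left n (by omega)
  have hnk : n ≤ k := by omega
  have hk1 : 1 ≤ k := by omega
  have hkR : (18 : ℝ) ≤ k := by exact_mod_cast (show 18 ≤ k by omega)
  have hE : (1 : ℝ) ≤ Real.exp 1 := Real.one_le_exp (by norm_num)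
  have hn0 : (0 : ℝ) < n := by linarith
  have hk0 : (0 : ℝ) < k := by linarith
  have hδ0 : (0 : ℝ) ≤ δ := Nat.cast_nonneg _
  have hlA : 0 < Real.log (4 * Real.exp 1 * ((n : ℝ) * k)) := by
    apply Real.log_pos
    nlinarith [mul_pos hn0 hk0]
  have hlB : 0 ≤ Real.log (8 * Real.exp 1 * (k : ℝ) ^ 2 * ((k : ℝ) + 1)) := by
    apply Real.log_nonneg
    have h1 : (1 : ℝ) ≤ (k : ℝ) ^ 2 := one_le_pow₀ (by linarith)
    have h2 : (1 : ℝ) ≤ 8 * Real.exp 1 := by linarith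
    have h3 : (1 : ℝ) ≤ 8 * Real.exp 1 * (k : ℝ) ^ 2 := one_le_mul_of_one_le_of_one_le h2 h1
    exact one_le_mul_of_one_le_of_one_le h3 (by linarith)
  obtain ⟨zm, hzdef⟩ : ∃ zm : ℝ, zm = (Real.log (4 * Real.exp 1 * ((n : ℝ) * k)) +
      n * Real.log (8 * Real.exp 1 * (k : ℝ) ^ 2 * ((k : ℝ) + 1))) / (n * k) := ⟨_, rfl⟩
  have hzm : 0 < zm := by
    rw [hzdef]
    have : 0 ≤ n * Real.log (8 * Real.exp 1 * (k : ℝ) ^ 2 * ((k : ℝ) + 1)) := mul_nonneg hn0.le hlB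
    positivity
  have hz : (n : ℝ) * k * zm = Real.log (4 * Real.exp 1 * ((n : ℝ) * k)) +
      n * Real.log (8 * Real.exp 1 * (k : ℝ) ^ 2 * ((k : ℝ) + 1)) := by
    rw [hzdef, mul_div_cancel₀ _ (mul_pos hn0 hk0).ne']
  have hkz : (k : ℝ) * zm = Real.log (8 * Real.exp 1 * (k : ℝ) ^ 2 * ((k : ℝ) + 1)) +
      Real.log (4 * Real.exp 1 * ((n : ℝ) * k)) / n := by
    have h1 : (n : ℝ) * (k * zm) = n * (Real.log (8 * Real.exp 1 * (k : ℝ) ^ 2 * ((k : ℝ) + 1)) +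
      Real.log (4 * Real.exp 1 * ((n : ℝ) * k)) / n) := by
      have hdiv : ∀ La Lb : ℝ, (n : ℝ) * (Lb + La / n) = La + n * Lb := fun La Lb => by
        rw [mul_add, mul_div_cancel₀ _ hn0.ne']
        ring
      rw [← mul_assoc, hz, hdiv]
    exact mul_left_cancel₀ hn0.ne' h1
  rw [← hkz] at hF
  obtain ⟨τ, hτdef⟩ : ∃ τ : ℝ, τ = 8 / (9 * Real.exp 1 ^ 2) / ((n : ℝ) * ((k : ℝ) + 1)) := ⟨_, rfl⟩
  have hτ : 0 < τ := by
    rw [hτdef]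
    positivity
  have hinv : τ * ((n : ℝ) * ((k : ℝ) + 1) * (9 * Real.exp 1 ^ 2 / 8)) = 1 := by
    rw [hτdef]
    field_simp
  have hD1 : 1 ≤ (n : ℝ) * ((k : ℝ) + 1) * (9 * Real.exp 1 ^ 2 / 8) := by
    have h1 : (1 : ℝ) ≤ Real.exp 1 ^ 2 := one_le_pow₀ hE
    have h2 : (1 : ℝ) ≤ 9 * Real.exp 1 ^ 2 / 8 := by linarith
    have h3 : (1 : ℝ) ≤ (n : ℝ) * ((k : ℝ) + 1) := by nlinarith
    exact one_le_mul_of_one_le_of_one_le h3 h2
  have hτ1 : τ ≤ 1 := by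
    calc τ = τ * 1 := (mul_one _).symm
      _ ≤ τ * ((n : ℝ) * ((k : ℝ) + 1) * (9 * Real.exp 1 ^ 2 / 8)) := mul_le_mul_of_nonneg_left hD1 hτ.le
      _ = 1 := hinv
  have hFD : 101 / 100 * (2 + 8 / 3 * ((k : ℝ) * zm)) *
        ((n : ℝ) * ((k : ℝ) + 1) * (9 * Real.exp 1 ^ 2 / 8)) +
      101 / 100 * ((n : ℝ) * ((k : ℝ) + 1) * (9 * Real.exp 1 ^ 2 / 8)) * δ < e := by
    have h1 := mul_le_mul_of_nonneg_right hFd hδ0
    linarith
  have hkzp : 0 < (k : ℝ) * zm := mul_pos hk0 hzm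
  have hgap : 101 / 100 * (2 + δ + 8 / 3 * ((k : ℝ) * zm)) < τ * e := by
    have h1 := mul_lt_mul_of_pos_left hFD hτ
    have h2 : τ * (101 / 100 * (2 + 8 / 3 * ((k : ℝ) * zm)) *
        ((n : ℝ) * ((k : ℝ) + 1) * (9 * Real.exp 1 ^ 2 / 8)) +
        101 / 100 * ((n : ℝ) * ((k : ℝ) + 1) * (9 * Real.exp 1 ^ 2 / 8)) * δ) =
        101 / 100 * (2 + δ + 8 / 3 * ((k : ℝ) * zm)) := by
      calc _ = 101 / 100 * (2 + δ + 8 / 3 * ((k : ℝ) * zm)) *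
          (τ * ((n : ℝ) * ((k : ℝ) + 1) * (9 * Real.exp 1 ^ 2 / 8))) := by ring
        _ = _ := by rw [hinv, mul_one]
    rwa [h2] at h1
  have hke : k ≤ e := by
    have h1 : (k : ℝ) ≤ e := by
      have h2 : (n : ℝ) * ((k : ℝ) + 1) * 1 ≤ (n : ℝ) * ((k : ℝ) + 1) * (9 * Real.exp 1 ^ 2 / 8) := by
        refine mul_le_mul_of_nonneg_left ?_ (by positivity)
        have h3 : (1 : ℝ) ≤ Real.exp 1 ^ 2 := one_le_pow₀ hE
        linarith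
      have h4 : (k : ℝ) ≤ (n : ℝ) * ((k : ℝ) + 1) := by nlinarith
      have h5 : (1 : ℝ) ≤ 101 / 100 * (2 + 8 / 3 * ((k : ℝ) * zm)) := by linarith
      have h6 : 1 * ((n : ℝ) * ((k : ℝ) + 1) * (9 * Real.exp 1 ^ 2 / 8)) ≤
          101 / 100 * (2 + 8 / 3 * ((k : ℝ) * zm)) *
            ((n : ℝ) * ((k : ℝ) + 1) * (9 * Real.exp 1 ^ 2 / 8)) :=
        mul_le_mul_of_nonneg_right h5 (by linarith)
      have h7 : 0 ≤ 101 / 100 * ((n : ℝ) * ((k : ℝ) + 1) * (9 * Real.exp 1 ^ 2 / 8)) * δ := by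
        positivity
      linarith
    exact_mod_cast h1
  obtain ⟨σ, hσ1, hσ2⟩ := exists_between hgap
  have hσ : 0 < σ := by linarith
  let p0 : Fin n × Fin k := (⟨0, by omega⟩, ⟨0, by omega⟩)
  have hI := hI_of (n := n) (k := k) (by omega) hk1 p0 rfl (zm := zm) hz.ge
  have hII := hII_of (n := n) (k := k) hn2 hk9 (τ := τ) hτdef hKn
  have hmain := hmain_of (n := n) (k := k) (e := e) hn2 hnk (by omega) p0 hσ hτ hσ2 hτ1 hI hII
  refine ⟨k, hnk, hke, ?_⟩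
  refine countND_of_lim (n := n) (k := k) (e := e) (q := 100) (D := 2 + δ) hn2 hnk p0 hσ hτ hzm hσ2 ?_ hmain
  push_cast
  linarith

/-- MODULE K. -/
theorem countL {n₀ d δ : ℕ} (hn : 1 ≤ n₀)
    (hd : 1 + 1000 * (n₀ : ℝ) ^ 2 * (6 + Real.log n₀) ^ 2 +
      101 * (n₀ : ℝ) ^ 2 * (6 + Real.log n₀) * δ ≤ d) :
    2 ≤ d ∧ ∃ k : ℕ, n₀ + n₀ ≤ k ∧ k ≤ d ∧ CountL (n₀ + n₀) k 100 (2 + δ) d := by
  have hn0 : (1 : ℝ) ≤ n₀ := by exact_mod_cast hn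
  have hlog : 0 ≤ Real.log n₀ := Real.log_nonneg hn0
  have hd2 : 2 ≤ d := by
    have h1 : (1 : ℝ) ≤ (n₀ : ℝ) ^ 2 := by nlinarith
    have h2 : (1 : ℝ) ≤ (6 + Real.log n₀) ^ 2 := by nlinarith
    have h3 : (1 : ℝ) ≤ (n₀ : ℝ) ^ 2 * (6 + Real.log n₀) ^ 2 := one_le_mul_of_one_le_of_one_le h1 h2
    have h5 : (0 : ℝ) ≤ 101 * (n₀ : ℝ) ^ 2 * (6 + Real.log n₀) * δ := by positivity
    have h4 : (2 : ℝ) ≤ d := by nlinarith
    exact_mod_cast h4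
  obtain ⟨e, rfl⟩ : ∃ e, d = e + 1 := ⟨d - 1, by omega⟩
  have he : 1000 * (n₀ : ℝ) ^ 2 * (6 + Real.log n₀) ^ 2 +
      101 * (n₀ : ℝ) ^ 2 * (6 + Real.log n₀) * δ ≤ e := by
    push_cast at hd
    linarith
  obtain ⟨k, hk1, hk2, hC⟩ := kmain_main hn he
  refine ⟨hd2, k, by omega, by omega, fun a0 => ?_⟩
  obtain ⟨m, s, t', μ, hm, h1, h2, h3⟩ := hC a0
  have he1 : 0 < e := by omega
  have ht' : 2 * n₀ + 2 ≤ t' := by
    have h4 : e * (2 * n₀ + 2) ≤ e * t' := by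
      rw [mul_comm e (2 * n₀ + 2)]
      omega
    exact Nat.le_of_mul_le_mul_left h4 he1
  obtain ⟨t, rfl⟩ : ∃ t, t' = t + (2 * n₀ + 2) := ⟨t' - (2 * n₀ + 2), by omega⟩
  have hs : s ≤ e * t := by
    have h4 : e * (t + (2 * n₀ + 2)) = e * t + (2 * n₀ + 2) * e := by ring
    omega
  have h5 : tau (FrI (2 * n₀) (Finset.univ : Finset (Fin 1))) k m μ = tau (Fin (2 * n₀)) k m μ := by
    refine tau_congr ?_ k m μ
    rw [kmain_card]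
    simp
  have h6 : tau (FrI (2 * n₀) (Finset.univ : Finset (Fin 1))) k m μ *
          (a0 + 2 * m * e + 2 * n₀).choose (2 * n₀) +
        (2 * n₀ + 2) ^ 2 * nbad (2 * n₀) k m t * (a0 + s + e * m + 2 * n₀).choose (2 * n₀) <
        e ^ (2 * n₀) * ngoodS (2 * n₀) k m (t + (2 * n₀ + 2)) := by
    rw [h5, ← badN_eq, ← goodN_eq]
    refine lt_of_le_of_lt ?_ h3
    refine Nat.add_le_add_left ?_ _
    refine Nat.mul_le_mul_right _ (Nat.mul_le_mul_left _ (badN_mono ?_))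
    omega
  rw [two_mul] at h6
  refine ⟨m, s, t, t + (n₀ + n₀ + 2), μ, hm, ?_, ?_, h2, ?_⟩
  · rw [Nat.add_sub_cancel]
    exact hs
  · rw [Nat.add_sub_cancel, mul_add, mul_comm (n₀ + n₀ + 2) e]
    exact Nat.add_le_add_right hs _
  · rw [Nat.add_sub_cancel]
    have h7 := Nat.mul_lt_mul_of_pos_left h6 (by omega : 0 < e + 1)
    refine lt_of_eq_of_lt ?_ (lt_of_lt_of_eq h7 ?_)
    · ring
    · ring

end Pool.Agent.H53L
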