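import Pool.Agent.Lib.H53L.AMain
import Pool.Agent.Lib.H53L.A3Main
import Pool.Agent.Lib.H53L.BMain
import Pool.Agent.Lib.H53L.CMain
import Pool.Agent.Lib.H53L.KMain
import Pool.Agent.Lib.H89T.DP9

set_option autoImplicit false

/-!
H53L: the second main theorem with truncation level one for generic hypersurfaces, explicit bounds.
-/

open MvPolynomial

namespace Pool.Agent.H53L

open Pool.Agent.H89T Pool.Agent.H67T

/-- `(δ + c) T_y(r) ≤ N_1(r, F (y)) + C log r`, `c > 0`, for generic forms `F` of degree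
`d ≥ 1 + 1000 n ^ 2 (6 + log n) ^ 2 + 101 n ^ 2 (6 + log n) δ` on `ℙ ^ n` and all nonconstant curves `y` not
contained in `F = 0`. -/
theorem smt_explicit {n d δ : ℕ} (hn : 1 ≤ n)
    (hd : 1 + 1000 * (n : ℝ) ^ 2 * (6 + Real.log n) ^ 2 +
      101 * (n : ℝ) ^ 2 * (6 + Real.log n) * δ ≤ d) :
    1 ≤ d ∧ ∃ c : ℝ, 0 < c ∧ ∃ Θ' : MvPolynomial (Fin (n + 1) →₀ ℕ) ℂ,
      (∃ F : MvPolynomial (Fin (n + 1)) ℂ, F.IsHomogeneous d ∧ cval Θ' F ≠ 0) ∧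
      ∀ F : MvPolynomial (Fin (n + 1)) ℂ, F.IsHomogeneous d → cval Θ' F ≠ 0 →
        ∀ y : ℂ → Fin (n + 1) → ℂ, IsHol y → (∃ z w, ∀ c : ℂ, y w ≠ c • y z) →
          (∃ z, eval (y z) F ≠ 0) → Smt (1 - ((δ : ℝ) + c) / d) d F y := by
  obtain ⟨hd2, k, hk1, hk2, hC⟩ := countL hn hd
  have hd1 : 1 ≤ d := by omega
  obtain ⟨c, hc, Θ, hΘ, h⟩ := smtPt_of_algLog (by omega) (by omega) hd1
    (algLog_of_propLog (by omega) hk2 (propLog_of_propC hd1 (propC_of_countL (by omega) hk1 hd2 hC)))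
  refine ⟨hd1, c, hc, ?_⟩
  have hε : 1 - ((δ : ℝ) + c) / d ≤ 1 := by
    have h1 : (0 : ℝ) ≤ ((δ : ℝ) + c) / d := by positivity
    linarith
  exact smt_all_of_pointed hd1 hε hΘ h

end Pool.Agent.H53L
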